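import Pool.Agent.Lib.MP_a7ce8b_al.C.SecA

/-! Affine sections give an abelian normal subgroup. -/

namespace Pool.Agent.Lib.MP_a7ce8b_al

open Equiv MulAction

variable {G Ω : Type} [Group G] [MulAction G Ω] {P : Subgroup G} {t : G} {α : Ω}

theorem aff_conj_sq (ht : t * t = 1) (g : G) : g * t * g⁻¹ * (g * t * g⁻¹) = 1 := by
  simp [mul_assoc, ← mul_assoc t t, ht]

theorem aff_comm (h : Ctx P t α)
    (ha : ∀ H : Subgroup G, Finite H → P ≤ H → ∃ (X : Type) (S : Sec α H X), S.Affine)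
    (g : Fin 4 → G) :
    g 0 * t * (g 0)⁻¹ * (g 1 * t * (g 1)⁻¹) * (g 2 * t * (g 2)⁻¹ * (g 3 * t * (g 3)⁻¹)) =
      g 2 * t * (g 2)⁻¹ * (g 3 * t * (g 3)⁻¹) * (g 0 * t * (g 0)⁻¹ * (g 1 * t * (g 1)⁻¹)) := by
  have := h.faith
  have := h.fin
  refine eq_of_smul_eq_smul (α := Ω) fun ω => ?_
  obtain ⟨k, rfl⟩ := h.prim.toIsPretransitive.exists_smul_eq α ω
  let H : Subgroup G := P ⊔ Subgroup.closure (insert k (Set.range g))
  obtain ⟨X, S, N, hN, hN0, hc⟩ :=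
    ha H (h.lf.finite_sup P ((Set.finite_range g).insert k)) le_sup_left
  have hk : k ∈ H := Subgroup.mem_sup_right (Subgroup.subset_closure (Or.inl rfl))
  have hg : ∀ i, g i ∈ H := fun i =>
    Subgroup.mem_sup_right (Subgroup.subset_closure (Or.inr ⟨i, rfl⟩))
  have hs : ∀ i, g i * t * (g i)⁻¹ ∈ H := fun i =>
    H.mul_mem (H.mul_mem (hg i) (Subgroup.mem_sup_left h.mem)) (H.inv_mem (hg i))
  have hPK : P ≤ S.K := le_sup_left.trans S.le
  let s : Fin 4 → S.Y := fun i => ⟨S.r (g i * t * (g i)⁻¹), S.mem_Y.2 ⟨_, S.le (hs i), rfl⟩⟩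
  have hone : ∀ i, OneFix X (s i) := fun i => by
    refine ⟨fun x => ?_, S.π (g i • α), (S.conj_fix_iff h hPK (S.le (hg i)) _).2 rfl,
      fun y hy => (S.conj_fix_iff h hPK (S.le (hg i)) _).1 hy⟩
    show (S.r (g i * t * (g i)⁻¹) * S.r (g i * t * (g i)⁻¹)) x = x
    rw [← S.r_mul _ (S.le (hs i)) _ (S.le (hs i)), aff_conj_sq h.sq, S.r_one]
    rfl
  have : Group.IsSolvable N := Group.isSolvable_of_comm fun a b => Subtype.ext (hc _ a.2 _ b.2)
  have key := comm_of_solvable S.preprim N hN (exists_move hN0) (hone 0) (hone 1) (hone 2) (hone 3)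
    (S.π (k • α))
  have e : ∀ a b c d : Fin 4, S.π ((g a * t * (g a)⁻¹ * (g b * t * (g b)⁻¹) *
      (g c * t * (g c)⁻¹ * (g d * t * (g d)⁻¹)) * k) • α) =
      s a • s b • s c • s d • S.π (k • α) := by
    intro a b c d
    have h1 := S.K.mul_mem (S.le (hs a)) (S.le (hs b))
    have h2 := S.K.mul_mem (S.le (hs c)) (S.le (hs d))
    rw [mul_smul, S.eqv _ (S.K.mul_mem h1 h2) k (S.le hk), S.r_mul _ h1 _ h2,
      S.r_mul _ (S.le (hs a)) _ (S.le (hs b)), S.r_mul _ (S.le (hs c)) _ (S.le (hs d))]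
    rfl
  have hm : ∀ a b c d : Fin 4, g a * t * (g a)⁻¹ * (g b * t * (g b)⁻¹) *
      (g c * t * (g c)⁻¹ * (g d * t * (g d)⁻¹)) * k ∈ H := fun a b c d =>
    H.mul_mem (H.mul_mem (H.mul_mem (hs a) (hs b)) (H.mul_mem (hs c) (hs d))) hk
  have := S.inj _ (hm 0 1 2 3) _ (hm 2 3 0 1) (by rw [e, e, key])
  rwa [mul_smul, mul_smul _ k] at this

/-- If every finite subgroup lies in an affine section, there is an abelian normal subgroup. -/
theorem Ctx.abelian_of_affine (h : Ctx P t α)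
    (ha : ∀ H : Subgroup G, Finite H → P ≤ H → ∃ (X : Type) (S : Sec α H X), S.Affine) :
    ∃ N : Subgroup G, N.Normal ∧ N ≠ ⊥ ∧ ∀ a ∈ N, ∀ b ∈ N, a * b = b * a := by
  let T : Set G := {x | ∃ g g' : G, x = g * t * g⁻¹ * (g' * t * g'⁻¹)}
  have hT : ∀ x ∈ T, ∀ y ∈ T, x * y = y * x := by
    rintro _ ⟨a, b, rfl⟩ _ ⟨c, d, rfl⟩
    exact aff_comm h ha ![a, b, c, d]
  refine ⟨Subgroup.closure T, ⟨fun a ha g => ?_⟩, fun e => ?_, fun a ha b hb => ?_⟩
  · induction ha using Subgroup.closure_induction with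
    | mem x hx =>
      obtain ⟨a, b, rfl⟩ := hx
      exact Subgroup.subset_closure ⟨g * a, g * b, by simp [mul_assoc]⟩
    | one => simp
    | mul x y _ _ hx hy => simpa [mul_assoc] using mul_mem hx hy
    | inv x _ hx => simpa [mul_assoc] using inv_mem hx
  · have := h.inf
    obtain ⟨β, hβ⟩ := exists_ne α
    obtain ⟨g, rfl⟩ := h.prim.toIsPretransitive.exists_smul_eq α β
    have h1 : t * (g * t * g⁻¹) ∈ Subgroup.closure T :=
      Subgroup.subset_closure ⟨1, g, by simp⟩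
    rw [e, Subgroup.mem_bot] at h1
    apply hβ
    apply h.uniq
    have h2 : (t * (g * t * g⁻¹)) • g • α = g • α := by rw [h1, one_smul]
    simpa [mul_smul, h.fix] using h2
  · have h1 : Subgroup.closure T ≤ Subgroup.centralizer T :=
      (Subgroup.closure_le _).2 fun x hx y hy => hT y hy x hx
    have h2 : Subgroup.closure T ≤ Subgroup.centralizer {a} :=
      (Subgroup.closure_le _).2 fun x hx y hy => by
        rw [Set.mem_singleton_iff.1 hy]
        exact (h1 ha x hx).symm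
    exact h2 hb a rfl

/-- An affine section contains no four-group all of whose involutions fix exactly one point. -/
theorem Sec.not_affine {H : Subgroup G} {X : Type} (S : Sec α H X) {v w : Perm X}
    (hv : v ∈ S.Y) (hw : w ∈ S.Y) (v2 : v * v = 1) (w2 : w * w = 1)
    (h1 : ∃! x, v x = x) (h2 : ∃! x, w x = x) (h3 : ∃! x, (v * w) x = x) : ¬ S.Affine := by
  rintro ⟨N, hN, hN0, hc⟩
  have htr := normal_trans S.preprim N hN (exists_move (Ω := X) hN0)
  have hc' : ∀ a ∈ N, ∀ b ∈ N, ∀ x : X, a • b • x = b • a • x := fun a ha b hb x => by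
    rw [← mul_smul, hc a ha b hb, mul_smul]
  have hv1 : OneFix X (⟨v, hv⟩ : S.Y) := ⟨fun x => congrArg (fun f : Perm X => f x) v2, h1⟩
  have hw1 : OneFix X (⟨w, hw⟩ : S.Y) := ⟨fun x => congrArg (fun f : Perm X => f x) w2, h2⟩
  obtain ⟨x, hx, hu⟩ := h3
  have := S.nontriv
  obtain ⟨y, hy⟩ := exists_ne x
  obtain ⟨a, ha, rfl⟩ := htr x y
  refine hy (hu _ ?_)
  have e : (⟨v, hv⟩ : S.Y) • (⟨w, hw⟩ : S.Y) • a • x =
      a • (⟨v, hv⟩ : S.Y) • (⟨w, hw⟩ : S.Y) • x := by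
    rw [inverts N hN htr hc' hw1 ha, inverts N hN htr hc' hv1 (N.inv_mem ha), inv_inv]
  have e' : (⟨v, hv⟩ : S.Y) • (⟨w, hw⟩ : S.Y) • x = x := hx
  rw [e'] at e
  exact e

/-- If products of `t` with its conjugates are not all of odd order, `E` is not isolated. -/
theorem EHyp.nonIso (h : Ctx P t α) {E : Ω → Ω → Prop} (hE : EHyp t α E)
    (ho : ¬ ∀ g : G, Odd (orderOf (t * (g * t * g⁻¹)))) : NonIso t α E := by
  by_contra hni
  have hiso : ∀ (g g' : G) (ω : Ω), E (g • α) (g' • α) →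
      E ((g * t * g⁻¹) • ω) ((g' * t * g'⁻¹) • ω) := fun g g' ω h1 => by
    by_contra h2
    exact hni ⟨g, g', ω, h1, h2⟩
  obtain ⟨g, hg⟩ := not_forall.1 ho
  obtain ⟨m, n1, n2, c1, c2⟩ := dihedral_even h.sq (aff_conj_sq h.sq g) (h.lf.isOfFinOrder _)
    (Nat.not_odd_iff_even.1 hg)
  obtain ⟨n, hn⟩ : ∃ n, n = (t * (g * t * g⁻¹)) ^ m := ⟨_, rfl⟩
  rw [← hn] at n1 n2 c1 c2
  have := h.faith
  obtain ⟨ω, hω⟩ : ∃ ω : Ω, n • ω ≠ ω := by
    by_contra h1
    push Not at h1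
    exact n1 (eq_of_smul_eq_smul (α := Ω) fun x => by rw [h1, one_smul])
  obtain ⟨k, hk⟩ : ∃ k : G, ¬ E (k • n • ω) (k • ω) := by
    by_contra h1
    push Not at h1
    exact hω (hE.sep _ _ h1)
  have hNt : ∀ a : G, a * t * a⁻¹ ∈ Subgroup.normalClosure ({t} : Set G) := fun a =>
    Subgroup.normalClosure_normal.conj_mem t
      (Subgroup.subset_normalClosure (Set.mem_singleton t)) a
  have hn' : k * n * k⁻¹ = (k * t * k⁻¹ * (k * g * t * (k * g)⁻¹)) ^ m := by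
    rw [hn, ← conj_pow]
    congr 1
    simp [mul_assoc]
  have hN : k * n * k⁻¹ ∈ Subgroup.normalClosure {t} := by
    rw [hn']
    exact pow_mem (mul_mem (hNt k) (hNt (k * g))) m
  have h2 : TwoEl (k * n * k⁻¹) := (twoEl_of_sq n2).conj k
  obtain ⟨ω₀, hω₀⟩ := h.star.fix h2.isPGroup_zpowers
  have h3 : (k * n * k⁻¹) • ω₀ = ω₀ := hω₀ _ (Subgroup.mem_zpowers _)
  have hk' : ¬ E ((k * n * k⁻¹) • k • ω) (k • ω) := by
    simpa [mul_smul] using hk
  have h4 : ∀ a : G, k * n * k⁻¹ * (a * t * a⁻¹) = a * t * a⁻¹ * (k * n * k⁻¹) → E ω₀ (a • α) := by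
    intro a ha
    refine hE.se3 a ω₀ ?_
    by_contra h5
    refine hk' (hE.se1 _ hN h2 ((a * t * a⁻¹) • ω₀) ω₀ ?_ ?_ h5 _)
    · rw [← mul_smul, ha, mul_smul, h3]
      exact hE.equiv.refl _
    · rw [h3]
      exact hE.equiv.refl _
  have h5 := h4 k (by
    calc k * n * k⁻¹ * (k * t * k⁻¹) = k * (n * t) * k⁻¹ := by simp [mul_assoc]
      _ = _ := by rw [c1]; simp [mul_assoc])
  have h6 := h4 (k * g) (by
    calc k * n * k⁻¹ * (k * g * t * (k * g)⁻¹) = k * (n * (g * t * g⁻¹)) * k⁻¹ := by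
          simp [mul_assoc]
      _ = _ := by rw [c2]; simp [mul_assoc])
  have h7 := hE.equiv.trans (hE.equiv.symm h5) h6
  obtain ⟨B, hB, -, htB, hBE⟩ := hE.fin
  have h8 : ∀ x : Ω, E ((k * t * k⁻¹ * (k * g * t * (k * g)⁻¹)) • x) x := fun x => by
    have h9 := hBE _ (hB.conj_mem t htB k) _ _ (hiso k (k * g) x h7)
    rw [← mul_smul, aff_conj_sq h.sq, one_smul, ← mul_smul] at h9
    exact hE.equiv.symm h9
  have h9 : ∀ (j : ℕ) (x : Ω), E ((k * t * k⁻¹ * (k * g * t * (k * g)⁻¹)) ^ j • x) x := by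
    intro j x
    induction j with
    | zero => rw [pow_zero, one_smul]; exact hE.equiv.refl _
    | succ j ih => rw [pow_succ', mul_smul]; exact hE.equiv.trans (h8 _) ih
  refine hk' ?_
  rw [hn']
  exact h9 m _

end Pool.Agent.Lib.MP_a7ce8b_al
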