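import Pool.Agent.Lib.MP_a7ce8b_al.C.GenA

/-! Alternating components. -/

namespace Pool.Agent.Lib.MP_a7ce8b_al

open Equiv MulAction

/-- A point outside a small finite set. -/
theorem alt_exists_notMem {n : ℕ} (hn : 7 ≤ n) (S : Finset (Fin n)) (hS : S.card ≤ 6) :
    ∃ x, x ∉ S := by
  by_contra hx
  push Not at hx
  have : S = Finset.univ := Finset.eq_univ_of_forall hx
  rw [this, Finset.card_univ, Fintype.card_fin] at hS
  omega

/-- Two further points. -/
theorem alt_exists_two {n : ℕ} (hn : 7 ≤ n) (γ δ : Fin n) :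
    ∃ c d : Fin n, c ≠ d ∧ c ≠ γ ∧ c ≠ δ ∧ d ≠ γ ∧ d ≠ δ := by
  obtain ⟨c, hc⟩ := alt_exists_notMem hn {γ, δ} (Finset.card_le_two.trans (by norm_num))
  obtain ⟨d, hd⟩ := alt_exists_notMem hn {γ, δ, c} (Finset.card_le_three.trans (by norm_num))
  simp only [Finset.mem_insert, Finset.mem_singleton, not_or] at hc hd
  exact ⟨c, d, fun e => hd.2.2 e.symm, hc.1, hc.2, hd.1, hd.2.1⟩

theorem alt_dbl {n : ℕ} {a b c d : Fin n} (hab : a ≠ b) (hcd : c ≠ d) :
    swap a b * swap c d ∈ alternatingGroup (Fin n) := by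
  rw [Perm.mem_alternatingGroup, Perm.sign_mul, Perm.sign_swap hab, Perm.sign_swap hcd]
  simp

theorem alt_refine {n : ℕ} (hn : 7 ≤ n) (B : Subgroup (Perm (Fin n))) (hB : IsPGroup 2 B)
    (γ δ : Fin n) (hγδ : γ ≠ δ) (hfix : ∀ b ∈ B, b γ = γ ∧ b δ = δ) :
    ∃ W ≤ alternatingGroup (Fin n), IsPGroup 2 W ∧ (∀ b ∈ B, ∀ w ∈ W, b * w * b⁻¹ ∈ W) ∧
      ∃ w ∈ W, w δ ≠ δ := by
  let Z : Subgroup (Perm (Fin n)) := stabilizer (Perm (Fin n)) γ ⊓ stabilizer (Perm (Fin n)) δ
  have hZ : ∀ z, z ∈ Z ↔ z γ = γ ∧ z δ = δ := fun z => Iff.rfl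
  have hBZ : B ≤ Z := fun b hb => (hZ b).2 (hfix b hb)
  obtain ⟨T, hBT, hTZ, hT, hmax⟩ := exists_max_two Z B hBZ hB
  obtain ⟨c, d, hcd, hcγ, hcδ, hdγ, hdδ⟩ := alt_exists_two hn γ δ
  have hsw : swap c d ∈ Z :=
    (hZ _).2 ⟨swap_apply_of_ne_of_ne hcγ.symm hdγ.symm, swap_apply_of_ne_of_ne hcδ.symm hdδ.symm⟩
  obtain ⟨k, -, hk⟩ := conj_into_max Z T (Subgroup.zpowers (swap c d)) hTZ hT hmax
    ((Subgroup.zpowers_le).2 hsw) (twoEl_of_sq (swap_mul_self c d)).isPGroup_zpowers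
  have hx := hk _ (Subgroup.mem_zpowers _)
  set x := k⁻¹ * swap c d * k with hxdef
  have hsx : Perm.sign x = -1 := by
    rw [hxdef, Perm.sign_mul, Perm.sign_mul, Perm.sign_inv, Perm.sign_swap hcd,
      mul_right_comm, Int.units_mul_self, one_mul]
  have hcomm : ∀ z ∈ Z, z * swap γ δ * z⁻¹ = swap γ δ := fun z hz => by
    rw [← swap_apply_apply, ((hZ z).1 hz).1, ((hZ z).1 hz).2]
  have hnorm : T ≤ Subgroup.normalizer (Subgroup.zpowers (swap γ δ) : Subgroup (Perm (Fin n))) := by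
    intro z hz
    have hc : ∀ y ∈ Subgroup.zpowers (swap γ δ), ∀ z ∈ Z, z * y * z⁻¹ = y := by
      rintro y ⟨i, rfl⟩ z hz
      show z * swap γ δ ^ i * z⁻¹ = swap γ δ ^ i
      rw [← conj_zpow, hcomm z hz]
    rw [Subgroup.mem_normalizer_iff]
    intro y
    refine ⟨fun hy => by rw [hc y hy z (hTZ hz)]; exact hy, fun hy => ?_⟩
    have := hc _ hy z⁻¹ (Z.inv_mem (hTZ hz))
    have e : z⁻¹ * (z * y * z⁻¹) * z⁻¹⁻¹ = y := by group
    rw [e] at this
    rw [this]
    exact hy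
  have hT' : IsPGroup 2 (T ⊔ Subgroup.zpowers (swap γ δ) : Subgroup (Perm (Fin n))) :=
    hT.to_sup_of_normal_right' (twoEl_of_sq (swap_mul_self γ δ)).isPGroup_zpowers hnorm
  refine ⟨(T ⊔ Subgroup.zpowers (swap γ δ)) ⊓ alternatingGroup (Fin n), inf_le_right,
    hT'.to_inf_left, fun b hb w hw => ⟨?_, ?_⟩, swap γ δ * x, ⟨?_, ?_⟩, ?_⟩
  · have hb' : b ∈ T ⊔ Subgroup.zpowers (swap γ δ) := Subgroup.mem_sup_left (hBT hb)
    exact Subgroup.mul_mem _ (Subgroup.mul_mem _ hb' hw.1) (Subgroup.inv_mem _ hb')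
  · exact (alternatingGroup.normal (α := Fin n)).conj_mem w hw.2 b
  · exact Subgroup.mul_mem _ (Subgroup.mem_sup_right (Subgroup.mem_zpowers _))
      (Subgroup.mem_sup_left hx)
  · show swap γ δ * x ∈ alternatingGroup (Fin n)
    rw [Perm.mem_alternatingGroup, Perm.sign_mul, Perm.sign_swap hγδ, hsx]
    simp
  · rw [Perm.mul_apply, ((hZ x).1 (hTZ hx)).2, swap_apply_right]
    exact hγδ

theorem acomp_alt {n : ℕ} (hn : 7 ≤ n) : AComp (alternatingGroup (Fin n)) ⊤ := by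
  have hnt : Nontrivial (Fin n) := Fin.nontrivial_iff_two_le.2 (by omega)
  refine ⟨⟨le_top, fun a _ l hl => (alternatingGroup.normal (α := Fin n)).conj_mem l hl a,
    alternatingGroup.isSimpleGroup (by rw [Nat.card_fin]; omega), hnt, fun γ δ => ?_,
    fun γ δ hγδ => ?_, fun B _ hB γ δ hγδ hfix => alt_refine hn B hB γ δ hγδ hfix⟩,
    inferInstance, by rw [Nat.card_fin]; exact hn, ?_, ?_⟩
  · by_cases hγδ : γ = δ
    · exact ⟨1, Subgroup.one_mem _, hγδ⟩
    · obtain ⟨c, d, hcd, hcγ, hcδ, hdγ, hdδ⟩ := alt_exists_two hn γ δ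
      refine ⟨swap γ δ * swap c d, alt_dbl hγδ hcd, ?_⟩
      rw [Perm.mul_apply, swap_apply_of_ne_of_ne hcγ.symm hdγ.symm, swap_apply_left]
  · obtain ⟨c, d, hcd, hcγ, hcδ, hdγ, hdδ⟩ := alt_exists_two hn γ δ
    refine ⟨swap δ d * swap δ c, alt_dbl hdδ.symm hcδ.symm, ?_, ?_⟩
    · rw [Perm.mul_apply, swap_apply_of_ne_of_ne hγδ hcγ.symm,
        swap_apply_of_ne_of_ne hγδ hdγ.symm]
    · rw [Perm.mul_apply, swap_apply_left, swap_apply_of_ne_of_ne hcδ hcd]
      exact hcδ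
  · intro inst a b c d hab hcd
    obtain rfl : inst = instDecidableEqFin n := Subsingleton.elim _ _
    exact alt_dbl hab hcd
  · have h2 := two_mul_nat_card_alternatingGroup (α := Fin n)
    rw [Nat.card_perm, Nat.card_fin] at h2
    rw [Nat.card_fin]
    obtain ⟨k, rfl⟩ : ∃ k, n = k + 1 := ⟨n - 1, by omega⟩
    rw [Nat.factorial_succ] at h2
    rw [Nat.add_sub_cancel]
    have hk := Nat.factorial_pos k
    have : 7 * k.factorial ≤ (k + 1) * k.factorial := Nat.mul_le_mul_right _ hn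
    omega

/-- Commuting involutions generate a 2-group. -/
theorem alt_closure_two {G : Type*} [Group G] (S : Set G) (hsq : ∀ x ∈ S, x * x = 1)
    (hc : ∀ x ∈ S, ∀ y ∈ S, Commute x y) : IsPGroup 2 (Subgroup.closure S) := by
  have h1 : ∀ x ∈ S, ∀ y ∈ Subgroup.closure S, Commute x y := fun x hx y hy => by
    induction hy using Subgroup.closure_induction with
    | mem y hy => exact hc x hx y hy
    | one => exact Commute.one_right x
    | mul y z _ _ h h' => exact h.mul_right h'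
    | inv y _ h => exact h.inv_right
  have h2 : ∀ x ∈ Subgroup.closure S, ∀ y ∈ Subgroup.closure S, Commute x y := fun x hx y hy => by
    induction hx using Subgroup.closure_induction with
    | mem x hx => exact h1 x hx y hy
    | one => exact Commute.one_left y
    | mul x z _ _ h h' => exact h.mul_left h'
    | inv x _ h => exact h.inv_left
  refine isPGroup_iff_twoEl.2 fun g hg => twoEl_of_sq ?_
  induction hg using Subgroup.closure_induction with
  | mem x hx => exact hsq x hx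
  | one => exact one_mul 1
  | mul x y hx hy h h' =>
    rw [mul_assoc, ← mul_assoc y x y, ← (h2 x hx y hy).eq, mul_assoc x y y, h', mul_one, h]
  | inv x _ h => rw [← mul_inv_rev, h, inv_one]

theorem alt_swap_comm {Γ : Type} [DecidableEq Γ] {a b c d : Γ} (h1 : a ≠ c) (h2 : a ≠ d)
    (h3 : b ≠ c) (h4 : b ≠ d) : Commute (swap a b) (swap c d) := by
  have e : swap c d * swap a b * (swap c d)⁻¹ = swap a b := by
    rw [← swap_apply_apply, swap_apply_of_ne_of_ne h1 h2, swap_apply_of_ne_of_ne h3 h4]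
  show swap a b * swap c d = swap c d * swap a b
  rw [← mul_inv_eq_iff_eq_mul.1 e]

/-- Four points with the same stabilizer in different orbits. -/
theorem alt_four {Γ : Type} [Finite Γ] (B : Subgroup (Perm Γ)) {m : ℕ} (hB : Nat.card B ≤ m)
    (hΓ : 4 * m * 2 ^ m < Nat.card Γ) :
    ∃ o : Fin 4 → Γ, (∀ i j, ∀ b ∈ B, b (o i) = o i → b (o j) = o j) ∧
      ∀ i j, ∀ b ∈ B, b (o i) = o j → i = j := by
  classical
  have := Fintype.ofFinite Γ
  have := Fintype.ofFinite B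
  let f : Γ → Finset B := fun x => Finset.univ.filter fun b => b.1 x = x
  have hlt : Fintype.card (Finset B) * (4 * m) < Fintype.card Γ := by
    rw [Fintype.card_finset, ← Nat.card_eq_fintype_card, ← Nat.card_eq_fintype_card, mul_comm]
    exact lt_of_le_of_lt (Nat.mul_le_mul_left _ (Nat.pow_le_pow_right (by norm_num) hB)) hΓ
  obtain ⟨y, hy⟩ := Fintype.exists_lt_card_fiber_of_mul_lt_card f hlt
  set C : Finset Γ := Finset.univ.filter fun x => f x = y with hC
  have hsame : ∀ x ∈ C, ∀ x' ∈ C, ∀ b ∈ B, b x = x → b x' = x' := by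
    intro x hx x' hx' b hb e
    have h1 : f x = y := (Finset.mem_filter.1 hx).2
    have h2 : f x' = y := (Finset.mem_filter.1 hx').2
    have h3 : (⟨b, hb⟩ : B) ∈ f x := Finset.mem_filter.2 ⟨Finset.mem_univ _, e⟩
    rw [h1, ← h2] at h3
    exact (Finset.mem_filter.1 h3).2
  let O : Γ → Finset Γ := fun x => Finset.univ.image fun b : B => b.1 x
  have hO : ∀ x, (O x).card ≤ m := fun x =>
    Finset.card_image_le.trans (by rw [Finset.card_univ, ← Nat.card_eq_fintype_card]; exact hB)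
  have hOm : ∀ x x', x' ∉ O x → ∀ b ∈ B, b x ≠ x' ∧ b x' ≠ x := by
    intro x x' hx b hb
    refine ⟨fun e => hx (Finset.mem_image.2 ⟨⟨b, hb⟩, Finset.mem_univ _, e⟩), fun e => hx ?_⟩
    exact Finset.mem_image.2 ⟨⟨b⁻¹, B.inv_mem hb⟩, Finset.mem_univ _, by simp [← e]⟩
  have hpick : ∀ S : Finset Γ, S.card ≤ 4 * m → ∃ x ∈ C, x ∉ S := fun S hS =>
    Finset.exists_mem_notMem_of_card_lt_card (lt_of_le_of_lt hS hy)
  obtain ⟨o1, h1, -⟩ := hpick ∅ (by simp)
  obtain ⟨o2, h2, n2⟩ := hpick (O o1) (by have := hO o1; omega)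
  obtain ⟨o3, h3, n3⟩ := hpick (O o1 ∪ O o2) (by
    have := hO o1; have := hO o2; have := Finset.card_union_le (O o1) (O o2); omega)
  obtain ⟨o4, h4, n4⟩ := hpick (O o1 ∪ O o2 ∪ O o3) (by
    have := hO o1; have := hO o2; have := hO o3; have := Finset.card_union_le (O o1) (O o2)
    have := Finset.card_union_le (O o1 ∪ O o2) (O o3); omega)
  simp only [Finset.mem_union, not_or] at n3 n4
  have hmem : ∀ i, (![o1, o2, o3, o4] : Fin 4 → Γ) i ∈ C := fun i => by
    fin_cases i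
    exacts [h1, h2, h3, h4]
  refine ⟨![o1, o2, o3, o4], fun i j b hb => hsame _ (hmem i) _ (hmem j) b hb, fun i j b hb e => ?_⟩
  have a12 := hOm _ _ n2 b hb
  have a13 := hOm _ _ n3.1 b hb
  have a23 := hOm _ _ n3.2 b hb
  have a14 := hOm _ _ n4.1.1 b hb
  have a24 := hOm _ _ n4.1.2 b hb
  have a34 := hOm _ _ n4.2 b hb
  fin_cases i <;> fin_cases j <;> first
    | rfl
    | exact absurd e a12.1 | exact absurd e a12.2 | exact absurd e a13.1 | exact absurd e a13.2
    | exact absurd e a23.1 | exact absurd e a23.2 | exact absurd e a14.1 | exact absurd e a14.2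
    | exact absurd e a24.1 | exact absurd e a24.2 | exact absurd e a34.1 | exact absurd e a34.2

/-- Many points: an elementary abelian group normalized by `B` and not centralized by `s`. -/
theorem AComp.exists_noncentral {Γ : Type} {L A : Subgroup (Perm Γ)} (h : AComp L A)
    (B : Subgroup (Perm Γ)) {m : ℕ} (hB : Nat.card B ≤ m) {s : Perm Γ} (hs : s ∈ B)
    (hu : ∀ γ δ, s γ = γ → s δ = δ → γ = δ) (hΓ : 4 * m * 2 ^ m < Nat.card Γ) :
    ∃ W ≤ L, IsPGroup 2 W ∧ (∀ b ∈ B, ∀ w ∈ W, b * w * b⁻¹ ∈ W) ∧ ∃ w ∈ W, s * w ≠ w * s := by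
  classical
  have := h.fin
  obtain ⟨o, hsame, hdiff⟩ := alt_four B hB hΓ
  have hne : ∀ i j, i ≠ j → ∀ b ∈ B, ∀ b' ∈ B, b (o i) ≠ b' (o j) := by
    intro i j hij b hb b' hb' e
    refine hij (hdiff i j (b'⁻¹ * b) (B.mul_mem (B.inv_mem hb') hb) ?_)
    rw [Perm.mul_apply, e]
    simp
  have heq : ∀ i j, ∀ b ∈ B, ∀ b' ∈ B, b (o i) = b' (o i) → b (o j) = b' (o j) := by
    intro i j b hb b' hb' e
    have := hsame i j (b'⁻¹ * b) (B.mul_mem (B.inv_mem hb') hb) (by rw [Perm.mul_apply, e]; simp)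
    rw [Perm.mul_apply, Perm.inv_eq_iff_eq] at this
    exact this
  let g : Perm Γ → Perm Γ := fun b => swap (b (o 0)) (b (o 1)) * swap (b (o 2)) (b (o 3))
  have hconj : ∀ b b' : Perm Γ, b * g b' * b⁻¹ = g (b * b') := fun b b' => by
    simp only [g, Perm.mul_apply]
    rw [swap_apply_apply b, swap_apply_apply b]
    group
  let S : Set (Perm Γ) := {x | ∃ b ∈ B, x = g b}
  refine ⟨Subgroup.closure S, (Subgroup.closure_le _).2 ?_, alt_closure_two S ?_ ?_, ?_,
    g 1, Subgroup.subset_closure ⟨1, B.one_mem, rfl⟩, fun e => ?_⟩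
  · rintro x ⟨b, hb, rfl⟩
    exact h.dbl _ _ _ _ (hne 0 1 (by decide) b hb b hb) (hne 2 3 (by decide) b hb b hb)
  · rintro x ⟨b, hb, rfl⟩
    have hc := alt_swap_comm (hne 0 2 (by decide) b hb b hb) (hne 0 3 (by decide) b hb b hb)
      (hne 1 2 (by decide) b hb b hb) (hne 1 3 (by decide) b hb b hb)
    simp only [g]
    rw [mul_assoc, ← mul_assoc (swap (b (o 2)) (b (o 3))), ← hc.eq, mul_assoc, swap_mul_self,
      mul_one, swap_mul_self]
  · rintro x ⟨b, hb, rfl⟩ y ⟨b', hb', rfl⟩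
    by_cases e : b (o 0) = b' (o 0)
    · simp only [g]
      rw [e, heq 0 1 b hb b' hb' e, heq 0 2 b hb b' hb' e, heq 0 3 b hb b' hb' e]
      exact Commute.refl _
    · have hall : ∀ i j, b (o i) ≠ b' (o j) := fun i j => by
        by_cases hij : i = j
        · subst hij
          exact fun e' => e (heq i 0 b hb b' hb' e')
        · exact hne i j hij b hb b' hb'
      have hc : ∀ i j k l, Commute (swap (b (o i)) (b (o j))) (swap (b' (o k)) (b' (o l))) :=
        fun i j k l => alt_swap_comm (hall i k) (hall i l) (hall j k) (hall j l)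
      exact ((hc 0 1 0 1).mul_right (hc 0 1 2 3)).mul_left ((hc 2 3 0 1).mul_right (hc 2 3 2 3))
  · intro b hb w hw
    induction hw using Subgroup.closure_induction with
    | mem x hx =>
      obtain ⟨b', hb', rfl⟩ := hx
      exact Subgroup.subset_closure ⟨b * b', B.mul_mem hb hb', hconj b b'⟩
    | one => simp
    | mul x y _ _ hx hy =>
      have e : b * (x * y) * b⁻¹ = b * x * b⁻¹ * (b * y * b⁻¹) := by group
      rw [e]
      exact Subgroup.mul_mem _ hx hy
    | inv x _ hx =>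
      have e : b * x⁻¹ * b⁻¹ = (b * x * b⁻¹)⁻¹ := by group
      rw [e]
      exact Subgroup.inv_mem _ hx
  · have h01 : o 0 ≠ o 1 := hne 0 1 (by decide) 1 B.one_mem 1 B.one_mem
    have h02 : o 0 ≠ o 2 := hne 0 2 (by decide) 1 B.one_mem 1 B.one_mem
    have h03 : o 0 ≠ o 3 := hne 0 3 (by decide) 1 B.one_mem 1 B.one_mem
    have s0 : s (o 0) ≠ o 0 := fun e' => h01 (hu _ _ e' (hsame 0 1 s hs e'))
    have s1 : s (o 0) ≠ o 1 := hne 0 1 (by decide) s hs 1 B.one_mem
    have s2 : s (o 0) ≠ o 2 := hne 0 2 (by decide) s hs 1 B.one_mem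
    have s3 : s (o 0) ≠ o 3 := hne 0 3 (by decide) s hs 1 B.one_mem
    have e' := congrArg (fun y : Perm Γ => y (o 0)) e
    simp only [g, Perm.mul_apply, Perm.one_apply] at e'
    rw [swap_apply_of_ne_of_ne h02 h03, swap_apply_left, swap_apply_of_ne_of_ne s2 s3,
      swap_apply_of_ne_of_ne s0 s1] at e'
    exact h01 (s.injective e').symm

/-- A group of permutations fixing a point has order at most `(n - 1)!`. -/
theorem card_le_of_fix {Γ : Type} [Finite Γ] (B : Subgroup (Perm Γ)) {γ : Γ}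
    (h : ∀ b ∈ B, b γ = γ) : Nat.card B ≤ (Nat.card Γ - 1).factorial := by
  classical
  have hp : ∀ b : B, ∀ x, b.1 x ≠ γ ↔ x ≠ γ := fun b x =>
    not_congr ⟨fun e => b.1.injective (e.trans (h b.1 b.2).symm), fun e => by rw [e, h b.1 b.2]⟩
  let f : B → Perm {x // x ≠ γ} := fun b => b.1.subtypePerm (hp b)
  have hf : Function.Injective f := fun b b' e => by
    refine Subtype.ext (Equiv.ext fun x => ?_)
    by_cases hx : x = γ
    · rw [hx, h b.1 b.2, h b'.1 b'.2]
    · exact congrArg (fun y : Perm {x // x ≠ γ} => (y ⟨x, hx⟩).1) e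
  have h1 : Nat.card Γ = Nat.card {x // x ≠ γ} + 1 := by
    rw [← Finite.card_option]
    exact Nat.card_congr (Equiv.optionSubtypeNe γ).symm
  rw [h1, Nat.add_sub_cancel, ← Nat.card_perm]
  exact Nat.card_le_card_of_injective f hf

end Pool.Agent.Lib.MP_a7ce8b_al
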