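import Pool.Agent.Lib.MP_a7ce8b_al.C.Wr0

/-! Abstract consequences of the rank one axioms. -/

namespace Pool.Agent.Lib.MP_a7ce8b_al

open Equiv MulAction

variable {Γ : Type} {L A : Subgroup (Perm Γ)}

theorem bAbs_fix {a b : Perm Γ} (h : a * b = b * a) {γ : Γ} (h1 : b γ = γ)
    (h2 : ∀ δ, b δ = δ → δ = γ) : a γ = γ :=
  h2 _ (by rw [← Perm.mul_apply, ← h, Perm.mul_apply, h1])

theorem bAbs_mem {l g : Perm Γ} (hl : l ∈ L) (hg : g ∈ L) : l * g * l⁻¹ ∈ L :=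
  L.mul_mem (L.mul_mem hl hg) (L.inv_mem hl)

theorem bAbs_sq {l g : Perm Γ} (hg : g * g = 1) : l * g * l⁻¹ * (l * g * l⁻¹) = 1 := by
  rw [conj_mul, hg, mul_one, mul_inv_cancel]

theorem BCore.uniq (h : BCore L) {g : Perm Γ} (hg : g ∈ L) (h2 : TwoEl g) (h1 : g ≠ 1) {γ : Γ}
    (hγ : g γ = γ) (δ : Γ) (hδ : g δ = δ) : δ = γ := (h.one g hg h2 h1).unique hδ hγ

theorem BPre.core {o : Γ} (h : BPre L o) : BCore L := by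
  have ho : ∀ γ, ∃ l ∈ L, l γ = o := fun γ => by
    obtain ⟨l, hl, rfl⟩ := h.trans γ
    exact ⟨l⁻¹, L.inv_mem hl, by simp⟩
  have hf : ∀ {l g : Perm Γ} {γ δ : Γ}, g γ = δ → (l * g * l⁻¹) (l γ) = l δ := fun e => by simp [e]
  have hu : ∀ g ∈ L, TwoEl g → g ≠ 1 → ∀ γ, g γ = γ → ∀ δ, g δ = δ → δ = γ := by
    intro g hg h2 h1 γ hγ δ hδ
    obtain ⟨l, hl, e⟩ := ho γ
    by_contra hne
    exact h1 (conj_eq_one_iff.1 (h.one _ (bAbs_mem hl hg) (h2.conj l) (e ▸ hf hγ) (l δ)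
      (e ▸ l.injective.ne hne) (hf hδ)))
  have hi : ∀ y ∈ L, y * y = 1 → ∃ γ, y γ = γ := fun y hy y2 => by
    obtain ⟨z, hz, -, -, -, z1, -, z2, -, zo, -⟩ := h.two
    rcases (orderOf (y * z)).even_or_odd with e | e
    · obtain ⟨m, m1, m2, m3, m4⟩ := dihedral_even y2 z2 (h.tors _ (L.mul_mem hy hz)) e
      have := bAbs_fix m4 zo (hu z hz (twoEl_of_sq z2) z1 o zo)
      exact ⟨o, bAbs_fix m3.symm this
        (hu _ (L.pow_mem (L.mul_mem hy hz) m) (twoEl_of_sq m2) m1 o this)⟩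
    · obtain ⟨m, hm⟩ := dihedral_odd y2 z2 e
      exact ⟨_, hm ▸ hf zo⟩
  refine ⟨h.nontriv, h.tors, fun γ δ => ?_, fun g hg h2 h1 => ?_, fun γ g hg k hk g2 k2 e e' => ?_,
    fun γ δ δ' e e' => ?_, fun γ z hz k hk z2 k2 e e' => ?_, fun γ => ?_⟩
  · obtain ⟨l, hl, e⟩ := ho γ
    obtain ⟨l', hl', e'⟩ := h.trans δ
    exact ⟨l' * l, L.mul_mem hl' hl, by rw [Perm.mul_apply, e, e']⟩
  · obtain ⟨m, m1, m2⟩ := h2.exists_invol h1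
    obtain ⟨γ, hγ⟩ := hi _ (L.pow_mem hg m) m2
    have := bAbs_fix (Commute.self_pow g m).eq hγ (hu _ (L.pow_mem hg m) (h2.pow m) m1 γ hγ)
    exact ⟨γ, this, hu g hg h2 h1 γ this⟩
  · obtain ⟨l, hl, rfl⟩ := ho γ
    have := (h.umul _ (bAbs_mem hl hg) _ (bAbs_mem hl hk) (g2.conj l) (k2.conj l) (hf e)
      (hf e')).conj l⁻¹
    rwa [conj_mul, show l⁻¹ * (l * (g * k) * l⁻¹) * l⁻¹⁻¹ = g * k by group] at this
  · obtain ⟨l, hl, rfl⟩ := ho γ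
    obtain ⟨g, hg, g2, a, b⟩ := h.utrans _ _ (l.injective.ne e) (l.injective.ne e')
    exact ⟨_, bAbs_mem (L.inv_mem hl) hg, g2.conj l⁻¹, by simp [a], by simp [b]⟩
  · obtain ⟨l, hl, rfl⟩ := ho γ
    simpa using h.zc _ (bAbs_mem hl hz) _ (bAbs_mem hl hk) (bAbs_sq z2) (k2.conj l) (hf e) (hf e')
  · obtain ⟨l, hl, rfl⟩ := h.trans γ
    obtain ⟨z, hz, w, hw, a, z1, w1, z2, w2, zo, wo⟩ := h.two
    exact ⟨_, bAbs_mem hl hz, _, bAbs_mem hl hw, by simpa using a, by simpa using z1,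
      by simpa using w1, bAbs_sq z2, bAbs_sq w2, hf zo, hf wo⟩

/-- The root subgroup at `γ`. -/
theorem BCore.exists_root (h : BCore L) (γ : Γ) :
    ∃ U : Subgroup (Perm Γ), ∀ g, g ∈ U ↔ g ∈ L ∧ TwoEl g ∧ g γ = γ := by
  refine ⟨⟨⟨⟨{g | g ∈ L ∧ TwoEl g ∧ g γ = γ}, fun ⟨a, b, c⟩ ⟨a', b', c'⟩ => ⟨L.mul_mem a a',
    h.umul γ _ a _ a' b b' c c', by rw [Perm.mul_apply, c', c]⟩⟩, L.one_mem, twoEl_one, rfl⟩,
    fun ⟨a, b, c⟩ => ⟨L.inv_mem a, b.inv, Perm.inv_eq_iff_eq.2 c.symm⟩⟩, fun _ => Iff.rfl⟩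

theorem BCore.two_trans (h : BCore L) {γ δ γ' δ' : Γ} (h1 : γ ≠ δ) (h2 : γ' ≠ δ') :
    ∃ l ∈ L, l γ = γ' ∧ l δ = δ' := by
  obtain ⟨l, hl, rfl⟩ := h.trans γ γ'
  obtain ⟨g, hg, -, a, b⟩ := h.utrans (l γ) (l δ) δ' (l.injective.ne h1.symm) h2.symm
  exact ⟨g * l, L.mul_mem hg hl, a, b⟩

theorem bAbs_conj (h : BCore L) {z w : Perm Γ} (hz : z ∈ L) (hw : w ∈ L) (z1 : z ≠ 1)
    (w1 : w ≠ 1) (z2 : z * z = 1) (w2 : w * w = 1) {γ δ : Γ} (hγ : z γ = γ) (hδ : w δ = δ)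
    (hne : γ ≠ δ) : ∃ l ∈ L, l * z * l⁻¹ = w := by
  rcases (orderOf (w * z)).even_or_odd with e | e
  · obtain ⟨m, m1, m2, m3, m4⟩ := dihedral_even w2 z2 (h.tors _ (L.mul_mem hw hz)) e
    exact (hne (h.uniq (L.pow_mem (L.mul_mem hw hz) m) (twoEl_of_sq m2) m1
      (bAbs_fix m3 hδ (h.uniq hw (twoEl_of_sq w2) w1 hδ)) _
      (bAbs_fix m4 hγ (h.uniq hz (twoEl_of_sq z2) z1 hγ)))).elim
  · obtain ⟨m, hm⟩ := dihedral_odd w2 z2 e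
    exact ⟨_, L.pow_mem (L.mul_mem hw hz) m, hm⟩

/-- All involutions are conjugate. -/
theorem BCore.conj_invol (h : BCore L) {z w : Perm Γ} (hz : z ∈ L) (hw : w ∈ L) (z1 : z ≠ 1)
    (w1 : w ≠ 1) (z2 : z * z = 1) (w2 : w * w = 1) : ∃ l ∈ L, l * z * l⁻¹ = w := by
  obtain ⟨γ, hγ, -⟩ := h.one z hz (twoEl_of_sq z2) z1
  obtain ⟨δ, hδ, -⟩ := h.one w hw (twoEl_of_sq w2) w1
  by_cases e : γ = δ
  · subst e
    have := h.nontriv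
    obtain ⟨β, hβ⟩ := exists_ne γ
    obtain ⟨v, hv, -, -, -, v1, -, v2, -, vo, -⟩ := h.two β
    obtain ⟨l, hl, a⟩ := bAbs_conj h hz hv z1 v1 z2 v2 hγ vo hβ.symm
    obtain ⟨l', hl', b⟩ := bAbs_conj h hv hw v1 w1 v2 w2 vo hδ hβ
    exact ⟨l' * l, L.mul_mem hl' hl, by rw [← b, ← a]; group⟩
  · exact bAbs_conj h hz hw z1 w1 z2 w2 hγ hδ e

/-- A point stabilizer does not centralize an involution. -/
theorem BCore.noncen (h : BCore L) {z : Perm Γ} (hz : z ∈ L) (z1 : z ≠ 1) (z2 : z * z = 1)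
    {γ : Γ} (hγ : z γ = γ) : ∃ l ∈ L, l γ = γ ∧ l * z * l⁻¹ ≠ z := by
  obtain ⟨w, hw, a, w1, w2, wo⟩ : ∃ w ∈ L, w ≠ z ∧ w ≠ 1 ∧ w * w = 1 ∧ w γ = γ := by
    obtain ⟨v, hv, w, hw, a, v1, w1, v2, w2, vo, wo⟩ := h.two γ
    by_cases e : v = z
    · exact ⟨w, hw, e ▸ a.symm, w1, w2, wo⟩
    · exact ⟨v, hv, e, v1, v2, vo⟩
  obtain ⟨l, hl, e⟩ := h.conj_invol hz hw z1 w1 z2 w2
  exact ⟨l, hl, h.uniq hw (twoEl_of_sq w2) w1 wo _ (by simp [← e, hγ]), e ▸ a⟩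

theorem BCore.comp (h : BCore L) (hle : L ≤ A) (hn : ∀ a ∈ A, ∀ l ∈ L, a * l * a⁻¹ ∈ L)
    (hs : IsSimpleGroup L) : Comp L A := by
  have hm : ∀ γ δ, γ ≠ δ → ∃ l ∈ L, TwoEl l ∧ l γ = γ ∧ l δ ≠ δ := fun γ δ hne => by
    obtain ⟨v, hv, -, -, -, v1, -, v2, -, vo, -⟩ := h.two γ
    exact ⟨v, hv, twoEl_of_sq v2, vo, fun e => hne (h.uniq hv (twoEl_of_sq v2) v1 vo _ e).symm⟩
  refine ⟨hle, hn, hs, h.nontriv, h.trans, fun γ δ hne => ?_, fun B hB _ γ δ hne hb => ?_⟩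
  · obtain ⟨l, a, -, b⟩ := hm γ δ hne
    exact ⟨l, a, b⟩
  · obtain ⟨W, hW⟩ := h.exists_root γ
    obtain ⟨l, a, b, c, d⟩ := hm γ δ hne
    refine ⟨W, fun w hw => ((hW w).1 hw).1, isPGroup_iff_twoEl.2 fun w hw => ((hW w).1 hw).2.1,
      fun x hx w hw => ?_, l, (hW l).2 ⟨a, b, c⟩, d⟩
    obtain ⟨w1, w2, w3⟩ := (hW w).1 hw
    refine (hW _).2 ⟨hn x (hB hx) w w1, w2.conj x, ?_⟩
    rw [Perm.mul_apply, Perm.mul_apply, (hb _ (B.inv_mem hx)).1, w3, (hb _ hx).1]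

/-- Iwasawa type step towards simplicity. -/
theorem BCore.simple_aux (h : BCore L) (hgen : L ≤ Subgroup.closure {g | g ∈ L ∧ TwoEl g})
    {R : Subgroup (Perm Γ)} (hR : R ≤ L) (hn : ∀ l ∈ L, ∀ r ∈ R, l * r * l⁻¹ ∈ R) (h0 : R ≠ ⊥)
    (γ : Γ) : (∀ g ∈ L, ∃ r ∈ R, ∃ u ∈ L, TwoEl u ∧ u γ = γ ∧ g = r * u) ∧
      ∀ z ∈ L, z * z = 1 → z ∈ R := by
  have ht : ∀ δ, ∃ r ∈ R, r γ = δ := fun δ => by
    by_cases e : δ = γ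
    · exact ⟨1, R.one_mem, e.symm⟩
    obtain ⟨⟨r, hr⟩, r1⟩ := Subgroup.ne_bot_iff_exists_ne_one.1 h0
    obtain ⟨x, hx⟩ : ∃ x, r x ≠ x := by
      by_contra! k
      exact r1 (Subtype.ext (Perm.ext k))
    obtain ⟨l, hl, rfl⟩ := h.trans x γ
    obtain ⟨u, hu, -, a, b⟩ := h.utrans (l x) (l (r x)) δ (l.injective.ne hx) e
    refine ⟨_, hn u hu _ (hn l hl r hr), ?_⟩
    rw [Perm.mul_apply, Perm.inv_eq_iff_eq.2 a.symm]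
    simp [b]
  have h1 : ∀ g ∈ L, ∃ r ∈ R, ∃ u ∈ L, TwoEl u ∧ u γ = γ ∧ g = r * u := fun g hg => by
    refine Subgroup.closure_induction (p := fun g _ =>
      ∃ r ∈ R, ∃ u ∈ L, TwoEl u ∧ u γ = γ ∧ g = r * u) ?_ ?_ ?_ ?_ (hgen hg)
    · rintro g ⟨hg, g2⟩
      by_cases g1 : g = 1
      · exact ⟨1, R.one_mem, 1, L.one_mem, twoEl_one, rfl, by simp [g1]⟩
      obtain ⟨x, hx, -⟩ := h.one g hg g2 g1
      obtain ⟨r, hr, rfl⟩ := ht x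
      have hu := bAbs_mem (L.inv_mem (hR hr)) hg
      exact ⟨_, R.mul_mem hr (hn _ hu _ (R.inv_mem hr)), _, hu, g2.conj _, by simp [hx], by group⟩
    · exact ⟨1, R.one_mem, 1, L.one_mem, twoEl_one, rfl, by simp⟩
    · rintro _ _ - - ⟨r, hr, u, hu, u2, uo, rfl⟩ ⟨r', hr', u', hu', u2', uo', rfl⟩
      exact ⟨_, R.mul_mem hr (hn u hu r' hr'), _, L.mul_mem hu hu',
        h.umul γ _ hu _ hu' u2 u2' uo uo', by rw [Perm.mul_apply, uo', uo], by group⟩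
    · rintro _ - ⟨r, hr, u, hu, u2, uo, rfl⟩
      exact ⟨_, hn _ (L.inv_mem hu) _ (R.inv_mem hr), _, L.inv_mem hu, u2.inv,
        Perm.inv_eq_iff_eq.2 uo.symm, by group⟩
  refine ⟨h1, fun y hy y2 => ?_⟩
  by_cases y1 : y = 1
  · exact y1 ▸ R.one_mem
  obtain ⟨z, hz, w, hw, a, z1, w1, z2, w2, zo, wo⟩ := h.two γ
  have c := h.zc γ z hz w hw z2 (twoEl_of_sq w2) zo wo
  obtain ⟨l, hl, e⟩ := h.conj_invol hz (L.mul_mem hz hw) z1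
    (fun k => a (mul_left_cancel (z2.trans k.symm))) z2
    (by rw [mul_assoc, ← mul_assoc w, ← c, mul_assoc, w2, mul_one, z2])
  obtain ⟨r, hr, u, hu, u2, uo, rfl⟩ := h1 l hl
  have e1 : w = z⁻¹ * r * z⁻¹⁻¹ * r⁻¹ := by
    rw [← inv_mul_cancel_left z w, ← e, mul_assoc r, ← h.zc γ z hz u hu z2 u2 zo uo]
    group
  obtain ⟨l', hl', rfl⟩ := h.conj_invol hw hy w1 y1 w2 y2
  exact hn _ hl' _ (e1 ▸ R.mul_mem (hn _ (L.inv_mem hz) r hr) (R.inv_mem hr))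

/-- A non-trivial 2-subgroup of `L` has a unique fixed point. -/
theorem BCore.fix_subgroup (h : BCore L) (hlf : IsLocallyFinite L) {B : Subgroup (Perm Γ)}
    (hB : B ≤ L) (h2 : IsPGroup 2 B) (h0 : B ≠ ⊥) :
    ∃ γ, (∀ b ∈ B, b γ = γ) ∧ ∀ b ∈ B, b ≠ 1 → ∀ δ, b δ = δ → δ = γ := by
  obtain ⟨⟨a, ha⟩, a1⟩ := Subgroup.ne_bot_iff_exists_ne_one.1 h0
  replace a1 : a ≠ 1 := fun e => a1 (Subtype.ext e)
  have h3 := isPGroup_iff_twoEl.1 h2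
  obtain ⟨γ, hγ, -⟩ := h.one a (hB ha) (h3 a ha) a1
  suffices k : ∀ b ∈ B, b γ = γ from
    ⟨γ, k, fun b hb b1 => h.uniq (hB hb) (h3 b hb) b1 (k b hb)⟩
  intro b hb
  let K : Subgroup L := Subgroup.closure {⟨a, hB ha⟩, ⟨b, hB hb⟩}
  have : Finite K := hlf.finite_closure (Set.toFinite _)
  have hK : K ≤ B.subgroupOf L := (Subgroup.closure_le _).2 (by rintro _ (rfl | rfl) <;> assumption)
  have ma : (⟨a, hB ha⟩ : L) ∈ K := Subgroup.subset_closure (.inl rfl)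
  have mb : (⟨b, hB hb⟩ : L) ∈ K := Subgroup.subset_closure (.inr rfl)
  have : Nontrivial K := ⟨⟨⟨_, ma⟩, 1, fun e => a1 (congrArg (fun x : K => x.1.1) e)⟩⟩
  have := (h2.comap_subtype.to_le hK).center_nontrivial
  obtain ⟨⟨z, hz⟩, z1⟩ := exists_ne (1 : Subgroup.center K)
  obtain ⟨x, hx, hx'⟩ := h.one z.1.1 z.1.2 (h3 _ (hK z.2))
    fun e => z1 (Subtype.ext (Subtype.ext (Subtype.ext e)))
  have c : ∀ y : K, y.1.1 x = x := fun y =>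
    bAbs_fix (congrArg (fun x : K => x.1.1) (Subgroup.mem_center_iff.1 hz y)) hx hx'
  exact h.uniq (hB ha) (h3 a ha) a1 hγ x (c ⟨_, ma⟩) ▸ c ⟨_, mb⟩

end Pool.Agent.Lib.MP_a7ce8b_al
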