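import Pool.Agent.Lib.MP_a7ce8b_al.C.Defs
import Pool.Agent.Lib.MP_a7ce8b_al.Local

/-! Internal definitions for the countable classification. -/

namespace Pool.Agent.Lib.MP_a7ce8b_al

open Equiv MulAction

/-- `g` is a 2-element. -/
def TwoEl {G : Type*} [Group G] (g : G) : Prop := ∃ m : ℕ, g ^ 2 ^ m = 1

/-- Properties common to the alternating and the rank one components. -/
structure Comp {Γ : Type} (L A : Subgroup (Perm Γ)) : Prop where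
  le : L ≤ A
  norm : ∀ a ∈ A, ∀ l ∈ L, a * l * a⁻¹ ∈ L
  simple : IsSimpleGroup L
  nontriv : Nontrivial Γ
  trans : ∀ γ δ, ∃ l ∈ L, l γ = δ
  move : ∀ γ δ, γ ≠ δ → ∃ l ∈ L, l γ = γ ∧ l δ ≠ δ
  refine2 : ∀ B ≤ A, IsPGroup 2 B → ∀ γ δ, γ ≠ δ → (∀ b ∈ B, b γ = γ ∧ b δ = δ) →
    ∃ W ≤ L, IsPGroup 2 W ∧ (∀ b ∈ B, ∀ w ∈ W, b * w * b⁻¹ ∈ W) ∧ ∃ w ∈ W, w δ ≠ δ

/-- Alternating component. -/
structure AComp {Γ : Type} (L A : Subgroup (Perm Γ)) : Prop where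
  comp : Comp L A
  fin : Finite Γ
  seven : 7 ≤ Nat.card Γ
  dbl : ∀ [DecidableEq Γ] (a b c d : Γ), a ≠ b → c ≠ d → swap a b * swap c d ∈ L
  big : (Nat.card Γ - 1).factorial < Nat.card L

/-- Rank one properties at one point `o`. -/
structure BPre {Γ : Type} (L : Subgroup (Perm Γ)) (o : Γ) : Prop where
  nontriv : Nontrivial Γ
  tors : ∀ g ∈ L, IsOfFinOrder g
  trans : ∀ γ, ∃ l ∈ L, l o = γ
  one : ∀ g ∈ L, TwoEl g → g o = o → ∀ γ, γ ≠ o → g γ = γ → g = 1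
  umul : ∀ g ∈ L, ∀ h ∈ L, TwoEl g → TwoEl h → g o = o → h o = o → TwoEl (g * h)
  utrans : ∀ δ δ', δ ≠ o → δ' ≠ o → ∃ g ∈ L, TwoEl g ∧ g o = o ∧ g δ = δ'
  zc : ∀ z ∈ L, ∀ h ∈ L, z * z = 1 → TwoEl h → z o = o → h o = o → z * h = h * z
  two : ∃ z ∈ L, ∃ w ∈ L, z ≠ w ∧ z ≠ 1 ∧ w ≠ 1 ∧ z * z = 1 ∧ w * w = 1 ∧ z o = o ∧ w o = o

/-- Rank one properties at all points. -/
structure BCore {Γ : Type} (L : Subgroup (Perm Γ)) : Prop where
  nontriv : Nontrivial Γ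
  tors : ∀ g ∈ L, IsOfFinOrder g
  trans : ∀ γ δ, ∃ l ∈ L, l γ = δ
  one : ∀ g ∈ L, TwoEl g → g ≠ 1 → ∃! γ, g γ = γ
  umul : ∀ γ, ∀ g ∈ L, ∀ h ∈ L, TwoEl g → TwoEl h → g γ = γ → h γ = γ → TwoEl (g * h)
  utrans : ∀ γ δ δ', δ ≠ γ → δ' ≠ γ → ∃ g ∈ L, TwoEl g ∧ g γ = γ ∧ g δ = δ'
  zc : ∀ γ, ∀ z ∈ L, ∀ h ∈ L, z * z = 1 → TwoEl h → z γ = γ → h γ = γ → z * h = h * z
  two : ∀ γ, ∃ z ∈ L, ∃ w ∈ L, z ≠ w ∧ z ≠ 1 ∧ w ≠ 1 ∧ z * z = 1 ∧ w * w = 1 ∧ z γ = γ ∧ w γ = γ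

/-- Rank one component. -/
structure BComp {Γ : Type} (L A : Subgroup (Perm Γ)) : Prop where
  core : BCore L
  comp : Comp L A
  cen : ∀ γ, ∀ g ∈ A, g γ = γ → (∀ h ∈ L, TwoEl h → h γ = γ → g * h = h * g) → g ∈ L

section Wr
variable {ι Γ : Type}

/-- The base group element with coordinates `l`. -/
def base (l : ι → Perm Γ) : Perm (ι → Γ) := Equiv.piCongrRight l

@[simp] theorem base_apply (l : ι → Perm Γ) (x : ι → Γ) (j : ι) : base l x j = l j (x j) := rfl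

/-- `y` lies in the wreath product. -/
def IsW (y : Perm (ι → Γ)) : Prop := ∃ σ a, Acts y σ a

open Classical in
/-- The permutation of the coordinates induced by `y`. -/
noncomputable def sg (y : Perm (ι → Γ)) : Perm ι := if h : IsW y then h.choose else 1

open Classical in
/-- The components of `y`. -/
noncomputable def cp (y : Perm (ι → Γ)) : ι → Perm Γ :=
  if h : IsW y then h.choose_spec.choose else 1

theorem IsW.acts {y : Perm (ι → Γ)} (h : IsW y) : Acts y (sg y) (cp y) := by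
  unfold sg cp
  rw [dif_pos h, dif_pos h]
  exact h.choose_spec.choose_spec

end Wr

variable {G Ω : Type} [Group G] [MulAction G Ω]

/-- Standing hypotheses of the forward direction, with a good pair `(P, t)` at `α`. -/
structure Ctx (P : Subgroup G) (t : G) (α : Ω) : Prop where
  faith : FaithfulSMul G Ω
  cnt : Countable Ω
  inf : Infinite Ω
  lf : IsLocallyFinite G
  prim : IsPreprimitive G Ω
  star : Star G Ω
  khyp : KHyp G
  fin : Finite P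
  two : IsPGroup 2 P
  mem : t ∈ P
  sq : t * t = 1
  fix : t • α = α
  uniq : ∀ ω : Ω, t • ω = ω → ω = α
  force : ∀ P' : Subgroup G, Finite P' → IsPGroup 2 P' → P ≤ P' → ∀ s ∈ P', s * t = t * s

/-- A finite primitive section which is faithful on the orbit of `α` under `H`. -/
structure Sec (α : Ω) (H : Subgroup G) (X : Type) where
  K : Subgroup G
  fin : Finite K
  le : H ≤ K
  r : G → Perm X
  r_mul : ∀ g ∈ K, ∀ h ∈ K, r (g * h) = r g * r h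
  π : Ω → X
  eqv : ∀ g ∈ K, ∀ k ∈ K, π (g • k • α) = r g (π (k • α))
  surj : ∀ x, ∃ k ∈ K, π (k • α) = x
  inj : ∀ h ∈ H, ∀ h' ∈ H, π (h • α) = π (h' • α) → h • α = h' • α
  nontriv : Nontrivial X
  prim : ∀ e : X → X → Prop, Equivalence e → (∀ g ∈ K, ∀ x y, e x y → e (r g x) (r g y)) →
    ∀ x y, x ≠ y → e x y → ∀ a b, e a b
  fix : ∀ Q ≤ K, IsPGroup 2 Q → ∃ k ∈ K, ∀ q ∈ Q, q • k • α = k • α
  lift : ∀ Q ≤ K, IsPGroup 2 Q → ∀ x, (∀ q ∈ Q, r q x = x) →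
    ∃ k ∈ K, π (k • α) = x ∧ ∀ q ∈ Q, q • k • α = k • α

namespace Sec

variable {α : Ω} {H : Subgroup G} {X : Type} (S : Sec α H X)

/-- The action homomorphism. -/
def ρ : S.K →* Perm X := MonoidHom.mk' (fun g => S.r g.1) fun g h => S.r_mul _ g.2 _ h.2

/-- The induced permutation group. -/
def Y : Subgroup (Perm X) := S.ρ.range

/-- The image of `Q ⊓ K`. -/
def im (Q : Subgroup G) : Subgroup (Perm X) := (Q.subgroupOf S.K).map S.ρ

theorem mem_Y {y : Perm X} : y ∈ S.Y ↔ ∃ g ∈ S.K, S.r g = y :=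
  ⟨fun ⟨g, h⟩ => ⟨g.1, g.2, h⟩, fun ⟨g, hg, h⟩ => ⟨⟨g, hg⟩, h⟩⟩

theorem mem_im {Q : Subgroup G} {y : Perm X} : y ∈ S.im Q ↔ ∃ g ∈ S.K, g ∈ Q ∧ S.r g = y :=
  ⟨fun ⟨g, h1, h⟩ => ⟨g.1, g.2, h1, h⟩, fun ⟨g, hg, h1, h⟩ => ⟨⟨g, hg⟩, h1, h⟩⟩

theorem im_le_Y (Q : Subgroup G) : S.im Q ≤ S.Y := fun _ h => by
  obtain ⟨g, hg, -, e⟩ := S.mem_im.1 h
  exact S.mem_Y.2 ⟨g, hg, e⟩

theorem r_one : S.r 1 = 1 := S.ρ.map_one

theorem r_inv {g : G} (hg : g ∈ S.K) : S.r g⁻¹ = (S.r g)⁻¹ := S.ρ.map_inv ⟨g, hg⟩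

theorem r_pow {g : G} (hg : g ∈ S.K) (n : ℕ) : S.r (g ^ n) = S.r g ^ n := S.ρ.map_pow ⟨g, hg⟩ n

theorem r_conj {g h : G} (hg : g ∈ S.K) (hh : h ∈ S.K) :
    S.r (g * h * g⁻¹) = S.r g * S.r h * (S.r g)⁻¹ := by
  rw [S.r_mul _ (S.K.mul_mem hg hh) _ (S.K.inv_mem hg), S.r_mul _ hg _ hh, S.r_inv hg]

theorem eqv₁ {g : G} (hg : g ∈ S.K) : S.π (g • α) = S.r g (S.π α) := by
  simpa using S.eqv g hg 1 S.K.one_mem

include S in
theorem finX : Finite X := by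
  have := S.fin
  refine Finite.of_surjective (fun k : S.K => S.π (k.1 • α)) fun x => ?_
  obtain ⟨k, hk, e⟩ := S.surj x
  exact ⟨⟨k, hk⟩, e⟩

theorem isPGroup_im {Q : Subgroup G} (hQ : IsPGroup 2 Q) : IsPGroup 2 (S.im Q) :=
  (hQ.comap_subtype (K := S.K)).map _

/-- Shrinking `H`. -/
def mono {H' : Subgroup G} (h : H' ≤ H) : Sec α H' X :=
  { S with le := h.trans S.le, inj := fun a ha b hb => S.inj a (h ha) b (h hb) }

/-- Enlarging `H` when `π` is injective on the larger orbit. -/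
def upgrade {H' : Subgroup G} (h : H' ≤ S.K)
    (hi : ∀ k ∈ S.K, ∀ k' ∈ S.K, S.π (k • α) = S.π (k' • α) → k • α = k' • α) : Sec α H' X :=
  { S with le := h, inj := fun a ha b hb => hi a (h ha) b (h hb) }

/-- Transport along a bijection. -/
def congr {X' : Type} (e : X ≃ X') : Sec α H X' where
  K := S.K
  fin := S.fin
  le := S.le
  r g := e.permCongr (S.r g)
  r_mul g hg h hh := by rw [S.r_mul g hg h hh]; exact e.permCongrHom.map_mul _ _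
  π ω := e (S.π ω)
  eqv g hg k hk := by simp [S.eqv g hg k hk]
  surj x := by
    obtain ⟨k, hk, h⟩ := S.surj (e.symm x)
    exact ⟨k, hk, by simp [h]⟩
  inj a ha b hb h := S.inj a ha b hb (e.injective h)
  nontriv := by have := S.nontriv; exact e.symm.nontrivial
  prim f hf hinv x y hxy h a b := by
    have := S.prim (fun a b => f (e a) (e b)) ⟨fun _ => hf.refl _, hf.symm, hf.trans⟩
      (fun g hg x y h => by simpa using hinv g hg _ _ h) (e.symm x) (e.symm y)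
      (e.symm.injective.ne hxy) (by simpa using h) (e.symm a) (e.symm b)
    simpa using this
  fix := S.fix
  lift Q hQ h2 x hx := by
    obtain ⟨k, hk, h, h'⟩ := S.lift Q hQ h2 (e.symm x) fun q hq => by
      have := hx q hq
      apply e.injective
      simpa using this
    exact ⟨k, hk, by simp [h], h'⟩

theorem congr_Y {X' : Type} (e : X ≃ X') :
    (S.congr e).Y = S.Y.map e.permCongrHom.toMonoidHom := by
  ext y
  rw [mem_Y, Subgroup.mem_map]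
  constructor
  · rintro ⟨g, hg, rfl⟩
    exact ⟨S.r g, S.mem_Y.2 ⟨g, hg, rfl⟩, rfl⟩
  · rintro ⟨z, hz, rfl⟩
    obtain ⟨g, hg, rfl⟩ := S.mem_Y.1 hz
    exact ⟨g, hg, rfl⟩

theorem pretrans : IsPretransitive S.Y X := by
  refine ⟨fun x y => ?_⟩
  obtain ⟨k, hk, rfl⟩ := S.surj x
  obtain ⟨l, hl, rfl⟩ := S.surj y
  refine ⟨⟨S.r (l * k⁻¹), S.mem_Y.2 ⟨_, S.K.mul_mem hl (S.K.inv_mem hk), rfl⟩⟩, ?_⟩
  show S.r (l * k⁻¹) (S.π (k • α)) = _
  rw [← S.eqv _ (S.K.mul_mem hl (S.K.inv_mem hk)) k hk, mul_smul, inv_smul_smul]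

theorem preprim : IsPreprimitive S.Y X :=
  preprimitive_of_rel S.pretrans fun e he hinv =>
    S.prim e he fun g hg x y h => hinv ⟨S.r g, S.mem_Y.2 ⟨g, hg, rfl⟩⟩ x y h

/-- The section is of affine type. -/
def Affine : Prop := ∃ N : Subgroup S.Y, N.Normal ∧ N ≠ ⊥ ∧ ∀ a ∈ N, ∀ b ∈ N, a * b = b * a

end Sec

/-- A section of product type. -/
structure PSec (α : Ω) (H : Subgroup G) where
  k : ℕ
  Γ : Type
  L : Subgroup (Perm Γ)
  A : Subgroup (Perm Γ)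
  S : Sec α H (Fin k → Γ)
  wr : IsWr S.Y L A
  comp : Comp L A

/-- Shrinking `H`. -/
def PSec.mono {α : Ω} {H H' : Subgroup G} (T : PSec α H) (h : H' ≤ H) : PSec α H' :=
  { T with S := T.S.mono h }

/-- Properties of the limit equivalence relation `E` (equality of one coordinate). -/
structure EHyp (t : G) (α : Ω) (E : Ω → Ω → Prop) : Prop where
  equiv : Equivalence E
  fin : ∃ B : Subgroup G, B.Normal ∧ B.FiniteIndex ∧ t ∈ B ∧
    ∀ g ∈ B, ∀ ω ω', E ω ω' → E (g • ω) (g • ω')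
  sep : ∀ ω ω', (∀ g : G, E (g • ω) (g • ω')) → ω = ω'
  se1 : ∀ n ∈ Subgroup.normalClosure {t}, TwoEl n → ∀ ω ω', E (n • ω) ω → E (n • ω') ω' →
    ¬ E ω ω' → ∀ x, E (n • x) x
  se2 : ∀ g g' : G, E (g • α) (g' • α) → ∀ ω,
    E ((g * t * g⁻¹) • (g' * t * g'⁻¹) • ω) ((g' * t * g'⁻¹) • (g * t * g⁻¹) • ω)
  se3 : ∀ (g : G) ω, E ((g * t * g⁻¹) • ω) ω → E ω (g • α)

/-- The relation is not isolated. -/
def NonIso (t : G) (α : Ω) (E : Ω → Ω → Prop) : Prop :=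
  ∃ (g g' : G) (ω : Ω), E (g • α) (g' • α) ∧ ¬ E ((g * t * g⁻¹) • ω) ((g' * t * g'⁻¹) • ω)

/-- Hypotheses of the rank one recognition theorem for `N ⊴ G` acting on `Ω`. -/
structure MHyp (Ω : Type) [MulAction G Ω] (N : Subgroup G) : Prop where
  faith : FaithfulSMul G Ω
  inf : Infinite Ω
  lf : IsLocallyFinite G
  khyp : KHyp G
  normal : N.Normal
  trans : ∀ x y : Ω, ∃ n ∈ N, n • x = y
  gen : N ≤ Subgroup.closure {n | n ∈ N ∧ n * n = 1}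
  one : ∀ n ∈ N, TwoEl n → n ≠ 1 → ∃! x : Ω, n • x = x
  four : ∃ v ∈ N, ∃ w ∈ N, v ≠ w ∧ v ≠ 1 ∧ w ≠ 1 ∧ v * v = 1 ∧ w * w = 1 ∧ v * w = w * v

namespace Datum

variable {E : Type} [Field E] (D : Datum E)

/-- The condition defining affine points. -/
def On (p : E × E) : Prop := D.suz = true ∨ p.1 * D.θ p.1 = p.2 + D.θ p.2

/-- The point `(0, 0)`. -/
def o : D.Pt := some ⟨(0, 0), Or.inr (by simp)⟩

def TransBy (u : E × E) (g : Perm D.Pt) : Prop := ∀ x, D.co (g x) = (D.co x).map (D.add u)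

def SemiBy (c : E) (φ : E → E) (g : Perm D.Pt) : Prop :=
  ∀ x, D.co (g x) = (D.co x).map (D.sc c φ)

theorem co_inj : Function.Injective D.co := Option.map_injective Subtype.val_injective

end Datum

/-- A coordinatisation of the action of `N ⊴ G` on `Ω` inside a (large) datum. -/
structure Coord (N : Subgroup G) (γ : Ω) (μ : G) {E : Type} [Field E] (D : Datum E)
    (κ : Ω → Option (E × E)) : Prop where
  inj : Function.Injective κ
  on : ∀ x p, κ x = some p → D.On p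
  inf : κ γ = none
  zero : κ (μ • γ) = some (0, 0)
  tau : ∀ x, κ (μ • x) = D.tau (κ x)
  tr : ∀ n ∈ N, TwoEl n → n • γ = γ → ∃ u, ∀ x, κ (n • x) = (κ x).map (D.add u)
  semi : ∀ g : G, g • γ = γ → g • μ • γ = μ • γ → ∃ (c : E) (φ : E →+* E),
    (∀ x, φ (D.θ x) = D.θ (φ x)) ∧ ∀ x, κ (g • x) = (κ x).map (D.sc c φ)

/-- Local root transitivity. -/
def LocRT (N : Subgroup G) (γ : Ω) (μ : G) : Prop :=
  ∀ s : Set Ω, s.Finite → ∃ s' : Set Ω, s'.Finite ∧ s ⊆ s' ∧ (∀ x ∈ s', μ • x ∈ s') ∧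
    ∀ x ∈ s', x ≠ γ → ∃ n ∈ N, TwoEl n ∧ n • γ = γ ∧ n • μ • γ = x ∧ ∀ y ∈ s', n • y ∈ s'

/-- `N` induces `D.L` and `G` induces a subgroup of `D.A`. -/
def Recog (Ω : Type) [MulAction G Ω] (N : Subgroup G) : Prop :=
  ∃ (E : Type) (_ : Field E) (_ : Infinite E) (D : Datum E) (ε : Ω ≃ D.Pt),
    (∀ x : E, ∃ n, 0 < n ∧ x ^ 2 ^ n = x) ∧
    (∀ l ∈ D.L, ∃ n ∈ N, ∀ x, ε (n • x) = l (ε x)) ∧
    (∀ n ∈ N, ∃ l ∈ D.L, ∀ x, ε (n • x) = l (ε x)) ∧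
    ∀ g : G, ∃ a ∈ D.A, ∀ x, ε (g • x) = a (ε x)

end Pool.Agent.Lib.MP_a7ce8b_al
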