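import Pool.Agent.Lib.MP_a7ce8b_al.C.Dat3

/-! Simplicity and centralizers. -/

namespace Pool.Agent.Lib.MP_a7ce8b_al

open Equiv MulAction

namespace Datum

variable {E : Type} [Field E] {D : Datum E}

theorem dat4_mem {u : E × E} {g : Perm D.Pt} (hu : D.On u) (h : D.TransBy u g) : g ∈ D.L :=
  (isTrans_iff.2 ⟨u, hu, h⟩).mem

theorem dat4_two {u : E × E} {g : Perm D.Pt} (h : D.TransBy u g) : TwoEl g := ⟨2, h.pow_four⟩

/-- Two translations with the same first coordinate differ by an involution. -/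
theorem dat4_sq {u v : E × E} {g g' : Perm D.Pt} (h : D.TransBy u g) (h' : D.TransBy v g')
    (e : u.1 = v.1) : g * g'⁻¹ * (g * g'⁻¹) = 1 := by
  have h1 := h.mul h'.inv
  have h2 := h1.mul h1
  refine TransBy.unique ?_ transBy_one
  have e0 : u.1 + v.1 = 0 := by rw [e, add_self _ D]
  have e1 : ∀ w : E × E, w.1 = 0 → D.add w w = (0, 0) := fun w hw => by
    simp [add, hw, add_self _ D]
  rwa [e1 _ e0] at h2

/-- In the linear case all affine points have first coordinate zero. -/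
theorem dat4_lin (hs : D.suz = false) (hθ : ∀ x, D.θ x = x) {p : E × E} (hp : D.On p) :
    p.1 = 0 := by
  rcases hp with h | h
  · simp [hs] at h
  · rw [hθ, hθ, add_self _ D] at h
    exact mul_self_eq_zero.1 h

/-- Splitting off a translation from an element that fixes `∞`. -/
theorem dat4_split {g : Perm D.Pt} (h1 : g none = none) : ∃ u T, D.On u ∧ D.TransBy u T ∧
    (T⁻¹ * g) none = none ∧ (T⁻¹ * g) D.o = D.o := by
  obtain ⟨p, hp⟩ : ∃ p, g D.o = some p := Option.ne_none_iff_exists'.1 fun h =>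
    Option.some_ne_none _ (g.injective (h.trans h1.symm))
  obtain ⟨T, hT⟩ := D.exists_trans (u := p.1) p.2
  refine ⟨p.1, T, p.2, hT, ?_, ?_⟩
  · rw [Perm.mul_apply, h1, hT.inv.inf]
  · rw [Perm.mul_apply, Perm.inv_eq_iff_eq]
    exact D.co_inj (by rw [hp, hT.zero, co_some])

theorem dat4_semi (hb : D.Big) (hq : ∀ x : E, ∃ y, y ^ 2 = x) (hc : BCore D.L) :
    ∃ h ∈ D.L, ∃ c, c ≠ 1 ∧ D.SemiBy c id h := by
  obtain ⟨z, hz, -, -, -, z1, -, z2, -, z3, -⟩ := hc.two none
  obtain ⟨l, hl, l1, l2⟩ := hc.noncen hz z1 z2 z3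
  obtain ⟨u, T, hu, hT, a, b⟩ := dat4_split l1
  have hm := D.L.mul_mem (D.L.inv_mem (dat4_mem hu hT)) hl
  obtain ⟨c, h⟩ := stabL hb hq hm a b
  refine ⟨_, hm, c, fun h1 => l2 ?_, h⟩
  rw [h1] at h
  rw [← inv_mul_eq_one.1 (h.unique semiBy_one),
    ← hc.zc none z hz T (dat4_mem hu hT) z2 (dat4_two hT) z3 hT.inf, mul_inv_cancel_right]

theorem simple_L (hb : D.Big) (hq : ∀ x : E, ∃ y, y ^ 2 = x) (ht : ∀ g ∈ D.L, IsOfFinOrder g) :
    IsSimpleGroup D.L := by
  have hc := (bpre hb hq ht).core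
  have hnt : Nontrivial D.L := by
    obtain ⟨z, hz, -, -, -, z1, -⟩ := hc.two none
    exact ⟨⟨z, hz⟩, 1, fun h => z1 (congrArg Subtype.val h)⟩
  refine ⟨fun R hR => or_iff_not_imp_left.2 fun h0 => ?_⟩
  have hn : ∀ l ∈ D.L, ∀ r ∈ R.map D.L.subtype, l * r * l⁻¹ ∈ R.map D.L.subtype := by
    rintro l hl _ ⟨r, hr, rfl⟩
    exact ⟨_, hR.conj_mem r hr ⟨l, hl⟩, rfl⟩
  obtain ⟨h1, h2⟩ := hc.simple_aux (R := R.map D.L.subtype) (Subgroup.closure_mono (by
      rintro g (h | h)
      · obtain ⟨u, hu, h⟩ := isTrans_iff.1 h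
        exact ⟨dat4_mem hu h, dat4_two h⟩
      · exact ⟨h.mem, 1, by simpa [pow_two] using h.sq⟩)) (Subgroup.map_subtype_le R) hn
    (fun h => h0 ((Subgroup.map_eq_bot_iff_of_injective R D.L.subtype_injective).1 h)) none
  have h3 : ∀ {u v g g'}, D.TransBy u g → D.TransBy v g' → g ∈ D.L → g' ∈ D.L → u.1 = v.1 →
      g * g'⁻¹ ∈ R.map D.L.subtype := fun a b c d e =>
    h2 _ (D.L.mul_mem c (D.L.inv_mem d)) (dat4_sq a b e)
  have h4 : D.L ≤ R.map D.L.subtype := by
    refine (Subgroup.closure_le _).2 ?_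
    rintro g (h | h)
    · obtain ⟨u, hu, hg⟩ := isTrans_iff.1 h
      rcases D.dichotomy with hall | ⟨hs, hθ⟩
      · obtain ⟨k, hk, c, c1, hs⟩ := dat4_semi hb hq hc
        have c2 : c + 1 ≠ 0 := fun e => c1 (by linear_combination e - D.two)
        obtain ⟨b, hb'⟩ := hall (u.1 / (c + 1))
        obtain ⟨T, hT⟩ := D.exists_trans hb'
        have hTL := dat4_mem hb' hT
        obtain ⟨r, hr, w, hw, w2, w1, e⟩ := h1 k hk
        obtain ⟨v, -, hv⟩ := isTrans_iff.1 (isTrans_of_two hb hq hw w2 w1)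
        have a1 := h3 ((hv.mul hT).mul hv.inv) hT
          (D.L.mul_mem (D.L.mul_mem hw hTL) (D.L.inv_mem hw)) hTL
          (by simp only [add]; linear_combination v.1 * D.two)
        have a2 : k * T * k⁻¹ * T⁻¹ ∈ R.map D.L.subtype := by
          have := mul_mem (mul_mem hr a1) (hn T hTL _ (inv_mem hr))
          rw [e]
          simpa only [mul_inv_rev, mul_assoc, inv_mul_cancel_left] using this
        have a3 := h3 hg ((SemiBy.conj_trans (φ := RingHom.id E) (fun _ => rfl) hs hT).mul hT.inv)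
          h.mem (Subgroup.map_subtype_le R a2) (by
            simp only [add, sc, RingHom.id_apply]
            field_simp)
        have a4 := mul_mem a3 a2
        rwa [inv_mul_cancel_right] at a4
      · simpa using h3 hg transBy_one h.mem D.L.one_mem (dat4_lin hs hθ hu)
    · exact h2 g h.mem h.sq
  refine (Subgroup.eq_top_iff' R).2 fun x => ?_
  obtain ⟨y, hy, e⟩ := h4 x.2
  exact (Subtype.ext e : y = x) ▸ hy

theorem dat4_cen (hb : D.Big) (hq : ∀ x : E, ∃ y, y ^ 2 = x) {g : Perm D.Pt} (hg : g ∈ D.A)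
    (h1 : g none = none) (h : ∀ u T, D.On u → D.TransBy u T → g * T = T * g) : g ∈ D.L := by
  obtain ⟨u, T, hu, hT, a, b⟩ := dat4_split h1
  obtain ⟨c, φ, -, hs⟩ := stabA hb hq
    (D.A.mul_mem (D.A.inv_mem (L_le_A (dat4_mem hu hT))) hg) a b
  have e : ∀ x, g x = T ((T⁻¹ * g) x) := fun x => by simp
  have key : ∀ x, D.On x → D.add u (D.sc c φ x) = D.add x u := fun x hx => by
    obtain ⟨X, hX⟩ := D.exists_trans hx
    have := congrArg (fun f : Perm D.Pt => D.co (f D.o)) (h x X hx hX)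
    simp only [Perm.mul_apply] at this
    rw [e, hT, hs, hX.zero, hX, e, b, hT.zero] at this
    exact Option.some_injective _ this
  have key2 : ∀ x, D.On x → D.sc c φ x = x := by
    rcases D.dichotomy with hall | ⟨hs, hθ⟩
    · have k1 : ∀ a, c * φ a = a := fun a => by
        obtain ⟨b, hb⟩ := hall a
        have := congrArg Prod.fst (key _ hb)
        simp only [add, sc] at this
        linear_combination this
      have c1 : c = 1 := by simpa using k1 1
      intro x _
      simp only [c1, one_mul] at k1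
      simp [sc, c1, k1]
    · intro x hx
      have := congrArg Prod.snd (key _ hx)
      simp only [add, sc, dat4_lin hs hθ hx, dat4_lin hs hθ hu, map_zero, mul_zero] at this
      refine Prod.ext (by simp [sc, dat4_lin hs hθ hx]) ?_
      simp only [sc]
      linear_combination this
  have h2 : T⁻¹ * g = 1 := Equiv.ext fun x => D.co_inj (by
    rw [hs]
    cases x with
    | none => rfl
    | some p => exact congrArg some (key2 p.1 p.2))
  exact inv_mul_eq_one.1 h2 ▸ dat4_mem hu hT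

theorem cen_L (hb : D.Big) (hq : ∀ x : E, ∃ y, y ^ 2 = x) (γ : D.Pt) : ∀ g ∈ D.A, g γ = γ →
    (∀ h ∈ D.L, TwoEl h → h γ = γ → g * h = h * g) → g ∈ D.L := by
  intro g hg h1 h
  obtain ⟨δ, hδ⟩ : ∃ δ, γ ≠ δ := by
    cases γ with
    | none => exact ⟨D.o, (Option.some_ne_none _).symm⟩
    | some p => exact ⟨none, Option.some_ne_none _⟩
  obtain ⟨l, hl, l1, -⟩ := exists_to_base hδ
  have l2 : l⁻¹ none = γ := by rw [← l1]; simp
  have := dat4_cen hb hq (g := l * g * l⁻¹)
    (D.A.mul_mem (D.A.mul_mem (L_le_A hl) hg) (D.A.inv_mem (L_le_A hl)))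
    (by simp only [Perm.mul_apply, l2, h1, l1]) fun u T hu hT => by
      have := h (l⁻¹ * T * l) (D.L.mul_mem (D.L.mul_mem (D.L.inv_mem hl) (dat4_mem hu hT)) hl)
        ⟨2, by
          have := conj_pow (a := l⁻¹) (b := T) (i := 4)
          rw [inv_inv, hT.pow_four] at this
          simpa using this⟩
        (by simp only [Perm.mul_apply, l1, hT.inf, l2])
      calc _ = l * (g * (l⁻¹ * T * l)) * l⁻¹ := by group
        _ = _ := by rw [this]; group
  simpa [mul_assoc] using D.L.mul_mem (D.L.mul_mem (D.L.inv_mem hl) this) hl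

theorem bcomp (hb : D.Big) (hq : ∀ x : E, ∃ y, y ^ 2 = x) (ht : ∀ g ∈ D.L, IsOfFinOrder g) :
    BComp D.L D.A :=
  ⟨(bpre hb hq ht).core, (bpre hb hq ht).core.comp L_le_A (norm_L hb hq) (simple_L hb hq ht),
    cen_L hb hq⟩

theorem bcomp_finite [Finite E] (hb : D.Big) : BComp D.L D.A := by
  have : Finite D.Aff := Subtype.finite
  exact bcomp hb (sqrt_of_alg (alg_of_finite D.two)) fun g _ => isOfFinOrder_of_finite g

end Datum

end Pool.Agent.Lib.MP_a7ce8b_al
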