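import Pool.Agent.Lib.MP_a7ce8b_al.C.SecA
import Pool.Agent.Lib.MP_a7ce8b_al.C.Alt
import Pool.Agent.Lib.MP_a7ce8b_al.C.Dat4

/-! The three types of sections. -/

namespace Pool.Agent.Lib.MP_a7ce8b_al

open Equiv MulAction

variable {G Ω : Type} [Group G] [MulAction G Ω] {α : Ω} {H : Subgroup G} {X : Type}

theorem Sec.cases (S : Sec α H X) (h : OnList S.Y) :
    S.Affine ∨ (∃ T : PSec α H, T.S.K = S.K ∧ AComp T.L T.A ∧
      ∃ e : X ≃ (Fin T.k → T.Γ), T.S = S.congr e) ∨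
    ∃ (E : Type) (_ : Field E) (_ : Finite E) (D : Datum E) (k : ℕ) (e : X ≃ (Fin k → D.Pt)),
      D.Big ∧ IsWr (S.congr e).Y D.L D.A := by
  rcases h with h | ⟨n, -, hn, k, e, h⟩ | ⟨E, _, _, D, hb, k, e, h⟩
  · exact Or.inl h
  · rw [← S.congr_Y] at h
    exact Or.inr (Or.inl ⟨⟨k, Fin n, _, _, S.congr e, h, (acomp_alt hn).comp⟩, rfl, acomp_alt hn,
      e, rfl⟩)
  · rw [← S.congr_Y] at h
    exact Or.inr (Or.inr ⟨E, inferInstance, inferInstance, D, k, e, hb, h⟩)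

end Pool.Agent.Lib.MP_a7ce8b_al
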