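import Pool.Agent.Lib.MP_a7ce8b_al.C.GenA

/-! Transport lemmas for the converse direction. -/

namespace Pool.Agent.Lib.MP_a7ce8b_al

open Equiv MulAction

variable {ι Γ : Type} {Y : Subgroup (Perm (ι → Γ))} {L A : Subgroup (Perm Γ)}

theorem IsWr.lf_L [Nonempty ι] (h : IsWr Y L A) [Nontrivial Γ] (hlf : IsLocallyFinite Y) :
    IsLocallyFinite L := by
  classical
  obtain ⟨j⟩ : Nonempty ι := inferInstance
  let f : L →* Y := MonoidHom.mk' (fun w => ⟨sing j w.1, h.sing_mem j w.2⟩) fun a b =>
    Subtype.ext (by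
      show base _ = base _ * base _
      rw [← base_mul, Subgroup.coe_mul, Pi.mulSingle_mul])
  refine hlf.of_injective f fun a b e => Subtype.ext ?_
  have e1 : (Pi.mulSingle j a.1 : ι → Perm Γ) = Pi.mulSingle j b.1 :=
    base_injective (congrArg Subtype.val e)
  simpa using congrFun e1 j

/-- Transport between a faithful action and the induced permutation group. -/
theorem transport {G Ω X : Type} [Group G] [MulAction G Ω] [FaithfulSMul G Ω] (e : Ω ≃ X)
    (Z : Subgroup (Perm X)) (hZ : Z = (toPermHom G Ω).range.map e.permCongrHom.toMonoidHom) :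
    (IsLocallyFinite G → IsLocallyFinite Z) ∧ (IsPreprimitive Z X → IsPreprimitive G Ω) ∧
      (Star Z X → Star G Ω) := by
  let f0 : G →* Perm X := e.permCongrHom.toMonoidHom.comp (toPermHom G Ω)
  have hmem : ∀ g, f0 g ∈ Z := fun g => hZ ▸ ⟨_, ⟨g, rfl⟩, rfl⟩
  let f : G →* Z := f0.codRestrict Z hmem
  have hact : ∀ g ω, f g • e ω = e (g • ω) := fun g ω => by
    show e.permCongr (toPerm g) (e ω) = _
    simp
  have hs : Function.Surjective f := by
    rintro ⟨z, hz⟩
    rw [hZ] at hz
    obtain ⟨_, ⟨g, rfl⟩, rfl⟩ := hz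
    exact ⟨g, rfl⟩
  have hi : Function.Injective f := fun a b h => eq_of_smul_eq_smul (α := Ω) fun ω =>
    e.injective (by rw [← hact, ← hact, h])
  refine ⟨fun h => h.of_surjective f hs, fun h => ?_, fun h S => ?_⟩
  · refine preprimitive_of_rel ⟨fun x y => ?_⟩ fun r hr hinv x y hxy hr' a b => ?_
    · obtain ⟨z, hz⟩ := h.toIsPretransitive.exists_smul_eq (e x) (e y)
      obtain ⟨g, rfl⟩ := hs z
      exact ⟨g, e.injective (by rw [← hact, hz])⟩
    · have := rel_total h (fun u v => r (e.symm u) (e.symm v))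
        ⟨fun _ => hr.refl _, hr.symm, hr.trans⟩ (fun z u v huv => by
          obtain ⟨g, rfl⟩ := hs z
          obtain ⟨u, rfl⟩ := e.surjective u
          obtain ⟨v, rfl⟩ := e.surjective v
          simpa [hact] using hinv g _ _ (by simpa using huv))
        (e.injective.ne hxy) (by simpa using hr') (e a) (e b)
      simpa using this
  · let S' : Sylow 2 Z :=
      { toSubgroup := (S : Subgroup G).map f
        isPGroup' := S.isPGroup'.map f
        is_maximal' := fun {Q} hQ hle => by
          have h1 : Q.comap f = S := S.is_maximal' (hQ.comap_of_injective f hi)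
            (Subgroup.map_le_iff_le_comap.1 hle)
          rw [← h1, Subgroup.map_comap_eq_self_of_surjective hs] }
    obtain ⟨_, ⟨t, ht, rfl⟩, h1, h2, x, h3, h4⟩ := h S'
    obtain ⟨ω, rfl⟩ := e.surjective x
    refine ⟨t, ht, fun s hs' => hi ?_, by rw [← h2, orderOf_injective f hi], ω, e.injective ?_,
      fun ω' h5 => e.injective (h4 _ ?_)⟩
    · rw [map_mul, map_mul]
      exact h1 _ ⟨s, hs', rfl⟩
    · rw [← hact]
      exact h3
    · show f t • e ω' = e ω'
      rw [hact]
      exact congrArg e h5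

end Pool.Agent.Lib.MP_a7ce8b_al
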