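import Pool.Agent.Lib.MP_a7ce8b_al.C.Wr0

/-! General group lemmas, part B. -/

namespace Pool.Agent.Lib.MP_a7ce8b_al

open Equiv MulAction

theorem genB_inf {N S : Type*} [Group N] [Group S] [IsSimpleGroup S]
    (hS : ∃ a b : S, a * b ≠ b * a) (φ : N →* S) {R₁ R₂ : Subgroup N} [R₁.Normal] [R₂.Normal]
    (h₁ : R₁.map φ = ⊤) (h₂ : R₂.map φ = ⊤) : (R₁ ⊓ R₂).map φ = ⊤ := by
  have h3 : (⁅R₁, R₂⁆ : Subgroup N).map φ = ⁅(⊤ : Subgroup S), ⊤⁆ := by
    rw [Subgroup.map_commutator, h₁, h₂]
  have h4 : ⁅(⊤ : Subgroup S), (⊤ : Subgroup S)⁆ = ⊤ := by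
    rcases (inferInstance : (⁅(⊤ : Subgroup S), ⊤⁆ : Subgroup S).Normal).eq_bot_or_eq_top with
      e | e
    · obtain ⟨a, b, hab⟩ := hS
      have := Subgroup.commutator_mem_commutator (Subgroup.mem_top a) (Subgroup.mem_top b)
      rw [e, Subgroup.mem_bot, commutatorElement_eq_one_iff_mul_comm] at this
      exact absurd this hab
    · exact e
  rw [eq_top_iff, ← h4, ← h3]
  exact Subgroup.map_mono (Subgroup.commutator_le_inf R₁ R₂)

theorem genB_fin {N S κ : Type*} [Group N] [Group S] [IsSimpleGroup S]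
    (hS : ∃ a b : S, a * b ≠ b * a) (φ : N →* S) (hφ : Function.Surjective φ)
    (T : κ → Subgroup N) {s : Set κ} (hs : s.Finite)
    (hT : ∀ i ∈ s, (T i).Normal ∧ (T i).map φ = ⊤) :
    ∃ R : Subgroup N, R.Normal ∧ R.map φ = ⊤ ∧ ∀ i ∈ s, R ≤ T i := by
  induction s, hs using Set.Finite.induction_on with
  | empty => exact ⟨⊤, inferInstance, Subgroup.map_top_of_surjective φ hφ, by simp⟩
  | @insert a s _ _ ih =>
    obtain ⟨R, hR, h1, h2⟩ := ih fun i hi => hT i (Set.mem_insert_of_mem _ hi)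
    obtain ⟨h3, h4⟩ := hT a (Set.mem_insert _ _)
    refine ⟨R ⊓ T a, inferInstance, genB_inf hS φ h1 h4, ?_⟩
    rintro i (rfl | hi)
    · exact inf_le_right
    · exact inf_le_left.trans (h2 i hi)

/-- An element outside `ker φ` which lies in all normal subgroups of small index. -/
theorem small_index {N S : Type*} [Group N] [Finite N] [Group S] [IsSimpleGroup S]
    (hS : ∃ a b : S, a * b ≠ b * a) (φ : N →* S) (hφ : Function.Surjective φ) :
    ∃ c : N, φ c ≠ 1 ∧ ∀ R : Subgroup N, R.Normal → R.index < Nat.card S → c ∈ R := by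
  obtain ⟨R, -, h1, h2⟩ := genB_fin hS φ hφ (fun R : Subgroup N => R)
    (Set.toFinite {R : Subgroup N | R.Normal ∧ R.index < Nat.card S}) (by
      rintro R ⟨hR, hi⟩
      refine ⟨hR, ?_⟩
      rcases (hR.map φ hφ).eq_bot_or_eq_top with e | e
      · exfalso
        rw [Subgroup.map_eq_bot_iff] at e
        have h3 := Subgroup.index_dvd_of_le e
        rw [Subgroup.index_ker, MonoidHom.range_eq_top.2 hφ, Subgroup.card_top] at h3
        exact absurd (Nat.le_of_dvd (Nat.pos_of_ne_zero R.index_ne_zero_of_finite) h3)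
          (not_le.2 hi)
      · exact e)
  obtain ⟨b, hb⟩ := exists_ne (1 : S)
  obtain ⟨c, hc, rfl⟩ : b ∈ R.map φ := h1 ▸ Subgroup.mem_top b
  exact ⟨c, hb, fun R' h3 h4 => h2 R' ⟨h3, h4⟩ hc⟩

/-- Scott's lemma. -/
theorem scott {N S ι : Type*} [Group N] [Group S] [IsSimpleGroup S] [Finite ι]
    (hS : ∃ a b : S, a * b ≠ b * a) (φ : ι → N →* S) (hφ : ∀ j, Function.Surjective (φ j))
    (hk : ∀ i j, (φ i).ker = (φ j).ker → i = j) (l : ι → S) : ∃ n : N, ∀ j, φ j n = l j := by
  classical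
  have h1 : ∀ i j, i ≠ j → (φ i).ker.map (φ j) = ⊤ := by
    intro i j hij
    rcases ((inferInstance : (φ i).ker.Normal).map (φ j) (hφ j)).eq_bot_or_eq_top with e | e
    · exfalso
      rw [Subgroup.map_eq_bot_iff] at e
      rcases ((inferInstance : (φ j).ker.Normal).map (φ i) (hφ i)).eq_bot_or_eq_top with e' | e'
      · rw [Subgroup.map_eq_bot_iff] at e'
        exact hij (hk i j (le_antisymm e e'))
      · obtain ⟨b, hb⟩ := exists_ne (1 : S)
        obtain ⟨n, rfl⟩ := hφ j b
        obtain ⟨m, hm, e2⟩ : φ i n ∈ (φ j).ker.map (φ i) := e' ▸ Subgroup.mem_top _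
        have h3 : m⁻¹ * n ∈ (φ i).ker := by
          rw [MonoidHom.mem_ker, map_mul, map_inv, e2, inv_mul_cancel]
        have h4 := (φ j).ker.mul_mem hm (e h3)
        rw [mul_inv_cancel_left] at h4
        exact hb h4
    · exact e
  have h2 : ∀ j, ∃ n : N, φ j n = l j ∧ ∀ i, i ≠ j → φ i n = 1 := by
    intro j
    obtain ⟨R, -, e1, e2⟩ := genB_fin hS (φ j) (hφ j) (fun i => (φ i).ker)
      (Set.toFinite {i | i ≠ j}) fun i hi => ⟨inferInstance, h1 i j hi⟩
    obtain ⟨n, hn, e3⟩ : l j ∈ R.map (φ j) := e1 ▸ Subgroup.mem_top _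
    exact ⟨n, e3, fun i hi => e2 i hi hn⟩
  have h3 : ∀ s : Finset ι, ∃ n : N, ∀ j, (j ∈ s → φ j n = l j) ∧ (j ∉ s → φ j n = 1) := by
    intro s
    induction s using Finset.induction_on with
    | empty => exact ⟨1, fun j => ⟨by simp, fun _ => map_one _⟩⟩
    | insert a s ha ih =>
      obtain ⟨n, hn⟩ := ih
      obtain ⟨m, e1, e2⟩ := h2 a
      refine ⟨m * n, fun j => ⟨fun hj => ?_, fun hj => ?_⟩⟩
      · rcases Finset.mem_insert.1 hj with rfl | hj'
        · rw [map_mul, e1, (hn j).2 ha, mul_one]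
        · rw [map_mul, e2 j (fun e => ha (e ▸ hj')), (hn j).1 hj', one_mul]
      · rw [Finset.mem_insert, not_or] at hj
        rw [map_mul, e2 j hj.1, (hn j).2 hj.2, one_mul]
  have := Fintype.ofFinite ι
  obtain ⟨n, hn⟩ := h3 Finset.univ
  exact ⟨n, fun j => (hn j).1 (Finset.mem_univ j)⟩

variable {ι Γ : Type} {Y : Subgroup (Perm (ι → Γ))} {L A : Subgroup (Perm Γ)}

/-- An involution with a unique fixed point lies in the base group. -/
theorem IsW.oneFix [Nontrivial Γ] {y : Perm (ι → Γ)} (h : IsW y) (h2 : y * y = 1) {x : ι → Γ}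
    (hx : ∀ x', y x' = x' ↔ x' = x) : sg y = 1 ∧ ∀ j γ, cp y j γ = γ ↔ γ = x j := by
  classical
  have hσ : ∀ j, sg y (sg y j) = j := fun j => by
    have := h.sg_mul h
    rw [h2, sg_one] at this
    exact (congrArg (fun σ : Perm ι => σ j) this).symm
  have hc : ∀ j γ, cp y (sg y j) (cp y j γ) = γ := fun j γ => by
    have := h.cp_mul h j
    rw [h2, cp_one] at this
    exact (congrArg (fun a : Perm Γ => a γ) this).symm
  have hxx : ∀ j, x (sg y j) = cp y j (x j) := fun j => by
    rw [← h.apply, (hx x).2 rfl]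
  have h1 : sg y = 1 := by
    ext j
    by_contra hne
    have hne' : j ≠ sg y j := fun e => hne e.symm
    obtain ⟨γ, hγ⟩ := exists_ne (x j)
    have e : y (Function.update (Function.update x j γ) (sg y j) (cp y j γ)) =
        Function.update (Function.update x j γ) (sg y j) (cp y j γ) := by
      funext i
      obtain ⟨k, rfl⟩ := (sg y).surjective i
      rw [h.apply]
      by_cases e1 : k = j
      · subst e1
        rw [Function.update_of_ne hne', Function.update_self, Function.update_self]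
      by_cases e2 : k = sg y j
      · subst e2
        rw [Function.update_self, hc, hσ, Function.update_of_ne hne', Function.update_self]
      have e3 : sg y k ≠ sg y j := (sg y).injective.ne e1
      have e4 : sg y k ≠ j := fun e => e2 (by rw [← e, hσ])
      rw [Function.update_of_ne e2, Function.update_of_ne e1, Function.update_of_ne e3,
        Function.update_of_ne e4, hxx]
    have := congrFun ((hx _).1 e) j
    rw [Function.update_of_ne hne', Function.update_self] at this
    exact hγ this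
  have ha : ∀ x' j, y x' j = cp y j (x' j) := fun x' j => by
    have := h.apply x' j
    rwa [h1] at this
  refine ⟨h1, fun j γ => ⟨fun e => ?_, fun e => ?_⟩⟩
  · have e1 : y (Function.update x j γ) = Function.update x j γ := by
      funext i
      rw [ha]
      by_cases e2 : i = j
      · subst e2
        rw [Function.update_self, e]
      · rw [Function.update_of_ne e2, ← ha, (hx x).2 rfl]
    have := congrFun ((hx _).1 e1) j
    rwa [Function.update_self] at this
  · rw [e, ← ha, (hx x).2 rfl]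

theorem genB_cen (hc : Comp L A) {a : Perm Γ} (ha : a ≠ 1) : ∃ l ∈ L, a * l ≠ l * a := by
  by_contra hh
  push Not at hh
  apply ha
  ext γ
  by_contra hne
  obtain ⟨l, hl, e1, e2⟩ := hc.move γ (a γ) (fun e => hne e.symm)
  have := congrArg (fun g : Perm Γ => g γ) (hh l hl)
  simp only [Perm.mul_apply, e1] at this
  exact e2 this.symm

theorem genB_comm {R : Subgroup (Perm (ι → Γ))} (hn : ∀ y ∈ Y, ∀ r ∈ R, y * r * y⁻¹ ∈ R)
    {r s : Perm (ι → Γ)} (hr : r ∈ R) (hs : s ∈ Y) : r * s * r⁻¹ * s⁻¹ ∈ R := by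
  have := R.mul_mem hr (hn s hs _ (R.inv_mem hr))
  simpa only [mul_assoc] using this

theorem genB_sing [DecidableEq ι] (h : IsWr Y L A) (hc : Comp L A)
    {R : Subgroup (Perm (ι → Γ))} (hn : ∀ y ∈ Y, ∀ r ∈ R, y * r * y⁻¹ ∈ R) {a : ι → Perm Γ}
    (ha : base a ∈ R) {j : ι} (h1 : a j ≠ 1) (hA : a j ∈ A) :
    ∃ w ∈ L, w ≠ 1 ∧ sing j w ∈ R := by
  obtain ⟨l, hl, e⟩ := genB_cen hc h1
  refine ⟨a j * l * (a j)⁻¹ * l⁻¹, L.mul_mem (hc.norm _ hA _ hl) (L.inv_mem hl), fun e' => e ?_,
    ?_⟩
  · rwa [mul_inv_eq_one, mul_inv_eq_iff_eq_mul] at e'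
  · have := genB_comm hn ha (h.sing_mem j hl)
    rw [sing, ← base_inv, ← base_inv, ← base_mul, ← base_mul, ← base_mul] at this
    have e2 : (Pi.mulSingle j (a j * l * (a j)⁻¹ * l⁻¹) : ι → Perm Γ) =
        a * Pi.mulSingle j l * a⁻¹ * (Pi.mulSingle j l)⁻¹ := by
      funext i
      by_cases e3 : i = j
      · subst e3
        simp
      · simp [Pi.mulSingle_eq_of_ne e3]
    rwa [sing, e2]

/-- `L ^ ι` is the unique minimal normal subgroup. -/
theorem IsWr.minnormal [Finite ι] (h : IsWr Y L A) (hc : Comp L A) {R : Subgroup (Perm (ι → Γ))}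
    (hR : R ≤ Y) (hn : ∀ y ∈ Y, ∀ r ∈ R, y * r * y⁻¹ ∈ R) (h0 : R ≠ ⊥) {l : ι → Perm Γ}
    (hl : ∀ j, l j ∈ L) : base l ∈ R := by
  classical
  have := hc.nontriv
  have := hc.simple
  obtain ⟨⟨r, hr⟩, hr1⟩ := Subgroup.ne_bot_iff_exists_ne_one.1 h0
  have hr2 : r ≠ 1 := fun e => hr1 (Subtype.ext e)
  have hw := h.isW (hR hr)
  have h1 : ∃ j, ∃ w ∈ L, w ≠ 1 ∧ sing j w ∈ R := by
    by_cases e : sg r = 1
    · have e1 := hw.eq_base e
      have e2 : ∃ j, cp r j ≠ 1 := by
        by_contra hh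
        push Not at hh
        exact hr2 (by rw [e1, show cp r = 1 from funext hh, base_one])
      obtain ⟨j, hj⟩ := e2
      exact ⟨j, genB_sing h hc hn (e1 ▸ hr) hj (h.cp_mem (hR hr) j)⟩
    · have e2 : ∃ j, (sg r)⁻¹ j ≠ j := by
        by_contra hh
        push Not at hh
        exact e (inv_eq_one.1 (Equiv.ext hh))
      obtain ⟨j, hj⟩ := e2
      obtain ⟨⟨m, hm⟩, hm1⟩ := exists_ne (1 : L)
      have hm2 : m ≠ 1 := fun e => hm1 (Subtype.ext e)
      have h3 := genB_comm hn hr (h.sing_mem j hm)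
      rw [sing, hw.conj_base, ← base_inv, ← base_mul] at h3
      refine ⟨j, genB_sing h hc hn h3 ?_ ?_⟩
      · rw [Pi.mul_apply, Pi.mulSingle_eq_of_ne hj]
        simpa using hm2
      · rw [Pi.mul_apply, Pi.mulSingle_eq_of_ne hj]
        simpa using hc.le hm
  obtain ⟨j, w, hw1, hw2, hw3⟩ := h1
  let f : L →* Perm (ι → Γ) :=
    (baseHom.comp (MonoidHom.mulSingle (fun _ : ι => Perm Γ) j)).comp L.subtype
  have hf : ∀ v : L, f v = sing j v.1 := fun _ => rfl
  have hN : (R.comap f).Normal := ⟨fun v hv u => by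
    rw [Subgroup.mem_comap, map_mul, map_mul, map_inv]
    exact hn _ (h.sing_mem j u.2) _ hv⟩
  have h2 : ∀ v ∈ L, sing j v ∈ R := by
    rcases hN.eq_bot_or_eq_top with e | e
    · have h3 : (⟨w, hw1⟩ : L) ∈ R.comap f := hw3
      rw [e, Subgroup.mem_bot] at h3
      exact absurd (congrArg Subtype.val h3) hw2
    · intro v hv
      have h3 : (⟨v, hv⟩ : L) ∈ R.comap f := e ▸ Subgroup.mem_top _
      exact h3
  have h4 : ∀ i, ∀ v ∈ L, sing i v ∈ R := by
    intro i v hv
    obtain ⟨y, hy, e⟩ := h.sg_trans j i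
    have ha := h.cp_mem hy j
    have h5 := hn y hy _ (h2 _ (hc.norm _ (A.inv_mem ha) v hv))
    rw [sing, (h.isW hy).conj_base] at h5
    have e1 : (sg y)⁻¹ i = j := by rw [← e]; simp
    have e2 : (Pi.mulSingle i v : ι → Perm Γ) = fun k => cp y ((sg y)⁻¹ k) *
        (Pi.mulSingle j ((cp y j)⁻¹ * v * (cp y j)⁻¹⁻¹) : ι → Perm Γ) ((sg y)⁻¹ k) *
        (cp y ((sg y)⁻¹ k))⁻¹ := by
      funext k
      by_cases e3 : k = i
      · subst e3
        rw [e1, Pi.mulSingle_eq_same, Pi.mulSingle_eq_same]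
        group
      · have e4 : (sg y)⁻¹ k ≠ j := fun e5 => e3 ((sg y)⁻¹.injective (e5.trans e1.symm))
        rw [Pi.mulSingle_eq_of_ne e3, Pi.mulSingle_eq_of_ne e4, mul_one, mul_inv_cancel]
    rwa [sing, e2]
  exact Subgroup.pi_mem_of_mulSingle_mem (H := R.comap baseHom) l fun i => h4 i _ (hl i)

theorem genB_two (hc : BCore L) {γ δ γ' δ' : Γ} (h : δ ≠ γ) (h' : δ' ≠ γ') :
    ∃ l ∈ L, l γ = γ' ∧ l δ = δ' := by
  obtain ⟨l, hl, e⟩ := hc.trans γ γ'
  obtain ⟨g, hg, -, e1, e2⟩ := hc.utrans γ' (l δ) δ' (e ▸ l.injective.ne h) h'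
  exact ⟨g * l, L.mul_mem hg hl, by rw [Perm.mul_apply, e, e1], e2⟩

/-- Product actions are primitive. -/
theorem IsWr.preprim [Finite ι] [Nonempty ι] (h : IsWr Y L A) (hc : BCore L) :
    IsPreprimitive Y (ι → Γ) := by
  classical
  have := hc.nontriv
  refine preprimitive_of_rel ⟨fun x x' => ?_⟩ fun r hr hinv x y hxy hxy' => ?_
  · choose l hl e using fun j => hc.trans (x j) (x' j)
    exact ⟨⟨base l, h.base_mem hl⟩, funext e⟩
  have hi : ∀ g ∈ Y, ∀ u v, r u v → r (g u) (g v) := fun g hg u v e => hinv ⟨g, hg⟩ u v e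
  obtain ⟨j, hj⟩ := Function.ne_iff.1 hxy
  obtain ⟨z, hz, -, -, -, hz1, -, hz2, -, hz3, -⟩ := hc.two (x j)
  have hz4 : z (y j) ≠ y j := fun e =>
    hj ((hc.one z hz (twoEl_of_sq hz2) hz1).unique hz3 e)
  have e1 : sing j z x = x := by
    funext i
    by_cases e : i = j
    · subst e
      rw [sing_apply_self, hz3]
    · rw [sing_apply_ne e]
  have h1 : r y (sing j z y) := by
    have := hi _ (h.sing_mem j hz) x y hxy'
    rw [e1] at this
    exact hr.trans (hr.symm hxy') this
  have h2 : ∀ u v : ι → Γ, (∀ k, k ≠ j → u k = v k) → r u v := by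
    intro u v huv
    by_cases e : v j = u j
    · have : u = v := funext fun k => if e' : k = j then e' ▸ e.symm else huv k e'
      exact this ▸ hr.refl u
    obtain ⟨m, hm, e2, e3⟩ := genB_two hc hz4 e
    choose l hl e4 using fun k => hc.trans (y k) (u k)
    have hl' : ∀ k, Function.update l j m k ∈ L := fun k => by
      by_cases e' : k = j
      · subst e'
        rwa [Function.update_self]
      · rw [Function.update_of_ne e']
        exact hl k
    have h3 := hi _ (h.base_mem hl') _ _ h1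
    have e5 : base (Function.update l j m) y = u := by
      funext k
      rw [base_apply]
      by_cases e' : k = j
      · subst e'
        rw [Function.update_self, e2]
      · rw [Function.update_of_ne e', e4]
    have e6 : base (Function.update l j m) (sing j z y) = v := by
      funext k
      rw [base_apply]
      by_cases e' : k = j
      · subst e'
        rw [Function.update_self, sing_apply_self, e3]
      · rw [Function.update_of_ne e', sing_apply_ne e', e4, huv k e']
    rwa [e5, e6] at h3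
  have h4 : ∀ (i : ι) (u v : ι → Γ), (∀ k, k ≠ i → u k = v k) → r u v := by
    intro i u v huv
    obtain ⟨g, hg, e⟩ := h.sg_trans j i
    have hw := h.isW hg
    have h5 := hi g hg _ _ (h2 (g⁻¹ u) (g⁻¹ v) fun k hk => by
      apply (cp g k).injective
      rw [← hw.apply, ← hw.apply, Perm.coe_inv, apply_symm_apply, apply_symm_apply]
      exact huv _ (e ▸ (sg g).injective.ne hk))
    simpa using h5
  have h6 : ∀ (s : Finset ι) (u v : ι → Γ), (∀ k, k ∉ s → u k = v k) → r u v := by
    intro s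
    induction s using Finset.induction_on with
    | empty =>
      intro u v huv
      have : u = v := funext fun k => huv k (by simp)
      exact this ▸ hr.refl u
    | insert a s ha ih =>
      intro u v huv
      refine hr.trans (h4 a u (Function.update u a (v a)) fun k hk => ?_) (ih _ _ fun k hk => ?_)
      · rw [Function.update_of_ne hk]
      · by_cases e : k = a
        · subst e
          rw [Function.update_self]
        · rw [Function.update_of_ne e]
          exact huv k (by simp [e, hk])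
  have := Fintype.ofFinite ι
  exact fun u v => h6 Finset.univ u v fun k hk => absurd (Finset.mem_univ k) hk

end Pool.Agent.Lib.MP_a7ce8b_al
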