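import Pool.Agent.Lib.MP_a7ce8b_al.C.Conv
import Pool.Agent.Lib.MP_a7ce8b_al.C.GenB
import Pool.Agent.Lib.MP_a7ce8b_al.C.BAbs

/-! The groups of rank one product type have property (*). -/

namespace Pool.Agent.Lib.MP_a7ce8b_al

open Equiv MulAction

/-- A 2-group that permutes an odd set of elements by conjugation centralizes one of them. -/
theorem conv2_fix {G : Type*} [Group G] {P : Subgroup G} (hP : IsPGroup 2 P) {W : Set G}
    (hW : Odd (Nat.card W)) (h : ∀ y ∈ P, ∀ t ∈ W, y * t * y⁻¹ ∈ W) :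
    ∃ t ∈ W, ∀ y ∈ P, y * t = t * y := by
  let _ : MulAction P W :=
    { smul := fun y t => ⟨y.1 * t.1 * y.1⁻¹, h _ y.2 _ t.2⟩
      one_smul := fun t => Subtype.ext (show (1 : G) * t.1 * 1⁻¹ = t.1 by group)
      mul_smul := fun y z t => Subtype.ext
        (show y.1 * z.1 * t.1 * (y.1 * z.1)⁻¹ = y.1 * (z.1 * t.1 * z.1⁻¹) * y.1⁻¹ by group) }
  obtain ⟨t, ht⟩ := hP.nonempty_fixed_point_of_prime_not_dvd_card W hW.not_two_dvd_nat
  exact ⟨t.1, t.2, fun y hy => mul_inv_eq_iff_eq_mul.1 (congrArg Subtype.val (ht ⟨y, hy⟩))⟩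

theorem conv2_fin {G : Type*} [Group G] {Y : Subgroup G} (h : IsLocallyFinite Y) {F : Set G}
    (hF : F.Finite) (hY : F ⊆ Y) : Finite (Subgroup.closure F) := by
  have := h.finite_closure (hF.preimage (Subtype.val_injective (p := (· ∈ Y))).injOn)
  have h1 : Finite ((Subgroup.closure (Subtype.val ⁻¹' F : Set Y)).map Y.subtype) :=
    Finite.of_equiv _ (Subgroup.equivMapOfInjective _ _ Y.subtype_injective).toEquiv
  refine Finite.of_injective _ (Subgroup.inclusion_injective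
    (K := (Subgroup.closure (Subtype.val ⁻¹' F : Set Y)).map Y.subtype) ?_)
  exact (Subgroup.closure_le _).2 fun f hf => ⟨⟨f, hY hf⟩, Subgroup.subset_closure hf, rfl⟩

variable {ι Γ : Type} {Y : Subgroup (Perm (ι → Γ))} {L A : Subgroup (Perm Γ)}

theorem conv2_sing [DecidableEq ι] {y : Perm (ι → Γ)} (h : IsW y) (i : ι) (w : Perm Γ) :
    y * sing i w * y⁻¹ = sing (sg y i) (cp y i * w * (cp y i)⁻¹) := by
  rw [sing, h.conj_base, sing]
  refine congrArg base (funext fun j => ?_)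
  obtain ⟨j, rfl⟩ := (sg y).surjective j
  rw [show (sg y)⁻¹ (sg y j) = j from (sg y).symm_apply_apply j]
  by_cases e : j = i
  · rw [e, Pi.mulSingle_eq_same, Pi.mulSingle_eq_same]
  · rw [Pi.mulSingle_eq_of_ne e, Pi.mulSingle_eq_of_ne ((sg y).injective.ne e), mul_one,
      mul_inv_cancel]

/-- The part of a 2-subgroup in the socle has finite index. -/
theorem conv2_reps [Finite ι] [Nontrivial Γ] (h : IsWr Y L A)
    (hfi : ∀ B ≤ A, IsPGroup 2 B → (L.subgroupOf B).FiniteIndex) {T : Subgroup (Perm (ι → Γ))}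
    (hT : T ≤ Y) (h2 : IsPGroup 2 T) : ∃ F : Set (Perm (ι → Γ)), F.Finite ∧ F ⊆ T ∧
      ∀ s ∈ T, ∃ f ∈ F, ∃ l : ι → Perm Γ, (∀ j, l j ∈ L) ∧ s = f * base l := by
  let σ : T →* Perm ι := MonoidHom.mk' (fun s => sg s.1) fun s s' =>
    (h.isW (hT s.2)).sg_mul (h.isW (hT s'.2))
  let φ : ι → σ.ker →* Perm Γ := fun j => MonoidHom.mk' (fun s => cp s.1.1 j) fun s s' => by
    have := (h.isW (hT s.1.2)).cp_mul (h.isW (hT s'.1.2)) j
    rwa [show sg s'.1.1 = 1 from s'.2] at this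
  have h1 : ∀ j, (L.comap (φ j)).FiniteIndex := fun j => ⟨by
    rw [Subgroup.index_comap]
    refine (hfi _ ?_ ((h2.to_subgroup _).of_surjective _
      (φ j).rangeRestrict_surjective)).index_ne_zero
    rintro _ ⟨s, rfl⟩
    exact h.cp_mem (hT s.1.2) j⟩
  have h3 : ((⨅ j, L.comap (φ j)).map σ.ker.subtype).FiniteIndex := ⟨by
    rw [Subgroup.index_map_subtype]
    exact mul_ne_zero (Subgroup.finiteIndex_iInf h1).index_ne_zero
      Subgroup.FiniteIndex.index_ne_zero⟩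
  refine ⟨Set.range fun q : T ⧸ (⨅ j, L.comap (φ j)).map σ.ker.subtype => q.out.1,
    Set.finite_range _, ?_, fun s hs => ?_⟩
  · rintro _ ⟨q, rfl⟩
    exact q.out.2
  · obtain ⟨u, hu, e⟩ := QuotientGroup.eq.1 (QuotientGroup.out_eq'
      (QuotientGroup.mk (s := (⨅ j, L.comap (φ j)).map σ.ker.subtype) ⟨s, hs⟩))
    refine ⟨_, ⟨QuotientGroup.mk ⟨s, hs⟩, rfl⟩, cp u.1.1, fun j => Subgroup.mem_iInf.1 hu j, ?_⟩
    rw [← (h.isW (hT u.1.2)).eq_base u.2, ← inv_mul_eq_iff_eq_mul]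
    exact (congrArg Subtype.val e).symm

theorem conv2_invol (hc : BCore L) (hlf : IsLocallyFinite L) {B : Subgroup (Perm Γ)} (hB : B ≤ L)
    (h2 : IsPGroup 2 B) : ∃ z ∈ L, z ≠ 1 ∧ z * z = 1 ∧ ∀ b ∈ B, z * b = b * z := by
  have := hc.nontriv
  obtain ⟨γ, hγ⟩ : ∃ γ, ∀ b ∈ B, b γ = γ := by
    by_cases h0 : B = ⊥
    · exact ⟨Classical.arbitrary Γ, fun b hb => by rw [h0] at hb; rw [Subgroup.mem_bot.1 hb]; rfl⟩
    · obtain ⟨γ, hγ, -⟩ := hc.fix_subgroup hlf hB h2 h0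
      exact ⟨γ, hγ⟩
  obtain ⟨z, hz, -, -, -, z1, -, z2, -, z3, -⟩ := hc.two γ
  exact ⟨z, hz, z1, z2, fun b hb =>
    hc.zc γ z hz b (hB hb) z2 (isPGroup_iff_twoEl.1 h2 b hb) z3 (hγ b hb)⟩

/-- A 2-subgroup centralizes a base element all of whose coordinates are involutions. -/
theorem conv2_main [Finite ι] [Nonempty ι] (h : IsWr Y L A) (hc : BComp L A)
    (hlf : IsLocallyFinite Y) (hfi : ∀ B ≤ A, IsPGroup 2 B → (L.subgroupOf B).FiniteIndex)
    {T : Subgroup (Perm (ι → Γ))} (hT : T ≤ Y) (h2 : IsPGroup 2 T) :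
    ∃ w : ι → Perm Γ, (∀ j, w j ∈ L ∧ w j ≠ 1 ∧ w j * w j = 1) ∧
      ∀ s ∈ T, s * base w = base w * s := by
  classical
  have := hc.core.nontriv
  have := Fintype.ofFinite ι
  obtain ⟨F, F1, F2, F3⟩ := conv2_reps h hfi hT h2
  let V : Subgroup (ι → Perm Γ) := T.comap baseHom ⊓ Subgroup.pi Set.univ fun _ => L
  have hV : ∀ {l}, l ∈ V ↔ base l ∈ T ∧ ∀ j, l j ∈ L :=
    ⟨fun hl => ⟨hl.1, fun j => hl.2 j trivial⟩, fun hl => ⟨hl.1, fun j _ => hl.2 j⟩⟩
  choose z z0 z1 z2 z3 using fun j => conv2_invol hc.core (h.lf_L hlf)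
    (B := V.map (Pi.evalMonoidHom (fun _ => Perm Γ) j))
    (by rintro _ ⟨l, hl, rfl⟩; exact (hV.1 hl).2 j)
    (((h2.comap_of_injective baseHom base_injective).to_inf_left).map _)
  let K := Subgroup.closure (F ∪ Set.range fun j => sing j (z j))
  have hK : Finite K := conv2_fin hlf (F1.union (Set.finite_range _))
    (Set.union_subset (F2.trans hT) (by rintro _ ⟨j, rfl⟩; exact h.sing_mem j (z0 j)))
  let K' := K ⊓ Subgroup.centralizer (V.map baseHom : Set (Perm (ι → Γ)))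
  have hK' : Finite K' := Finite.of_injective _ (Subgroup.inclusion_injective inf_le_left)
  have hN : ∀ s ∈ T, ∀ x ∈ K', s * x * s⁻¹ ∈ K' := fun s hs x hx => by
    obtain ⟨f, hf, l, hl, rfl⟩ := F3 s hs
    have hfT := F2 hf
    have hfK : f ∈ K := Subgroup.subset_closure (Or.inl hf)
    have e : f * base l * x * (f * base l)⁻¹ = f * x * f⁻¹ := by
      rw [mul_assoc f, hx.2 (base l) ⟨l, hV.2 ⟨(T.mul_mem_cancel_left hfT).1 hs, hl⟩, rfl⟩]
      group
    rw [e]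
    refine ⟨K.mul_mem (K.mul_mem hfK hx.1) (K.inv_mem hfK), ?_⟩
    rintro _ ⟨m, hm, rfl⟩
    have e1 := (h.isW (hT (T.inv_mem hfT))).conj_base m
    have e2 := hx.2 (f⁻¹ * base m * f⁻¹⁻¹) ⟨_, hV.2 ⟨e1 ▸ T.mul_mem (T.mul_mem (T.inv_mem hfT)
      (hV.1 hm).1) (T.inv_mem (T.inv_mem hfT)), fun j => hc.comp.norm _
        (h.cp_mem (hT (T.inv_mem hfT)) _) _ ((hV.1 hm).2 _)⟩, e1.symm⟩
    change base m * (f * x * f⁻¹) = f * x * f⁻¹ * base m
    calc base m * (f * x * f⁻¹) = f * (f⁻¹ * base m * f⁻¹⁻¹ * x) * f⁻¹ := by group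
      _ = f * x * f⁻¹ * base m := by rw [e2]; group
  let ψ : ι → Perm Γ →* Perm (ι → Γ) := fun j =>
    baseHom.comp (MonoidHom.mulSingle (fun _ => Perm Γ) j)
  have hψ : ∀ j, Function.Injective (ψ j) := fun j =>
    base_injective.comp (Pi.mulSingle_injective (M := fun _ => Perm Γ) j)
  let Kj : ι → Subgroup (Perm Γ) := fun j => L ⊓ K'.comap (ψ j)
  have hKj : ∀ j, Finite (Kj j) := fun j => Finite.of_injective
    (fun w : Kj j => (⟨ψ j w.1, w.2.2⟩ : K')) fun a b e => Subtype.ext (hψ j (congrArg Subtype.val e))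
  have hz : ∀ j, z j ∈ Kj j := fun j => ⟨z0 j, Subgroup.subset_closure (Or.inr ⟨j, rfl⟩), by
    rintro _ ⟨m, hm, rfl⟩
    change base m * base (Pi.mulSingle j (z j)) = base (Pi.mulSingle j (z j)) * base m
    rw [← base_mul, ← base_mul]
    refine congrArg base (funext fun i => ?_)
    by_cases e : i = j
    · rw [e, Pi.mul_apply, Pi.mul_apply, Pi.mulSingle_eq_same]
      exact (z3 j _ ⟨m, hm, rfl⟩).symm
    · rw [Pi.mul_apply, Pi.mul_apply, Pi.mulSingle_eq_of_ne e, mul_one, one_mul]⟩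
  obtain ⟨_, ⟨w, rfl⟩, hw⟩ := conv2_fix h2 (W := Set.range
    fun w : ∀ j, {x : Perm Γ // x ∈ Kj j ∧ x ≠ 1 ∧ x * x = 1} => base fun j => (w j).1) (by
      rw [Nat.card_range_of_injective fun a b e => funext fun j =>
        Subtype.ext (congrFun (base_injective e) j), Nat.card_pi]
      exact Finset.prod_induction _ Odd (fun _ _ => Odd.mul) odd_one fun j _ =>
        odd_invol (Kj j) (hz j) (z1 j) (z2 j)) (by
      rintro y hy _ ⟨w, rfl⟩
      have hW := h.isW (hT hy)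
      refine ⟨fun j => ⟨_, ⟨hc.comp.norm _ (h.cp_mem (hT hy) ((sg y)⁻¹ j)) _
        (w ((sg y)⁻¹ j)).2.1.1, ?_⟩, fun e => (w _).2.2.1 (conj_eq_one_iff.1 e), ?_⟩,
        (hW.conj_base fun j => (w j).1).symm⟩
      · have := hN y hy _ (w ((sg y)⁻¹ j)).2.1.2
        rw [show ψ ((sg y)⁻¹ j) (w ((sg y)⁻¹ j)).1 = sing ((sg y)⁻¹ j) (w ((sg y)⁻¹ j)).1 from rfl,
          conv2_sing hW, show sg y ((sg y)⁻¹ j) = j from (sg y).apply_symm_apply j] at this
        exact this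
      · rw [conj_mul, (w _).2.2.2, mul_one, mul_inv_cancel])
  exact ⟨_, fun j => ⟨(w j).2.1.1, (w j).2.2⟩, hw⟩

theorem IsWr.star [Finite ι] [Nonempty ι] (h : IsWr Y L A) (hc : BComp L A)
    (hlf : IsLocallyFinite Y)
    (hfi : ∀ B ≤ A, IsPGroup 2 B → (L.subgroupOf B).FiniteIndex) : Star Y (ι → Γ) := by
  intro S
  have := hc.core.nontriv
  obtain ⟨w, hw, hs⟩ := conv2_main h hc hlf hfi (Subgroup.map_subtype_le (S : Subgroup Y))
    (S.isPGroup'.map _)
  let t : Y := ⟨base w, h.base_mem fun j => (hw j).1⟩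
  have t1 : ∀ s ∈ (S : Subgroup Y), s * t = t * s := fun s hs' =>
    Subtype.ext (hs s.1 ⟨s, hs', rfl⟩)
  have t2 : t * t = 1 := Subtype.ext (by
    change base w * base w = 1
    rw [← base_mul, ← base_one]
    exact congrArg base (funext fun j => (hw j).2.2))
  have t3 : t ≠ 1 := fun e => (hw (Classical.arbitrary ι)).2.1
    (congrFun (base_injective ((congrArg Subtype.val e).trans base_one.symm)) _)
  have t4 : (S : Subgroup Y) ≤ Subgroup.normalizer (Subgroup.zpowers t : Set Y) :=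
    le_trans (fun s hs' => by
      rintro _ ⟨n, rfl⟩
      exact ((Commute.zpow_right (t1 s hs') n).symm : _)) (Subgroup.centralizer_le_normalizer _)
  have t5 := S.is_maximal' (S.isPGroup'.to_sup_of_normal_right' (twoEl_of_sq t2).isPGroup_zpowers
    t4) le_sup_left
  refine ⟨t, t5 ▸ Subgroup.mem_sup_right (Subgroup.mem_zpowers t), t1,
    orderOf_eq_prime (by rw [pow_two, t2]) t3, ?_⟩
  choose γ g1 g2 using fun j => hc.core.one _ (hw j).1 (twoEl_of_sq (hw j).2.2) (hw j).2.1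
  exact ⟨γ, funext g1, fun x hx => funext fun j => g2 j _ (congrFun hx j)⟩

end Pool.Agent.Lib.MP_a7ce8b_al
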