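import Pool.Agent.Lib.MP_a7ce8b_al.C.Base

/-! Ultraproducts of data. -/

namespace Pool.Agent.Lib.MP_a7ce8b_al

open Equiv MulAction

/-- The ultraproduct of a family of fields. -/
theorem ultra_field {I : Type} (U : Ultrafilter I) (E : I → Type) [∀ i, Field (E i)] :
    ∃ (F : Type) (_ : Field F) (m : (∀ i, E i) →+* F), Function.Surjective m ∧
      ∀ f g, m f = m g ↔ ∀ᶠ i in U, f i = g i := by
  let J : Ideal (∀ i, E i) :=
    { carrier := {f | ∀ᶠ i in U, f i = 0}
      add_mem' := fun {f g} hf hg => by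
        filter_upwards [hf, hg] with i h1 h2
        simp [h1, h2]
      zero_mem' := Filter.Eventually.of_forall fun _ => rfl
      smul_mem' := fun c f hf => by
        filter_upwards [hf] with i h1
        simp [h1] }
  have hJ : ∀ f, f ∈ J ↔ ∀ᶠ i in U, f i = 0 := fun _ => Iff.rfl
  have : J.IsMaximal := Ideal.isMaximal_iff.2 ⟨fun h => by
    obtain ⟨i, hi⟩ := ((hJ 1).1 h).exists
    exact one_ne_zero hi, fun K f hK hf hfK => by
    have h1 : 1 - f⁻¹ * f ∈ J := by
      filter_upwards [Ultrafilter.eventually_not.2 (mt (hJ f).2 hf)] with i hi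
      simp [hi]
    simpa using K.add_mem (hK h1) (K.mul_mem_left f⁻¹ hfK)⟩
  refine ⟨_ ⧸ J, Ideal.Quotient.field J, Ideal.Quotient.mk J, Ideal.Quotient.mk_surjective,
    fun f g => Ideal.Quotient.eq.trans ((hJ _).trans ?_)⟩
  simp only [Pi.sub_apply, sub_eq_zero]

section
variable {I : Type} {U : Ultrafilter I} {E : I → Type} [∀ i, Field (E i)] {F : Type} [Field F]
  {m : (∀ i, E i) →+* F}

theorem ultra_div (hm : ∀ f g, m f = m g ↔ ∀ᶠ i in U, f i = g i) (f g : ∀ i, E i) :
    m (f / g) = m f / m g := by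
  by_cases h : m g = 0
  · rw [h, div_zero, ← map_zero m, hm]
    filter_upwards [(hm g 0).1 (h.trans (map_zero m).symm)] with i hi
    simp [hi]
  · rw [eq_div_iff h, ← map_mul, hm]
    filter_upwards [Ultrafilter.eventually_not.2 fun h' => h ((hm g 0).2 h' |>.trans (map_zero m))]
      with i hi
    exact div_mul_cancel₀ _ hi

theorem ultra_hom (hs : Function.Surjective m) (hm : ∀ f g, m f = m g ↔ ∀ᶠ i in U, f i = g i)
    (φ : ∀ i, E i →+* E i) : ∃ φ' : F →+* F, ∀ f, φ' (m f) = m fun i => φ i (f i) := by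
  refine ⟨m.liftOfSurjective hs ⟨m.comp (RingHom.pi fun i => (φ i).comp (Pi.evalRingHom E i)),
    fun f hf => ?_⟩, fun f => RingHom.liftOfRightInverse_comp_apply _ _ _ _ f⟩
  rw [RingHom.mem_ker, ← map_zero m] at hf ⊢
  refine (hm _ _).2 ?_
  filter_upwards [(hm _ _).1 hf] with i hi
  simp [hi]

/-- The class of a family of pairs. -/
def ultraP (m : (∀ i, E i) →+* F) (p : ∀ i, E i × E i) : F × F :=
  (m fun i => (p i).1, m fun i => (p i).2)

theorem ultra_pair (hm : ∀ f g, m f = m g ↔ ∀ᶠ i in U, f i = g i) (p q : ∀ i, E i × E i) :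
    ultraP m p = ultraP m q ↔ ∀ᶠ i in U, p i = q i := by
  simp only [ultraP, Prod.ext_iff, hm, Filter.eventually_and]

theorem ultra_zero : ultraP m (fun _ => (0, 0)) = (0, 0) := Prod.ext (map_zero m) (map_zero m)

omit [Field F] in
theorem ultra_cases (U : Ultrafilter I) (k : ∀ i, Option (E i × E i)) :
    (∀ᶠ i in U, k i = none) ∨ ∃ p : ∀ i, E i × E i, ∀ᶠ i in U, k i = some (p i) := by
  refine or_iff_not_imp_left.2 fun h => ⟨fun i => (k i).getD 0, ?_⟩
  filter_upwards [Ultrafilter.eventually_not.2 h] with i hi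
  obtain ⟨p, hp⟩ := Option.ne_none_iff_exists'.1 hi
  simp [hp]

theorem ultra_opt (hm : ∀ f g, m f = m g ↔ ∀ᶠ i in U, f i = g i) :
    ∃ L : (∀ i, Option (E i × E i)) → Option (F × F),
      (∀ k, (∀ᶠ i in U, k i = none) → L k = none) ∧
      ∀ k (p : ∀ i, E i × E i), (∀ᶠ i in U, k i = some (p i)) → L k = some (ultraP m p) := by
  classical
  refine ⟨fun k => if ∀ᶠ i in U, k i = none then none else some (ultraP m fun i => (k i).getD 0),
    fun k h => if_pos h, fun k p h => (if_neg fun h' => ?_).trans (congrArg _ ?_)⟩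
  · obtain ⟨i, h1, h2⟩ := (h.and h').exists
    simp [h1] at h2
  · rw [ultra_pair hm]
    filter_upwards [h] with i hi
    simp [hi]

end

theorem exists_ultra {I Γ : Type} (U : Ultrafilter I) (E : I → Type) [∀ i, Field (E i)]
    (D : ∀ i, Datum (E i)) (κ : ∀ i, Γ → Option (E i × E i))
    (hon : ∀ i x p, κ i x = some p → (D i).On p) :
    ∃ (F : Type) (_ : Field F) (D' : Datum F) (κ' : Γ → Option (F × F)),
      (∀ x p, κ' x = some p → D'.On p) ∧
      (∀ x y, κ' x = κ' y → ∀ᶠ i in U, κ i x = κ i y) ∧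
      (∀ x, (∀ᶠ i in U, κ i x = none) → κ' x = none) ∧
      (∀ x, (∀ᶠ i in U, κ i x = some (0, 0)) → κ' x = some (0, 0)) ∧
      (∀ x y, (∀ᶠ i in U, κ i y = (D i).tau (κ i x)) → κ' y = D'.tau (κ' x)) ∧
      (∀ u : ∀ i, E i × E i, ∃ u' : F × F, ∀ x y,
        (∀ᶠ i in U, κ i y = (κ i x).map ((D i).add (u i))) → κ' y = (κ' x).map (D'.add u')) ∧
      ∀ (c : ∀ i, E i) (φ : ∀ i, E i →+* E i),
        (∀ᶠ i in U, ∀ x, φ i ((D i).θ x) = (D i).θ (φ i x)) →
        ∃ (c' : F) (φ' : F →+* F), (∀ x, φ' (D'.θ x) = D'.θ (φ' x)) ∧ ∀ x y,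
          (∀ᶠ i in U, κ i y = (κ i x).map ((D i).sc (c i) (φ i))) →
          κ' y = (κ' x).map (D'.sc c' φ') := by
  obtain ⟨F, _, m, hs, hm⟩ := ultra_field U E
  obtain ⟨θ, hθ⟩ := ultra_hom hs hm fun i => (D i).θ
  obtain ⟨L, L1, L2⟩ := ultra_opt hm
  obtain ⟨s, hz⟩ : ∃ s, ∀ᶠ i in U, (D i).suz = s :=
    Ultrafilter.eventually_exists_iff.1 (Filter.Eventually.of_forall fun _ => ⟨_, rfl⟩)
  let D' : Datum F :=
    { θ := θ
      suz := s
      two := by
        rw [← map_ofNat m 2, ← map_zero m, hm]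
        exact Filter.Eventually.of_forall fun i => (D i).two
      sq := fun x => by
        obtain ⟨f, rfl⟩ := hs x
        rw [hθ, hθ, ← map_pow, ← apply_ite m, hm]
        filter_upwards [hz] with i hi
        rw [(D i).sq, hi]
        cases s <;> rfl }
  have hmap : ∀ (T : ∀ i, E i × E i → E i × E i) (T' : F × F → F × F),
      (∀ p, T' (ultraP m p) = ultraP m fun i => T i (p i)) → ∀ x y,
      (∀ᶠ i in U, κ i y = (κ i x).map (T i)) →
        L (fun i => κ i y) = (L fun i => κ i x).map T' := fun T T' hT x y h => by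
    rcases ultra_cases U fun i => κ i x with h1 | ⟨p, h1⟩
    · rw [L1 _ h1, L1 _ (by filter_upwards [h, h1] with i a b; rw [a, b]; rfl)]
      rfl
    · rw [L2 _ _ h1, L2 _ (fun i => T i (p i)) (by
        filter_upwards [h, h1] with i a b; rw [a, b]; rfl), Option.map_some, hT]
  have L0 : ∀ k, (∀ᶠ i in U, k i = some (0, 0)) → L k = some (0, 0) := fun k h => by
    rw [L2 _ _ h, ultra_zero]
  refine ⟨F, inferInstance, D', fun x => L fun i => κ i x, fun x q hq => ?_, fun x y h => ?_,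
    fun x => L1 _, fun x => L0 _, fun x y h => ?_, fun u => ⟨ultraP m u, hmap _ _ fun p => ?_⟩,
    fun c φ h => ?_⟩
  · rcases ultra_cases U fun i => κ i x with h1 | ⟨p, h1⟩
    · simp [L1 _ h1] at hq
    · obtain rfl : ultraP m p = q := Option.some_injective _ ((L2 _ _ h1).symm.trans hq)
      refine or_iff_not_imp_left.2 fun h2 => ?_
      simp only [D', ultraP, hθ, ← map_mul, ← map_add, hm]
      filter_upwards [h1, hz] with i a b
      exact (hon i x _ a).resolve_left (b ▸ h2)
  · rcases ultra_cases U fun i => κ i x with h1 | ⟨p, h1⟩ <;>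
      rcases ultra_cases U fun i => κ i y with h2 | ⟨q, h2⟩
    · filter_upwards [h1, h2] with i a b
      rw [a, b]
    · simp [L1 _ h1, L2 _ _ h2] at h
    · simp [L1 _ h2, L2 _ _ h1] at h
    · simp only [L2 _ _ h1, L2 _ _ h2, Option.some.injEq, ultra_pair hm] at h
      filter_upwards [h1, h2, h] with i a b c
      rw [a, b, c]
  · rcases ultra_cases U fun i => κ i x with h1 | ⟨p, h1⟩
    · simp only [L1 _ h1]
      exact L0 _ (by filter_upwards [h, h1] with i a b; rw [a, b]; rfl)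
    simp only [L2 _ _ h1, Datum.tau]
    by_cases h2 : ultraP m p = (0, 0)
    · rw [if_pos h2]
      rw [← ultra_zero (m := m), ultra_pair hm] at h2
      exact L1 _ (by filter_upwards [h, h1, h2] with i a b c; rw [a, b, Datum.tau, if_pos c])
    rw [if_neg h2]
    rw [← ultra_zero (m := m), ultra_pair hm] at h2
    rw [L2 _ (fun i => (D i).inv (p i)) (by
      filter_upwards [h, h1, Ultrafilter.eventually_not.2 h2] with i a b c
      rw [a, b, Datum.tau, if_neg c])]
    have e1 : D'.nrm (ultraP m p) = m fun i => (D i).nrm (p i) := by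
      simp only [D', Datum.nrm, ultraP, hθ, ← map_mul, ← map_add, ← map_pow]
      rfl
    rw [Datum.inv, e1]
    simp only [D', ultraP, ← map_one m, ← ultra_div hm]
    cases s
    · refine congrArg _ (Prod.ext ((hm _ _).2 ?_) ((hm _ _).2 ?_)) <;>
        filter_upwards [hz] with i a <;> simp [Datum.inv, a]
    · refine congrArg _ (Prod.ext ((hm _ _).2 ?_) ((hm _ _).2 ?_)) <;>
        filter_upwards [hz] with i a <;> simp [Datum.inv, a]
  · simp only [D', Datum.add, ultraP, hθ, ← map_mul, ← map_add]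
    rfl
  · obtain ⟨φ', hφ⟩ := ultra_hom hs hm φ
    refine ⟨m c, φ', fun x => ?_, hmap _ _ fun p => ?_⟩
    · obtain ⟨f, rfl⟩ := hs x
      simp only [D', hθ, hφ, hm]
      filter_upwards [h] with i a using a _
    · simp only [D', Datum.sc, ultraP, hθ, hφ, ← map_mul]
      rfl

end Pool.Agent.Lib.MP_a7ce8b_al
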