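import Pool.Agent.Lib.MP_a7ce8b_al.C.StepB2
import Pool.Agent.Lib.MP_a7ce8b_al.C.Ultra

/-! Coordinates for the rank one recognition theorem. -/

namespace Pool.Agent.Lib.MP_a7ce8b_al

open Equiv MulAction

variable {G Ω : Type} [Group G] [MulAction G Ω] {N : Subgroup G}

theorem coord_twoEl {α : Ω} {H : Subgroup G} {X : Type} (S : Sec α H X) {g : G} (hg : g ∈ S.K)
    (h : TwoEl g) : TwoEl (S.r g) := by
  obtain ⟨m, hm⟩ := h
  exact ⟨m, by rw [← S.r_pow hg, hm, S.r_one]⟩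

theorem coord_r {α : Ω} {H : Subgroup G} {X : Type} (S : Sec α H X) (a : Perm X) (g : G) :
    (S.congr a).r g = a * S.r g * a⁻¹ := Equiv.permCongr_eq_mul a (S.r g)

/-- A normalised finite section. -/
theorem MHyp.exists_norm_sec (h : MHyp Ω N) {γ : Ω} {μ : G} (hμ : μ ∈ N) (h2 : μ * μ = 1)
    (hγ : μ • γ ≠ γ) (H : Subgroup G) [Finite H] (hH : μ ∈ H) :
    ∃ (E : Type) (_ : Field E) (D : Datum E) (S : Sec γ H D.Pt),
      S.π γ = none ∧ S.π (μ • γ) = D.o ∧ D.IsTau (S.r μ) ∧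
      (∀ n ∈ S.K, n ∈ N → n * n = 1 → S.r n ∈ D.L) ∧
      (∀ g ∈ S.K, S.r g ∈ D.L → TwoEl g → g • γ = γ → D.IsTrans (S.r g)) ∧
      (∀ g ∈ S.K, g • γ = γ → g • μ • γ = μ • γ → D.IsSemi (S.r g)) ∧
      ∀ k ∈ S.K, k • γ ≠ γ → ∃ n ∈ S.K, n ∈ N ∧ TwoEl n ∧ n • γ = γ ∧ n • μ • γ = k • γ := by
  obtain ⟨E, _, _, D, S0, hb, hinj0, hLN0, hYA0, hinv0⟩ := h.stepB γ H
  have hq := sqrt_of_alg (alg_of_finite D.two)
  have hK : μ ∈ S0.K := S0.le hH
  obtain ⟨a, ha, a1, a2, a3⟩ := Datum.normalise hb hq (hinv0 μ hK hμ h2)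
    (by rw [← S0.r_mul _ hK _ hK, h2, S0.r_one]) (x := S0.π γ) fun e => hγ (by
      have := hinj0 μ hK 1 S0.K.one_mem (by rw [S0.eqv₁ hK, e, one_smul])
      rwa [one_smul] at this)
  obtain ⟨S, hS⟩ : ∃ S, S = S0.congr a := ⟨_, rfl⟩
  have hSK : S.K = S0.K := by rw [hS]; rfl
  have hr : ∀ g, S.r g = a * S0.r g * a⁻¹ := fun g => by rw [hS, coord_r]
  have hπ : ∀ x, S.π x = a (S0.π x) := fun x => by rw [hS]; rfl
  have hinj : ∀ k ∈ S.K, ∀ k' ∈ S.K, S.π (k • γ) = S.π (k' • γ) → k • γ = k' • γ :=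
    fun k hk k' hk' e => hinj0 k (hSK ▸ hk) k' (hSK ▸ hk') (a.injective (by rwa [← hπ, ← hπ]))
  have hinj1 : ∀ k ∈ S.K, S.π (k • γ) = S.π γ → k • γ = γ := fun k hk e => by
    have := hinj k hk 1 S.K.one_mem (by rwa [one_smul])
    rwa [one_smul] at this
  have hK' : μ ∈ S.K := hSK ▸ hK
  have b1 : S.π γ = none := by rw [hπ, a1]
  have b2 : S.π (μ • γ) = D.o := by rw [hπ, S0.eqv₁ hK, a2]
  have fix : ∀ g ∈ S.K, g • γ = γ → S.r g none = none := fun g hg e => by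
    rw [← b1, ← S.eqv₁ hg, e]
  refine ⟨E, inferInstance, D, S, b1, b2, hr μ ▸ a3, fun n hn h3 h4 => ?_, fun g hg h3 h4 h5 =>
    Datum.isTrans_of_two hb hq h3 (coord_twoEl S hg h4) (fix g hg h5), fun g hg h3 h4 => ?_,
    fun k hk h3 => ?_⟩
  · rw [hr]
    exact Datum.norm_L hb hq a ha _ (hinv0 n (hSK ▸ hn) h3 h4)
  · refine Datum.stabA hb hq ?_ (fix g hg h3) (by rw [← b2, ← S.eqv g hg μ hK', h4])
    rw [hr]
    exact D.A.mul_mem (D.A.mul_mem ha (hYA0 (S0.mem_Y.2 ⟨g, hSK ▸ hg, rfl⟩))) (D.A.inv_mem ha)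
  · obtain ⟨l, hl, l1, l2, l3⟩ := (Datum.bcomp_finite hb).core.utrans none D.o (S.π (k • γ))
      (Option.some_ne_none _) fun e => h3 (hinj1 k hk (e.trans b1.symm))
    obtain ⟨g, hg, g1, g2⟩ := S0.mem_im.1 (hLN0 (Datum.norm_L hb hq _ (D.A.inv_mem ha) l hl))
    obtain ⟨n, hn, n1, n2, n3⟩ := S.lift_twoEl (M := N)
      (S.mem_im.2 ⟨g, hSK ▸ hg, g1, by rw [hr, g2]; group⟩) l1
    refine ⟨n, hn, n1, n2, hinj1 n hn (by rw [S.eqv₁ hn, n3, b1, l2]), ?_⟩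
    rw [← mul_smul]
    exact hinj _ (S.K.mul_mem hn hK') k hk (by rw [mul_smul, S.eqv n hn μ hK', n3, b2, l3])

theorem MHyp.locRT (h : MHyp Ω N) {γ : Ω} {μ : G} (hμ : μ ∈ N) (h2 : μ * μ = 1)
    (hγ : μ • γ ≠ γ) : LocRT N γ μ := by
  intro s hs
  choose n hn1 hn2 using h.trans γ
  have := h.lf.finite_closure ((hs.image n).insert μ)
  obtain ⟨E, _, D, S, -, -, -, -, -, -, h3⟩ := h.exists_norm_sec hμ h2 hγ
    (Subgroup.closure (insert μ (n '' s))) (Subgroup.subset_closure (Set.mem_insert _ _))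
  have := S.fin
  have hK : μ ∈ S.K := S.le (Subgroup.subset_closure (Set.mem_insert _ _))
  have key : ∀ g ∈ S.K, ∀ y ∈ Set.range fun k : S.K => k.1 • γ,
      g • y ∈ Set.range fun k : S.K => k.1 • γ := by
    rintro g hg _ ⟨k, rfl⟩
    exact ⟨⟨g * k.1, S.K.mul_mem hg k.2⟩, mul_smul _ _ _⟩
  refine ⟨Set.range fun k : S.K => k.1 • γ, Set.finite_range _, fun x hx =>
    ⟨⟨n x, S.le (Subgroup.subset_closure (Or.inr ⟨x, hx, rfl⟩))⟩, hn2 x⟩, key μ hK, ?_⟩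
  rintro _ ⟨k, rfl⟩ hk
  obtain ⟨m, hm, m1, m2, m3, m4⟩ := h3 k.1 k.2 hk
  exact ⟨m, m1, m2, m3, m4, key m hm⟩

theorem MHyp.exists_coord (h : MHyp Ω N) {γ : Ω} {μ : G} (hμ : μ ∈ N) (h2 : μ * μ = 1)
    (hγ : μ • γ ≠ γ) :
    ∃ (E : Type) (_ : Field E) (D : Datum E) (κ : Ω → Option (E × E)), Coord N γ μ D κ := by
  have := h.lf.finite_closure (Set.finite_singleton μ)
  obtain ⟨U, H, hfin, hP, hH⟩ := h.lf.exists_family (Subgroup.closure {μ})
  choose E inst D S s1 s2 s3 s4 s5 s6 s7 using fun i =>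
    h.exists_norm_sec hμ h2 hγ (H i) (hP i (Subgroup.subset_closure rfl))
  obtain ⟨F, _, D', κ, k1, k2, k3, k4, k5, k6, k7⟩ := exists_ultra U E D
    (fun i x => (D i).co ((S i).π x)) fun i x p hp => by
      obtain ⟨q, -, rfl⟩ := Option.map_eq_some_iff.1 hp
      exact q.2
  have hK : ∀ g, ∀ᶠ i in U, g ∈ (S i).K := fun g => (hH g).mono fun i hi => (S i).le hi
  have eqv : ∀ (g : G) (x : Ω), ∀ᶠ i in U, (S i).π (g • x) = (S i).r g ((S i).π x) := fun g x => by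
    obtain ⟨n, -, rfl⟩ := h.trans γ x
    filter_upwards [hK g, hK n] with i h3 h4 using (S i).eqv g h3 n h4
  refine ⟨F, inferInstance, D', κ, fun x y e => ?_, k1,
    k3 _ (Filter.Eventually.of_forall fun i => by rw [s1]; rfl),
    k4 _ (Filter.Eventually.of_forall fun i => by rw [s2]; rfl),
    fun x => k5 _ _ ((eqv μ x).mono fun i hi => by rw [hi, s3 i]), fun n hn n1 n2 => ?_,
    fun g g1 g2 => ?_⟩
  · obtain ⟨n, -, rfl⟩ := h.trans γ x
    obtain ⟨m, -, rfl⟩ := h.trans γ y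
    obtain ⟨i, h3, h4, h5⟩ := ((k2 _ _ e).and ((hH n).and (hH m))).exists
    exact (S i).inj n h4 m h5 ((D i).co_inj h3)
  · have hL : ∀ m ∈ Subgroup.closure {n | n ∈ N ∧ n * n = 1},
        ∀ᶠ i in U, (S i).r m ∈ (D i).L := fun m hm => by
      induction hm using Subgroup.closure_induction with
      | mem x hx => exact (hK x).mono fun i hi => s4 i x hi hx.1 hx.2
      | one => exact Filter.Eventually.of_forall fun i => (S i).r_one ▸ (D i).L.one_mem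
      | mul x y _ _ hx hy =>
        filter_upwards [hx, hy, hK x, hK y] with i h3 h4 h5 h6
        rw [(S i).r_mul x h5 y h6]
        exact (D i).L.mul_mem h3 h4
      | inv x _ hx =>
        filter_upwards [hx, hK x] with i h3 h4
        rw [(S i).r_inv h4]
        exact (D i).L.inv_mem h3
    have hu : ∀ i, ∃ u, (D i).IsTrans ((S i).r n) → (D i).TransBy u ((S i).r n) := fun i => by
      by_cases h3 : (D i).IsTrans ((S i).r n)
      · obtain ⟨u, hu⟩ := h3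
        exact ⟨u.1, fun _ => hu⟩
      · exact ⟨0, fun h4 => absurd h4 h3⟩
    choose u hu using hu
    obtain ⟨u', hu'⟩ := k6 u
    refine ⟨u', fun x => hu' _ _ ?_⟩
    filter_upwards [eqv n x, hK n, hL n (h.gen hn)] with i h3 h4 h5
    rw [h3, hu i (s5 i n h4 h5 n1 n2)]
  · have hc : ∀ i, ∃ (c : E i) (φ : E i →+* E i), (D i).IsSemi ((S i).r g) →
        (∀ x, φ ((D i).θ x) = (D i).θ (φ x)) ∧ (D i).SemiBy c φ ((S i).r g) := fun i => by
      by_cases h3 : (D i).IsSemi ((S i).r g)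
      · obtain ⟨c, φ, h4, h5⟩ := h3
        exact ⟨c, φ.toRingHom, fun _ => ⟨h4, h5⟩⟩
      · exact ⟨0, RingHom.id _, fun h4 => absurd h4 h3⟩
    choose c φ hc using hc
    obtain ⟨c', φ', h3, h4⟩ := k7 c φ ((hK g).mono fun i hi => (hc i (s6 i g hi g1 g2)).1)
    refine ⟨c', φ', h3, fun x => h4 _ _ ?_⟩
    filter_upwards [eqv g x, hK g] with i h5 h6
    rw [h5, (hc i (s6 i g h6 g1 g2)).2]

end Pool.Agent.Lib.MP_a7ce8b_al
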