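import Pool.Agent.Lib.MP_a7ce8b_al.C.Wr0

/-! Formulas for the rank one data. -/

namespace Pool.Agent.Lib.MP_a7ce8b_al

open Equiv MulAction

namespace Datum

variable {E : Type} [Field E] (D : Datum E)

/-- The parameter of `τ h τ`. -/
def cstar (c : E) : E := if D.suz then c⁻¹ else (D.θ c)⁻¹

theorem co_o : D.co D.o = some (0, 0) := rfl

theorem co_none : D.co none = none := rfl

theorem co_some (p : D.Aff) : D.co (some p) = some p.1 := rfl

theorem add_self (x : E) (_D : Datum E) : x + x = 0 := by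
  rw [← two_mul, _D.two, zero_mul]

theorem dat1_sq (hs : D.suz = true) (x : E) : D.θ (D.θ x) = x ^ 2 := by
  rw [D.sq, if_pos hs]

theorem dat1_id (hs : D.suz = false) (x : E) : D.θ (D.θ x) = x := by
  rw [D.sq, if_neg (by simp [hs])]

theorem dat1_on (hs : D.suz = false) {p : E × E} : D.On p ↔ p.1 * D.θ p.1 = p.2 + D.θ p.2 :=
  or_iff_right (by simp [hs])

theorem dat1_invT (hs : D.suz = true) (p : E × E) :
    D.inv p = (p.2 / D.nrm p, p.1 / D.nrm p) := if_pos hs

theorem dat1_invF (hs : D.suz = false) (p : E × E) : D.inv p = (p.1 / p.2, 1 / p.2) :=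
  if_neg (by simp [hs])

theorem dat1_snd (hs : D.suz = false) {p : E × E} (hp : D.On p) (h0 : p ≠ (0, 0)) :
    p.2 ≠ 0 := by
  intro h
  have h1 := (D.dat1_on hs).1 hp
  rw [h, map_zero, add_zero] at h1
  exact h0 (Prod.ext ((mul_eq_zero.1 h1).elim id (map_eq_zero D.θ).1) h)

theorem dat1_key (hs : D.suz = true) (p : E × E) : D.nrm p * D.θ (D.nrm p) =
    p.2 ^ 2 * D.θ p.2 + p.1 * p.2 * D.θ (D.nrm p) + D.θ p.1 * D.nrm p ^ 2 := by
  simp only [nrm, map_add, map_mul, map_pow, D.dat1_sq hs]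
  linear_combination -(D.θ p.1 * (p.1 ^ 3 * D.θ p.1 * p.2 + p.1 * p.2 * D.θ p.2)) * D.two

theorem on_zero_one : D.On (0, 1) := by
  refine Or.inr ?_
  simp only [map_one, zero_mul]
  exact (add_self 1 D).symm

theorem On.add {u p : E × E} (hu : D.On u) (hp : D.On p) : D.On (D.add u p) := by
  cases hs : D.suz
  · have h1 := (D.dat1_on hs).1 hu
    have h2 := (D.dat1_on hs).1 hp
    refine Or.inr ?_
    simp only [Datum.add, map_add, map_mul, D.dat1_id hs]
    linear_combination h1 + h2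
  · exact Or.inl hs

theorem On.neg {u : E × E} (hu : D.On u) : D.On (u.1, u.2 + D.θ u.1 * u.1) := by
  cases hs : D.suz
  · have h1 := (D.dat1_on hs).1 hu
    refine Or.inr ?_
    simp only [map_add, map_mul, D.dat1_id hs]
    linear_combination h1 - (u.1 * D.θ u.1) * D.two
  · exact Or.inl hs

theorem On.inv {p : E × E} (hp : D.On p) (h0 : p ≠ (0, 0)) : D.On (D.inv p) := by
  cases hs : D.suz
  · have h1 := (D.dat1_on hs).1 hp
    have h2 := D.dat1_snd hs hp h0
    have h3 : D.θ p.2 ≠ 0 := (map_ne_zero D.θ).2 h2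
    refine Or.inr ?_
    rw [D.dat1_invF hs]
    simp only [map_div₀, map_one]
    field_simp
    linear_combination h1
  · exact Or.inl hs

theorem On.sc {p : E × E} (hp : D.On p) (c : E) (φ : E →+* E)
    (hφ : ∀ x, φ (D.θ x) = D.θ (φ x)) : D.On (D.sc c φ p) := by
  cases hs : D.suz
  · have h1 := congrArg φ ((D.dat1_on hs).1 hp)
    refine Or.inr ?_
    simp only [Datum.sc, map_add, map_mul, D.dat1_id hs, hφ] at h1 ⊢
    linear_combination (c * D.θ c) * h1
  · exact Or.inl hs

theorem add_assoc' (u v p : E × E) : D.add (D.add u v) p = D.add u (D.add v p) := by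
  refine Prod.ext (add_assoc _ _ _) ?_
  simp only [add, map_add]
  ring

theorem add_zero' (u : E × E) : D.add u (0, 0) = u := by
  simp [add]

theorem zero_add' (u : E × E) : D.add (0, 0) u = u := by
  simp [add]

theorem add_neg' (u : E × E) : D.add u (u.1, u.2 + D.θ u.1 * u.1) = (0, 0) := by
  refine Prod.ext (add_self _ D) ?_
  simp only [add]
  linear_combination (u.2 + D.θ u.1 * u.1) * D.two

theorem neg_add' (u : E × E) : D.add (u.1, u.2 + D.θ u.1 * u.1) u = (0, 0) := by
  refine Prod.ext (add_self _ D) ?_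
  simp only [add]
  linear_combination (u.2 + D.θ u.1 * u.1) * D.two

theorem nrm_ne_zero (hs : D.suz = true) {p : E × E} (h0 : p ≠ (0, 0)) : D.nrm p ≠ 0 := by
  intro h
  have h1 := D.dat1_key hs p
  rw [h, map_zero, mul_zero, mul_zero, zero_pow two_ne_zero, mul_zero, add_zero, add_zero] at h1
  have h2 : p.2 = 0 := (mul_eq_zero.1 h1.symm).elim (pow_eq_zero_iff two_ne_zero).1
    (map_eq_zero D.θ).1
  rw [nrm, h2, mul_zero, map_zero, add_zero, add_zero] at h
  exact h0 (Prod.ext ((mul_eq_zero.1 h).elim (pow_eq_zero_iff two_ne_zero).1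
    (map_eq_zero D.θ).1) h2)

theorem nrm_add (hs : D.suz = true) (u p : E × E) : D.nrm (D.add u p) =
    D.nrm p + (u.2 + u.1 * D.θ u.1) * p.1 + u.1 * p.2 + D.nrm u := by
  simp only [nrm, add, map_add, map_mul, D.dat1_sq hs]
  linear_combination (u.1 ^ 2 * D.θ p.1 + u.1 * p.1 * D.θ u.1 + u.1 * p.1 * D.θ p.1 +
    p.1 ^ 2 * D.θ u.1) * D.two

theorem nrm_inv (hs : D.suz = true) {p : E × E} (h0 : p ≠ (0, 0)) :
    D.nrm (D.inv p) = (D.nrm p)⁻¹ := by
  have h1 := D.dat1_key hs p
  have h2 := D.nrm_ne_zero hs h0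
  have h3 : D.θ (D.nrm p) ≠ 0 := (map_ne_zero D.θ).2 h2
  rw [D.dat1_invT hs]
  generalize D.nrm p = n at h1 h2 h3
  simp only [nrm, map_div₀]
  field_simp
  linear_combination -h1

theorem nrm_sc (hs : D.suz = true) (c : E) (φ : E →+* E) (hφ : ∀ x, φ (D.θ x) = D.θ (φ x))
    (p : E × E) : D.nrm (D.sc c φ p) = c ^ 2 * D.θ c * φ (D.nrm p) := by
  simp only [nrm, sc, map_add, map_mul, map_pow, D.dat1_sq hs, hφ]
  ring

theorem snd_ne_zero (hs : D.suz = false) {p : E × E} (hp : D.On p) (h0 : p ≠ (0, 0)) :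
    p.2 ≠ 0 := by
  exact D.dat1_snd hs hp h0

theorem inv_ne_zero' {p : E × E} (hp : D.On p) (h0 : p ≠ (0, 0)) : D.inv p ≠ (0, 0) := by
  intro h
  cases hs : D.suz
  · rw [D.dat1_invF hs] at h
    exact one_div_ne_zero (D.dat1_snd hs hp h0) (congrArg Prod.snd h)
  · have h1 := D.nrm_inv hs h0
    rw [h] at h1
    exact inv_ne_zero (D.nrm_ne_zero hs h0) (by rw [← h1]; simp [nrm])

theorem inv_inv' {p : E × E} (hp : D.On p) (h0 : p ≠ (0, 0)) : D.inv (D.inv p) = p := by
  cases hs : D.suz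
  · have h2 := D.dat1_snd hs hp h0
    rw [D.dat1_invF hs, D.dat1_invF hs]
    exact Prod.ext (by simp only; field_simp) (one_div_one_div _)
  · have h2 := D.nrm_ne_zero hs h0
    rw [D.dat1_invT hs, D.nrm_inv hs h0, D.dat1_invT hs]
    exact Prod.ext (by simp only; field_simp) (by simp only; field_simp)

/-- Either every `a` is the first coordinate of a point, or we are in the linear case. -/
theorem dichotomy : (∀ a, ∃ b, D.On (a, b)) ∨ (D.suz = false ∧ ∀ x, D.θ x = x) := by
  cases hs : D.suz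
  · by_cases h : ∀ x, D.θ x = x
    · exact Or.inr ⟨rfl, h⟩
    · obtain ⟨x, hx⟩ := not_forall.1 h
      have h1 : x + D.θ x ≠ 0 := fun h1 => hx (by linear_combination h1 - x * D.two)
      have h2 : D.θ x + x ≠ 0 := by rwa [add_comm]
      refine Or.inl fun a => ⟨x / (x + D.θ x) * (a * D.θ a), Or.inr ?_⟩
      simp only [map_add, map_mul, map_div₀, D.dat1_id hs, add_comm (D.θ x) x]
      field_simp
  · exact Or.inl fun a => ⟨0, Or.inl hs⟩

variable {D}

theorem big_of_infinite [Infinite E] : D.Big := by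
  by_contra hb
  have h1 : ∀ x, D.On (0, x) → x * x = x := fun x hx => by
    by_contra h
    exact hb ⟨⟨(0, x), hx⟩, rfl, fun h0 : x = 0 => h (by rw [h0, mul_zero]),
      fun h0 : x = 1 => h (by rw [h0, mul_one])⟩
  have h2 : ∀ x : E, x ^ 4 = x := fun x => by
    cases hs : D.suz
    · have a1 := h1 (x + D.θ x) (Or.inr (by
        simp only [map_add, D.dat1_id hs, zero_mul]
        linear_combination -(x + D.θ x) * D.two))
      have a2 := h1 (x * D.θ x) (Or.inr (by
        simp only [map_mul, D.dat1_id hs, zero_mul]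
        linear_combination -(x * D.θ x) * D.two))
      have a3 : ∀ {y : E}, y * y = y → y = 0 ∨ y = 1 := fun {y} h =>
        (eq_or_ne y 0).imp_right fun h0 => mul_left_cancel₀ h0 (h.trans (mul_one y).symm)
      have h2 := D.two
      generalize D.θ x = y at a1 a2
      rcases a3 a1 with b1 | b1 <;> rcases a3 a2 with b2 | b2
      · have : x ^ 2 = 0 := by linear_combination x * b1 - b2
        rw [(pow_eq_zero_iff two_ne_zero).1 this, zero_pow four_ne_zero]
      · have : (x + 1) ^ 2 = 0 := by linear_combination x * b1 - b2 + x * h2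
        have : x = 1 := by linear_combination (pow_eq_zero_iff two_ne_zero).1 this - h2
        rw [this, one_pow]
      · have : x ^ 2 = x := by linear_combination x * b1 - b2
        linear_combination (x ^ 2 + x + 1) * this
      · have : x ^ 2 - x + 1 = 0 := by linear_combination x * b1 - b2
        linear_combination (x ^ 2 + x) * this - x * h2
    · linear_combination (x ^ 2 + x + 1) * h1 x (Or.inl hs)
  have h3 : (Polynomial.X ^ 4 : Polynomial E) = Polynomial.X :=
    Polynomial.funext fun x => by simp [h2]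
  simpa using congrArg Polynomial.natDegree h3

end Datum

theorem sqrt_of_alg {E : Type} [Field E] (h : ∀ x : E, ∃ n, 0 < n ∧ x ^ 2 ^ n = x) (x : E) :
    ∃ y, y ^ 2 = x := by
  obtain ⟨n, hn, e⟩ := h x
  obtain ⟨m, rfl⟩ := Nat.exists_eq_add_one_of_ne_zero hn.ne'
  exact ⟨x ^ 2 ^ m, by rw [← pow_mul, ← pow_succ, e]⟩

theorem alg_of_finite {E : Type} [Field E] [Finite E] (h2 : (2 : E) = 0) (x : E) :
    ∃ n, 0 < n ∧ x ^ 2 ^ n = x := by
  have := Fintype.ofFinite E
  have := CharTwo.of_one_ne_zero_of_two_eq_zero one_ne_zero h2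
  obtain ⟨n, -, hn⟩ := FiniteField.card E 2
  exact ⟨n, n.pos, hn ▸ FiniteField.pow_card x⟩

end Pool.Agent.Lib.MP_a7ce8b_al
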