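import Pool.Agent.Lib.MP_a7ce8b_al.C.Dat1

/-! The generators of the rank one groups as permutations. -/

namespace Pool.Agent.Lib.MP_a7ce8b_al

open Equiv MulAction

namespace Datum

variable {E : Type} [Field E] (D : Datum E)

theorem dat2_mk (F F' : Option (E × E) → Option (E × E)) (h : ∀ x, ∃ y, D.co y = F (D.co x))
    (h' : ∀ x, ∃ y, D.co y = F' (D.co x)) (l : ∀ x : D.Pt, F' (F (D.co x)) = D.co x)
    (r : ∀ x : D.Pt, F (F' (D.co x)) = D.co x) :
    ∃ g : Perm D.Pt, ∀ x, D.co (g x) = F (D.co x) := by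
  choose f hf using h
  choose f' hf' using h'
  exact ⟨⟨f, f', fun x => D.co_inj (by rw [hf', hf, l]), fun x => D.co_inj (by rw [hf, hf', r])⟩,
    hf⟩

theorem dat2_map (f : E × E → E × E) (h : ∀ p, D.On p → D.On (f p)) (x : D.Pt) :
    ∃ y, D.co y = (D.co x).map f := by
  cases x with
  | none => exact ⟨none, rfl⟩
  | some p => exact ⟨some ⟨f p.1, h p.1 p.2⟩, rfl⟩

theorem dat2_map_id {f : E × E → E × E} (h : ∀ p, f p = p) (x : Option (E × E)) : x.map f = x := by
  cases x with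
  | none => rfl
  | some p => exact congrArg some (h p)

theorem dat2_sc_sc (c c' : E) (φ : E →+* E) (φ' : E → E) (hφ : ∀ x, φ (D.θ x) = D.θ (φ x))
    (p : E × E) : D.sc c φ (D.sc c' φ' p) = D.sc (c * φ c') (φ ∘ φ') p := by
  simp only [sc, map_mul, hφ, Function.comp]
  exact Prod.ext (by ring) (by ring)

theorem dat2_sc_one {φ : E → E} (h : ∀ x, φ x = x) (p : E × E) : D.sc 1 φ p = p := by
  simp [sc, h]

theorem dat2_sc_zero (c : E) (φ : E →+* E) : D.sc c φ (0, 0) = (0, 0) := by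
  simp [sc]

theorem dat2_symm {φ : E ≃+* E} (hφ : ∀ x, φ (D.θ x) = D.θ (φ x)) (x : E) :
    φ.symm (D.θ x) = D.θ (φ.symm x) :=
  φ.injective (by rw [hφ, φ.apply_symm_apply, φ.apply_symm_apply])

theorem dat2_left {c : E} (hc : c ≠ 0) {φ : E ≃+* E} (hφ : ∀ x, φ (D.θ x) = D.θ (φ x))
    (p : E × E) : D.sc (φ.symm c⁻¹) φ.symm (D.sc c φ p) = p := by
  refine (D.dat2_sc_sc _ c (φ.symm : E →+* E) φ (D.dat2_symm hφ) p).trans ?_
  have e : φ.symm c⁻¹ * (φ.symm : E →+* E) c = 1 := by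
    show φ.symm c⁻¹ * φ.symm c = 1
    rw [← map_mul, inv_mul_cancel₀ hc, map_one]
  rw [e]
  exact D.dat2_sc_one (fun x => φ.symm_apply_apply x) p

theorem dat2_right {c : E} (hc : c ≠ 0) {φ : E ≃+* E} (hφ : ∀ x, φ (D.θ x) = D.θ (φ x))
    (p : E × E) : D.sc c φ (D.sc (φ.symm c⁻¹) φ.symm p) = p := by
  refine (D.dat2_sc_sc c _ (φ : E →+* E) φ.symm hφ p).trans ?_
  have e : c * (φ : E →+* E) (φ.symm c⁻¹) = 1 := by
    show c * φ (φ.symm c⁻¹) = 1
    rw [φ.apply_symm_apply, mul_inv_cancel₀ hc]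
  rw [e]
  exact D.dat2_sc_one (fun x => φ.apply_symm_apply x) p

theorem dat2_tau_zero : D.tau (some (0, 0)) = none := if_pos rfl

theorem dat2_tau_ne {p : E × E} (h : p ≠ (0, 0)) : D.tau (some p) = some (D.inv p) := if_neg h

theorem dat2_tau_tau (x : D.Pt) : D.tau (D.tau (D.co x)) = D.co x := by
  cases x with
  | none => exact D.dat2_tau_zero
  | some p =>
    rw [co_some]
    by_cases h : p.1 = (0, 0)
    · rw [h, dat2_tau_zero]
      rfl
    · rw [D.dat2_tau_ne h, D.dat2_tau_ne (D.inv_ne_zero' p.2 h), D.inv_inv' p.2 h]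

theorem dat2_tau_ex (x : D.Pt) : ∃ y, D.co y = D.tau (D.co x) := by
  cases x with
  | none => exact ⟨D.o, rfl⟩
  | some p =>
    rw [co_some]
    by_cases h : p.1 = (0, 0)
    · rw [h, dat2_tau_zero]
      exact ⟨none, rfl⟩
    · rw [D.dat2_tau_ne h]
      exact ⟨some ⟨D.inv p.1, On.inv D p.2 h⟩, rfl⟩

theorem dat2_inv_sc {c : E} (hc : c ≠ 0) (φ : E →+* E) (hφ : ∀ x, φ (D.θ x) = D.θ (φ x))
    {p : E × E} (hp : D.On p) (h0 : p ≠ (0, 0)) :
    D.inv (D.sc c φ (D.inv p)) = D.sc (D.cstar c) φ p := by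
  have hθ : D.θ c ≠ 0 := (map_ne_zero D.θ).2 hc
  cases hs : D.suz with
  | true =>
    have hN : φ (D.nrm p) ≠ 0 := (map_ne_zero φ).2 (D.nrm_ne_zero hs h0)
    have h1 := D.nrm_sc hs c φ hφ (D.inv p)
    rw [D.nrm_inv hs h0] at h1
    have e : ∀ q, D.inv q = (q.2 / D.nrm q, q.1 / D.nrm q) := fun q => by simp [inv, hs]
    rw [e (D.sc c φ _), h1, e p]
    simp only [sc, cstar, hs, if_true, map_div₀, map_inv₀]
    exact Prod.ext (by field_simp) (by field_simp)
  | false =>
    have hN : φ p.2 ≠ 0 := (map_ne_zero φ).2 (D.snd_ne_zero hs hp h0)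
    have h1 : D.θ (D.θ c) = c := by simpa [hs] using D.sq c
    have e : ∀ q, D.inv q = (q.1 / q.2, 1 / q.2) := fun q => by simp [inv, hs]
    rw [e (D.sc c φ _), e p]
    simp only [sc, cstar, hs, Bool.false_eq_true, if_false, map_div₀, map_inv₀, map_one, h1]
    exact Prod.ext (by field_simp) (by field_simp)

theorem exists_trans {u : E × E} (hu : D.On u) : ∃ g, D.TransBy u g := by
  refine D.dat2_mk (Option.map (D.add u)) (Option.map (D.add (u.1, u.2 + D.θ u.1 * u.1)))
    (D.dat2_map _ fun p hp => On.add D hu hp) (D.dat2_map _ fun p hp => On.add D (On.neg D hu) hp)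
    (fun x => ?_) fun x => ?_
  · rw [Option.map_map]
    exact dat2_map_id (fun p => by
      rw [Function.comp, ← add_assoc', neg_add', zero_add']) _
  · rw [Option.map_map]
    exact dat2_map_id (fun p => by
      rw [Function.comp, ← add_assoc', add_neg', zero_add']) _

theorem exists_tau : ∃ g, D.IsTau g := by
  exact D.dat2_mk D.tau D.tau D.dat2_tau_ex D.dat2_tau_ex D.dat2_tau_tau D.dat2_tau_tau

theorem exists_semi {c : E} (hc : c ≠ 0) (φ : E ≃+* E) (hφ : ∀ x, φ (D.θ x) = D.θ (φ x)) :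
    ∃ g, D.SemiBy c φ g := by
  refine D.dat2_mk (Option.map (D.sc c φ)) (Option.map (D.sc (φ.symm c⁻¹) φ.symm))
    (D.dat2_map _ fun p hp => On.sc D hp c (φ : E →+* E) hφ)
    (D.dat2_map _ fun p hp => On.sc D hp _ (φ.symm : E →+* E) (D.dat2_symm hφ))
    (fun x => ?_) fun x => ?_
  · rw [Option.map_map]
    exact dat2_map_id (D.dat2_left hc hφ) _
  · rw [Option.map_map]
    exact dat2_map_id (D.dat2_right hc hφ) _

variable {D}

theorem isTrans_iff {g : Perm D.Pt} : D.IsTrans g ↔ ∃ u, D.On u ∧ D.TransBy u g :=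
  ⟨fun ⟨u, h⟩ => ⟨u.1, u.2, h⟩, fun ⟨u, hu, h⟩ => ⟨⟨u, hu⟩, h⟩⟩

theorem IsTrans.mem {g : Perm D.Pt} (h : D.IsTrans g) : g ∈ D.L :=
  Subgroup.subset_closure (Or.inl h)

theorem IsTau.mem {g : Perm D.Pt} (h : D.IsTau g) : g ∈ D.L := Subgroup.subset_closure (Or.inr h)

theorem IsSemi.mem {g : Perm D.Pt} (h : D.IsSemi g) : g ∈ D.A :=
  Subgroup.subset_closure (Or.inr (Or.inr h))

theorem L_le_A : D.L ≤ D.A := Subgroup.closure_mono fun _ h => h.elim Or.inl (Or.inr ∘ Or.inl)

theorem TransBy.unique {u : E × E} {g g' : Perm D.Pt} (h : D.TransBy u g) (h' : D.TransBy u g') :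
    g = g' := Equiv.ext fun x => D.co_inj ((h x).trans (h' x).symm)

theorem IsTau.unique {g g' : Perm D.Pt} (h : D.IsTau g) (h' : D.IsTau g') : g = g' :=
  Equiv.ext fun x => D.co_inj ((h x).trans (h' x).symm)

theorem SemiBy.unique {c : E} {φ : E → E} {g g' : Perm D.Pt} (h : D.SemiBy c φ g)
    (h' : D.SemiBy c φ g') : g = g' := Equiv.ext fun x => D.co_inj ((h x).trans (h' x).symm)

theorem TransBy.mul {u v : E × E} {g g' : Perm D.Pt} (h : D.TransBy u g) (h' : D.TransBy v g') :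
    D.TransBy (D.add u v) (g * g') := by
  intro x
  rw [Perm.mul_apply, h, h', Option.map_map]
  exact congrArg (Option.map · _) (funext fun p => (D.add_assoc' u v p).symm)

theorem transBy_one : D.TransBy (0, 0) 1 := by
  exact fun x => (dat2_map_id D.zero_add' _).symm

theorem TransBy.inv {u : E × E} {g : Perm D.Pt} (h : D.TransBy u g) :
    D.TransBy (u.1, u.2 + D.θ u.1 * u.1) g⁻¹ := by
  intro x
  obtain ⟨y, rfl⟩ := g.surjective x
  rw [show g⁻¹ (g y) = y from g.symm_apply_apply y, h, Option.map_map]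
  exact (dat2_map_id (fun p => by
    rw [Function.comp, ← add_assoc', neg_add', zero_add']) _).symm

theorem TransBy.inf {u : E × E} {g : Perm D.Pt} (h : D.TransBy u g) : g none = none := by
  exact D.co_inj (h none)

theorem TransBy.zero {u : E × E} {g : Perm D.Pt} (h : D.TransBy u g) :
    D.co (g D.o) = some u := by
  rw [h, co_o, Option.map_some, add_zero']

theorem TransBy.pow_four {u : E × E} {g : Perm D.Pt} (h : D.TransBy u g) : g ^ 4 = 1 := by
  have h2 := (h.mul h).mul (h.mul h)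
  have e : D.add (D.add u u) (D.add u u) = (0, 0) := by
    simp only [add, D.add_self, map_zero, zero_mul]
  rw [e] at h2
  rw [show g ^ 4 = g * g * (g * g) by rw [pow_succ, pow_three, mul_assoc, mul_assoc, mul_assoc]]
  exact h2.unique transBy_one

/-- A non-trivial translation fixes only `∞`. -/
theorem TransBy.eq_one {u : E × E} {g : Perm D.Pt} (h : D.TransBy u g) {x : D.Pt} (hx : x ≠ none)
    (hg : g x = x) : g = 1 := by
  cases x with
  | none => exact (hx rfl).elim
  | some p =>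
    have h1 := h (some p)
    rw [hg, co_some, Option.map_some, Option.some.injEq, Prod.ext_iff] at h1
    simp only [add] at h1
    have h2 : u.1 = 0 := by linear_combination -h1.1
    have h3 : u.2 = 0 := by
      have := h1.2
      rw [h2, map_zero] at this
      linear_combination -this
    rw [show u = (0, 0) from Prod.ext h2 h3] at h
    exact h.unique transBy_one

theorem IsTau.sq {g : Perm D.Pt} (h : D.IsTau g) : g * g = 1 := by
  exact Equiv.ext fun x => D.co_inj (by rw [Perm.mul_apply, h, h, dat2_tau_tau, Perm.one_apply])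

theorem IsTau.inf {g : Perm D.Pt} (h : D.IsTau g) : g none = D.o := by
  exact D.co_inj (h none)

theorem IsTau.zero {g : Perm D.Pt} (h : D.IsTau g) : g D.o = none := by
  exact D.co_inj ((h D.o).trans D.dat2_tau_zero)

theorem IsTau.exists_fix {g : Perm D.Pt} (h : D.IsTau g) : ∃ x, g x = x := by
  cases hs : D.suz with
  | true =>
    refine ⟨some ⟨(1, 1), Or.inl hs⟩, D.co_inj ?_⟩
    have e : D.nrm (1, 1) = 1 := by
      simp only [nrm, map_one]
      linear_combination D.two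
    rw [h, co_some, D.dat2_tau_ne (by simp)]
    simp [inv, hs, e]
  | false =>
    refine ⟨some ⟨(0, 1), D.on_zero_one⟩, D.co_inj ?_⟩
    rw [h, co_some, D.dat2_tau_ne (by simp)]
    simp [inv, hs]

theorem SemiBy.inf {c : E} {φ : E → E} {g : Perm D.Pt} (h : D.SemiBy c φ g) : g none = none := by
  exact D.co_inj (h none)

theorem SemiBy.zero {c : E} {φ : E →+* E} {g : Perm D.Pt} (h : D.SemiBy c φ g) :
    g D.o = D.o := by
  exact D.co_inj (by rw [h, co_o, Option.map_some, dat2_sc_zero])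

theorem SemiBy.ne_zero {c : E} {φ : E →+* E} {g : Perm D.Pt} (h : D.SemiBy c φ g) : c ≠ 0 := by
  rintro rfl
  have h1 : g (some ⟨(0, 1), D.on_zero_one⟩) = g D.o :=
    D.co_inj (by rw [h.zero, h, co_some, co_o]; simp [sc])
  have h2 := congrArg D.co (g.injective h1)
  rw [co_some, co_o] at h2
  simp at h2

theorem semiBy_one : D.SemiBy 1 id 1 := by
  exact fun x => (dat2_map_id (D.dat2_sc_one fun _ => rfl) _).symm

theorem SemiBy.mul {c c' : E} {φ : E →+* E} {φ' : E → E} (hφ : ∀ x, φ (D.θ x) = D.θ (φ x))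
    {g g' : Perm D.Pt} (h : D.SemiBy c φ g) (h' : D.SemiBy c' φ' g') :
    D.SemiBy (c * φ c') (φ ∘ φ') (g * g') := by
  intro x
  rw [Perm.mul_apply, h, h', Option.map_map]
  exact congrArg (Option.map · _) (funext fun p => D.dat2_sc_sc c c' φ φ' hφ p)

theorem SemiBy.inv {c : E} {φ : E ≃+* E} (hφ : ∀ x, φ (D.θ x) = D.θ (φ x)) {g : Perm D.Pt}
    (h : D.SemiBy c φ g) : D.SemiBy (φ.symm c⁻¹) φ.symm g⁻¹ := by
  intro x
  obtain ⟨y, rfl⟩ := g.surjective x
  rw [show g⁻¹ (g y) = y from g.symm_apply_apply y, h, Option.map_map]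
  exact (dat2_map_id (D.dat2_left (SemiBy.ne_zero (φ := (φ : E →+* E)) h) hφ) _).symm

theorem SemiBy.conj_trans {c : E} {φ : E →+* E} (hφ : ∀ x, φ (D.θ x) = D.θ (φ x))
    {h g : Perm D.Pt} (hh : D.SemiBy c φ h) {u : E × E} (hg : D.TransBy u g) :
    D.TransBy (D.sc c φ u) (h * g * h⁻¹) := by
  intro x
  obtain ⟨y, rfl⟩ := h.surjective x
  rw [Perm.mul_apply, Perm.mul_apply, show h⁻¹ (h y) = y from h.symm_apply_apply y, hh, hh, hg,
    Option.map_map, Option.map_map]
  refine congrArg (Option.map · _) (funext fun p => ?_)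
  simp only [Function.comp, sc, add, map_add, map_mul, hφ]
  exact Prod.ext (by ring) (by ring)

theorem IsTau.conj_semi {c : E} {φ : E →+* E} (hφ : ∀ x, φ (D.θ x) = D.θ (φ x))
    {τ h : Perm D.Pt} (hτ : D.IsTau τ) (hh : D.SemiBy c φ h) :
    D.SemiBy (D.cstar c) φ (τ * h * τ) := by
  intro x
  have hc := hh.ne_zero
  rw [Perm.mul_apply, Perm.mul_apply, hτ, hh, hτ]
  cases x with
  | none =>
    show D.tau (some (D.sc c φ (0, 0))) = none
    rw [dat2_sc_zero, dat2_tau_zero]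
  | some p =>
    rw [co_some]
    by_cases h0 : p.1 = (0, 0)
    · rw [h0, dat2_tau_zero, Option.map_some, dat2_sc_zero]
      rfl
    · rw [D.dat2_tau_ne h0, Option.map_some, Option.map_some, D.dat2_tau_ne,
        D.dat2_inv_sc hc φ hφ p.2 h0]
      intro h1
      refine D.inv_ne_zero' p.2 h0 ?_
      simp only [sc, Prod.mk.injEq, mul_eq_zero, hc, map_eq_zero, false_or] at h1
      exact Prod.ext h1.1 h1.2

/-- `L` is doubly transitive. -/
theorem exists_to_base {x y : D.Pt} (h : x ≠ y) : ∃ l ∈ D.L, l x = none ∧ l y = D.o := by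
  have h1 : ∀ p : D.Aff, ∃ t ∈ D.L, t none = none ∧ t (some p) = D.o := fun p => by
    obtain ⟨t, ht⟩ := D.exists_trans (On.neg D p.2)
    exact ⟨t, (isTrans_iff.2 ⟨_, On.neg D p.2, ht⟩).mem, ht.inf,
      D.co_inj (by rw [ht, co_some, Option.map_some, neg_add', co_o])⟩
  obtain ⟨l, hl, hx⟩ : ∃ l ∈ D.L, l x = none := by
    cases x with
    | none => exact ⟨1, one_mem _, rfl⟩
    | some p =>
      obtain ⟨t, ht, -, h2⟩ := h1 p
      obtain ⟨τ, hτ⟩ := D.exists_tau
      exact ⟨τ * t, mul_mem hτ.mem ht, by rw [Perm.mul_apply, h2, hτ.zero]⟩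
  cases hy : l y with
  | none => exact (h (l.injective (hx.trans hy.symm))).elim
  | some q =>
    obtain ⟨t, ht, h2, h3⟩ := h1 q
    exact ⟨t * l, mul_mem ht hl, by rw [Perm.mul_apply, hx, h2], by rw [Perm.mul_apply, hy, h3]⟩

end Datum

end Pool.Agent.Lib.MP_a7ce8b_al
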