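import Pool.Agent.Lib.MP_a7ce8b_al.C.Dat2

/-! Two point stabilizers, linear and unitary case. -/

namespace Pool.Agent.Lib.MP_a7ce8b_al

open Equiv MulAction

namespace Datum

variable {E : Type} [Field E] {D : Datum E}

/-- Homogeneous coordinates. -/
def datU_v : Option (E × E) → E × E × E
  | none => (0, 0, 1)
  | some p => (1, p.1, p.2)

/-- `g` is induced by a `φ`-semilinear map on homogeneous coordinates. -/
def datU_Geo (D : Datum E) (g : Perm D.Pt) (φ : E ≃+* E) : Prop :=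
  (∀ x, φ (D.θ x) = D.θ (φ x)) ∧ ∃ F : E × E × E → E × E × E,
    (∀ x y, F (x + y) = F x + F y) ∧ (∀ (c : E) x, F (c • x) = φ c • F x) ∧
    ∀ p, ∃ l : E, l ≠ 0 ∧ F (datU_v (D.co p)) = l • datU_v (D.co (g p))

theorem datU_one : datU_Geo D 1 (RingEquiv.refl E) :=
  ⟨fun _ => rfl, id, fun _ _ => rfl, fun _ _ => rfl, fun _ => ⟨1, one_ne_zero, by simp⟩⟩

theorem datU_mul {g g' : Perm D.Pt} {φ φ' : E ≃+* E} (h : datU_Geo D g φ)
    (h' : datU_Geo D g' φ') : datU_Geo D (g * g') (φ'.trans φ) := by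
  obtain ⟨hφ, F, Fa, Fs, hF⟩ := h
  obtain ⟨hφ', F', Fa', Fs', hF'⟩ := h'
  refine ⟨fun x => ?_, F ∘ F', fun x y => ?_, fun c x => ?_, fun p => ?_⟩
  · show φ (φ' (D.θ x)) = D.θ (φ (φ' x))
    rw [hφ', hφ]
  · show F (F' (x + y)) = F (F' x) + F (F' y)
    rw [Fa', Fa]
  · show F (F' (c • x)) = φ (φ' c) • F (F' x)
    rw [Fs', Fs]
  · obtain ⟨l', hl', e'⟩ := hF' p
    obtain ⟨l, hl, e⟩ := hF (g' p)
    refine ⟨φ l' * l, mul_ne_zero ((map_ne_zero φ).2 hl') hl, ?_⟩
    show F (F' _) = _ • datU_v (D.co (g (g' p)))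
    rw [e', Fs, e, smul_smul]

theorem datU_trans {g : Perm D.Pt} {u : E × E} (h : D.TransBy u g) :
    datU_Geo D g (RingEquiv.refl E) := by
  refine ⟨fun _ => rfl,
    fun x => (x.1, u.1 * x.1 + x.2.1, u.2 * x.1 + D.θ u.1 * x.2.1 + x.2.2), fun x y => ?_,
    fun c x => ?_, fun p => ⟨1, one_ne_zero, ?_⟩⟩
  · ext <;> simp <;> ring
  · ext <;> simp <;> ring
  · rw [h p]
    cases D.co p with
    | none => simp [datU_v]
    | some q =>
      ext <;> simp [datU_v, Datum.add]
      ring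

theorem datU_tau (hs : D.suz = false) {g : Perm D.Pt} (h : D.IsTau g) :
    datU_Geo D g (RingEquiv.refl E) := by
  refine ⟨fun _ => rfl, fun x => (x.2.2, x.2.1, x.1), fun x y => rfl, fun c x => rfl, fun p => ?_⟩
  rw [h p]
  cases p with
  | none => exact ⟨1, one_ne_zero, by simp [datU_v, Datum.tau, co_none]⟩
  | some q =>
    rw [co_some]
    by_cases h0 : q.1 = (0, 0)
    · exact ⟨1, one_ne_zero, by simp [datU_v, Datum.tau, h0]⟩
    · have hb : q.1.2 ≠ 0 := D.snd_ne_zero hs q.2 h0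
      refine ⟨q.1.2, hb, ?_⟩
      have : D.tau (some q.1) = some (q.1.1 / q.1.2, 1 / q.1.2) := by
        simp only [Datum.tau, if_neg h0, Datum.inv, hs]
        rfl
      rw [this]
      ext <;> simp [datU_v] <;> field_simp

theorem datU_semi {g : Perm D.Pt} {c : E} {φ : E ≃+* E} (hφ : ∀ x, φ (D.θ x) = D.θ (φ x))
    (h : D.SemiBy c φ g) : datU_Geo D g φ := by
  have hc : c ≠ 0 := SemiBy.ne_zero (φ := (φ : E →+* E)) h
  have hc' : c * D.θ c ≠ 0 := mul_ne_zero hc ((map_ne_zero D.θ).2 hc)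
  refine ⟨hφ, fun x => (φ x.1, c * φ x.2.1, c * D.θ c * φ x.2.2), fun x y => ?_,
    fun a x => ?_, fun p => ?_⟩
  · ext <;> simp <;> ring
  · ext <;> simp <;> ring
  · rw [h p]
    cases D.co p with
    | none => exact ⟨c * D.θ c, hc', by simp [datU_v]⟩
    | some q => exact ⟨1, one_ne_zero, by simp [datU_v, Datum.sc]⟩

theorem datU_geo_L (hs : D.suz = false) {g : Perm D.Pt} (hg : g ∈ D.L) :
    datU_Geo D g (RingEquiv.refl E) := by
  induction hg using Subgroup.closure_induction'' with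
  | mem x hx =>
    rcases hx with hx | hx
    · obtain ⟨u, -, h⟩ := isTrans_iff.1 hx
      exact datU_trans h
    · exact datU_tau hs hx
  | inv_mem x hx =>
    rcases hx with hx | hx
    · obtain ⟨u, -, h⟩ := isTrans_iff.1 hx
      exact datU_trans h.inv
    · rw [inv_eq_of_mul_eq_one_right hx.sq]
      exact datU_tau hs hx
  | one => exact datU_one
  | mul x y _ _ hx hy => exact datU_mul hx hy

theorem datU_geo_A (hs : D.suz = false) {g : Perm D.Pt} (hg : g ∈ D.A) :
    ∃ φ, datU_Geo D g φ := by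
  induction hg using Subgroup.closure_induction'' with
  | mem x hx =>
    rcases hx with hx | hx | ⟨c, φ, hφ, h⟩
    · exact ⟨_, datU_geo_L hs hx.mem⟩
    · exact ⟨_, datU_geo_L hs hx.mem⟩
    · exact ⟨φ, datU_semi hφ h⟩
  | inv_mem x hx =>
    rcases hx with hx | hx | ⟨c, φ, hφ, h⟩
    · exact ⟨_, datU_geo_L hs (D.L.inv_mem hx.mem)⟩
    · exact ⟨_, datU_geo_L hs (D.L.inv_mem hx.mem)⟩
    · refine ⟨φ.symm, datU_semi (fun y => ?_) (SemiBy.inv hφ h)⟩
      apply φ.injective
      rw [hφ, φ.apply_symm_apply, φ.apply_symm_apply]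
  | one => exact ⟨_, datU_one⟩
  | mul x y _ _ hx hy =>
    obtain ⟨φ, hx⟩ := hx
    obtain ⟨φ', hy⟩ := hy
    exact ⟨_, datU_mul hx hy⟩

theorem datU_on (hs : D.suz = false) {p : E × E} :
    D.On p ↔ p.1 * D.θ p.1 = p.2 + D.θ p.2 := by
  simp [On, hs]

theorem datU_θθ (hs : D.suz = false) (x : E) : D.θ (D.θ x) = x := by
  simpa [hs] using D.sq x

/-- The coordinate form of a semilinear map fixing the two base points. -/
theorem datU_form {g : Perm D.Pt} {φ : E ≃+* E} (h : datU_Geo D g φ) (h1 : g none = none)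
    (h2 : g D.o = D.o) : ∃ l s p q r : E, l ≠ 0 ∧ s ≠ 0 ∧ ∀ x : D.Aff, ∃ y : D.Aff,
      g (some x) = some y ∧ l + p * φ x.1.1 ≠ 0 ∧ (l + p * φ x.1.1) * y.1.1 = q * φ x.1.1 ∧
        (l + p * φ x.1.1) * y.1.2 = r * φ x.1.1 + s * φ x.1.2 := by
  obtain ⟨-, F, Fa, Fs, hF⟩ := h
  obtain ⟨s, hs0, es⟩ := hF none
  obtain ⟨l, hl0, el⟩ := hF D.o
  rw [h1, co_none] at es
  rw [h2, co_o] at el
  refine ⟨l, s, (F (0, 1, 0)).1, (F (0, 1, 0)).2.1, (F (0, 1, 0)).2.2, hl0, hs0, fun x => ?_⟩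
  obtain ⟨m, hm0, em⟩ := hF (some x)
  cases hy : g (some x) with
  | none => exact absurd (g.injective (hy.trans h1.symm)) (Option.some_ne_none _)
  | some y =>
    rw [hy, co_some, co_some] at em
    have e : datU_v (some x.1) = datU_v (some ((0 : E), (0 : E))) +
        (x.1.1 • ((0 : E), (1 : E), (0 : E)) + x.1.2 • datU_v none) := by
      ext <;> simp [datU_v]
    rw [e, Fa, Fa, Fs, Fs, el, es] at em
    have e1 := congrArg (fun z => z.1) em
    have e2 := congrArg (fun z => z.2.1) em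
    have e3 := congrArg (fun z => z.2.2) em
    simp only [datU_v, Prod.fst_add, Prod.snd_add, Prod.smul_fst, Prod.smul_snd, smul_eq_mul,
      mul_one, mul_zero, add_zero, zero_add] at e1 e2 e3
    have em' : l + (F (0, 1, 0)).1 * φ x.1.1 = m := by rw [← e1]; ring
    refine ⟨y, rfl, em' ▸ hm0, ?_, ?_⟩
    · rw [em', ← e2]; ring
    · rw [em', ← e3]; ring

theorem datU_semiBy {g : Perm D.Pt} {φ : E → E} {c : E} (h1 : g none = none)
    (h : ∀ x : D.Aff, ∃ y : D.Aff, g (some x) = some y ∧ y.1 = D.sc c φ x.1) :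
    D.SemiBy c φ g := by
  intro x
  cases x with
  | none => rw [h1]; rfl
  | some x =>
    obtain ⟨y, hy, e⟩ := h x
    rw [hy, co_some, co_some, e]
    rfl

theorem datU_analysis (hs : D.suz = false) (hq : ∀ x : E, ∃ y, y ^ 2 = x) {g : Perm D.Pt}
    {φ : E ≃+* E} (h : datU_Geo D g φ) (h1 : g none = none) (h2 : g D.o = D.o) :
    ∃ c, D.SemiBy c φ g := by
  have hφ := h.1
  have h20 := D.two
  obtain ⟨l, s, p, q, r, hl, hs0, H⟩ := datU_form h h1 h2
  by_cases hθ : ∀ x, D.θ x = x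
  · obtain ⟨c, hc⟩ := hq (s / l)
    have hz : ∀ x : D.Aff, x.1.1 = 0 := fun x => by
      have := (datU_on hs).1 x.2
      rw [hθ, hθ] at this
      have h' : x.1.1 * x.1.1 = 0 := by linear_combination this + x.1.2 * h20
      exact mul_self_eq_zero.1 h'
    refine ⟨c, datU_semiBy h1 fun x => ?_⟩
    obtain ⟨y, hy, -, -, e⟩ := H x
    refine ⟨y, hy, ?_⟩
    rw [hz x, map_zero] at e
    ext
    · simp [Datum.sc, hz]
    · simp only [Datum.sc, hθ]
      rw [← pow_two, hc]
      field_simp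
      linear_combination e
  · have hall : ∀ a, ∃ b, D.On (a, b) := D.dichotomy.resolve_right fun h => hθ h.2
    have hp : p = 0 := by
      by_contra hp
      obtain ⟨b, hb⟩ := hall (φ.symm (l / p))
      obtain ⟨y, -, e, -⟩ := H ⟨_, hb⟩
      apply e
      simp only [RingEquiv.apply_symm_apply]
      field_simp
      linear_combination l * h20
    subst hp
    have hr : r = 0 := by
      by_contra hr
      obtain ⟨y0, hy0⟩ := not_forall.1 hθ
      have hμ0 : φ.symm (r / s) ≠ 0 := (map_ne_zero φ.symm).2 (div_ne_zero hr hs0)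
      have hμ1 : φ (φ.symm (r / s)) = r / s := φ.apply_symm_apply _
      generalize φ.symm (r / s) = μ at hμ0 hμ1
      have hθμ : D.θ μ ≠ 0 := (map_ne_zero D.θ).2 hμ0
      have hy1 : y0 ≠ 0 := fun h => hy0 (by rw [h, map_zero])
      have hy2 : D.θ y0 ≠ 0 := (map_ne_zero D.θ).2 hy1
      have hy3 : y0 + D.θ y0 ≠ 0 := fun h => hy0 (by linear_combination h - y0 * h20)
      obtain ⟨f, hf⟩ : ∃ f, f = (y0 + D.θ y0) * (μ * D.θ μ) / (y0 * D.θ y0) := ⟨_, rfl⟩
      have hf0 : f ≠ 0 := by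
        rw [hf]
        exact div_ne_zero (mul_ne_zero hy3 (mul_ne_zero hμ0 hθμ)) (mul_ne_zero hy1 hy2)
      have hθf : D.θ f = f := by
        rw [hf]
        simp only [map_div₀, map_mul, map_add, datU_θθ hs]
        ring
      have hon : D.On (f * y0 / μ, f * y0) := by
        rw [datU_on hs]
        simp only [map_div₀, map_mul, hθf]
        have hf' : f * (y0 * D.θ y0) = (y0 + D.θ y0) * (μ * D.θ μ) := by
          rw [hf]
          field_simp
        field_simp
        linear_combination hf'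
      obtain ⟨y, hy, -, -, e⟩ := H ⟨_, hon⟩
      have hφμ : φ μ ≠ 0 := (map_ne_zero φ).2 hμ0
      have hr' : r = s * φ μ := by
        rw [hμ1]
        field_simp
      have hy2' : y.1.2 = 0 := by
        simp only [zero_mul, add_zero, map_div₀] at e
        have e' : l * y.1.2 = 0 := by
          rw [e, hr']
          field_simp
          linear_combination (s * φ (f * y0)) * h20
        exact (mul_eq_zero.1 e').resolve_left hl
      have hy0' : y.1 = (0, 0) := by
        by_contra h0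
        exact D.snd_ne_zero hs y.2 h0 hy2'
      have : g (some ⟨_, hon⟩) = g D.o := by
        rw [h2]
        apply D.co_inj
        rw [hy, co_some, hy0', co_o]
      have h3 := congrArg D.co (g.injective this)
      rw [co_some, co_o] at h3
      exact mul_ne_zero hf0 hy1 (congrArg Prod.snd (Option.some.inj h3))
    subst hr
    have H' : ∀ x : D.Aff, ∃ y : D.Aff, g (some x) = some y ∧
        y.1 = (q / l * φ x.1.1, s / l * φ x.1.2) := fun x => by
      obtain ⟨y, hy, -, e1, e2⟩ := H x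
      refine ⟨y, hy, Prod.ext ?_ ?_⟩
      · field_simp
        linear_combination e1
      · field_simp
        linear_combination e2
    generalize q / l = c at H'
    generalize s / l = m at H'
    have hm : D.θ m = m := by
      obtain ⟨y, -, e⟩ := H' ⟨_, D.on_zero_one⟩
      have := (datU_on hs).1 y.2
      rw [e] at this
      simp only [map_zero, map_one, mul_zero, mul_one] at this
      linear_combination -this - m * h20
    have hmc : m = c * D.θ c := by
      obtain ⟨b, hb⟩ := hall 1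
      obtain ⟨y, -, e⟩ := H' ⟨_, hb⟩
      have h3 := (datU_on hs).1 y.2
      have h4 := congrArg φ ((datU_on hs).1 hb)
      rw [e] at h3
      simp only [map_one, mul_one, map_mul, map_add, hm, hφ] at h3 h4
      linear_combination -h3 + m * h4
    refine ⟨c, datU_semiBy h1 fun x => ?_⟩
    obtain ⟨y, hy, e⟩ := H' x
    exact ⟨y, hy, by rw [e, hmc]; rfl⟩

theorem stabA_uni (hs : D.suz = false) (hq : ∀ x : E, ∃ y, y ^ 2 = x) {g : Perm D.Pt}
    (hg : g ∈ D.A) (h1 : g none = none) (h2 : g D.o = D.o) : D.IsSemi g := by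
  obtain ⟨φ, h⟩ := datU_geo_A hs hg
  obtain ⟨c, hc⟩ := datU_analysis hs hq h h1 h2
  exact ⟨c, φ, h.1, hc⟩

theorem stabL_uni (hs : D.suz = false) (hq : ∀ x : E, ∃ y, y ^ 2 = x) {g : Perm D.Pt}
    (hg : g ∈ D.L) (h1 : g none = none) (h2 : g D.o = D.o) : ∃ c, D.SemiBy c id g :=
  datU_analysis hs hq (datU_geo_L hs hg) h1 h2

end Datum

end Pool.Agent.Lib.MP_a7ce8b_al
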