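import Pool.Agent.Lib.MP_a7ce8b_al.C.DatS
import Pool.Agent.Lib.MP_a7ce8b_al.C.DatU
import Pool.Agent.Lib.MP_a7ce8b_al.C.BAbs

/-! The rank one groups satisfy the axioms. -/

namespace Pool.Agent.Lib.MP_a7ce8b_al

open Equiv MulAction

namespace Datum

variable {E : Type} [Field E] {D : Datum E}

theorem stabA (hb : D.Big) (hq : ∀ x : E, ∃ y, y ^ 2 = x) {g : Perm D.Pt} (hg : g ∈ D.A)
    (h1 : g none = none) (h2 : g D.o = D.o) : D.IsSemi g := by
  cases hs : D.suz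
  exacts [stabA_uni hs hq hg h1 h2, stabA_suz hs hb hg h1 h2]

theorem stabL (hb : D.Big) (hq : ∀ x : E, ∃ y, y ^ 2 = x) {g : Perm D.Pt} (hg : g ∈ D.L)
    (h1 : g none = none) (h2 : g D.o = D.o) : ∃ c, D.SemiBy c id g := by
  cases hs : D.suz
  exacts [stabL_uni hs hq hg h1 h2, stabL_suz hs hb hg h1 h2]

theorem dat3_sq_inj (D : Datum E) {x y : E} (h : x ^ 2 = y ^ 2) : x = y := by
  have h1 : (x - y) ^ 2 = 0 := by linear_combination h + (y ^ 2 - x * y) * D.two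
  exact sub_eq_zero.1 (pow_eq_zero_iff two_ne_zero |>.1 h1)

theorem dat3_pow_one (D : Datum E) (m : ℕ) {x : E} (h : x ^ 2 ^ m = 1) : x = 1 := by
  induction m with
  | zero => simpa using h
  | succ m ih =>
    refine ih (dat3_sq_inj D ?_)
    rw [← pow_mul, ← pow_succ, h, one_pow]

theorem dat3_o_ne : D.o ≠ none := fun h => by cases h

theorem dat3_semi_mul {c c' : E} {g g' : Perm D.Pt} (h : D.SemiBy c id g)
    (h' : D.SemiBy c' id g') : D.SemiBy (c * c') id (g * g') :=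
  SemiBy.mul (φ := RingHom.id E) (fun _ => rfl) h h'

theorem dat3_semi_pow {c : E} {g : Perm D.Pt} (h : D.SemiBy c id g) (n : ℕ) :
    D.SemiBy (c ^ n) id (g ^ n) := by
  induction n with
  | zero => simpa using semiBy_one
  | succ n ih => rw [pow_succ, pow_succ]; exact dat3_semi_mul ih h

/-- The identity is a scaling only with parameter 1. -/
theorem dat3_semi_one {c : E} (h : D.SemiBy c id 1) : c = 1 := by
  rcases D.dichotomy with h1 | ⟨-, h1⟩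
  · obtain ⟨b, hb⟩ := h1 1
    have h2 := h (some ⟨(1, b), hb⟩)
    have h3 : (1 : E) = c * 1 := congrArg Prod.fst (Option.some.inj h2)
    rw [h3, mul_one]
  · have h2 := h (some ⟨(0, 1), D.on_zero_one⟩)
    have h3 : (1 : E) = c * D.θ c * 1 := congrArg Prod.snd (Option.some.inj h2)
    rw [h1] at h3
    refine dat3_sq_inj D ?_
    linear_combination -h3

/-- A translation which moves `o` to a given affine point. -/
theorem dat3_trans_to {x : D.Pt} (hx : x ≠ none) :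
    ∃ u T, D.On u ∧ D.TransBy u T ∧ T D.o = x := by
  obtain ⟨p, rfl⟩ := Option.ne_none_iff_exists'.1 hx
  obtain ⟨T, hT⟩ := D.exists_trans (u := p.1) p.2
  exact ⟨p.1, T, p.2, hT, D.co_inj hT.zero⟩

theorem dat3_isTrans_mul {g g' : Perm D.Pt} (h : D.IsTrans g) (h' : D.IsTrans g') :
    D.IsTrans (g * g') := by
  obtain ⟨u, hu, h⟩ := isTrans_iff.1 h
  obtain ⟨v, hv, h'⟩ := isTrans_iff.1 h'
  exact isTrans_iff.2 ⟨_, On.add D hu hv, h.mul h'⟩

theorem dat3_isTrans_inv {g : Perm D.Pt} (h : D.IsTrans g) : D.IsTrans g⁻¹ := by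
  obtain ⟨u, hu, h⟩ := isTrans_iff.1 h
  exact isTrans_iff.2 ⟨_, On.neg D hu, h.inv⟩

theorem dat3_isTrans_two {g : Perm D.Pt} (h : D.IsTrans g) : TwoEl g := by
  obtain ⟨u, -, h⟩ := isTrans_iff.1 h
  exact ⟨2, h.pow_four⟩

theorem dat3_isTrans_inf {g : Perm D.Pt} (h : D.IsTrans g) : g none = none := by
  obtain ⟨u, -, h⟩ := isTrans_iff.1 h
  exact h.inf

theorem dat3_pow_split {u : E × E} {c : E} {T h : Perm D.Pt} (hT : D.TransBy u T)
    (hh : D.SemiBy c id h) (n : ℕ) : ∃ s T', D.TransBy s T' ∧ (T * h) ^ n = T' * h ^ n := by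
  induction n with
  | zero => exact ⟨_, 1, transBy_one, by simp⟩
  | succ n ih =>
    obtain ⟨s, T', hT', e⟩ := ih
    have h1 := SemiBy.conj_trans (φ := RingHom.id E) (fun _ => rfl) hh hT'
    refine ⟨_, _, hT.mul h1, ?_⟩
    rw [pow_succ', e, pow_succ']
    group

/-- The 2-elements of `L` fixing `∞` are translations. -/
theorem isTrans_of_two (hb : D.Big) (hq : ∀ x : E, ∃ y, y ^ 2 = x) {g : Perm D.Pt} (hg : g ∈ D.L)
    (h2 : TwoEl g) (h1 : g none = none) : D.IsTrans g := by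
  have h0 : g D.o ≠ none := fun e => dat3_o_ne (g.injective (e.trans h1.symm))
  obtain ⟨u, T, hu, hT, hTo⟩ := dat3_trans_to h0
  have hTt : D.IsTrans T := isTrans_iff.2 ⟨u, hu, hT⟩
  obtain ⟨c, hc⟩ := stabL hb hq (g := T⁻¹ * g) (D.L.mul_mem (D.L.inv_mem hTt.mem) hg)
    (by rw [Perm.mul_apply, h1]; exact hT.inv.inf)
    (by rw [Perm.mul_apply, ← hTo]; exact T.symm_apply_apply _)
  obtain ⟨m, hm⟩ := h2
  obtain ⟨s, T', hT', e⟩ := dat3_pow_split hT hc (2 ^ m)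
  rw [mul_inv_cancel_left, hm] at e
  have hp := dat3_semi_pow hc (2 ^ m)
  have h3 : T' = 1 := by
    refine hT'.eq_one dat3_o_ne ?_
    have h4 : ((T⁻¹ * g) ^ 2 ^ m) D.o = D.o := SemiBy.zero (φ := RingHom.id E) hp
    have h5 := congrArg (fun k : Perm D.Pt => k D.o) e
    simp only [Perm.mul_apply, h4, Perm.one_apply] at h5
    exact h5.symm
  rw [h3, one_mul] at e
  rw [← e] at hp
  have h6 : c = 1 := dat3_pow_one D m (dat3_semi_one hp)
  subst h6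
  have h7 : T⁻¹ * g = 1 := hc.unique semiBy_one
  rw [← inv_mul_eq_one.1 h7]
  exact hTt

theorem dat3_fst_zero {u : E × E} {z : Perm D.Pt} (h : D.TransBy u z) (h2 : z * z = 1) :
    u.1 = 0 := by
  have h1 := (h.mul h).zero
  rw [h2] at h1
  have h3 : (0 : E) = u.2 + u.2 + D.θ u.1 * u.1 := congrArg Prod.snd (Option.some.inj h1)
  rw [add_self u.2 D, zero_add] at h3
  rcases mul_eq_zero.1 h3.symm with h4 | h4
  · exact (map_eq_zero D.θ).1 h4
  · exact h4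

theorem dat3_sq_one {u : E × E} {z : Perm D.Pt} (h : D.TransBy u z) (h0 : u.1 = 0) :
    z * z = 1 := by
  have h1 : D.add u u = (0, 0) := by
    simp only [Datum.add, h0, add_self u.2 D, add_zero, mul_zero]
  have h2 := h.mul h
  rw [h1] at h2
  exact h2.unique transBy_one

theorem dat3_par_eq {u v : E × E} {z : Perm D.Pt} (h : D.TransBy u z) (h' : D.TransBy v z) :
    u = v := Option.some.inj (h.zero.symm.trans h'.zero)

theorem bpre (hb : D.Big) (hq : ∀ x : E, ∃ y, y ^ 2 = x) (ht : ∀ g ∈ D.L, IsOfFinOrder g) :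
    BPre D.L none := by
  refine ⟨⟨D.o, none, dat3_o_ne⟩, ht, fun γ => ?_, fun g hg h2 h1 γ hγ e => ?_,
    fun g hg h hh g2 h2 g1 h1 => ?_, fun δ δ' hδ hδ' => ?_, fun z hz h hh z2 h2 z1 h1 => ?_, ?_⟩
  · by_cases hγ : γ = none
    · exact ⟨1, D.L.one_mem, hγ.symm⟩
    · obtain ⟨l, hl, e, -⟩ := exists_to_base hγ
      exact ⟨l⁻¹, D.L.inv_mem hl, by rw [← e]; exact l.symm_apply_apply _⟩
  · obtain ⟨u, -, hu⟩ := isTrans_iff.1 (isTrans_of_two hb hq hg h2 h1)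
    exact hu.eq_one hγ e
  · exact dat3_isTrans_two
      (dat3_isTrans_mul (isTrans_of_two hb hq hg g2 g1) (isTrans_of_two hb hq hh h2 h1))
  · obtain ⟨u, T, hu, hT, e⟩ := dat3_trans_to hδ
    obtain ⟨u', T', hu', hT', e'⟩ := dat3_trans_to hδ'
    have h1 : D.IsTrans (T' * T⁻¹) := dat3_isTrans_mul (isTrans_iff.2 ⟨_, hu', hT'⟩)
      (dat3_isTrans_inv (isTrans_iff.2 ⟨_, hu, hT⟩))
    refine ⟨_, h1.mem, dat3_isTrans_two h1, dat3_isTrans_inf h1, ?_⟩
    rw [Perm.mul_apply, ← e, ← e']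
    exact congrArg T' (T.symm_apply_apply _)
  · obtain ⟨u, -, hu⟩ := isTrans_iff.1 (isTrans_of_two hb hq hz (twoEl_of_sq z2) z1)
    obtain ⟨v, -, hv⟩ := isTrans_iff.1 (isTrans_of_two hb hq hh h2 h1)
    have h0 := dat3_fst_zero hu z2
    have h3 : D.add u v = D.add v u := by
      simp only [Datum.add, h0, map_zero, zero_mul, mul_zero, add_zero, add_comm]
    have h4 := hu.mul hv
    rw [h3] at h4
    exact h4.unique (hv.mul hu)
  · obtain ⟨p, p0, p1, p2⟩ := hb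
    obtain ⟨z, hz⟩ := D.exists_trans D.on_zero_one
    obtain ⟨w, hw⟩ := D.exists_trans (u := p.1) p.2
    refine ⟨z, (isTrans_iff.2 ⟨_, D.on_zero_one, hz⟩).mem, w, (isTrans_iff.2 ⟨_, p.2, hw⟩).mem,
      fun e => p2 ?_, fun e => ?_, fun e => p1 ?_, dat3_sq_one hz rfl, dat3_sq_one hw p0,
      hz.inf, hw.inf⟩
    · subst e
      exact congrArg Prod.snd (dat3_par_eq hw hz)
    · subst e
      exact one_ne_zero (congrArg Prod.snd (dat3_par_eq hz transBy_one))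
    · subst e
      exact congrArg Prod.snd (dat3_par_eq hw transBy_one)

theorem dat3_semi_inv {h : Perm D.Pt} (hh : D.IsSemi h) : D.IsSemi h⁻¹ := by
  obtain ⟨c, φ, hφ, hh⟩ := hh
  refine ⟨_, φ.symm, fun x => ?_, SemiBy.inv hφ hh⟩
  apply φ.injective
  rw [hφ, φ.apply_symm_apply, φ.apply_symm_apply]

theorem dat3_semi_trans {h g : Perm D.Pt} (hh : D.IsSemi h) (hg : D.IsTrans g) :
    D.IsTrans (h * g * h⁻¹) := by
  obtain ⟨c, φ, hφ, hh⟩ := hh
  obtain ⟨u, hu, hg⟩ := isTrans_iff.1 hg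
  exact isTrans_iff.2 ⟨_, On.sc D hu c φ.toRingHom hφ,
    SemiBy.conj_trans (φ := φ.toRingHom) hφ hh hg⟩

theorem dat3_tau_semi {τ h : Perm D.Pt} (hτ : D.IsTau τ) (hh : D.IsSemi h) :
    D.IsSemi (τ * h * τ) := by
  obtain ⟨c, φ, hφ, hh⟩ := hh
  exact ⟨_, φ, hφ, IsTau.conj_semi (φ := φ.toRingHom) hφ hτ hh⟩

/-- The inversion is conjugate to a translation. -/
theorem dat3_tau_conj (hb : D.Big) (hq : ∀ x : E, ∃ y, y ^ 2 = x) {τ : Perm D.Pt}
    (hτ : D.IsTau τ) :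
    ∃ T, D.IsTrans T ∧ D.IsTrans ((τ * T * τ) * τ * (τ * T * τ)⁻¹) := by
  obtain ⟨γ, hγ⟩ := hτ.exists_fix
  have h0 : γ ≠ none := by
    rintro rfl
    exact dat3_o_ne (hτ.inf.symm.trans hγ)
  obtain ⟨u, T, hu, hT, e⟩ := dat3_trans_to h0
  have hTt : D.IsTrans T⁻¹ := dat3_isTrans_inv (isTrans_iff.2 ⟨u, hu, hT⟩)
  have hl : τ * T⁻¹ * τ ∈ D.L := D.L.mul_mem (D.L.mul_mem hτ.mem hTt.mem) hτ.mem
  have h1 : (τ * T⁻¹ * τ) γ = none := by
    have h2 : T⁻¹ γ = D.o := by rw [← e]; exact T.symm_apply_apply _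
    rw [Perm.mul_apply, Perm.mul_apply, hγ, h2, hτ.zero]
  refine ⟨T⁻¹, hTt, isTrans_of_two hb hq
    (D.L.mul_mem (D.L.mul_mem hl hτ.mem) (D.L.inv_mem hl)) ((twoEl_of_sq hτ.sq).conj _) ?_⟩
  have h3 : (τ * T⁻¹ * τ)⁻¹ none = γ := by rw [← h1]; exact (τ * T⁻¹ * τ).symm_apply_apply _
  rw [Perm.mul_apply, h3, Perm.mul_apply, hγ, h1]

theorem dat3_semi_tau (hb : D.Big) (hq : ∀ x : E, ∃ y, y ^ 2 = x) {h τ : Perm D.Pt}
    (hh : D.IsSemi h) (hτ : D.IsTau τ) : h * τ * h⁻¹ ∈ D.L := by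
  obtain ⟨T, hT, hT'⟩ := dat3_tau_conj hb hq hτ
  have hi : τ⁻¹ = τ := inv_eq_of_mul_eq_one_right hτ.sq
  have h1 := (dat3_semi_trans (dat3_tau_semi hτ hh) hT).mem
  have h2 : h * (τ * T * τ) * h⁻¹ ∈ D.L := by
    have e : h * (τ * T * τ) * h⁻¹ = τ⁻¹ * (τ * h * τ * T * (τ * h * τ⁻¹)⁻¹) * τ := by group
    rw [e, hi]
    exact D.L.mul_mem (D.L.mul_mem hτ.mem h1) hτ.mem
  have h3 := (dat3_semi_trans hh hT').mem
  have e : h * τ * h⁻¹ = (h * (τ * T * τ) * h⁻¹)⁻¹ *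
      (h * (τ * T * τ * τ * (τ * T * τ)⁻¹) * h⁻¹) * (h * (τ * T * τ) * h⁻¹) := by group
  rw [e]
  exact D.L.mul_mem (D.L.mul_mem (D.L.inv_mem h2) h3) h2

theorem dat3_semi_norm (hb : D.Big) (hq : ∀ x : E, ∃ y, y ^ 2 = x) {h : Perm D.Pt}
    (hh : D.IsSemi h) : ∀ l ∈ D.L, h * l * h⁻¹ ∈ D.L := by
  intro l hl
  induction hl using Subgroup.closure_induction with
  | mem g hg => exact hg.elim (fun hg => (dat3_semi_trans hh hg).mem) (dat3_semi_tau hb hq hh)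
  | one => simp
  | mul x y _ _ hx hy =>
    have e : h * (x * y) * h⁻¹ = h * x * h⁻¹ * (h * y * h⁻¹) := by group
    rw [e]
    exact D.L.mul_mem hx hy
  | inv x _ hx =>
    have e : h * x⁻¹ * h⁻¹ = (h * x * h⁻¹)⁻¹ := by group
    rw [e]
    exact D.L.inv_mem hx

theorem norm_L (hb : D.Big) (hq : ∀ x : E, ∃ y, y ^ 2 = x) :
    ∀ a ∈ D.A, ∀ l ∈ D.L, a * l * a⁻¹ ∈ D.L := by
  have key : ∀ a ∈ D.A, (∀ l ∈ D.L, a * l * a⁻¹ ∈ D.L) ∧ ∀ l ∈ D.L, a⁻¹ * l * a⁻¹⁻¹ ∈ D.L := by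
    have hin : ∀ a ∈ D.L, ∀ l ∈ D.L, a * l * a⁻¹ ∈ D.L := fun a ha l hl =>
      D.L.mul_mem (D.L.mul_mem ha hl) (D.L.inv_mem ha)
    intro a ha
    induction ha using Subgroup.closure_induction with
    | mem g hg =>
      rcases hg with hg | hg | hg
      · exact ⟨hin _ hg.mem, hin _ (D.L.inv_mem hg.mem)⟩
      · exact ⟨hin _ hg.mem, hin _ (D.L.inv_mem hg.mem)⟩
      · exact ⟨dat3_semi_norm hb hq hg, dat3_semi_norm hb hq (dat3_semi_inv hg)⟩
    | one => exact ⟨hin _ D.L.one_mem, hin _ (D.L.inv_mem D.L.one_mem)⟩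
    | mul x y _ _ hx hy =>
      refine ⟨fun l hl => ?_, fun l hl => ?_⟩
      · have e : x * y * l * (x * y)⁻¹ = x * (y * l * y⁻¹) * x⁻¹ := by group
        rw [e]
        exact hx.1 _ (hy.1 l hl)
      · have e : (x * y)⁻¹ * l * (x * y)⁻¹⁻¹ = y⁻¹ * (x⁻¹ * l * x⁻¹⁻¹) * y⁻¹⁻¹ := by group
        rw [e]
        exact hy.2 _ (hx.2 l hl)
    | inv x _ hx => exact ⟨hx.2, by simpa only [inv_inv] using hx.1⟩
  exact fun a ha => (key a ha).1

/-- An involution of `L` swapping two points can be normalised to `τ`. -/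
theorem normalise (hb : D.Big) (hq : ∀ x : E, ∃ y, y ^ 2 = x) {l : Perm D.Pt} (hl : l ∈ D.L)
    (h2 : l * l = 1) {x : D.Pt} (hx : l x ≠ x) :
    ∃ a ∈ D.A, a x = none ∧ a (l x) = D.o ∧ D.IsTau (a * l * a⁻¹) := by
  obtain ⟨l0, hl0, e1, e2⟩ := exists_to_base hx.symm
  obtain ⟨τ, hτ⟩ := D.exists_tau
  have hi : τ⁻¹ = τ := inv_eq_of_mul_eq_one_right hτ.sq
  have hll : l (l x) = x := by rw [← Perm.mul_apply, h2, Perm.one_apply]
  have i1 : l0⁻¹ none = x := by rw [← e1]; exact l0.symm_apply_apply _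
  have i2 : l0⁻¹ D.o = l x := by rw [← e2]; exact l0.symm_apply_apply _
  obtain ⟨c, hc⟩ := stabL hb hq (g := τ * (l0 * l * l0⁻¹))
    (D.L.mul_mem hτ.mem (D.L.mul_mem (D.L.mul_mem hl0 hl) (D.L.inv_mem hl0)))
    (by simp only [Perm.mul_apply, i1, e2, hτ.zero])
    (by simp only [Perm.mul_apply, i2, hll, e1, hτ.inf])
  have hc0 : c ≠ 0 := SemiBy.ne_zero (φ := RingHom.id E) hc
  obtain ⟨e, he⟩ := hq c
  have he0 : e ≠ 0 := by
    rintro rfl
    exact hc0 (by rw [← he]; ring)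
  have hce : D.cstar e * c = e := by
    cases hs : D.suz
    · have h3 := dat3_semi_mul (IsTau.conj_semi (φ := RingHom.id E) (fun _ => rfl) hτ hc) hc
      have h4 : τ * (τ * (l0 * l * l0⁻¹)) * τ * (τ * (l0 * l * l0⁻¹)) = 1 := by
        have h5 : τ * (τ * (l0 * l * l0⁻¹)) * τ * (τ * (l0 * l * l0⁻¹)) =
            (τ * τ) * (l0 * l * l0⁻¹) * (τ * τ) * (l0 * l * l0⁻¹) := by
          simp only [mul_assoc]
        rw [h5, hτ.sq, one_mul, mul_one]
        have h6 : l0 * l * l0⁻¹ * (l0 * l * l0⁻¹) = l0 * (l * l) * l0⁻¹ := by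
          simp only [mul_assoc, inv_mul_cancel_left]
        rw [h6, h2, mul_one, mul_inv_cancel]
      rw [h4] at h3
      have h7 := dat3_semi_one h3
      have hθ : D.θ c ≠ 0 := (map_ne_zero D.θ).2 hc0
      simp only [cstar, hs, Bool.false_eq_true, if_false] at h7 ⊢
      have h8 : D.θ c = c := by
        field_simp at h7
        exact h7.symm
      have h9 : D.θ e = e := dat3_sq_inj D (by rw [← map_pow, he, h8])
      rw [h9, ← he]
      field_simp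
    · simp only [cstar, hs, if_true]
      rw [← he]
      field_simp
  obtain ⟨k, hk⟩ := D.exists_semi he0 (RingEquiv.refl E) fun _ => rfl
  have hk' : D.SemiBy e id k := hk
  have h10 := dat3_semi_mul (IsTau.conj_semi (φ := RingHom.id E) (fun _ => rfl) hτ hk') hc
  rw [hce] at h10
  have h11 := h10.unique hk'
  refine ⟨k * l0, D.A.mul_mem (IsSemi.mem ⟨e, RingEquiv.refl E, fun _ => rfl, hk⟩) (L_le_A hl0),
    by rw [Perm.mul_apply, e1, hk'.inf],
    by rw [Perm.mul_apply, e2]; exact SemiBy.zero (φ := RingHom.id E) hk', ?_⟩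
  have h12 : k * l0 * l * (k * l0)⁻¹ = τ := by
    have h13 : k * l0 * l * (k * l0)⁻¹ =
        τ⁻¹ * (τ * k * τ⁻¹ * (τ * (l0 * l * l0⁻¹))) * k⁻¹ := by group
    rw [h13, hi, h11, mul_inv_cancel_right]
  rw [h12]
  exact hτ

end Datum

end Pool.Agent.Lib.MP_a7ce8b_al
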