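import Pool.Agent.Lib.MP_a7ce8b_al.C.Dat3

/-! Field automorphisms: 2-subgroups of A are almost contained in L. -/

namespace Pool.Agent.Lib.MP_a7ce8b_al

open Equiv MulAction

theorem dat5_mul {E : Type} [Field E] {x : E} {n : ℕ} (h : x ^ 2 ^ n = x) (k : ℕ) :
    x ^ 2 ^ (n * k) = x := by
  induction k with
  | zero => simp
  | succ k ih => rw [Nat.mul_succ, pow_add, pow_mul, ih, h]

/-- Restriction of automorphisms to a finite subfield. -/
theorem dat5_res {E : Type} [Field E] (h2 : (2 : E) = 0) {n : ℕ} (hn : 0 < n) :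
    ∃ (C : Type) (_ : Group C) (_ : Finite C) (_ : IsCyclic C) (ρ : (E ≃+* E) →* C),
      ∀ g, ρ g = 1 ↔ ∀ x, x ^ 2 ^ n = x → g x = x := by
  have := CharTwo.of_one_ne_zero_of_two_eq_zero (R := E) one_ne_zero h2
  let F : Subfield E := (iterateFrobenius E 2 n).eqLocusField (RingHom.id E)
  have hF : ∀ x, x ∈ F ↔ x ^ 2 ^ n = x := fun x => Iff.rfl
  have : Finite F := by
    refine (Polynomial.finite_setOfPred_isRoot (FiniteField.X_pow_card_sub_X_ne_zero E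
      (Nat.one_lt_two_pow hn.ne'))).subset fun x hx => ?_
    simpa [sub_eq_zero] using (hF x).1 hx
  have : IsInvariantSubfield (E ≃+* E) F :=
    ⟨fun g x hx => (hF _).2 (show g x ^ 2 ^ n = g x by rw [← map_pow, (hF x).1 hx])⟩
  refine ⟨_, inferInstance, inferInstance, inferInstance,
    MulSemiringAction.toAlgAut (E ≃+* E) (FixedPoints.subfield (E ≃+* E) F) F, fun g =>
    ⟨fun h x hx => ?_, fun h => AlgEquiv.ext fun x => Subtype.ext (h x.1 x.2)⟩⟩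
  exact congrArg Subtype.val (AlgEquiv.congr_fun h ⟨x, hx⟩)

theorem dat5_cyc {C : Type} [Group C] [Finite C] [IsCyclic C] {a b : C} (ha : a * a = 1)
    (hb : b * b = 1) (ha' : a ≠ 1) (hb' : b ≠ 1) : a = b := by
  classical
  have := Fintype.ofFinite C
  by_contra hab
  have h1 := IsCyclic.card_pow_eq_one_le (α := C) (n := 2) two_pos
  refine absurd (Finset.two_lt_card_iff.2 ⟨1, a, b, ?_, ?_, ?_, ha'.symm, hb'.symm, hab⟩)
    h1.not_gt <;> simp [pow_two, ha, hb]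

theorem dat5_invol {E : Type} [Field E] (h2 : (2 : E) = 0)
    (h : ∀ x : E, ∃ n, 0 < n ∧ x ^ 2 ^ n = x) {a b : E ≃+* E} (ha : a * a = 1) (hb : b * b = 1)
    (ha' : a ≠ 1) (hb' : b ≠ 1) : a = b := by
  refine RingEquiv.ext fun x => ?_
  obtain ⟨y, hy⟩ : ∃ y, a y ≠ y := not_forall.1 fun h => ha' (RingEquiv.ext h)
  obtain ⟨z, hz⟩ : ∃ z, b z ≠ z := not_forall.1 fun h => hb' (RingEquiv.ext h)
  obtain ⟨i, hi, ex⟩ := h x
  obtain ⟨j, hj, ey⟩ := h y
  obtain ⟨k, hk, ez⟩ := h z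
  obtain ⟨C, _, _, _, ρ, hρ⟩ := dat5_res h2 (n := i * (j * k)) (by positivity)
  have e : ρ a = ρ b := dat5_cyc (by rw [← map_mul, ha, map_one]) (by rw [← map_mul, hb, map_one])
    (fun e => hy ((hρ a).1 e y (by rw [mul_left_comm]; exact dat5_mul ey _)))
    (fun e => hz ((hρ b).1 e z (by rw [← mul_assoc, mul_comm]; exact dat5_mul ez _)))
  have := (hρ (b⁻¹ * a)).1 (by rw [map_mul, map_inv, e, inv_mul_cancel]) x (dat5_mul ex _)
  exact b.symm_apply_eq.1 this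

/-- 2-groups of automorphisms of a locally finite field of characteristic 2 are finite. -/
theorem finite_two_aut {E : Type} [Field E] (h2 : (2 : E) = 0)
    (h : ∀ x : E, ∃ n, 0 < n ∧ x ^ 2 ^ n = x) (B : Subgroup (E ≃+* E)) (hB : IsPGroup 2 B) :
    Finite B := by
  obtain ⟨n, hn, H⟩ : ∃ n, 0 < n ∧ ∀ a : E ≃+* E, a ≠ 1 → a * a = 1 →
      ∃ y, y ^ 2 ^ n = y ∧ a y ≠ y := by
    by_cases h0 : ∃ b : E ≃+* E, b ≠ 1 ∧ b * b = 1
    · obtain ⟨b, hb', hb⟩ := h0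
      obtain ⟨z, hz⟩ : ∃ z, b z ≠ z := not_forall.1 fun h => hb' (RingEquiv.ext h)
      obtain ⟨k, hk, ez⟩ := h z
      exact ⟨k, hk, fun a ha' ha => ⟨z, ez, by rwa [dat5_invol h2 h ha hb ha' hb']⟩⟩
    · exact ⟨1, one_pos, fun a ha' ha => absurd ⟨a, ha', ha⟩ h0⟩
  obtain ⟨C, _, _, _, ρ, hρ⟩ := dat5_res h2 hn
  refine Finite.of_injective (ρ.comp B.subtype) ((injective_iff_map_eq_one _).2 fun g hg => ?_)
  by_contra hg1
  obtain ⟨m, h1, h3⟩ := (isPGroup_iff_twoEl.1 hB g.1 g.2).exists_invol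
    fun e => hg1 (Subtype.ext e)
  obtain ⟨y, hy, hy'⟩ := H _ h1 h3
  exact hy' ((hρ _).1 (by rw [map_pow, show ρ g.1 = 1 from hg, one_pow]) y hy)

namespace Datum

variable {E : Type} [Field E] {D : Datum E}

theorem dat5_unique {c c' : E} {φ ψ : E →+* E} {g : Perm D.Pt} (h : D.SemiBy c φ g)
    (h' : D.SemiBy c' ψ g) (x : E) : φ x = ψ x := by
  have e : ∀ p, D.On p → D.sc c φ p = D.sc c' ψ p := fun p hp =>
    Option.some.inj ((h (some ⟨p, hp⟩)).symm.trans (h' (some ⟨p, hp⟩)))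
  have h0 := h.ne_zero
  rcases D.dichotomy with hd | ⟨-, hd⟩
  · obtain ⟨b, hb⟩ := hd 1
    obtain ⟨b', hb'⟩ := hd x
    have e1 : c * φ 1 = c' * ψ 1 := congrArg Prod.fst (e _ hb)
    have e2 : c * φ x = c' * ψ x := congrArg Prod.fst (e _ hb')
    rw [map_one, map_one, mul_one, mul_one] at e1
    exact mul_left_cancel₀ h0 (e1 ▸ e2)
  · have on : ∀ b, D.On (0, b) := fun b => Or.inr (by rw [zero_mul, hd, D.add_self])
    have e1 : c * D.θ c * φ 1 = c' * D.θ c' * ψ 1 := congrArg Prod.snd (e _ (on 1))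
    have e2 : c * D.θ c * φ x = c' * D.θ c' * ψ x := congrArg Prod.snd (e _ (on x))
    rw [map_one, map_one, mul_one, mul_one] at e1
    rw [← e1, hd] at e2
    exact mul_left_cancel₀ (mul_ne_zero h0 h0) e2

/-- The field automorphism of `g` is `φ`. -/
def dat5Rel (g : Perm D.Pt) (φ : E ≃+* E) : Prop :=
  (∀ x, φ (D.θ x) = D.θ (φ x)) ∧ ∃ l ∈ D.L, ∃ c, D.SemiBy c φ (l * g)

theorem dat5_exists (hb : D.Big) (hq : ∀ x : E, ∃ y, y ^ 2 = x) {g : Perm D.Pt} (hg : g ∈ D.A) :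
    ∃ φ, dat5Rel g φ := by
  obtain ⟨l, hl, h1, h2⟩ := exists_to_base (g.injective.ne (show none ≠ D.o by simp [o]))
  obtain ⟨c, φ, h, h'⟩ := stabA hb hq (D.A.mul_mem (L_le_A hl) hg) h1 h2
  exact ⟨φ, h, l, hl, c, h'⟩

theorem dat5_eq (hb : D.Big) (hq : ∀ x : E, ∃ y, y ^ 2 = x) {g : Perm D.Pt} {φ ψ : E ≃+* E}
    (h : dat5Rel g φ) (h' : dat5Rel g ψ) : φ = ψ := by
  obtain ⟨-, l, hl, c, h⟩ := h
  obtain ⟨-, l', hl', c', h'⟩ := h'
  have e : l' * l⁻¹ * (l * g) = l' * g := by group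
  have e' : ∀ x, (l * g) x = x → (l' * g) x = x → (l' * l⁻¹) x = x := fun x h1 h2 => by
    rw [← e, Perm.mul_apply, h1] at h2
    exact h2
  obtain ⟨d, hd⟩ := stabL hb hq (D.L.mul_mem hl' (D.L.inv_mem hl)) (e' _ h.inf h'.inf)
    (e' _ (SemiBy.zero (φ := (φ : E →+* E)) h) (SemiBy.zero (φ := (ψ : E →+* E)) h'))
  have h1 := SemiBy.mul (φ := RingHom.id E) (fun _ => rfl) hd h
  rw [e] at h1
  exact RingEquiv.ext (dat5_unique (φ := (φ : E →+* E)) (ψ := (ψ : E →+* E)) h1 h')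

theorem dat5_mul' (hb : D.Big) (hq : ∀ x : E, ∃ y, y ^ 2 = x) {g g' : Perm D.Pt} (hg : g ∈ D.A)
    {φ ψ : E ≃+* E} (h : dat5Rel g φ) (h' : dat5Rel g' ψ) : dat5Rel (g * g') (φ * ψ) := by
  obtain ⟨h1, l, hl, c, h⟩ := h
  obtain ⟨h2, l', hl', c', h'⟩ := h'
  refine ⟨fun x => (congrArg φ (h2 x)).trans (h1 _), l * (g * l' * g⁻¹),
    D.L.mul_mem hl (norm_L hb hq g hg l' hl'), c * φ c', ?_⟩
  rw [show l * (g * l' * g⁻¹) * (g * g') = l * g * (l' * g') by group]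
  exact SemiBy.mul (φ := (φ : E →+* E)) h1 h h'

theorem dat5_mem (hb : D.Big) (h : ∀ x : E, ∃ n, 0 < n ∧ x ^ 2 ^ n = x) {g : Perm D.Pt}
    (hg : g ∈ D.A) (h2 : TwoEl g) (h1 : dat5Rel g 1) : g ∈ D.L := by
  obtain ⟨-, l, hl, c, hc⟩ := h1
  obtain ⟨n, hn, e⟩ := h c
  obtain ⟨m, hm⟩ : ∃ m, 2 ^ n = m + 1 := ⟨_, (Nat.succ_pred_eq_of_pos (by positivity)).symm⟩
  have ho : Odd m := by
    have : Even (m + 1) := hm ▸ (Nat.even_pow' hn.ne').2 even_two
    exact Nat.not_even_iff_odd.1 (Nat.even_add_one.1 this)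
  rw [hm, pow_succ, mul_eq_right₀ (SemiBy.ne_zero (φ := RingHom.id E) hc)] at e
  have p : ∀ k, D.SemiBy (c ^ k) id ((l * g) ^ k) := fun k => by
    induction k with
    | zero => simpa using semiBy_one
    | succ k ih =>
      rw [pow_succ', pow_succ']
      exact SemiBy.mul (φ := RingHom.id E) (fun _ => rfl) hc ih
  have q : ∀ k, (l * g) ^ k * (g ^ k)⁻¹ ∈ D.L := fun k => by
    induction k with
    | zero => simp
    | succ k ih =>
      rw [show (l * g) ^ (k + 1) * (g ^ (k + 1))⁻¹ = l * (g * ((l * g) ^ k * (g ^ k)⁻¹) * g⁻¹) by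
        rw [pow_succ', pow_succ']; group]
      exact D.L.mul_mem hl (norm_L hb (sqrt_of_alg h) g hg _ ih)
  have r := q m
  have r' := p m
  rw [e] at r'
  rw [r'.unique semiBy_one, one_mul, inv_mem_iff] at r
  obtain ⟨k, hk⟩ := h2.exists_pow_odd ho
  exact hk ▸ D.L.pow_mem r k

end Datum

theorem Datum.finiteIndex_two {E : Type} [Field E] {D : Datum E} (hb : D.Big)
    (h : ∀ x : E, ∃ n, 0 < n ∧ x ^ 2 ^ n = x) {B : Subgroup (Perm D.Pt)} (hBA : B ≤ D.A)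
    (hB : IsPGroup 2 B) : (D.L.subgroupOf B).FiniteIndex := by
  have hq := sqrt_of_alg h
  choose f hf using fun g : B => dat5_exists hb hq (hBA g.2)
  let ρ : B →* (E ≃+* E) := MonoidHom.mk' f fun a b =>
    dat5_eq hb hq (hf (a * b)) (dat5_mul' hb hq (hBA a.2) (hf a) (hf b))
  have := finite_two_aut D.two h ρ.range (hB.of_surjective _ ρ.rangeRestrict_surjective)
  refine Subgroup.finiteIndex_of_le (H := ρ.ker) fun g hg => ?_
  exact dat5_mem hb h (hBA g.2) (isPGroup_iff_twoEl.1 hB g.1 g.2)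
    ((show f g = 1 from hg) ▸ hf g)

end Pool.Agent.Lib.MP_a7ce8b_al
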