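import Pool.Agent.Lib.MP_a7ce8b_al.C.Dat2

/-! Two point stabilizers, Suzuki case. -/

namespace Pool.Agent.Lib.MP_a7ce8b_al

open Equiv MulAction

namespace Datum

variable {E : Type} [Field E] {D : Datum E}

/-- The vector of a point. -/
def datS_v (D : Datum E) : Option (E × E) → Fin 4 → E
  | none => ![0, 0, 0, 1]
  | some p => ![1, p.1, p.2, D.nrm p]

/-- `g` is induced by a `φ`-semilinear map. -/
def datS_geo (D : Datum E) (g : Perm D.Pt) (φ : E ≃+* E) : Prop :=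
  (∀ x, φ (D.θ x) = D.θ (φ x)) ∧ ∃ M : Matrix (Fin 4) (Fin 4) E, ∀ x, ∃ l : E, l ≠ 0 ∧
    M.mulVec (φ ∘ D.datS_v (D.co x)) = l • D.datS_v (D.co (g x))

theorem datS_mul {g g' : Perm D.Pt} {φ φ' : E ≃+* E} (h : D.datS_geo g φ) (h' : D.datS_geo g' φ') :
    D.datS_geo (g * g') (φ'.trans φ) := by
  obtain ⟨a, M, hM⟩ := h
  obtain ⟨a', M', hM'⟩ := h'
  refine ⟨fun x => by simp [a, a'], M * M'.map φ, fun x => ?_⟩
  obtain ⟨l, l0, e⟩ := hM (g' x)
  obtain ⟨l', l0', e'⟩ := hM' x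
  refine ⟨φ l' * l, mul_ne_zero ((map_ne_zero φ).2 l0') l0, ?_⟩
  have h1 : (M'.map φ).mulVec (φ'.trans φ ∘ D.datS_v (D.co x)) =
      φ l' • (φ ∘ D.datS_v (D.co (g' x))) := funext fun i => by
    have := congrArg φ (congrFun e' i)
    simpa [Matrix.mulVec, dotProduct] using this
  rw [← Matrix.mulVec_mulVec, h1, Matrix.mulVec_smul, e, smul_smul, Perm.mul_apply]

theorem datS_trans (hs : D.suz = true) {u : E × E} {g : Perm D.Pt} (h : D.TransBy u g) :
    D.datS_geo g (RingEquiv.refl E) := by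
  refine ⟨fun _ => rfl, !![1, 0, 0, 0; u.1, 1, 0, 0; u.2, D.θ u.1, 1, 0;
    D.nrm u, u.2 + u.1 * D.θ u.1, u.1, 1], fun x => ⟨1, one_ne_zero, ?_⟩⟩
  rw [h x]
  rcases D.co x with _ | p
  · ext i
    fin_cases i <;> simp [datS_v, Matrix.mulVec, dotProduct, Fin.sum_univ_four]
  · ext i
    fin_cases i <;> simp [datS_v, Matrix.mulVec, dotProduct, Fin.sum_univ_four, D.nrm_add hs] <;>
      (try simp only [add]) <;> ring

theorem datS_zero : D.nrm (0, 0) = 0 := by simp [nrm]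

theorem datS_tau (hs : D.suz = true) {g : Perm D.Pt} (h : D.IsTau g) :
    D.datS_geo g (RingEquiv.refl E) := by
  refine ⟨fun _ => rfl, !![0, 0, 0, 1; 0, 0, 1, 0; 0, 1, 0, 0; 1, 0, 0, 0], fun x => ?_⟩
  rw [h x]
  rcases D.co x with _ | p
  · refine ⟨1, one_ne_zero, ?_⟩
    ext i
    fin_cases i <;> simp [datS_v, tau, Matrix.mulVec, dotProduct, Fin.sum_univ_four, nrm]
  by_cases hp : p = (0, 0)
  · refine ⟨1, one_ne_zero, ?_⟩
    ext i
    fin_cases i <;> simp [datS_v, tau, hp, Matrix.mulVec, dotProduct, Fin.sum_univ_four, nrm]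
  · have h0 := D.nrm_ne_zero hs hp
    refine ⟨_, h0, ?_⟩
    rw [tau, if_neg hp, datS_v, datS_v, D.nrm_inv hs hp, inv, if_pos hs]
    ext i
    fin_cases i <;> simp [Matrix.mulVec, dotProduct, Fin.sum_univ_four, h0, mul_div_cancel₀]

theorem datS_semi (hs : D.suz = true) {c : E} {φ : E ≃+* E} (hφ : ∀ x, φ (D.θ x) = D.θ (φ x))
    {g : Perm D.Pt} (h : D.SemiBy c φ g) : D.datS_geo g φ := by
  have c0 : c ≠ 0 := SemiBy.ne_zero (φ := (φ : E →+* E)) h
  refine ⟨hφ, !![1, 0, 0, 0; 0, c, 0, 0; 0, 0, c * D.θ c, 0; 0, 0, 0, c ^ 2 * D.θ c], fun x => ?_⟩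
  rw [h x]
  rcases D.co x with _ | p
  · refine ⟨_, mul_ne_zero (pow_ne_zero 2 c0) ((map_ne_zero D.θ).2 c0), ?_⟩
    ext i
    fin_cases i <;> simp [datS_v, Matrix.mulVec, dotProduct, Fin.sum_univ_four]
  · have h1 : D.nrm (D.sc c φ p) = _ := D.nrm_sc hs c (φ : E →+* E) hφ p
    refine ⟨1, one_ne_zero, ?_⟩
    rw [Option.map_some, datS_v, datS_v, h1]
    ext i
    fin_cases i <;> simp [Matrix.mulVec, dotProduct, Fin.sum_univ_four, sc]

theorem datS_poly (hs : D.suz = true) (hb : D.Big) {a b c : E}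
    (h : ∀ y, a * (y ^ 2 * D.θ y) + b * y ^ 2 + c * D.θ y = 0) : a = 0 ∧ c = 0 := by
  have h2 := D.two
  obtain ⟨x, hx⟩ : ∃ x, x ^ 2 + D.θ x ≠ 0 := by
    by_contra hc
    push Not at hc
    obtain ⟨⟨⟨_, x⟩, _⟩, -, x0, x1⟩ := hb
    have e1 := D.sq x
    have e2 : D.θ x = x ^ 2 := by linear_combination hc x - x ^ 2 * h2
    rw [if_pos hs, e2, map_pow, e2] at e1
    have e3 : x ^ 2 * (x - 1) ^ 2 = 0 := by linear_combination e1 + (x ^ 2 - x ^ 3) * h2
    exact mul_ne_zero (pow_ne_zero 2 x0) (pow_ne_zero 2 (sub_ne_zero.2 x1)) e3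
  have e1 := h (x + 1)
  have e2 := h 1
  have e3 := h x
  rw [map_add] at e1
  rw [map_one] at e1 e2
  have a0 : a = 0 := (mul_eq_zero.1 (show a * (x ^ 2 + D.θ x) = 0 by
    linear_combination e1 - e2 - e3 - (a * x * D.θ x + a * x + b * x) * h2)).resolve_right hx
  refine ⟨a0, (mul_eq_zero.1 (show c * (x ^ 2 + D.θ x) = 0 from ?_)).resolve_right hx⟩
  rw [a0] at e2 e3
  linear_combination e3 - x ^ 2 * e2 + c * x ^ 2 * h2

theorem datS_main (hs : D.suz = true) (hb : D.Big) {g : Perm D.Pt} {φ : E ≃+* E}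
    (h : D.datS_geo g φ) (h1 : g none = none) (h2 : g D.o = D.o) : ∃ c, D.SemiBy c φ g := by
  obtain ⟨hφ, M, hM⟩ := h
  obtain ⟨s, s0, e1⟩ := hM none
  obtain ⟨l, l0, e2⟩ := hM D.o
  rw [h1] at e1
  rw [h2] at e2
  have a := fun i => congrFun e1 i
  have b := fun i => congrFun e2 i
  simp only [co_none, co_o, datS_v, datS_zero, Matrix.mulVec, dotProduct, Fin.sum_univ_four,
    Function.comp_apply, Matrix.cons_val, map_zero, map_one, mul_zero, mul_one, add_zero,
    zero_add, Pi.smul_apply, smul_eq_mul] at a b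
  have key : ∀ p : D.Aff, ∃ (q : E × E) (t : E), D.co (g (some p)) = some q ∧ t ≠ 0 ∧
      (p.1 ≠ (0, 0) → q ≠ (0, 0)) ∧ l + M 0 1 * φ p.1.1 + M 0 2 * φ p.1.2 = t ∧
      M 1 1 * φ p.1.1 + M 1 2 * φ p.1.2 = t * q.1 ∧ M 2 1 * φ p.1.1 + M 2 2 * φ p.1.2 = t * q.2 ∧
      M 3 1 * φ p.1.1 + M 3 2 * φ p.1.2 + s * D.nrm (φ p.1.1, φ p.1.2) = t * D.nrm q := by
    intro p
    obtain ⟨t, t0, e⟩ := hM (some p)
    rcases hq : g (some p) with _ | q
    · exact absurd (g.injective (hq.trans h1.symm)) (Option.some_ne_none p)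
    rw [hq] at e
    have c := fun i => congrFun e i
    have d : φ (D.nrm p.1) = D.nrm (φ p.1.1, φ p.1.2) := by simp [nrm, hφ]
    simp only [co_some, datS_v, Matrix.mulVec, dotProduct, Fin.sum_univ_four, Function.comp_apply,
      Matrix.cons_val, map_one, mul_one, Pi.smul_apply, smul_eq_mul, a, b, d] at c
    refine ⟨q.1, t, rfl, t0, fun hp h0 => hp ?_, by simpa using c 0, by simpa using c 1,
      by simpa using c 2, by simpa using c 3⟩
    have : g (some p) = g D.o := hq.trans ((congrArg some (Subtype.ext h0)).trans h2.symm)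
    exact congrArg Subtype.val (Option.some_injective _ (g.injective this))
  have key' : ∀ x y : E, ∃ (q : E × E) (t : E), t ≠ 0 ∧
      ((x, y) ≠ (0, 0) → q ≠ (0, 0)) ∧ l + M 0 1 * x + M 0 2 * y = t ∧
      M 1 1 * x + M 1 2 * y = t * q.1 ∧ M 2 1 * x + M 2 2 * y = t * q.2 ∧
      M 3 1 * x + M 3 2 * y + s * D.nrm (x, y) = t * D.nrm q := fun x y => by
    obtain ⟨q, t, -, k1, k2, k3⟩ := key ⟨(φ.symm x, φ.symm y), Or.inl hs⟩
    simp only [RingEquiv.apply_symm_apply] at k3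
    exact ⟨q, t, k1, fun h => k2 (by simpa using h), k3⟩
  have m01 : M 0 1 = 0 := by_contra fun h => by
    obtain ⟨q, t, k1, -, k3, -⟩ := key' (-l / M 0 1) 0
    exact k1 (by rw [← k3]; field_simp; ring)
  have m02 : M 0 2 = 0 := by_contra fun h => by
    obtain ⟨q, t, k1, -, k3, -⟩ := key' 0 (-l / M 0 2)
    exact k1 (by rw [← k3]; field_simp; ring)
  have row : ∀ w : E × E, w ≠ (0, 0) → M 3 1 * w.2 + M 3 2 * w.1 + s ≠ 0 := fun w hw h => by
    obtain ⟨q, t, k1, k2, -, -, -, k3⟩ := key' (D.inv w).1 (D.inv w).2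
    have n0 := D.nrm_ne_zero hs hw
    refine mul_ne_zero k1 (D.nrm_ne_zero hs (k2 (D.inv_ne_zero' (Or.inl hs) hw))) ?_
    rw [← k3, D.nrm_inv hs hw, inv, if_pos hs]
    field_simp
    linear_combination h
  have m31 : M 3 1 = 0 := by_contra fun h =>
    row (0, -s / M 3 1) (by simp [h, s0]) (by field_simp; ring)
  have m32 : M 3 2 = 0 := by_contra fun h =>
    row (-s / M 3 2, 0) (by simp [h, s0]) (by field_simp; ring)
  have nr : ∀ x y, D.nrm (M 1 1 / l * x + M 1 2 / l * y, M 2 1 / l * x + M 2 2 / l * y) =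
      s / l * D.nrm (x, y) := fun x y => by
    obtain ⟨q, t, -, -, k1, k2, k3, k4⟩ := key' x y
    rw [m01, m02, zero_mul, zero_mul, add_zero, add_zero] at k1
    rw [m31, m32, zero_mul, zero_mul, zero_add, zero_add] at k4
    subst k1
    rw [show M 1 1 / l * x + M 1 2 / l * y = q.1 by field_simp; linear_combination k2,
      show M 2 1 / l * x + M 2 2 / l * y = q.2 by field_simp; linear_combination k3]
    field_simp
    linear_combination -k4
  obtain ⟨f1, f2⟩ := datS_poly hs hb (a := (M 1 2 / l) ^ 2 * D.θ (M 1 2 / l))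
    (b := M 1 2 / l * (M 2 2 / l)) (c := D.θ (M 2 2 / l) - s / l) fun y => by
      have := nr 0 y
      simp only [nrm, mul_zero, zero_add, map_mul, map_zero, zero_mul] at this
      linear_combination this
  obtain ⟨f3, f4⟩ := datS_poly hs hb (a := (M 1 1 / l) ^ 2 * D.θ (M 1 1 / l) - s / l)
    (b := M 1 1 / l * (M 2 1 / l)) (c := D.θ (M 2 1 / l)) fun y => by
      have := nr y 0
      simp only [nrm, mul_zero, add_zero, map_mul, map_zero] at this
      linear_combination this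
  have f5 : M 1 2 / l = 0 := (mul_eq_zero.1 f1).elim (pow_eq_zero_iff two_ne_zero).1
    (map_eq_zero D.θ).1
  have f6 : M 2 2 / l = M 1 1 / l * D.θ (M 1 1 / l) := D.θ.injective (by
    rw [map_mul, D.sq, if_pos hs]
    linear_combination f2 - f3)
  refine ⟨M 1 1 / l, fun x => ?_⟩
  rcases x with _ | p
  · rw [h1]; rfl
  obtain ⟨q, t, k0, -, -, k1, k2, k3, -⟩ := key p
  rw [m01, m02, zero_mul, zero_mul, add_zero, add_zero] at k1
  subst k1
  rw [div_eq_zero_iff, or_iff_left l0] at f5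
  rw [map_eq_zero, div_eq_zero_iff, or_iff_left l0] at f4
  rw [k0, co_some, Option.map_some, sc, ← f6]
  refine congrArg some (Prod.ext ?_ ?_)
  · rw [f5] at k2
    field_simp
    linear_combination -k2
  · rw [f4] at k3
    field_simp
    linear_combination -k3

theorem datS_one (hs : D.suz = true) : D.datS_geo 1 (RingEquiv.refl E) := datS_trans hs transBy_one

theorem datS_tau' (hs : D.suz = true) {g : Perm D.Pt} (h : D.IsTau g) :
    D.datS_geo g⁻¹ (RingEquiv.refl E) := by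
  rw [inv_eq_of_mul_eq_one_right h.sq]
  exact datS_tau hs h

theorem stabA_suz (hs : D.suz = true) (hb : D.Big) {g : Perm D.Pt} (hg : g ∈ D.A)
    (h1 : g none = none) (h2 : g D.o = D.o) : D.IsSemi g := by
  obtain ⟨φ, h⟩ : ∃ φ, D.datS_geo g φ := by
    clear h1 h2
    induction hg using Subgroup.closure_induction'' with
    | mem x hx =>
      rcases hx with ⟨u, h⟩ | h | ⟨c, φ, h, h'⟩
      exacts [⟨_, datS_trans hs h⟩, ⟨_, datS_tau hs h⟩, ⟨_, datS_semi hs h h'⟩]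
    | inv_mem x hx =>
      rcases hx with ⟨u, h⟩ | h | ⟨c, φ, h, h'⟩
      exacts [⟨_, datS_trans hs (TransBy.inv h)⟩, ⟨_, datS_tau' hs h⟩,
        ⟨_, datS_semi hs (fun x => φ.injective (by simp [h])) (SemiBy.inv h h')⟩]
    | one => exact ⟨_, datS_one hs⟩
    | mul x y _ _ hx hy => exact hx.elim fun _ a => hy.elim fun _ b => ⟨_, datS_mul a b⟩
  obtain ⟨c, hc⟩ := datS_main hs hb h h1 h2
  exact ⟨c, φ, h.1, hc⟩

theorem stabL_suz (hs : D.suz = true) (hb : D.Big) {g : Perm D.Pt} (hg : g ∈ D.L)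
    (h1 : g none = none) (h2 : g D.o = D.o) : ∃ c, D.SemiBy c id g := by
  refine datS_main (φ := RingEquiv.refl E) hs hb ?_ h1 h2
  clear h1 h2
  induction hg using Subgroup.closure_induction'' with
  | mem x hx =>
    rcases hx with ⟨u, h⟩ | h
    exacts [datS_trans hs h, datS_tau hs h]
  | inv_mem x hx =>
    rcases hx with ⟨u, h⟩ | h
    exacts [datS_trans hs (TransBy.inv h), datS_tau' hs h]
  | one => exact datS_one hs
  | mul x y _ _ hx hy => exact datS_mul hx hy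

end Datum

end Pool.Agent.Lib.MP_a7ce8b_al
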