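import Pool.Agent.Lib.MP_a7ce8b_al.C.GenA

/-! Gleason's lemma and the chain condition on fixed point sets. -/

namespace Pool.Agent.Lib.MP_a7ce8b_al

open Equiv MulAction

variable {G Ω : Type} [Group G] [MulAction G Ω] {P : Subgroup G} {t : G} {α : Ω}

theorem dcc_conj_finite (Q : Subgroup G) [Finite Q] (g : G) :
    Finite (Q.map (MulAut.conj g).toMonoidHom) :=
  Finite.of_equiv _ (Subgroup.equivMapOfInjective Q _ (MulAut.conj g).injective).toEquiv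

theorem dcc_mem_conj {Q : Subgroup G} {g x : G} :
    x ∈ Q.map (MulAut.conj g).toMonoidHom ↔ g⁻¹ * x * g ∈ Q := by
  constructor
  · rintro ⟨y, hy, rfl⟩
    simpa [mul_assoc] using hy
  · intro hx
    exact ⟨_, hx, by simp [mul_assoc]⟩

theorem Ctx.dcc_invol (h : Ctx P t α) (Q : Subgroup G) [Finite Q] (hQ : IsPGroup 2 Q) {β : Ω}
    (hβ : ∀ q ∈ Q, q • β = β) :
    ∃ s : G, (∀ q ∈ Q, s * q = q * s) ∧ s * s = 1 ∧ s • β = β ∧ ∀ ω : Ω, s • ω = ω → ω = β := by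
  have := h.fin
  obtain ⟨g, rfl⟩ := h.prim.toIsPretransitive.exists_smul_eq α β
  have hPα : ∀ p ∈ P, p • α = α := fun p hp => by
    apply h.uniq
    rw [← mul_smul, ← h.force P h.fin h.two le_rfl p hp, mul_smul, h.fix]
  let P' := P.map (MulAut.conj g).toMonoidHom
  have : Finite P' := dcc_conj_finite P g
  let K : Subgroup G := Q ⊔ Subgroup.closure (P' : Set G)
  have : Finite K := h.lf.finite_sup Q (Set.toFinite _)
  have hP'K : P' ≤ K := fun x hx => Subgroup.mem_sup_right (Subgroup.subset_closure hx)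
  have hK : K ≤ stabilizer G (g • α) := by
    refine sup_le hβ ((Subgroup.closure_le _).2 fun x hx => ?_)
    have := hPα _ (dcc_mem_conj.1 hx)
    rw [mul_smul, mul_smul, inv_smul_eq_iff] at this
    exact this
  obtain ⟨T, hPT, hTK, hT, hmax⟩ := exists_max_two K P' hP'K (h.two.map _)
  have : Finite T := Finite.of_injective _ (Subgroup.inclusion_injective hTK)
  obtain ⟨k, hk, hkQ⟩ := conj_into_max K T Q hTK hT hmax le_sup_left hQ
  have hkα : k • g • α = g • α := hK hk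
  have hforce := h.force (T.map (MulAut.conj g⁻¹).toMonoidHom) (dcc_conj_finite T _) (hT.map _)
    (fun p hp => dcc_mem_conj.2 (hPT (dcc_mem_conj.2 (by simpa [mul_assoc] using hp))))
  refine ⟨(k * g) * t * (k * g)⁻¹, fun q hq => ?_, ?_, ?_, fun ω hω => ?_⟩
  · have := hforce (g⁻¹ * (k⁻¹ * q * k) * g) (dcc_mem_conj.2 (by
      simpa [mul_assoc] using hkQ q hq))
    have h3 := congrArg (fun x => (k * g) * x * (k * g)⁻¹) this
    simpa [mul_assoc] using h3.symm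
  · have h3 := congrArg (fun x => (k * g) * x * (k * g)⁻¹) h.sq
    simpa [mul_assoc] using h3
  · rw [mul_smul, mul_smul, ← hkα, ← mul_smul k g α, inv_smul_smul, h.fix]
  · rw [mul_smul, mul_smul, ← eq_inv_smul_iff] at hω
    have := h.uniq _ hω
    rw [inv_smul_eq_iff, mul_smul, hkα] at this
    exact this

theorem dcc_orbit (K : Subgroup G) [Finite K] {s s' : G} (hs : s ∈ K) (hs' : s' ∈ K)
    (h2 : s * s = 1) (h2' : s' * s' = 1) {β : Ω} (hβ : s • β = β)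
    (hu : ∀ ω : Ω, s • ω = ω → ω = β) : ∃ k ∈ K, s' • k • β = k • β := by
  classical
  have : Finite (orbit K β) := (Set.finite_range _).to_subtype
  let : Fintype (orbit K β) := Fintype.ofFinite _
  have : Fact (Nat.Prime 2) := ⟨Nat.prime_two⟩
  let f : K → Function.End (orbit K β) := fun l x => l • x
  have hf : ∀ l : K, l.1 * l.1 = 1 → f l ^ 2 ^ 1 = 1 := by
    intro l hl
    funext x
    refine Subtype.ext (?_ : l.1 • l.1 • x.1 = x.1)
    rw [← mul_smul, hl, one_smul]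
  have e1 := Equiv.Perm.card_fixedPoints_modEq (hf ⟨s, hs⟩ h2)
  have e2 := Equiv.Perm.card_fixedPoints_modEq (hf ⟨s', hs'⟩ h2')
  have e3 : Fintype.card (f ⟨s, hs⟩).fixedPoints = 1 := by
    rw [Fintype.card_eq_one_iff]
    refine ⟨⟨⟨β, mem_orbit_self β⟩, Subtype.ext hβ⟩, fun y => ?_⟩
    exact Subtype.ext (Subtype.ext (hu _ (congrArg Subtype.val y.2)))
  have e4 : Fintype.card (f ⟨s', hs'⟩).fixedPoints ≠ 0 := by
    intro h0
    rw [h0] at e2
    rw [e3] at e1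
    have := e1.symm.trans e2
    simp [Nat.ModEq] at this
  obtain ⟨⟨⟨_, ⟨l, rfl⟩⟩, hy⟩⟩ := Fintype.card_pos_iff.1 (Nat.pos_of_ne_zero e4)
  exact ⟨l.1, l.2, congrArg Subtype.val hy⟩

theorem Ctx.gleason (h : Ctx P t α) (Q : Subgroup G) [Finite Q] (hQ : IsPGroup 2 Q) {β γ : Ω}
    (hβ : ∀ q ∈ Q, q • β = β) (hγ : ∀ q ∈ Q, q • γ = γ) :
    ∃ c : G, (∀ q ∈ Q, c * q = q * c) ∧ c • β = γ := by
  obtain ⟨s, hsQ, hs2, hsβ, hsu⟩ := h.dcc_invol Q hQ hβ
  obtain ⟨s', hsQ', hs2', -, hsu'⟩ := h.dcc_invol Q hQ hγ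
  let K : Subgroup G := Subgroup.closure {s, s'}
  have : Finite K := h.lf.finite_closure (Set.toFinite _)
  obtain ⟨k, hk, hkβ⟩ := dcc_orbit K (Subgroup.subset_closure (Or.inl rfl))
    (Subgroup.subset_closure (Or.inr rfl)) hs2 hs2' hsβ hsu
  have hK : K ≤ Subgroup.centralizer (Q : Set G) := by
    refine (Subgroup.closure_le _).2 ?_
    rintro x (rfl | rfl)
    · exact fun q hq => (hsQ q hq).symm
    · exact fun q hq => (hsQ' q hq).symm
  exact ⟨k, fun q hq => (hK hk q hq).symm, hsu' _ hkβ⟩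

theorem Ctx.dcc (h : Ctx P t α) (F : Subgroup G → Prop)
    (h1 : ∀ Q, F Q → Finite Q ∧ IsPGroup 2 Q)
    (h2 : ∀ Q (g : G), F Q → F (Q.map (MulAut.conj g).toMonoidHom))
    (h3 : ∀ Q, F Q → ∃ Q', F Q' ∧ Q ≤ Q' ∧ ∃ ω : Ω, (∀ q ∈ Q, q • ω = ω) ∧ ∃ q ∈ Q', q • ω ≠ ω)
    (Q : Subgroup G) : ¬ F Q := by
  intro hQ
  have := h.cnt
  have := h.inf
  obtain ⟨f, hf⟩ := exists_surjective_nat Ω
  have hstep : ∀ (ω : Ω) (R : {R : Subgroup G // F R}),
      ∃ R' : {R : Subgroup G // F R}, R.1 ≤ R'.1 ∧ ∃ q ∈ R'.1, q • ω ≠ ω := by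
    rintro ω ⟨R, hR⟩
    by_cases hω : ∀ q ∈ R, q • ω = ω
    · obtain ⟨R', hR', hle, β, hβ, q, hq, hne⟩ := h3 R hR
      have := (h1 R hR).1
      obtain ⟨c, hc, rfl⟩ := h.gleason R (h1 R hR).2 hβ hω
      refine ⟨⟨_, h2 R' c hR'⟩, fun x hx => dcc_mem_conj.2 ?_, c * q * c⁻¹,
        dcc_mem_conj.2 (by simpa [mul_assoc] using hq), fun e => hne ?_⟩
      · rw [mul_assoc, ← hc x hx, inv_mul_cancel_left]
        exact hle hx
      · rw [mul_smul, inv_smul_smul, mul_smul] at e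
        exact smul_left_cancel c e
    · push Not at hω
      exact ⟨⟨R, hR⟩, le_rfl, hω⟩
  choose next hle hnext using hstep
  let R : ℕ → {R : Subgroup G // F R} := fun n => Nat.rec ⟨Q, hQ⟩ (fun n R => next (f n) R) n
  have hmono : Monotone fun n => (R n).1 := monotone_nat_of_le_succ fun n => hle _ _
  have hU : IsPGroup 2 (⨆ n, (R n).1 : Subgroup G) := by
    rintro ⟨g, hg⟩
    obtain ⟨n, hn⟩ := (Subgroup.mem_iSup_of_directed hmono.directed_le).1 hg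
    obtain ⟨k, hk⟩ := (h1 _ (R n).2).2 ⟨g, hn⟩
    have hk' : g ^ 2 ^ k = 1 := congrArg Subtype.val hk
    exact ⟨k, Subtype.ext hk'⟩
  obtain ⟨ω, hω⟩ := h.star.fix hU
  obtain ⟨n, rfl⟩ := hf ω
  obtain ⟨q, hq, hne⟩ := hnext (f n) (R n)
  exact hne (hω q (le_iSup (fun n => (R n).1) (n + 1) hq))

/-- `Q` has a minimal fixed point set among those with at least two points. -/
def MinFix (Ω : Type) [MulAction G Ω] (Q : Subgroup G) : Prop :=
  ∀ Q' : Subgroup G, Finite Q' → IsPGroup 2 Q' → Q ≤ Q' →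
    (∃ β β' : Ω, β ≠ β' ∧ ∀ q ∈ Q', q • β = β ∧ q • β' = β') →
    ∀ ω : Ω, (∀ q ∈ Q, q • ω = ω) → ∀ q ∈ Q', q • ω = ω

theorem Ctx.exists_minFix (h : Ctx P t α) : ∃ Q : Subgroup G, Finite Q ∧ IsPGroup 2 Q ∧
    MinFix Ω Q ∧ ∃ β β' : Ω, β ≠ β' ∧ ∀ q ∈ Q, q • β = β ∧ q • β' = β' := by
  by_contra hcon
  have := h.inf
  refine h.dcc (fun Q => Finite Q ∧ IsPGroup 2 Q ∧
    ∃ β β' : Ω, β ≠ β' ∧ ∀ q ∈ Q, q • β = β ∧ q • β' = β') (fun Q hQ => ⟨hQ.1, hQ.2.1⟩) ?_ ?_ ⊥ ?_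
  · rintro Q g ⟨hf, h2, β, β', hne, hfix⟩
    refine ⟨dcc_conj_finite Q g, h2.map _, g • β, g • β', fun e => hne (smul_left_cancel g e),
      fun q hq => ?_⟩
    have := hfix _ (dcc_mem_conj.1 hq)
    simpa only [mul_smul, inv_smul_eq_iff] using this
  · rintro Q ⟨hf, h2, hβ⟩
    have hm : ¬ MinFix Ω Q := fun hm => hcon ⟨Q, hf, h2, hm, hβ⟩
    unfold MinFix at hm
    push Not at hm
    obtain ⟨Q', a1, a2, a3, a4, ω, a5, a6⟩ := hm
    exact ⟨Q', ⟨a1, a2, a4⟩, a3, ω, a5, a6⟩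
  · obtain ⟨β, β', hne⟩ := exists_pair_ne Ω
    refine ⟨inferInstance, IsPGroup.of_bot, β, β', hne, fun q hq => ?_⟩
    rw [Subgroup.mem_bot.1 hq]
    simp

end Pool.Agent.Lib.MP_a7ce8b_al
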