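import Pool.Agent.Lib.MP_a7ce8b_al.Defs

/-! Rank one groups in characteristic 2, product actions, and the list of finite groups. -/

namespace Pool.Agent.Lib.MP_a7ce8b_al

open Equiv

/-- A field `E` of characteristic 2 with an endomorphism `θ`; `θ θ x = x ^ 2` in the Suzuki case
and `θ θ x = x` otherwise (`θ = id`: linear case, `θ ≠ id`: unitary case). -/
structure Datum (E : Type) [Field E] where
  θ : E →+* E
  suz : Bool
  two : (2 : E) = 0
  sq : ∀ x, θ (θ x) = if suz then x ^ 2 else x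

namespace Datum

variable {E : Type} [Field E] (D : Datum E)

/-- The affine points `(a, b)`. -/
def Aff : Type := {p : E × E // D.suz = true ∨ p.1 * D.θ p.1 = p.2 + D.θ p.2}

/-- The points: `∞ = none` and the affine points. -/
abbrev Pt : Type := Option D.Aff

/-- Coordinates of a point. -/
def co (x : D.Pt) : Option (E × E) := x.map Subtype.val

/-- Translation of `p` by `u`. -/
def add (u p : E × E) : E × E := (u.1 + p.1, u.2 + p.2 + D.θ u.1 * p.1)

/-- The Suzuki norm. -/
def nrm (p : E × E) : E := p.1 ^ 2 * D.θ p.1 + p.1 * p.2 + D.θ p.2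

/-- The inversion on non-zero affine points. -/
def inv (p : E × E) : E × E :=
  if D.suz then (p.2 / D.nrm p, p.1 / D.nrm p) else (p.1 / p.2, 1 / p.2)

open Classical in
/-- The inversion, which swaps `∞` and `(0, 0)`. -/
noncomputable def tau : Option (E × E) → Option (E × E)
  | none => some (0, 0)
  | some p => if p = (0, 0) then none else some (D.inv p)

/-- Semilinear scaling. -/
def sc (c : E) (φ : E → E) (p : E × E) : E × E := (c * φ p.1, c * D.θ c * φ p.2)

def IsTrans (g : Perm D.Pt) : Prop := ∃ u : D.Aff, ∀ x, D.co (g x) = (D.co x).map (D.add u.1)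

def IsTau (g : Perm D.Pt) : Prop := ∀ x, D.co (g x) = D.tau (D.co x)

def IsSemi (g : Perm D.Pt) : Prop :=
  ∃ (c : E) (φ : E ≃+* E), (∀ x, φ (D.θ x) = D.θ (φ x)) ∧
    ∀ x, D.co (g x) = (D.co x).map (D.sc c φ)

/-- `PSL₂(E)`, `PSU₃(E)` or `Sz(E)` in the natural doubly transitive action. -/
def L : Subgroup (Perm D.Pt) := Subgroup.closure {g | D.IsTrans g ∨ D.IsTau g}

/-- `L` extended by diagonal and field automorphisms. -/
def A : Subgroup (Perm D.Pt) := Subgroup.closure {g | D.IsTrans g ∨ D.IsTau g ∨ D.IsSemi g}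

/-- There is a point `(0, x)` with `x ≠ 0, 1` (this excludes the soluble groups with `q = 2`). -/
def Big : Prop := ∃ p : D.Aff, p.1.1 = 0 ∧ p.1.2 ≠ 0 ∧ p.1.2 ≠ 1

end Datum

/-- `y` acts on `ι → Γ` as the element `(a, σ)` of the wreath product. -/
def Acts {ι Γ : Type} (y : Perm (ι → Γ)) (σ : Perm ι) (a : ι → Perm Γ) : Prop :=
  ∀ x j, y x (σ j) = a j (x j)

/-- `L ^ ι ≤ Y ≤ A ≀ Sym ι` in product action, and `Y` is transitive on the coordinates. -/
def IsWr {ι Γ : Type} (Y : Subgroup (Perm (ι → Γ))) (L A : Subgroup (Perm Γ)) : Prop :=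
  (∀ l : ι → Perm Γ, (∀ j, l j ∈ L) → ∃ y ∈ Y, Acts y 1 l) ∧
  (∀ y ∈ Y, ∃ σ a, (∀ j, a j ∈ A) ∧ Acts y σ a) ∧
  ∀ i j, ∃ y ∈ Y, ∃ σ a, Acts y σ a ∧ σ i = j

/-- `Y` is permutation isomorphic to a group between `L ^ k` and `A ≀ S_k` on `Γ ^ k` which is
transitive on the coordinates. -/
def IsProd {X Γ : Type} (Y : Subgroup (Perm X)) (L A : Subgroup (Perm Γ)) : Prop :=
  ∃ (k : ℕ) (e : X ≃ (Fin k → Γ)), IsWr (Y.map e.permCongrHom.toMonoidHom) L A

/-- The list of finite groups: affine type, alternating product type, rank one product type. -/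
def OnList {X : Type} (Y : Subgroup (Perm X)) : Prop :=
  (∃ N : Subgroup Y, N.Normal ∧ N ≠ ⊥ ∧ ∀ a ∈ N, ∀ b ∈ N, a * b = b * a) ∨
  (∃ n : ℕ, Odd n ∧ 7 ≤ n ∧ IsProd Y (alternatingGroup (Fin n)) ⊤) ∨
  ∃ (E : Type) (_ : Field E) (_ : Finite E) (D : Datum E), D.Big ∧ IsProd Y D.L D.A

/-- Every primitive permutation group with (*) induced by a finite subgroup is on the list. -/
def KHyp (G : Type) [Group G] : Prop :=
  ∀ K : Subgroup G, Finite K → ∀ (X : Type) (ρ : K →* Perm X), Nontrivial X →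
    MulAction.IsPreprimitive ρ.range X → Star ρ.range X → OnList ρ.range

end Pool.Agent.Lib.MP_a7ce8b_al
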