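import Pool.Agent.Lib.MP_a7ce8b_al.C.SecC

/-! Families of product sections: the number of coordinates is bounded. -/

namespace Pool.Agent.Lib.MP_a7ce8b_al

open Equiv MulAction

variable {G Ω : Type} [Group G] [MulAction G Ω] {P : Subgroup G} {t : G} {α : Ω}
  {I : Type} {U : Ultrafilter I} {H : I → Subgroup G}

/-- `g` has bounded support along the family. -/
def BSupp (U : Ultrafilter I) (T : ∀ i, PSec α (H i)) (g : G) : Prop :=
  ∃ c : ℕ, ∀ᶠ i in U, sg ((T i).S.r g) = 1 ∧ {j | cp ((T i).S.r g) j ≠ 1}.ncard ≤ c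

theorem famA_trans (h : Ctx P t α) (ω : Ω) : ∃ g : G, g • α = ω :=
  h.prim.toIsPretransitive.exists_smul_eq α ω

theorem famA_union {ι : Type} [Finite ι] {s u v : Set ι} {a b : ℕ} (h : s ⊆ u ∪ v)
    (hu : u.ncard ≤ a) (hv : v.ncard ≤ b) : s.ncard ≤ a + b :=
  ((Set.ncard_le_ncard h (Set.toFinite _)).trans (Set.ncard_union_le u v)).trans (add_le_add hu hv)

theorem famA_image {ι : Type} [Finite ι] {s u : Set ι} {a : ℕ} (σ : Perm ι)
    (hu : u.ncard ≤ a) (h : ∀ j, σ j ∈ s → j ∈ u) : s.ncard ≤ a := by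
  refine ((Set.ncard_le_ncard (t := σ '' u) (fun j hj => ?_) (Set.toFinite _)).trans
    (Set.ncard_image_le (Set.toFinite _))).trans hu
  obtain ⟨j, rfl⟩ := σ.surjective j
  exact ⟨j, h j hj, rfl⟩

/-- Any two points differ in boundedly many coordinates. -/
theorem Ctx.fam_bd (h : Ctx P t α) (hH : ∀ g, ∀ᶠ i in U, g ∈ H i) (T : ∀ i, PSec α (H i))
    (ω ω' : Ω) : ∃ c : ℕ, ∀ᶠ i in U, {j | (T i).S.π ω j ≠ (T i).S.π ω' j}.ncard ≤ c := by
  obtain ⟨Q, q1, q2, q3, β, β', hβ, q4⟩ := h.exists_minFix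
  refine rel_total h.prim
    (fun ω ω' => ∃ c : ℕ, ∀ᶠ i in U, {j | (T i).S.π ω j ≠ (T i).S.π ω' j}.ncard ≤ c)
    ⟨fun x => ⟨0, Filter.Eventually.of_forall fun i => by simp⟩, ?_, ?_⟩ ?_ hβ ?_ ω ω'
  · rintro x y ⟨c, hc⟩
    refine ⟨c, hc.mono fun i hi => ?_⟩
    simpa only [ne_comm] using hi
  · rintro x y z ⟨c, hc⟩ ⟨c', hc'⟩
    refine ⟨c + c', ?_⟩
    filter_upwards [hc, hc'] with i h1 h2
    refine famA_union (fun j hj => ?_) h1 h2
    by_contra e
    simp only [Set.mem_union, Set.mem_ofPred_eq, not_or, not_not] at e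
    exact hj (e.1.trans e.2)
  · rintro g x y ⟨c, hc⟩
    obtain ⟨a, rfl⟩ := famA_trans h x
    obtain ⟨b, rfl⟩ := famA_trans h y
    refine ⟨c, ?_⟩
    filter_upwards [hc, hH g, hH a, hH b] with i h1 hg ha hb
    have hg' := (T i).S.le hg
    refine famA_image (sg ((T i).S.r g)) h1 fun j hj e => hj ?_
    rw [(T i).S.eqv g hg' a ((T i).S.le ha), (T i).S.eqv g hg' b ((T i).S.le hb),
      ((T i).isW hg').apply, ((T i).isW hg').apply, e]
  · obtain ⟨a, rfl⟩ := famA_trans h β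
    obtain ⟨b, rfl⟩ := famA_trans h β'
    refine ⟨Nat.card Q, ?_⟩
    filter_upwards [eventually_le hH Q, hH a, hH b] with i hQ ha hb
    exact (T i).bdiff q2 (hQ.trans (T i).S.le) q3 ((T i).S.le ha) ((T i).S.le hb) q4

/-- The elements of bounded support. -/
def famA_sub (hH : ∀ g, ∀ᶠ i in U, g ∈ H i) (T : ∀ i, PSec α (H i)) : Subgroup G where
  carrier := {g | BSupp U T g}
  one_mem' := ⟨0, Filter.Eventually.of_forall fun i => by
    have := (T i).comp.nontriv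
    rw [(T i).S.r_one, sg_one, cp_one]
    simp⟩
  mul_mem' := by
    rintro g g' ⟨c, hc⟩ ⟨c', hc'⟩
    refine ⟨c + c', ?_⟩
    filter_upwards [hc, hc', hH g, hH g'] with i h1 h2 hg hg'
    have := (T i).comp.nontriv
    have w := (T i).isW ((T i).S.le hg)
    have w' := (T i).isW ((T i).S.le hg')
    rw [(T i).S.r_mul _ ((T i).S.le hg) _ ((T i).S.le hg'), w.sg_mul w', h1.1, h2.1]
    refine ⟨mul_one _, famA_union (fun j hj => ?_) h1.2 h2.2⟩
    by_contra e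
    simp only [Set.mem_union, Set.mem_ofPred_eq, not_or, not_not] at e
    refine hj ?_
    rw [w.cp_mul w', h2.1, Perm.one_apply, e.1, e.2, mul_one]
  inv_mem' := by
    rintro g ⟨c, hc⟩
    refine ⟨c, ?_⟩
    filter_upwards [hc, hH g] with i h1 hg
    have := (T i).comp.nontriv
    have w := (T i).isW ((T i).S.le hg)
    rw [(T i).S.r_inv ((T i).S.le hg), w.sg_inv, h1.1]
    refine ⟨inv_one, famA_image 1 h1.2 fun j hj e => hj ?_⟩
    rw [w.cp_inv, h1.1, inv_one, Perm.one_apply, Perm.one_apply, e, inv_one]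

theorem famA_normal (hH : ∀ g, ∀ᶠ i in U, g ∈ H i) (T : ∀ i, PSec α (H i)) :
    (famA_sub hH T).Normal := by
  refine ⟨?_⟩
  rintro g ⟨c, hc⟩ a
  refine ⟨c, ?_⟩
  filter_upwards [hc, hH g, hH a] with i h1 hg ha
  have := (T i).comp.nontriv
  have w := (T i).isW ((T i).S.le hg)
  have w' := (T i).isW ((T i).S.le ha)
  rw [(T i).S.r_conj ((T i).S.le ha) ((T i).S.le hg), w.eq_base h1.1, w'.conj_base, sg_base,
    cp_base]
  refine ⟨rfl, famA_image (sg ((T i).S.r a)) h1.2 fun j hj e => hj ?_⟩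
  simp only [Perm.coe_inv, symm_apply_apply, e, mul_one, mul_inv_cancel]

theorem famA_ne_one (h : Ctx P t α) (hH : ∀ g, ∀ᶠ i in U, g ∈ H i) (T : ∀ i, PSec α (H i))
    {m : G} (h1 : m ≠ 1) : ∀ᶠ i in U, (T i).S.r m ≠ 1 := by
  have := h.faith
  obtain ⟨ω, hω⟩ : ∃ ω : Ω, m • ω ≠ ω := by
    by_contra e
    push Not at e
    exact h1 (eq_of_smul_eq_smul (α := Ω) fun ω => by rw [e, one_smul])
  obtain ⟨g, rfl⟩ := famA_trans h ω
  filter_upwards [hH m, hH g] with i hm hg e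
  refine hω ?_
  rw [← mul_smul]
  refine (T i).S.inj _ ((H i).mul_mem hm hg) _ hg ?_
  rw [mul_smul, (T i).S.eqv m ((T i).S.le hm) g ((T i).S.le hg), e, Perm.one_apply]

/-- A non-trivial element of bounded support bounds the number of coordinates. -/
theorem Ctx.fam_kbound (h : Ctx P t α) (hH : ∀ g, ∀ᶠ i in U, g ∈ H i) (T : ∀ i, PSec α (H i))
    {m : G} (h1 : m ≠ 1) (hm : BSupp U T m) : ∃ c : ℕ, ∀ᶠ i in U, (T i).k ≤ c := by
  classical
  by_contra hc
  have hk : ∀ c : ℕ, ∀ᶠ i in U, ¬ (T i).k ≤ c := fun c =>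
    Ultrafilter.eventually_not.2 fun e => hc ⟨c, e⟩
  have hN := famA_normal hH T
  refine h.dcc (fun Q => Finite Q ∧ IsPGroup 2 Q ∧ Q ≤ famA_sub hH T) (fun Q hQ => ⟨hQ.1, hQ.2.1⟩)
    ?_ ?_ ⊥ ⟨inferInstance, IsPGroup.of_bot, bot_le⟩
  · rintro Q g ⟨q1, q2, q3⟩
    refine ⟨Finite.of_surjective _ (MonoidHom.subgroupMap_surjective _ Q), q2.map _, ?_⟩
    rintro _ ⟨q, hq, rfl⟩
    exact hN.conj_mem q (q3 hq) g
  · rintro Q ⟨q1, q2, q3⟩
    have := Fintype.ofFinite Q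
    choose c hc using fun q : Q => q3 q.2
    obtain ⟨i, ⟨i1, i2⟩, i3, i4, i5⟩ := (((Filter.eventually_all.2 hc).and
      (eventually_le hH Q)).and ((hH m).and ((famA_ne_one h hH T h1).and (hk (∑ q, c q))))).exists
    obtain ⟨j, hj⟩ : ∃ j : Fin (T i).k, ∀ q : Q, cp ((T i).S.r q) j = 1 := by
      by_contra e
      push Not at e
      refine i5 ?_
      have h2 : (Finset.univ : Finset (Fin (T i).k)) ⊆ Finset.univ.biUnion fun q : Q =>
          (Set.toFinite {j | cp ((T i).S.r q) j ≠ 1}).toFinset := fun j _ => by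
        obtain ⟨q, hq⟩ := e j
        exact Finset.mem_biUnion.2 ⟨q, Finset.mem_univ q, (Set.Finite.mem_toFinset _).2 hq⟩
      have h3 := (Finset.card_le_card h2).trans Finset.card_biUnion_le
      rw [Finset.card_univ, Fintype.card_fin] at h3
      refine h3.trans (Finset.sum_le_sum fun q _ => ?_)
      rw [← Set.ncard_eq_toFinset_card]
      exact (i1 q).2
    obtain ⟨Q', r1, r2, r3, r4, r5⟩ := (T i).refineM hN hm ((T i).S.le i3) i4 q2
      (i2.trans (T i).S.le) q3 (j := j) fun q hq => ⟨(i1 ⟨q, hq⟩).1, hj ⟨q, hq⟩⟩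
    exact ⟨Q', ⟨r1, r2, r3⟩, r4, r5⟩

theorem Ctx.fam_supp_b (h : Ctx P t α) (hH : ∀ g, ∀ᶠ i in U, g ∈ H i) (hP : ∀ i, P ≤ H i)
    (T : ∀ i, PSec α (H i)) (hB : ∀ i, BComp (T i).L (T i).A) : ∃ m : G, m ≠ 1 ∧ BSupp U T m := by
  have := h.inf
  obtain ⟨ω, hω⟩ := exists_ne α
  obtain ⟨g, rfl⟩ := famA_trans h ω
  have ti : t⁻¹ = t := inv_eq_of_mul_eq_one_right h.sq
  refine ⟨t * (g * t * g⁻¹) * (t * (g * t * g⁻¹)), fun e => hω (h.uniq _ ?_), ?_⟩
  · have e1 : g * t * g⁻¹ * t = t * (g * t * g⁻¹) := by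
      rw [eq_inv_of_mul_eq_one_left e]
      simp only [mul_inv_rev, inv_inv, ti, mul_assoc]
    have e2 : t • g⁻¹ • t • g • α = g⁻¹ • t • g • α := by
      have e3 := congrArg (· • g • α) e1
      simp only [mul_smul, inv_smul_smul, h.fix] at e3
      rw [eq_inv_smul_iff]
      exact e3
    have e4 := h.uniq _ e2
    rwa [inv_smul_eq_iff] at e4
  · obtain ⟨c, hc⟩ := h.fam_bd hH T α (g • α)
    refine ⟨c, ?_⟩
    filter_upwards [hc, hH g] with i h1 hg
    have := (T i).comp.nontriv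
    have hP' := (hP i).trans (T i).S.le
    have hg' := (T i).S.le hg
    have tK := hP' h.mem
    have dK : g * t * g⁻¹ ∈ (T i).S.K := mul_mem (mul_mem hg' tK) (inv_mem hg')
    obtain ⟨a1, a2⟩ := (T i).conj_t h hP' (one_mem _)
    have a3 := (T i).t_mem h hP' (hB i) (one_mem _)
    simp only [one_mul, inv_one, mul_one, one_smul] at a1 a2 a3
    obtain ⟨b1, b2⟩ := (T i).conj_t h hP' hg'
    have b3 := (T i).t_mem h hP' (hB i) hg'
    have w := (T i).isW tK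
    have w' := (T i).isW dK
    have s1 : sg ((T i).S.r t * (T i).S.r (g * t * g⁻¹)) = 1 := by rw [w.sg_mul w', a1, b1, mul_one]
    rw [(T i).S.r_mul _ (mul_mem tK dK) _ (mul_mem tK dK), (T i).S.r_mul _ tK _ dK,
      (w.mul w').sg_mul (w.mul w'), s1]
    refine ⟨mul_one _, famA_image 1 h1 fun j hj e => hj ?_⟩
    have z := (hB i).core.zc _ _ (a3 j) _ (b3 j) (a2 j).1 (twoEl_of_sq (b2 j).1)
      (((a2 j).2 _).2 rfl) (((b2 j).2 _).2 e)
    rw [Perm.one_apply, (w.mul w').cp_mul (w.mul w'), s1, Perm.one_apply, w.cp_mul w', b1,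
      Perm.one_apply, mul_assoc, ← mul_assoc (cp ((T i).S.r (g * t * g⁻¹)) j), ← z, mul_assoc,
      (b2 j).1, mul_one, (a2 j).1]

end Pool.Agent.Lib.MP_a7ce8b_al
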