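import Pool.Agent.Lib.MP_a7ce8b_al.C.FamA

/-! Families of alternating type do not occur. -/

namespace Pool.Agent.Lib.MP_a7ce8b_al

open Equiv MulAction

variable {G Ω : Type} [Group G] [MulAction G Ω] {P : Subgroup G} {t : G} {α : Ω}
  {I : Type} {U : Ultrafilter I} {H : I → Subgroup G}

theorem famB_rt {H' : Subgroup G} (T : PSec α H') (h : Ctx P t α) (hP : P ≤ T.S.K) :
    T.S.r t ≠ 1 := by
  intro e
  have := T.comp.nontriv
  obtain ⟨j⟩ := T.nonempty
  have h1 := ((T.conj_t h hP T.S.K.one_mem).2 j).2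
  rw [one_mul, inv_one, mul_one, e, cp_one] at h1
  obtain ⟨γ, hγ⟩ := exists_ne (T.S.π ((1 : G) • α) j)
  exact hγ ((h1 γ).1 rfl)

theorem famB_sg (h : Ctx P t α) (hH : ∀ g, ∀ᶠ i in U, g ∈ H i) (hP : ∀ i, P ≤ H i)
    (T : ∀ i, PSec α (H i)) {n : G} (hn : n ∈ Subgroup.normalClosure {t}) :
    ∀ᶠ i in U, n ∈ (T i).S.K ∧ sg ((T i).S.r n) = 1 := by
  induction hn using Subgroup.closure_induction with
  | mem x hx =>
    obtain ⟨a, ha, hc⟩ := Group.mem_conjugatesOfSet_iff.1 hx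
    obtain rfl : a = t := ha
    obtain ⟨g, rfl⟩ := isConj_iff.1 hc
    filter_upwards [hH g, hH (g * a * g⁻¹)] with i h1 h2
    exact ⟨(T i).S.le h2, ((T i).conj_t h ((hP i).trans (T i).S.le) ((T i).S.le h1)).1⟩
  | one =>
    refine Filter.Eventually.of_forall fun i => ⟨(T i).S.K.one_mem, ?_⟩
    have := (T i).comp.nontriv
    rw [(T i).S.r_one, sg_one]
  | mul x y _ _ h1 h2 =>
    filter_upwards [h1, h2] with i e1 e2
    have := (T i).comp.nontriv
    refine ⟨(T i).S.K.mul_mem e1.1 e2.1, ?_⟩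
    rw [(T i).S.r_mul _ e1.1 _ e2.1, ((T i).isW e1.1).sg_mul ((T i).isW e2.1), e1.2, e2.2,
      mul_one]
  | inv x _ h1 =>
    filter_upwards [h1] with i e1
    have := (T i).comp.nontriv
    refine ⟨(T i).S.K.inv_mem e1.1, ?_⟩
    rw [(T i).S.r_inv e1.1, ((T i).isW e1.1).sg_inv, e1.2, inv_one]

theorem famB_cp_mul {H' : Subgroup G} (T : PSec α H') {g g' : G} (hg : g ∈ T.S.K)
    (hg' : g' ∈ T.S.K) (e : sg (T.S.r g') = 1) (j : Fin T.k) :
    cp (T.S.r (g * g')) j = cp (T.S.r g) j * cp (T.S.r g') j := by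
  have := T.comp.nontriv
  rw [T.S.r_mul _ hg _ hg', (T.isW hg).cp_mul (T.isW hg'), e]
  rfl

/-- The elements of `K ⊓ N` which act as elements of `L ^ k`. -/
def famB_sub {H' : Subgroup G} (T : PSec α H') (N : Subgroup G) : Subgroup G where
  carrier := {g | g ∈ T.S.K ∧ g ∈ N ∧ sg (T.S.r g) = 1 ∧ ∀ j, cp (T.S.r g) j ∈ T.L}
  one_mem' := by
    have := T.comp.nontriv
    refine ⟨T.S.K.one_mem, N.one_mem, by rw [T.S.r_one, sg_one], fun j => ?_⟩
    rw [T.S.r_one, cp_one]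
    exact T.L.one_mem
  mul_mem' := by
    have := T.comp.nontriv
    rintro g g' ⟨h1, h2, h3, h4⟩ ⟨h1', h2', h3', h4'⟩
    refine ⟨T.S.K.mul_mem h1 h1', N.mul_mem h2 h2', ?_, fun j => ?_⟩
    · rw [T.S.r_mul _ h1 _ h1', (T.isW h1).sg_mul (T.isW h1'), h3, h3', mul_one]
    · rw [famB_cp_mul T h1 h1' h3']
      exact T.L.mul_mem (h4 j) (h4' j)
  inv_mem' := by
    have := T.comp.nontriv
    rintro g ⟨h1, h2, h3, h4⟩
    refine ⟨T.S.K.inv_mem h1, N.inv_mem h2, ?_, fun j => ?_⟩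
    · rw [T.S.r_inv h1, (T.isW h1).sg_inv, h3, inv_one]
    · rw [T.S.r_inv h1, (T.isW h1).cp_inv]
      exact T.L.inv_mem (h4 _)

theorem Ctx.fam_supp_a (h : Ctx P t α) (hH : ∀ g, ∀ᶠ i in U, g ∈ H i) (hP : ∀ i, P ≤ H i)
    (T : ∀ i, PSec α (H i)) (hA : ∀ i, AComp (T i).L (T i).A) : ∃ m : G, m ≠ 1 ∧ BSupp U T m := by
  have hPK : ∀ i, P ≤ (T i).S.K := fun i => (hP i).trans (T i).S.le
  obtain ⟨n, -, hn⟩ := (Ultrafilter.eventually_exists_mem_iff (f := U)
    (P := fun n i => Nat.card (T i).Γ = n)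
    (Set.finite_Iic (4 * Nat.card P * 2 ^ Nat.card P))).1
    (Filter.Eventually.of_forall fun i => ⟨_, (T i).alt_bound h (hPK i) (hA i), rfl⟩)
  obtain ⟨i0, hi0⟩ := hn.exists
  obtain ⟨j0⟩ := (T i0).nonempty
  let N : Subgroup G := Subgroup.normalClosure {t}
  let N0 : Subgroup G := famB_sub (T i0) N
  have hfin : Finite N0 := by
    have := (T i0).S.fin
    exact Finite.of_injective (Subgroup.inclusion (H := N0) (K := (T i0).S.K) fun g hg => hg.1)
      (Subgroup.inclusion_injective _)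
  let φ : N0 →* (T i0).L := MonoidHom.mk' (fun g => ⟨cp ((T i0).S.r g.1) j0, g.2.2.2.2 j0⟩)
    fun g g' => Subtype.ext (famB_cp_mul (T i0) g.2.1 g'.2.1 g'.2.2.2.1 j0)
  have hφ : Function.Surjective φ := by
    intro l
    have := (T i0).comp.nontriv
    obtain ⟨g, hg, hg', e⟩ := (T i0).S.mem_im.1 ((T i0).base_mem_im (M := N) inferInstance
      (Subgroup.subset_normalClosure rfl) (hPK i0 h.mem) (famB_rt (T i0) h (hPK i0))
      (l := fun _ => l.1) fun _ => l.2)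
    refine ⟨⟨g, hg, hg', by rw [e, sg_base], fun j => ?_⟩, Subtype.ext ?_⟩
    · rw [e, cp_base]
      exact l.2
    · show cp ((T i0).S.r g) j0 = l.1
      rw [e, cp_base]
  have := (T i0).comp.simple
  obtain ⟨c, hc1, hc2⟩ := small_index (T i0).comp.noncomm φ hφ
  refine ⟨c.1, fun e => hc1 (by rw [show c = 1 from Subtype.ext e, map_one]), ?_⟩
  choose b hb using fun g : N0 => h.fam_bd hH T (g.1 • α) α
  have := Fintype.ofFinite N0
  refine ⟨∑ g, b g, ?_⟩
  filter_upwards [hn, Filter.eventually_all.2 hb,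
    Filter.eventually_all.2 fun g : N0 => famB_sg h hH hP T g.2.2.1] with i e1 e2 e3
  refine ⟨(e3 c).2, le_trans (Set.ncard_le_ncard (t := ⋃ g : N0,
    {j | (T i).S.π (g.1 • α) j ≠ (T i).S.π α j}) fun j hj => ?_)
    ((Set.ncard_iUnion_le_of_fintype _).trans (Finset.sum_le_sum fun g _ => e2 g))⟩
  by_contra hh
  simp only [Set.mem_iUnion, Set.mem_ofPred_eq, not_exists, not_not] at hh
  let ψ : N0 →* Perm (T i).Γ := MonoidHom.mk' (fun g => cp ((T i).S.r g.1) j)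
    fun g g' => famB_cp_mul (T i) (e3 g).1 (e3 g').1 (e3 g').2 j
  have := (hA i).fin
  have h1 : Nat.card ψ.range ≤ (Nat.card (T i).Γ - 1).factorial := by
    refine card_le_of_fix ψ.range (γ := (T i).S.π α j) ?_
    rintro _ ⟨g, rfl⟩
    have h2 := ((T i).isW (e3 g).1).apply ((T i).S.π α) j
    rw [(e3 g).2, ← (T i).S.eqv₁ (e3 g).1] at h2
    exact h2.symm.trans (hh g)
  have h3 : c ∈ ψ.ker := hc2 _ inferInstance (by
    rw [Subgroup.index_ker]
    refine h1.trans_lt ?_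
    rw [e1, ← hi0]
    exact (hA i0).big)
  exact hj h3

theorem Ctx.fam_not_alt (h : Ctx P t α) (hH : ∀ g, ∀ᶠ i in U, g ∈ H i) (hP : ∀ i, P ≤ H i)
    (T : ∀ i, PSec α (H i)) : ¬ ∀ i, AComp (T i).L (T i).A := by
  intro hA
  obtain ⟨m, h1, hm⟩ := h.fam_supp_a hH hP T hA
  obtain ⟨c, hc⟩ := h.fam_kbound hH T h1 hm
  have := h.inf
  have := h.fin
  have := h.prim
  obtain ⟨s, hs⟩ := Infinite.exists_subset_card_eq Ω ((4 * Nat.card P * 2 ^ Nat.card P) ^ c + 1)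
  choose g hg using fun ω : Ω => exists_smul_eq G α ω
  obtain ⟨i, e1, e2⟩ := (hc.and (Filter.eventually_all.2 fun ω : s => hH (g ω.1))).exists
  have := (T i).S.finX
  have h2 : Nat.card s ≤ Nat.card (Fin (T i).k → (T i).Γ) := by
    refine Nat.card_le_card_of_injective (fun ω => (T i).S.π ω.1) fun ω ω' e => Subtype.ext ?_
    have h3 := (T i).S.inj _ (e2 ω) _ (e2 ω')
    rw [hg, hg] at h3
    exact h3 e
  rw [Nat.card_fun, Nat.card_eq_finsetCard, hs, Nat.card_fin] at h2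
  have h4 := (T i).alt_bound h ((hP i).trans (T i).S.le) (hA i)
  have h5 : 0 < 4 * Nat.card P * 2 ^ Nat.card P := by
    have : 0 < Nat.card P := Nat.card_pos
    positivity
  have h6 := (Nat.pow_le_pow_left h4 (T i).k).trans (Nat.pow_le_pow_right h5 e1)
  omega

end Pool.Agent.Lib.MP_a7ce8b_al
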