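import Pool.Agent.Lib.MP_a7ce8b_al.C.Wr0

/-! General group lemmas, part A. -/

namespace Pool.Agent.Lib.MP_a7ce8b_al

open Equiv MulAction

/-- Lifting 2-subgroups along a homomorphism of a finite group. -/
theorem lift_two {K Y : Type*} [Group K] [Group Y] [Finite K] (ρ : K →* Y) (M Q : Subgroup K)
    (hQM : Q ≤ M) (hQ : IsPGroup 2 Q) (B : Subgroup Y) (hB : IsPGroup 2 B) (hBM : B ≤ M.map ρ)
    (hQB : Q.map ρ ≤ B) : ∃ Q' : Subgroup K, Q ≤ Q' ∧ Q' ≤ M ∧ IsPGroup 2 Q' ∧ Q'.map ρ = B := by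
  have : Fact (Nat.Prime 2) := ⟨Nat.prime_two⟩
  let M' : Subgroup K := M ⊓ B.comap ρ
  let f : M' →* B := (ρ.comp M'.subtype).codRestrict B fun x => x.2.2
  have hf : Function.Surjective f := by
    rintro ⟨b, hb⟩
    obtain ⟨m, hm, rfl⟩ := hBM hb
    exact ⟨⟨m, hm, hb⟩, rfl⟩
  obtain ⟨P, hP⟩ := (hQ.comap_subtype (K := M')).exists_le_sylow
  have hT : (⊤ : Subgroup B) = P.1.map f :=
    (P.mapSurjective hf).is_maximal' (hB.to_subgroup ⊤) le_top
  refine ⟨P.1.map M'.subtype, fun q hq => ⟨⟨q, hQM hq, hQB ⟨q, hq, rfl⟩⟩, hP hq, rfl⟩, ?_,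
    P.2.map _, le_antisymm ?_ fun b hb => ?_⟩
  · rintro _ ⟨x, -, rfl⟩
    exact x.2.1
  · rintro _ ⟨_, ⟨x, -, rfl⟩, rfl⟩
    exact x.2.2
  · have h1 : (⟨b, hb⟩ : B) ∈ P.1.map f := hT ▸ Subgroup.mem_top _
    obtain ⟨x, hx, e⟩ := h1
    exact ⟨x.1, ⟨x, hx, rfl⟩, congrArg Subtype.val e⟩

/-- A normal subgroup meeting a finite 2-group contains a central involution of it. -/
theorem central_invol {G : Type*} [Group G] (T N : Subgroup G) [Finite T] (hT : IsPGroup 2 T)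
    (hN : N.Normal) (h : ∃ x ∈ T, x ∈ N ∧ x ≠ 1) :
    ∃ z ∈ T, z ∈ N ∧ z ≠ 1 ∧ z * z = 1 ∧ ∀ s ∈ T, s * z = z * s := by
  have : Fact (Nat.Prime 2) := ⟨Nat.prime_two⟩
  obtain ⟨x, hxT, hxN, hx1⟩ := h
  have hN' : (N.subgroupOf T).Normal := hN.subgroupOf T
  have hnt : Nontrivial (N.subgroupOf T) :=
    ⟨⟨⟨⟨x, hxT⟩, hxN⟩, 1, fun e => hx1 (congrArg (fun y : N.subgroupOf T => y.1.1) e)⟩⟩
  have hd : 2 ∣ Nat.card (N.subgroupOf T) := by
    obtain ⟨n, hn0, hn⟩ := (hT.to_subgroup (N.subgroupOf T)).nontrivial_iff_card.1 hnt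
    exact hn.symm ▸ dvd_pow_self _ hn0.ne'
  obtain ⟨b, hb, hb1⟩ := IsPGroup.exists_fixed_point_of_prime_dvd_card_of_fixed_point
    (hT.of_equiv ConjAct.toConjAct) (N.subgroupOf T) hd (a := 1) fun g => smul_one g
  have hc : ∀ s ∈ T, s * b.1.1 = b.1.1 * s := fun s hs => by
    have h1 : s * b.1.1 * s⁻¹ = b.1.1 :=
      congrArg (fun y : N.subgroupOf T => y.1.1) (hb (ConjAct.toConjAct ⟨s, hs⟩))
    rwa [mul_inv_eq_iff_eq_mul] at h1
  obtain ⟨m, h1, h2⟩ := (isPGroup_iff_twoEl.1 hT b.1.1 b.1.2).exists_invol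
    fun e => hb1 (Subtype.ext (Subtype.ext e.symm))
  exact ⟨b.1.1 ^ m, pow_mem b.1.2 m, pow_mem (show b.1.1 ∈ N from b.2) m, h1, h2,
    fun s hs => (Commute.pow_right (hc s hs) m).eq⟩

/-- A finite group of even order has an odd number of involutions. -/
theorem odd_invol {G : Type*} [Group G] (K : Subgroup G) [Finite K] {z : G} (hz : z ∈ K)
    (h1 : z ≠ 1) (h2 : z * z = 1) : Odd (Nat.card {x : G // x ∈ K ∧ x ≠ 1 ∧ x * x = 1}) := by
  classical
  have : Fact (Nat.Prime 2) := ⟨Nat.prime_two⟩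
  let : Fintype K := Fintype.ofFinite _
  let f : Function.End K := fun x => x⁻¹
  have h3 := Equiv.Perm.card_fixedPoints_modEq (f := f) (p := 2) (n := 1)
    (funext fun x => inv_inv x)
  rw [← Nat.card_eq_fintype_card, ← Nat.card_eq_fintype_card] at h3
  have h4 : 2 ∣ Nat.card K := by
    have h5 : orderOf (⟨z, hz⟩ : K) = 2 :=
      orderOf_eq_prime (Subtype.ext ((pow_two z).trans h2)) fun e => h1 (congrArg Subtype.val e)
    exact h5 ▸ orderOf_dvd_natCard _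
  let S : Set G := {x | x ∈ K ∧ x ≠ 1 ∧ x * x = 1}
  have hS : S.Finite := (Set.toFinite (K : Set G)).subset fun x hx => hx.1
  have h6 : Nat.card f.fixedPoints = (insert 1 S).ncard := by
    rw [← Nat.card_coe_set_eq]
    refine Nat.card_congr (Equiv.ofBijective (fun x => ⟨x.1.1, ?_⟩) ⟨?_, ?_⟩)
    · by_cases e : x.1.1 = 1
      · exact Or.inl e
      · exact Or.inr ⟨x.1.2, e, inv_eq_iff_mul_eq_one.1 (congrArg Subtype.val x.2)⟩
    · intro x y e
      have e' : x.1.1 = y.1.1 := Subtype.mk.inj e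
      exact Subtype.ext (Subtype.ext e')
    · rintro ⟨x, rfl | hx⟩
      · exact ⟨⟨1, inv_one⟩, rfl⟩
      · exact ⟨⟨⟨x, hx.1⟩, Subtype.ext (inv_eq_of_mul_eq_one_right hx.2.2)⟩, rfl⟩
  rw [Set.ncard_insert_of_notMem (fun h => h.2.1 rfl) hS] at h6
  have h7 : Nat.card {x : G // x ∈ K ∧ x ≠ 1 ∧ x * x = 1} = S.ncard := Nat.card_coe_set_eq S
  rw [h7, Nat.odd_iff]
  unfold Nat.ModEq at h3
  omega

/-- A 2-subgroup of a finite subgroup lies in a maximal one. -/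
theorem exists_max_two {G : Type*} [Group G] (K Q : Subgroup G) [Finite K] (hQK : Q ≤ K)
    (hQ : IsPGroup 2 Q) : ∃ T : Subgroup G, Q ≤ T ∧ T ≤ K ∧ IsPGroup 2 T ∧
      ∀ T' : Subgroup G, IsPGroup 2 T' → T ≤ T' → T' ≤ K → T' = T := by
  obtain ⟨P, hP⟩ := (hQ.comap_subtype (K := K)).exists_le_sylow
  refine ⟨P.1.map K.subtype, fun q hq => ⟨⟨q, hQK hq⟩, hP hq, rfl⟩, Subgroup.map_subtype_le _,
    P.2.map _, fun T' h1 h2 h3 => ?_⟩
  rw [← P.is_maximal' (h1.comap_subtype (K := K)) (Subgroup.map_le_iff_le_comap.1 h2)]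
  exact (Subgroup.map_comap_eq_self (by rwa [Subgroup.range_subtype])).symm

/-- Sylow conjugacy inside a finite subgroup. -/
theorem conj_into_max {G : Type*} [Group G] (K T Q : Subgroup G) [Finite K] (hTK : T ≤ K)
    (hT : IsPGroup 2 T) (hmax : ∀ T' : Subgroup G, IsPGroup 2 T' → T ≤ T' → T' ≤ K → T' = T)
    (hQK : Q ≤ K) (hQ : IsPGroup 2 Q) : ∃ k ∈ K, ∀ q ∈ Q, k⁻¹ * q * k ∈ T := by
  have : Fact (Nat.Prime 2) := ⟨Nat.prime_two⟩
  obtain ⟨P, hP⟩ := (hQ.comap_subtype (K := K)).exists_le_sylow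
  obtain ⟨P', hP'⟩ := (hT.comap_subtype (K := K)).exists_le_sylow
  have h1 : P'.1.map K.subtype = T := hmax _ (P'.2.map _)
    (fun q hq => ⟨⟨q, hTK hq⟩, hP' hq, rfl⟩) (Subgroup.map_subtype_le _)
  obtain ⟨k, hk⟩ := MulAction.exists_smul_eq K P' P
  refine ⟨k.1, k.2, fun q hq => ?_⟩
  have h2 : (⟨q, hQK hq⟩ : K) ∈ (k • P').1 := hk ▸ hP hq
  obtain ⟨y, hy, e⟩ := h2
  have h3 : k.1 * y.1 * k.1⁻¹ = q := congrArg Subtype.val e
  rw [← h1]
  exact ⟨y, hy, by rw [← h3]; simp [mul_assoc]⟩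

theorem IsLocallyFinite.of_surjective {G H : Type*} [Group G] [Group H] (f : G →* H)
    (hf : Function.Surjective f) (hG : IsLocallyFinite G) : IsLocallyFinite H := by
  intro s
  have h1 := hG.finite_closure (s.finite_toSet.image (Function.surjInv hf))
  have h2 : (s : Set H) = f '' (Function.surjInv hf '' s) := by
    rw [Set.image_image]
    simp only [Function.surjInv_eq hf, Set.image_id']
  rw [h2, ← MonoidHom.map_closure]
  exact Finite.of_surjective _ (f.subgroupMap_surjective _)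

/-- The hypothesis passes to sections of locally finite groups. -/
theorem KHyp.transfer {G R R' : Type} [Group G] [Group R] [Group R'] (h : KHyp G)
    (hlf : IsLocallyFinite G) (f : R →* G) (hf : Function.Injective f) (p : R →* R')
    (hp : Function.Surjective p) : KHyp R' := by
  intro K' hK' X ρ hX
  have hR : IsLocallyFinite R := hlf.of_injective f hf
  have h0 := hR.finite_closure ((Set.toFinite (K' : Set R')).image (Function.surjInv hp))
  let K1 : Subgroup R := Subgroup.closure (Function.surjInv hp '' K') ⊓ K'.comap p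
  have h1 : Finite K1 := Finite.of_injective _ (Subgroup.inclusion_injective inf_le_left)
  let p1 : K1 →* K' := (p.comp K1.subtype).codRestrict K' fun x => x.2.2
  have hp1 : Function.Surjective p1 := fun y =>
    ⟨⟨Function.surjInv hp y.1, Subgroup.subset_closure ⟨y.1, y.2, rfl⟩, by
      change p (Function.surjInv hp y.1) ∈ K'
      rw [Function.surjInv_eq hp]
      exact y.2⟩, Subtype.ext (Function.surjInv_eq hp y.1)⟩
  let e := Subgroup.equivMapOfInjective K1 f hf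
  have h2 : (ρ.comp (p1.comp e.symm.toMonoidHom)).range = ρ.range := by
    refine le_antisymm ?_ ?_
    · rintro _ ⟨x, rfl⟩
      exact ⟨_, rfl⟩
    · rintro _ ⟨x, rfl⟩
      obtain ⟨y, rfl⟩ := hp1 x
      exact ⟨e y, congrArg (fun z => ρ (p1 z)) (e.symm_apply_apply y)⟩
  rw [← h2]
  exact h _ (Finite.of_equiv _ e.toEquiv) X _ hX

end Pool.Agent.Lib.MP_a7ce8b_al
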