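import Pool.Agent.Lib.MP_a7ce8b_al.C.SecC

/-! The limit equivalence relation. -/

namespace Pool.Agent.Lib.MP_a7ce8b_al

open Equiv MulAction

variable {G Ω : Type} [Group G] [MulAction G Ω] {P : Subgroup G} {t : G} {α : Ω}
  {I : Type} {U : Ultrafilter I} {H : I → Subgroup G}

theorem Ctx.exists_eHyp (h : Ctx P t α) (hH : ∀ g, ∀ᶠ i in U, g ∈ H i) (hP : ∀ i, P ≤ H i)
    {k : ℕ} {Γ : I → Type} {L A : ∀ i, Subgroup (Perm (Γ i))}
    (S : ∀ i, Sec α (H i) (Fin k → Γ i)) (hw : ∀ i, IsWr (S i).Y (L i) (A i))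
    (hB : ∀ i, BComp (L i) (A i)) : ∃ E : Ω → Ω → Prop, EHyp t α E := by
  classical
  let T : ∀ i, PSec α (H i) := fun i => ⟨k, Γ i, L i, A i, S i, hw i, (hB i).comp⟩
  have hnt : ∀ i, Nontrivial (Γ i) := fun i => (hB i).comp.nontriv
  have hK : ∀ g, ∀ᶠ i in U, g ∈ (S i).K := fun g => (hH g).mono fun i hi => (S i).le hi
  have hPK : ∀ i, P ≤ (S i).K := fun i => (hP i).trans (S i).le
  have hW : ∀ i, ∀ g ∈ (S i).K, IsW ((S i).r g) := fun i g hg => (T i).isW hg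
  have horb : ∀ ω : Ω, ∃ g : G, g • α = ω := h.prim.toIsPretransitive.exists_smul_eq α
  have heqv : ∀ (g : G) (ω : Ω), ∀ᶠ i in U, (S i).π (g • ω) = (S i).r g ((S i).π ω) := by
    intro g ω
    obtain ⟨a, rfl⟩ := horb ω
    filter_upwards [hK g, hK a] with i h1 h2 using (S i).eqv g h1 a h2
  have hσ0 : ∀ g : G, ∃ σ : Perm (Fin k), ∀ᶠ i in U, sg ((S i).r g) = σ := fun g =>
    Ultrafilter.eventually_exists_iff.1 (Filter.Eventually.of_forall fun i => ⟨_, rfl⟩)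
  choose σ0 hσ0 using hσ0
  have hσu : ∀ g s, (∀ᶠ i in U, sg ((S i).r g) = s) → σ0 g = s := fun g s hs => by
    obtain ⟨i, h1, h2⟩ := ((hσ0 g).and hs).exists
    exact h1.symm.trans h2
  let σ : G →* Perm (Fin k) := MonoidHom.mk' σ0 fun a b => hσu _ _ (by
    filter_upwards [hσ0 a, hσ0 b, hK a, hK b] with i h1 h2 h3 h4
    have := hnt i
    rw [(S i).r_mul a h3 b h4, (hW i a h3).sg_mul (hW i b h4), h1, h2])
  have hσ : ∀ g, ∀ᶠ i in U, sg ((S i).r g) = σ g := hσ0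
  have hact : ∀ (g : G) (ω : Ω) (j : Fin k), ∀ᶠ i in U,
      (S i).π (g • ω) (σ g j) = cp ((S i).r g) j ((S i).π ω j) := fun g ω j => by
    filter_upwards [heqv g ω, hσ g, hK g] with i h1 h2 h3
    rw [h1, ← h2, (hW i g h3).apply]
  let E : Fin k → Ω → Ω → Prop := fun j ω ω' => ∀ᶠ i in U, (S i).π ω j = (S i).π ω' j
  have hEe : ∀ j, Equivalence (E j) := fun j =>
    ⟨fun ω => Filter.Eventually.of_forall fun i => rfl, fun e => e.mono fun i hi => hi.symm,
      fun e e' => (e.and e').mono fun i hi => hi.1.trans hi.2⟩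
  have hEg : ∀ (g : G) j ω ω', E j ω ω' → E (σ g j) (g • ω) (g • ω') := fun g j ω ω' e => by
    filter_upwards [e, hact g ω j, hact g ω' j] with i h1 h2 h3
    rw [h2, h3, h1]
  have hsep : ∃ j, ∀ ω ω', (∀ g : G, E j (g • ω) (g • ω')) → ω = ω' := by
    by_contra hc
    push Not at hc
    have htot : ∀ j ω ω', E j ω ω' := fun j ω ω' => by
      obtain ⟨x, y, h1, h2⟩ := hc j
      have := rel_total h.prim (fun x y => ∀ g : G, E j (g • x) (g • y))
        ⟨fun x g => (hEe j).refl _, fun e g => (hEe j).symm (e g),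
          fun e e' g => (hEe j).trans (e g) (e' g)⟩
        (fun g x y e g' => by simpa [mul_smul] using e (g' * g)) h2 h1 ω ω' 1
      simpa using this
    have := h.inf
    obtain ⟨β, hβ⟩ := exists_ne α
    obtain ⟨g, rfl⟩ := horb β
    obtain ⟨i, h1, h2⟩ := ((Filter.eventually_all.2 fun j => htot j (g • α) ((1 : G) • α)).and
      (hH g)).exists
    exact hβ (by simpa using (S i).inj g h2 1 (H i).one_mem (funext h1))
  obtain ⟨j, hj⟩ := hsep
  have hd : ∀ g : G, ∀ᶠ i in U, g * t * g⁻¹ ∈ (S i).K ∧ sg ((S i).r (g * t * g⁻¹)) = 1 ∧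
      (∀ j, cp ((S i).r (g * t * g⁻¹)) j ∈ L i) ∧ ∀ j,
      cp ((S i).r (g * t * g⁻¹)) j * cp ((S i).r (g * t * g⁻¹)) j = 1 ∧
      ∀ γ, cp ((S i).r (g * t * g⁻¹)) j γ = γ ↔ γ = (S i).π (g • α) j := fun g => by
    filter_upwards [hK g, hK (g * t * g⁻¹)] with i h1 h2
    exact ⟨h2, ((T i).conj_t h (hPK i) h1).1, (T i).t_mem h (hPK i) (hB i) h1,
      ((T i).conj_t h (hPK i) h1).2⟩
  have hN : ∀ n ∈ Subgroup.normalClosure ({t} : Set G), ∀ᶠ i in U,
      n ∈ (S i).K ∧ sg ((S i).r n) = 1 ∧ ∀ j, cp ((S i).r n) j ∈ L i := by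
    intro n hn
    induction hn using Subgroup.closure_induction with
    | mem x hx =>
      obtain ⟨a, ha, hx⟩ := Group.mem_conjugatesOfSet_iff.1 hx
      obtain ⟨c, rfl⟩ := isConj_iff.1 hx
      rw [Set.mem_singleton_iff.1 ha]
      exact (hd c).mono fun i hi => ⟨hi.1, hi.2.1, hi.2.2.1⟩
    | one =>
      refine Filter.Eventually.of_forall fun i => ?_
      have := hnt i
      rw [(S i).r_one, sg_one, cp_one]
      exact ⟨one_mem _, rfl, fun _ => one_mem _⟩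
    | mul x y _ _ ix iy =>
      filter_upwards [ix, iy] with i ⟨a1, a2, a3⟩ ⟨b1, b2, b3⟩
      have := hnt i
      rw [(S i).r_mul x a1 y b1, (hW i x a1).sg_mul (hW i y b1), a2, b2]
      refine ⟨mul_mem a1 b1, rfl, fun j => ?_⟩
      rw [(hW i x a1).cp_mul (hW i y b1)]
      exact mul_mem (a3 _) (b3 _)
    | inv x _ ix =>
      filter_upwards [ix] with i ⟨a1, a2, a3⟩
      have := hnt i
      rw [(S i).r_inv a1, (hW i x a1).sg_inv, a2]
      refine ⟨inv_mem a1, rfl, fun j => ?_⟩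
      rw [(hW i x a1).cp_inv]
      exact inv_mem (a3 _)
  have hσ1 : ∀ n ∈ Subgroup.normalClosure ({t} : Set G), σ n = 1 := fun n hn =>
    hσu _ _ ((hN n hn).mono fun i hi => hi.2.1)
  have hactN : ∀ n ∈ Subgroup.normalClosure ({t} : Set G), ∀ ω : Ω, ∀ᶠ i in U,
      (S i).π (n • ω) j = cp ((S i).r n) j ((S i).π ω j) := fun n hn ω => by
    have := hact n ω j
    rwa [hσ1 n hn] at this
  have hdN : ∀ g : G, g * t * g⁻¹ ∈ Subgroup.normalClosure ({t} : Set G) := fun g =>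
    Subgroup.normalClosure_normal.conj_mem t
      (Subgroup.subset_normalClosure (Set.mem_singleton t)) g
  refine ⟨E j, hEe j, ⟨σ.ker, inferInstance, inferInstance,
    hσ1 t (Subgroup.subset_normalClosure rfl), fun g hg ω ω' e => ?_⟩, hj, ?_, ?_, ?_⟩
  · have := hEg g j ω ω' e
    rwa [MonoidHom.mem_ker.1 hg] at this
  · intro n hn h2 ω ω' e1 e2 e3 x
    filter_upwards [hN n hn, e1, e2, Ultrafilter.eventually_not.2 e3, hactN n hn ω, hactN n hn ω',
      hactN n hn x] with i ⟨a1, a2, a3⟩ f1 f2 f3 f4 f5 f6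
    have := hnt i
    have h3 : TwoEl (cp ((S i).r n) j) := by
      obtain ⟨m, hm⟩ := h2
      refine ⟨m, ?_⟩
      have e := (S i).r_pow a1 (2 ^ m)
      rw [hm, (S i).r_one, (hW i n a1).eq_base a2, ← base_one] at e
      have e' : base (1 : Fin k → Perm (Γ i)) = base (cp ((S i).r n) ^ 2 ^ m) :=
        e.trans (baseHom.map_pow _ _).symm
      exact (congrFun (base_injective e') j).symm
    by_cases h4 : cp ((S i).r n) j = 1
    · rw [f6, h4, Perm.one_apply]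
    · exact absurd (((hB i).core.one _ (a3 j) h3 h4).unique (f4 ▸ f1) (f5 ▸ f2)) f3
  · intro g g' e ω
    filter_upwards [e, hd g, hd g', hactN _ (hdN g) ((g' * t * g'⁻¹) • ω), hactN _ (hdN g') ω,
      hactN _ (hdN g') ((g * t * g⁻¹) • ω), hactN _ (hdN g) ω] with i f0 ⟨_, _, a3, a4⟩
      ⟨_, _, b3, b4⟩ f1 f2 f3 f4
    rw [f1, f2, f3, f4, ← Perm.mul_apply, (hB i).core.zc ((S i).π (g • α) j) _ (a3 j) _ (b3 j)
      (a4 j).1 (twoEl_of_sq (b4 j).1) (((a4 j).2 _).2 rfl) (((b4 j).2 _).2 f0), Perm.mul_apply]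
  · intro g ω e
    filter_upwards [e, hd g, hactN _ (hdN g) ω] with i f0 ⟨_, _, _, a4⟩ f1
    exact ((a4 j).2 _).1 (f1 ▸ f0)

end Pool.Agent.Lib.MP_a7ce8b_al
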