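import Pool.Agent.Lib.MP_a7ce8b_al.C.SubU

/-! Descent of coordinates to a locally finite subfield. -/

namespace Pool.Agent.Lib.MP_a7ce8b_al

open Equiv MulAction

variable {G Ω : Type} [Group G] [MulAction G Ω] {N : Subgroup G}

theorem Coord.locSub {γ : Ω} {μ : G} {E : Type} [Field E] {D : Datum E}
    {κ : Ω → Option (E × E)} (h : Coord N γ μ D κ) (hrt : LocRT N γ μ) [Infinite Ω] :
    D.LocSub {p | ∃ x, κ x = some p} := by
  refine ⟨fun p ⟨x, hx⟩ => h.on x p hx, ?_, ?_⟩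
  · obtain ⟨x, hx⟩ := Infinite.exists_notMem_finset (α := Ω)
      (((Set.finite_singleton γ).insert (μ • γ)).toFinset)
    simp only [Set.Finite.mem_toFinset, Set.mem_insert_iff, Set.mem_singleton_iff, not_or] at hx
    cases e : κ x with
    | none => exact absurd (h.inj (e.trans h.inf.symm)) hx.2
    | some p => exact ⟨p, ⟨x, e⟩, fun e' => hx.1 (h.inj (by rw [e, e', h.zero]))⟩
  · rintro p ⟨x, hx⟩ q ⟨y, hy⟩
    obtain ⟨s, hs, h1, h2, h3⟩ := hrt {x, y, μ • γ} (Set.toFinite _)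
    refine ⟨{p | ∃ z ∈ s, κ z = some p}, fun p ⟨z, _, hz⟩ => ⟨z, hz⟩, ?_, ⟨x, h1 (by simp), hx⟩,
      ⟨y, h1 (by simp), hy⟩, ⟨_, h1 (by simp), h.zero⟩, ?_, ?_⟩
    · exact ((hs.image κ).preimage (Option.some_injective _).injOn).subset
        fun p ⟨z, hz, e⟩ => ⟨z, hz, e⟩
    · rintro u ⟨z, hz, e⟩ v ⟨z', hz', e'⟩
      obtain ⟨n, hn, g1, g2, g3, g4⟩ := h3 z hz fun e1 => by
        rw [e1, h.inf] at e
        exact absurd e (by simp)
      obtain ⟨u', hu⟩ := h.tr n hn g1 g2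
      have e2 := hu (μ • γ)
      rw [g3, e, h.zero, Option.map_some, D.add_zero'] at e2
      exact ⟨_, g4 z' hz', by rw [hu, e', Option.some.inj e2, Option.map_some]⟩
    · rintro u ⟨z, hz, e⟩ h0
      exact ⟨_, h2 z hz, by rw [h.tau, e, Datum.tau, if_neg h0]⟩

/-- Restriction of a datum to an invariant subfield. -/
def Datum.res {E : Type} [Field E] (D : Datum E) (F : Subfield E) (hF : ∀ x ∈ F, D.θ x ∈ F) :
    Datum F where
  θ := D.θ.restrict F F hF
  suz := D.suz
  two := Subtype.ext D.two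
  sq x := Subtype.ext (by
    have := D.sq x
    cases hs : D.suz <;> rw [hs] at this <;> exact this)

/-- Coordinates onto all points of a datum over a locally finite field. -/
theorem Coord.descend {γ : Ω} {μ : G} {E : Type} [Field E] {D : Datum E}
    {κ : Ω → Option (E × E)} (h : Coord N γ μ D κ) (hrt : LocRT N γ μ) [Infinite Ω] :
    ∃ (F : Type) (_ : Field F) (D' : Datum F) (κ' : Ω → Option (F × F)), Coord N γ μ D' κ' ∧
      (∀ x : F, ∃ n, 0 < n ∧ x ^ 2 ^ n = x) ∧ ∀ p, D'.On p → ∃ x, κ' x = some p := by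
  obtain ⟨F, e, he, he1, hF, ha, hV⟩ : ∃ (F : Subfield E) (e : E), e * D.θ e = 1 ∧
      (D.suz = true → e = 1) ∧ (∀ x ∈ F, D.θ x ∈ F) ∧ (∀ x ∈ F, ∃ n, 0 < n ∧ x ^ 2 ^ n = x) ∧
      ∀ p, (∃ x, κ x = some p) ↔ D.On p ∧ e * p.1 ∈ F ∧ p.2 ∈ F := by
    cases hs : D.suz
    · obtain ⟨F, e, h1, h2, h3, h4⟩ := Datum.sub_uni hs (h.locSub hrt)
      exact ⟨F, e, h1, by simp, h2, h3, h4⟩
    · obtain ⟨F, h2, h3, h4⟩ := Datum.sub_suz hs (h.locSub hrt)
      exact ⟨F, 1, by simp, fun _ => rfl, h2, h3, fun p => (h4 p).trans (by simp [Datum.On, hs])⟩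
  have he0 : e ≠ 0 := left_ne_zero_of_mul_eq_one he
  let D' := D.res F hF
  have hθ : ∀ x : F, (D'.θ x : E) = D.θ x := fun x => rfl
  have hsz : D'.suz = D.suz := rfl
  let ι : F × F → E × E := fun p => (p.1, p.2)
  let tw : E × E → E × E := fun p => (e * p.1, p.2)
  have hι : Function.Injective ι := fun p q e =>
    Prod.ext (Subtype.ext (congrArg Prod.fst e)) (Subtype.ext (congrArg Prod.snd e))
  have htw : Function.Injective tw := fun p q e =>
    Prod.ext (mul_left_cancel₀ he0 (congrArg Prod.fst e)) (congrArg Prod.snd e :)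
  have hιm := Option.map_injective hι
  have hκ : ∀ x, ∃ o : Option (F × F), o.map ι = (κ x).map tw := fun x => by
    cases hx : κ x with
    | none => exact ⟨none, rfl⟩
    | some p =>
      obtain ⟨-, h1, h2⟩ := (hV p).1 ⟨x, hx⟩
      exact ⟨some (⟨_, h1⟩, ⟨_, h2⟩), rfl⟩
  choose κ' hκ using hκ
  have on1 : ∀ p, D'.On p ↔ D.On (ι p) := fun p => or_congr Iff.rfl Subtype.ext_iff
  have on2 : ∀ p, D.On (tw p) ↔ D.On p := fun p => or_congr Iff.rfl (by
    show e * p.1 * D.θ (e * p.1) = _ ↔ _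
    rw [map_mul, mul_mul_mul_comm, he, one_mul])
  have add2 : ∀ u p, tw (D.add u p) = D.add (tw u) (tw p) := fun u p => by
    refine Prod.ext (mul_add _ _ _) ?_
    show _ = u.2 + p.2 + D.θ (e * u.1) * (e * p.1)
    rw [map_mul, mul_mul_mul_comm, mul_comm (D.θ e), he, one_mul]
    rfl
  have z1 : ι (0, 0) = (0, 0) := rfl
  have z2 : tw (0, 0) = (0, 0) := by simp [tw]
  have inv1 : ∀ p, ι (D'.inv p) = D.inv (ι p) := fun p => by
    unfold Datum.inv
    rw [hsz]
    cases D.suz <;> rfl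
  have inv2 : ∀ p, tw (D.inv p) = D.inv (tw p) := fun p => by
    cases hs : D.suz
    · simp [tw, Datum.inv, hs, mul_div_assoc]
    · simp [tw, he1 hs]
  have tau0 : ∀ {X Y : Type} [Field X] [Field Y] (D₁ : Datum X) (D₂ : Datum Y) (f : X × X → Y × Y),
      Function.Injective f → f (0, 0) = (0, 0) → (∀ p, f (D₁.inv p) = D₂.inv (f p)) →
      ∀ o, (D₁.tau o).map f = D₂.tau (o.map f) := by
    intro X Y _ _ D₁ D₂ f hf h0 hi o
    cases o with
    | none => simp [Datum.tau, h0]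
    | some p =>
      by_cases hp : p = (0, 0)
      · simp [Datum.tau, hp, h0]
      · have : f p ≠ (0, 0) := fun e => hp (hf (e.trans h0.symm))
        simp only [Datum.tau, Option.map_some, if_neg hp, if_neg this, hi]
  have hsurj : ∀ p, D'.On p → ∃ x, κ' x = some p := fun p hp => by
    have e1 : tw (e⁻¹ * p.1, p.2) = ι p := by simp [tw, ι, he0]
    obtain ⟨x, hx⟩ := (hV (e⁻¹ * p.1, p.2)).2 ⟨(on2 _).1 (e1 ▸ (on1 p).1 hp), by simp [he0], p.2.2⟩
    exact ⟨x, hιm (by rw [hκ, hx, Option.map_some, e1]; rfl)⟩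
  have ha' : ∀ x : F, ∃ n, 0 < n ∧ x ^ 2 ^ n = x := fun x => by
    obtain ⟨n, hn, e⟩ := ha x.1 x.2
    exact ⟨n, hn, Subtype.ext e⟩
  have hon : ∀ x p, κ' x = some p → D'.On p := fun x p hx => by
    have := hκ x
    rw [hx] at this
    cases hy : κ x with
    | none => simp [hy] at this
    | some q =>
      rw [hy] at this
      rw [on1, Option.some.inj this, on2]
      exact h.on x q hy
  refine ⟨F, inferInstance, D', κ', ⟨fun x y e => h.inj (Option.map_injective htw ?_), hon,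
    hιm (by rw [hκ, h.inf]; rfl), hιm (by rw [hκ, h.zero, Option.map_some, z2]; rfl),
    fun x => hιm ?_, fun n hn h2 h1 => ?_, fun g h1 h2 => ?_⟩, ha', hsurj⟩
  · rw [← hκ, ← hκ, e]
  · rw [hκ, h.tau, tau0 D D tw htw z2 inv2, tau0 D' D ι hι z1 inv1, hκ]
  · obtain ⟨u, hu⟩ := h.tr n hn h2 h1
    have e1 := hu (μ • γ)
    rw [h.zero, Option.map_some, D.add_zero'] at e1
    obtain ⟨-, u1, u2⟩ := (hV u).1 ⟨_, e1⟩
    refine ⟨(⟨_, u1⟩, ⟨_, u2⟩), fun x => hιm ?_⟩
    have e2 : ι ∘ D'.add (⟨_, u1⟩, ⟨_, u2⟩) = D.add (tw u) ∘ ι := rfl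
    rw [hκ, hu, Option.map_map, Option.map_map, e2, ← Option.map_map (g := ι), hκ, Option.map_map]
    congr 1
    exact funext (add2 u)
  · obtain ⟨c, φ, hφ, hg⟩ := h.semi g h1 h2
    have hφe : φ e ≠ 0 := (map_ne_zero φ).2 he0
    have hc' : e * c * (φ e)⁻¹ * D.θ (e * c * (φ e)⁻¹) = c * D.θ c := by
      have e1 : φ e * D.θ (φ e) = 1 := by rw [← hφ, ← map_mul, he, map_one]
      rw [map_mul, map_mul, map_inv₀, mul_mul_mul_comm, mul_mul_mul_comm e, he, ← mul_inv, e1]
      simp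
    have sc2 : ∀ p, tw (D.sc c φ p) = D.sc (e * c * (φ e)⁻¹) φ (tw p) := fun p => by
      refine Prod.ext ?_ ?_
      · show e * (c * φ p.1) = e * c * (φ e)⁻¹ * φ (e * p.1)
        rw [map_mul]
        field_simp
      · show _ = e * c * (φ e)⁻¹ * D.θ (e * c * (φ e)⁻¹) * φ p.2
        rw [hc']
        rfl
    generalize e * c * (φ e)⁻¹ = c' at sc2
    have hg' : ∀ x, (κ' (g • x)).map ι = (κ' x).map (D.sc c' φ ∘ ι) := fun x => by
      rw [hκ, hg, ← Option.map_map, hκ, Option.map_map, Option.map_map]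
      congr 1
      exact funext sc2
    have hmem : ∀ p, D'.On p → c' * φ p.1 ∈ F ∧ c' * D.θ c' * φ p.2 ∈ F ∧
        (p ≠ (0, 0) → D.sc c' φ (ι p) ≠ (0, 0)) := fun p hp => by
      obtain ⟨x, hx⟩ := hsurj p hp
      have := hg' x
      rw [hx] at this
      cases hy : κ' (g • x) with
      | none => simp [hy] at this
      | some q =>
        have e1 : ι q = D.sc c' φ (ι p) := by simpa [hy] using this
        refine ⟨(congrArg Prod.fst e1 ▸ q.1.2 : (D.sc c' φ (ι p)).1 ∈ F),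
          (congrArg Prod.snd e1 ▸ q.2.2 : (D.sc c' φ (ι p)).2 ∈ F), fun h0 e2 => h0 ?_⟩
        have e3 : (κ (g • x)).map tw = (κ (g • μ • γ)).map tw := by
          rw [← hκ, hy, Option.map_some, e1, e2, h2, h.zero, Option.map_some, z2]
        have e4 := MulAction.injective g (h.inj (Option.map_injective htw e3))
        have e5 := hκ x
        rw [hx, e4, h.zero, Option.map_some, Option.map_some, z2, ← z1] at e5
        exact hι (Option.some.inj e5)
    have hc0 : c' ≠ 0 := by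
      rintro rfl
      exact (hmem _ D'.on_zero_one).2.2 (by simp) (by simp [Datum.sc])
    have hcan : ∀ {a b : E}, a ≠ 0 → a ∈ F → a * b ∈ F → b ∈ F := fun {a b} h0 h1 h2 => by
      simpa [h0] using F.mul_mem (F.inv_mem h1) h2
    obtain ⟨c0, hφF, hc0⟩ : ∃ c0 : F, (∀ x ∈ F, φ x ∈ F) ∧
        ∀ p, D'.On p → D.sc c0 φ (ι p) = D.sc c' φ (ι p) := by
      rcases D'.dichotomy with hd | ⟨hd, hd'⟩
      · obtain ⟨b, hb⟩ := hd 1
        have h1 : c' ∈ F := by simpa using (hmem _ hb).1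
        refine ⟨⟨c', h1⟩, fun x hx => ?_, fun p _ => rfl⟩
        obtain ⟨b, hb⟩ := hd ⟨x, hx⟩
        exact hcan hc0 h1 (hmem _ hb).1
      · have h1 : c' * D.θ c' ∈ F := by simpa using (hmem _ D'.on_zero_one).2.1
        obtain ⟨c0, e0⟩ := sqrt_of_alg ha' ⟨_, h1⟩
        refine ⟨c0, fun x hx => ?_, fun p hp => ?_⟩
        · have h2 : D'.On (0, ⟨x, hx⟩) := Or.inr (by rw [hd', hd', D'.add_self, mul_zero])
          exact hcan (mul_ne_zero hc0 ((map_ne_zero D.θ).2 hc0)) h1 (hmem _ h2).2.1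
        · have h2 : p.1 = 0 := by
            rcases hp with hp | hp
            · rw [hd] at hp
              exact absurd hp (by simp)
            · rw [hd', hd', D'.add_self] at hp
              exact mul_self_eq_zero.1 hp
          have h3 : (c0 : E) * D.θ c0 = c' * D.θ c' := by
            rw [← hθ, hd', ← pow_two]
            exact congrArg Subtype.val e0
          simp [Datum.sc, ι, h2, h3]
    refine ⟨c0, φ.restrict F F hφF, fun x => Subtype.ext (hφ x), fun x => hιm ?_⟩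
    rw [hg']
    cases hx : κ' x with
    | none => rfl
    | some p => exact congrArg some (hc0 p (hon x p hx)).symm

end Pool.Agent.Lib.MP_a7ce8b_al
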