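import Pool.Agent.Lib.MP_a7ce8b_al.C.Dat2

/-! Recognition from surjective coordinates. -/

namespace Pool.Agent.Lib.MP_a7ce8b_al

open Equiv MulAction

variable {G Ω : Type} [Group G] [MulAction G Ω] {N : Subgroup G}

theorem stepC2_bij {E : Type} [Field E] (ha : ∀ x : E, ∃ n, 0 < n ∧ x ^ 2 ^ n = x)
    (φ : E →+* E) : Function.Bijective φ := by
  classical
  refine ⟨φ.injective, fun x => ?_⟩
  obtain ⟨n, hn, hx⟩ := ha x
  have hne : (Polynomial.X ^ 2 ^ n - Polynomial.X : Polynomial E) ≠ 0 :=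
    FiniteField.X_pow_card_sub_X_ne_zero E (Nat.one_lt_two_pow hn.ne')
  have hfin : {y : E | y ^ 2 ^ n = y}.Finite := by
    refine (Polynomial.finite_setOf_isRoot hne).subset fun y hy => ?_
    simp only [Set.mem_setOf_eq] at hy
    simp [hy]
  have hm : Set.MapsTo φ {y : E | y ^ 2 ^ n = y} {y : E | y ^ 2 ^ n = y} := fun y hy => by
    simp only [Set.mem_setOf_eq] at hy ⊢
    rw [← map_pow, hy]
  obtain ⟨y, -, e⟩ := ((hfin.injOn_iff_bijOn_of_mapsTo hm).1 φ.injective.injOn).surjOn hx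
  exact ⟨y, e⟩

theorem MHyp.recog_of_coord (h : MHyp Ω N) {γ : Ω} {μ : G} (hμ : μ ∈ N) (hrt : LocRT N γ μ)
    {E : Type} [Field E] {D : Datum E} {κ : Ω → Option (E × E)} (hc : Coord N γ μ D κ)
    (ha : ∀ x : E, ∃ n, 0 < n ∧ x ^ 2 ^ n = x) (hs : ∀ p, D.On p → ∃ x, κ x = some p) :
    Recog Ω N := by
  have hpt : ∀ x : Ω, ∃ y : D.Pt, D.co y = κ x := fun x => by
    cases e : κ x with
    | none => exact ⟨none, rfl⟩
    | some p => exact ⟨some ⟨p, hc.on x p e⟩, rfl⟩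
  choose ε0 hε0 using hpt
  have hbij : Function.Bijective ε0 := by
    refine ⟨fun x y e => hc.inj (by rw [← hε0, ← hε0, e]), fun y => ?_⟩
    cases y with
    | none => exact ⟨γ, D.co_inj (by rw [hε0, hc.inf]; rfl)⟩
    | some p =>
      obtain ⟨x, e⟩ := hs p.1 p.2
      exact ⟨x, D.co_inj (by rw [hε0, e]; rfl)⟩
  let ε := Equiv.ofBijective ε0 hbij
  have hε : ∀ x, D.co (ε x) = κ x := hε0
  have hγ : ε γ = none := D.co_inj (by rw [hε, hc.inf]; rfl)
  have hμγ : ε (μ • γ) = D.o := D.co_inj (by rw [hε, hc.zero]; rfl)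
  have hN := h.normal
  let RL : Subgroup (Perm D.Pt) :=
    { carrier := {l | ∃ n ∈ N, ∀ x, ε (n • x) = l (ε x)}
      one_mem' := ⟨1, N.one_mem, fun x => by simp⟩
      mul_mem' := by
        rintro a b ⟨n, hn, e⟩ ⟨m, hm, e'⟩
        exact ⟨n * m, N.mul_mem hn hm, fun x => by rw [mul_smul, e, e', Perm.mul_apply]⟩
      inv_mem' := by
        rintro a ⟨n, hn, e⟩
        refine ⟨n⁻¹, N.inv_mem hn, fun x => ?_⟩
        rw [Perm.eq_inv_iff_eq, ← e, smul_inv_smul] }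
  have htr : ∀ n ∈ N, TwoEl n → n • γ = γ → ∃ u, κ (n • μ • γ) = some u ∧
      ∀ g, D.TransBy u g → ∀ x, ε (n • x) = g (ε x) := fun n hn h2 h1 => by
    obtain ⟨u, hu⟩ := hc.tr n hn h2 h1
    refine ⟨u, by rw [hu, hc.zero, Option.map_some, D.add_zero'], fun g hg x => D.co_inj ?_⟩
    rw [hε, hu, hg, hε]
  have hL : D.L ≤ RL := by
    refine (Subgroup.closure_le _).2 ?_
    rintro g (hg | hg)
    · obtain ⟨u, hu, hg⟩ := Datum.isTrans_iff.1 hg
      obtain ⟨x, hx⟩ := hs u hu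
      obtain ⟨s', -, h1, -, h2⟩ := hrt {x} (Set.finite_singleton x)
      obtain ⟨n, hn, g1, g2, g3, -⟩ := h2 x (h1 rfl) fun e => by
        rw [e, hc.inf] at hx
        exact absurd hx (by simp)
      obtain ⟨u', e1, e2⟩ := htr n hn g1 g2
      rw [g3, hx] at e1
      exact ⟨n, hn, e2 g (Option.some.inj e1 ▸ hg)⟩
    · exact ⟨μ, hμ, fun x => D.co_inj (by rw [hε, hc.tau, hg, hε])⟩
  have : Infinite E := by
    by_contra hf
    have := not_infinite_iff_finite.1 hf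
    have := h.inf
    exact not_injective_infinite_finite κ hc.inj
  have hsub : ∀ M : Subgroup (Perm D.Pt), ∃ NL : Subgroup G,
      ∀ n, n ∈ NL ↔ ∃ l ∈ M, ∀ x, ε (n • x) = l (ε x) := fun M =>
    ⟨{ carrier := {n | ∃ l ∈ M, ∀ x, ε (n • x) = l (ε x)}
       one_mem' := ⟨1, M.one_mem, fun x => by simp⟩
       mul_mem' := by
        rintro n m ⟨a, hn, e⟩ ⟨b, hm, e'⟩
        exact ⟨a * b, M.mul_mem hn hm, fun x => by rw [mul_smul, e, e', Perm.mul_apply]⟩
       inv_mem' := by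
        rintro n ⟨a, hn, e⟩
        refine ⟨a⁻¹, M.inv_mem hn, fun x => ?_⟩
        rw [Perm.eq_inv_iff_eq, ← e, smul_inv_smul] }, fun _ => Iff.rfl⟩
  refine ⟨E, inferInstance, this, D, ε, ha, fun l hl => hL hl, fun n hn => ?_, fun g => ?_⟩
  · obtain ⟨NL, hNL⟩ := hsub D.L
    refine (hNL n).1 ((h.gen.trans ((Subgroup.closure_le _).2 ?_)) hn)
    rintro n ⟨hn, h2⟩
    by_cases h1 : n = 1
    · exact h1 ▸ NL.one_mem
    obtain ⟨x, hx, -⟩ := h.one n hn (twoEl_of_sq h2) h1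
    have := h.inf
    obtain ⟨y, hy⟩ := exists_ne x
    obtain ⟨l, hl, e1, -⟩ := Datum.exists_to_base (ε.injective.ne hy.symm)
    obtain ⟨m, hm, e2⟩ := hL hl
    have e3 : m • x = γ := ε.injective (by rw [e2, e1, hγ])
    obtain ⟨u, e4, e5⟩ := htr _ (hN.conj_mem n hn m) ((twoEl_of_sq h2).conj m) (by
      rw [← e3, mul_smul, inv_smul_smul, mul_smul, hx])
    obtain ⟨g, hg⟩ := D.exists_trans (hc.on _ _ e4)
    have h3 : m * n * m⁻¹ ∈ NL :=
      (hNL _).2 ⟨g, (Datum.isTrans_iff.2 ⟨u, hc.on _ _ e4, hg⟩).mem, e5 g hg⟩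
    have h4 : m ∈ NL := (hNL _).2 ⟨l, hl, e2⟩
    simpa [mul_assoc] using NL.mul_mem (NL.mul_mem (NL.inv_mem h4) h3) h4
  · obtain ⟨NA, hNA⟩ := hsub D.A
    have hne : γ ≠ μ • γ := fun e => by
      have := hc.zero
      rw [← e, hc.inf] at this
      exact absurd this (by simp)
    obtain ⟨l, hl, e1, e2⟩ := Datum.exists_to_base (D := D)
      (ε.injective.ne ((MulAction.injective g).ne hne))
    obtain ⟨m, -, e3⟩ := hL hl
    have f1 : (m * g) • γ = γ := ε.injective (by rw [mul_smul, e3, e1, hγ])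
    have f2 : (m * g) • μ • γ = μ • γ := ε.injective (by rw [mul_smul, e3, e2, hμγ])
    obtain ⟨c, φ, hφ, e4⟩ := hc.semi _ f1 f2
    have hc0 : c ≠ 0 := by
      rintro rfl
      obtain ⟨x, hx⟩ := hs _ D.on_zero_one
      have e5 := e4 x
      rw [hx, Option.map_some, Datum.sc, zero_mul, zero_mul, zero_mul, ← hc.zero, ← f2] at e5
      rw [MulAction.injective _ (hc.inj e5), hc.zero] at hx
      simp at hx
    let ψ := RingEquiv.ofBijective φ (stepC2_bij ha φ)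
    obtain ⟨a, hg⟩ := D.exists_semi hc0 ψ hφ
    have h3 : m * g ∈ NA := (hNA _).2 ⟨a, Datum.IsSemi.mem ⟨c, ψ, hφ, hg⟩, fun x =>
      D.co_inj (by rw [hε, e4, hg, hε]; rfl)⟩
    have h4 : m ∈ NA := (hNA _).2 ⟨l, Datum.L_le_A hl, e3⟩
    exact (hNA g).1 (by simpa using NA.mul_mem (NA.inv_mem h4) h3)

end Pool.Agent.Lib.MP_a7ce8b_al
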