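import Pool.Agent.Lib.MP_a7ce8b_al.C.Coord
import Pool.Agent.Lib.MP_a7ce8b_al.C.StepC1
import Pool.Agent.Lib.MP_a7ce8b_al.C.StepC2

/-! The rank one recognition theorem. -/

namespace Pool.Agent.Lib.MP_a7ce8b_al

open Equiv MulAction

variable {G Ω : Type} [Group G] [MulAction G Ω] {N : Subgroup G}

theorem MHyp.recog (h : MHyp Ω N) : Recog Ω N := by
  obtain ⟨μ, hμ, -, -, -, h1, -, h2, -, -⟩ := h.four
  obtain ⟨x, -, hx⟩ := h.one μ hμ (twoEl_of_sq h2) h1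
  have := h.inf
  obtain ⟨γ, hγ⟩ := exists_ne x
  have hγ' : μ • γ ≠ γ := fun e => hγ (hx γ e)
  obtain ⟨E, _, D, κ, hc⟩ := h.exists_coord hμ h2 hγ'
  obtain ⟨F, _, D', κ', hc', ha, hs⟩ := hc.descend (h.locRT hμ h2 hγ')
  exact h.recog_of_coord hμ (h.locRT hμ h2 hγ') hc' ha hs

end Pool.Agent.Lib.MP_a7ce8b_al
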