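import Pool.Agent.Lib.MP_a7ce8b_al.C.GenA

/-! Applying the recognition theorem to one coordinate. -/

namespace Pool.Agent.Lib.MP_a7ce8b_al

open Equiv MulAction

variable {G Ω : Type} [Group G] [MulAction G Ω] {P : Subgroup G} {t : G} {α : Ω}

theorem Ctx.coord_one (h : Ctx P t α) {E : Ω → Ω → Prop} (hE : EHyp t α E) (hn : NonIso t α E)
    (hrec : ∀ (Γ : Type) (R : Subgroup (Perm Γ)) (N : Subgroup R), MHyp Γ N → Recog Γ N) :
    ∃ (F : Type) (_ : Field F) (_ : Infinite F) (D : Datum F) (ε : Ω → D.Pt),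
      (∀ x : F, ∃ n, 0 < n ∧ x ^ 2 ^ n = x) ∧ Function.Surjective ε ∧
      (∀ ω ω', ε ω = ε ω' ↔ E ω ω') ∧
      (∀ l ∈ D.L, ∃ n ∈ Subgroup.normalClosure ({t} : Set G), ∀ ω, ε (n • ω) = l (ε ω)) ∧
      (∀ n ∈ Subgroup.normalClosure ({t} : Set G), ∃ l ∈ D.L, ∀ ω, ε (n • ω) = l (ε ω)) ∧
      ∀ g : G, (∀ ω ω', E (g • ω) (g • ω') ↔ E ω ω') →
        ∃ a ∈ D.A, ∀ ω, ε (g • ω) = a (ε ω) := by
  classical
  obtain ⟨B, hBn, hBf, htB, hB⟩ := hE.fin
  have := h.faith
  have := h.inf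
  let N := Subgroup.normalClosure ({t} : Set G)
  have hNn : N.Normal := Subgroup.normalClosure_normal
  have hdN : ∀ g : G, g * t * g⁻¹ ∈ N := fun g =>
    hNn.conj_mem t (Subgroup.subset_normalClosure rfl) g
  let R : Subgroup G :=
    { carrier := {g | ∀ ω ω', E (g • ω) (g • ω') ↔ E ω ω'}
      one_mem' := fun ω ω' => by simp
      mul_mem' := fun {a b} ha hb ω ω' => by rw [mul_smul, mul_smul, ha, hb]
      inv_mem' := fun {a} ha ω ω' => by rw [← ha, smul_inv_smul, smul_inv_smul] }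
  have hBR : B ≤ R := fun g hg ω ω' =>
    ⟨fun h => by simpa using hB g⁻¹ (B.inv_mem hg) _ _ h, hB g hg ω ω'⟩
  have hNR : N ≤ R := (Subgroup.normalClosure_le_normal (by simpa using htB)).trans hBR
  let s : Setoid Ω := ⟨E, hE.equiv⟩
  let Γ := Quotient s
  let q : Ω → Γ := Quotient.mk s
  have hq : ∀ ω ω', q ω = q ω' ↔ E ω ω' := fun ω ω' => Quotient.eq
  have hqs : Function.Surjective q := Quotient.mk_surjective
  let act : R → Γ → Γ := fun g => Quotient.map (g.1 • ·) fun ω ω' e => (g.2 ω ω').2 e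
  let _ : MulAction R Γ :=
    { smul := act
      one_smul := fun x => by
        obtain ⟨ω, rfl⟩ := hqs x
        show q ((1 : G) • ω) = q ω
        rw [one_smul]
      mul_smul := fun a b x => by
        obtain ⟨ω, rfl⟩ := hqs x
        show q ((a.1 * b.1) • ω) = q (a.1 • b.1 • ω)
        rw [mul_smul] }
  let ρ : R →* Perm Γ := toPermHom R Γ
  let p := ρ.rangeRestrict
  have hp : Function.Surjective p := ρ.rangeRestrict_surjective
  have hpq : ∀ (g : R) ω, p g • q ω = q (g.1 • ω) := fun g ω => rfl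
  let Nb : Subgroup ρ.range := (N.subgroupOf R).map p
  have hNb : ∀ n, n ∈ Nb ↔ ∃ g : R, g.1 ∈ N ∧ p g = n := fun n => Iff.rfl
  have hpe : ∀ a b : ρ.range, (∀ ω, a • q ω = b • q ω) → a = b := fun a b e =>
    eq_of_smul_eq_smul (α := Γ) fun x => by
      obtain ⟨ω, rfl⟩ := hqs x
      exact e ω
  let d : G → ρ.range := fun g => p ⟨_, hNR (hdN g)⟩
  have hdq : ∀ g ω, d g • q ω = q ((g * t * g⁻¹) • ω) := fun g ω => rfl
  have hd2 : ∀ g, d g * d g = 1 := fun g => hpe _ _ fun ω => by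
    rw [mul_smul, hdq, hdq, one_smul, ← mul_smul, conj_mul, h.sq]
    simp
  have hdm : ∀ g, d g ∈ Nb := fun g => (hNb _).2 ⟨_, hdN g, rfl⟩
  have hinf : Infinite Γ := by
    by_contra hf
    have := not_infinite_iff_finite.1 hf
    refine not_injective_infinite_finite (fun (ω : Ω) (c : G ⧸ B) => q (c.out⁻¹ • ω)) ?_
    intro ω ω' e
    refine hE.sep _ _ fun g => ?_
    have e1 : g * (g⁻¹ : G ⧸ B).out ∈ B := by
      rw [← inv_inv g, ← QuotientGroup.eq, QuotientGroup.out_eq']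
      simp
    simpa [mul_smul] using hB _ e1 _ _ ((hq _ _).1 (congrFun e (g⁻¹ : G ⧸ B)))
  have hd1 : ∀ g, d g ≠ 1 := fun g e => by
    obtain ⟨x, hx⟩ := exists_ne (q (g • α))
    obtain ⟨ω, rfl⟩ := hqs x
    refine hx ((hq _ _).2 (hE.se3 g ω ((hq _ _).1 ?_)))
    rw [← hdq, e, one_smul]
  have hlfR : IsLocallyFinite R := h.lf.of_injective R.subtype R.subtype_injective
  have hM : MHyp Γ Nb := by
    refine ⟨inferInstance, hinf, hlfR.of_surjective p hp,
      h.khyp.transfer h.lf R.subtype R.subtype_injective p hp,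
      (hNn.subgroupOf R).map p hp, fun x y => ?_, ?_, ?_, ?_⟩
    · obtain ⟨ω, rfl⟩ := hqs x
      obtain ⟨ω', rfl⟩ := hqs y
      obtain ⟨β, hβ⟩ := exists_ne α
      obtain ⟨n, hn, rfl⟩ := normal_trans h.prim N hNn
        ⟨t, Subgroup.subset_normalClosure rfl, β, fun e => hβ (h.uniq β e)⟩ ω ω'
      exact ⟨_, (hNb _).2 ⟨⟨n, hNR hn⟩, hn, rfl⟩, rfl⟩
    · intro n hn
      obtain ⟨⟨g, hg⟩, hgN, rfl⟩ := (hNb _).1 hn
      have key : ∀ g ∈ N, ∀ hg : g ∈ R,
          p ⟨g, hg⟩ ∈ Subgroup.closure {n | n ∈ Nb ∧ n * n = 1} := by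
        intro g hgN
        induction hgN using Subgroup.closure_induction with
        | mem x hx =>
          obtain ⟨a, ha, hx⟩ := Group.mem_conjugatesOfSet_iff.1 hx
          obtain ⟨c, rfl⟩ := isConj_iff.1 hx
          rw [Set.mem_singleton_iff.1 ha]
          exact fun _ => Subgroup.subset_closure ⟨hdm c, hd2 c⟩
        | one =>
          intro _
          show p 1 ∈ _
          rw [map_one]
          exact one_mem _
        | mul x y hx hy ix iy =>
          intro _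
          have := mul_mem (ix (hNR hx)) (iy (hNR hy))
          rwa [← map_mul] at this
        | inv x hx ix =>
          intro _
          have := inv_mem (ix (hNR hx))
          rwa [← map_inv] at this
      exact key g hgN hg
    · intro n hn h2 h1
      obtain ⟨g, hgN, rfl⟩ := (hNb _).1 hn
      obtain ⟨m, hm, hm2⟩ := exists_odd_twoEl (h.lf.isOfFinOrder g.1)
      obtain ⟨r, hr⟩ := h2.exists_pow_odd hm
      have hfix : ∀ (a : ρ.range) (x : Γ) (j : ℕ), a • x = x → a ^ j • x = x := fun a x j e =>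
        (stabilizer ρ.range x).pow_mem e j
      have hpm : ∀ ω, p g ^ m • q ω = q (g.1 ^ m • ω) := fun ω => by
        rw [← map_pow]
        rfl
      obtain ⟨ω, hω⟩ := h.star.fix hm2.isPGroup_zpowers
      have hω' := hω _ (Subgroup.mem_zpowers _)
      refine ⟨q ω, ?_, fun x hx => ?_⟩
      · show p g • q ω = q ω
        rw [← hr]
        exact hfix _ _ _ (by rw [hpm, hω'])
      · obtain ⟨ω', rfl⟩ := hqs x
        by_contra hne
        have e1 := hfix _ _ m hx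
        rw [hpm] at e1
        have := hE.se1 _ (N.pow_mem hgN m) hm2 ω' ω ((hq _ _).1 e1)
          (by rw [hω']; exact hE.equiv.refl _) fun e => hne ((hq _ _).2 e)
        apply h1
        rw [← hr, hpe (p g ^ m) 1 fun ω => by rw [hpm, one_smul]; exact (hq _ _).2 (this ω),
          one_pow]
    · obtain ⟨g, g', ω, e1, e2⟩ := hn
      refine ⟨d g, hdm g, d g', hdm g', fun e => e2 ((hq _ _).1 ?_), hd1 g, hd1 g', hd2 g, hd2 g',
        hpe _ _ fun ω => ?_⟩
      · rw [← hdq, ← hdq, e]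
      · rw [mul_smul, mul_smul, hdq, hdq, hdq, hdq]
        exact (hq _ _).2 (hE.se2 g g' e1 ω)
  obtain ⟨F, _, _, D, ε, ha, g1, g2, g3⟩ := hrec Γ ρ.range Nb hM
  refine ⟨F, inferInstance, inferInstance, D, fun ω => ε (q ω), ha, ε.surjective.comp hqs,
    fun ω ω' => ε.apply_eq_iff_eq.trans (hq _ _), fun l hl => ?_, fun n hn => ?_, fun g hg => ?_⟩
  · obtain ⟨n, hn, e⟩ := g1 l hl
    obtain ⟨g, hg, rfl⟩ := (hNb _).1 hn
    exact ⟨g.1, hg, fun ω => e (q ω)⟩
  · obtain ⟨l, hl, e⟩ := g2 _ ((hNb _).2 ⟨⟨n, hNR hn⟩, hn, rfl⟩)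
    exact ⟨l, hl, fun ω => e (q ω)⟩
  · obtain ⟨a, ha, e⟩ := g3 (p ⟨g, hg⟩)
    exact ⟨a, ha, fun ω => e (q ω)⟩

end Pool.Agent.Lib.MP_a7ce8b_al
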