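import Pool.Agent.Lib.MP_a7ce8b_al.C.GenB

/-! From one coordinate to the product decomposition. -/

namespace Pool.Agent.Lib.MP_a7ce8b_al

open Equiv MulAction

variable {G Ω : Type} [Group G] [MulAction G Ω] {P : Subgroup G} {t : G} {α : Ω}

theorem Ctx.isProd (h : Ctx P t α) {E : Ω → Ω → Prop} (hE : EHyp t α E) {Γ : Type}
    {L A : Subgroup (Perm Γ)} (hc : Comp L A) (ε : Ω → Γ) (hs : Function.Surjective ε)
    (he : ∀ ω ω', ε ω = ε ω' ↔ E ω ω')
    (h1 : ∀ l ∈ L, ∃ n ∈ Subgroup.normalClosure ({t} : Set G), ∀ ω, ε (n • ω) = l (ε ω))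
    (h2 : ∀ n ∈ Subgroup.normalClosure ({t} : Set G), ∃ l ∈ L, ∀ ω, ε (n • ω) = l (ε ω))
    (h3 : ∀ g : G, (∀ ω ω', E (g • ω) (g • ω') ↔ E ω ω') →
      ∃ a ∈ A, ∀ ω, ε (g • ω) = a (ε ω)) :
    IsProd (toPermHom G Ω).range L A := by
  classical
  obtain ⟨B, hBn, hBf, htB, hB⟩ := hE.fin
  let N := Subgroup.normalClosure ({t} : Set G)
  have hNn : N.Normal := Subgroup.normalClosure_normal
  have hdN : ∀ g : G, g * t * g⁻¹ ∈ N := fun g =>
    hNn.conj_mem t (Subgroup.subset_normalClosure rfl) g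
  let R : Subgroup G :=
    { carrier := {g | ∀ ω ω', E (g • ω) (g • ω') ↔ E ω ω'}
      one_mem' := fun ω ω' => by simp
      mul_mem' := fun {a b} ha hb ω ω' => by rw [mul_smul, mul_smul, ha, hb]
      inv_mem' := fun {a} ha ω ω' => by rw [← ha, smul_inv_smul, smul_inv_smul] }
  have hBR : B ≤ R := fun g hg ω ω' =>
    ⟨fun h => by simpa using hB g⁻¹ (B.inv_mem hg) _ _ h, hB g hg ω ω'⟩
  have : R.FiniteIndex := Subgroup.finiteIndex_of_le hBR
  obtain ⟨k, ⟨κ⟩⟩ := Finite.exists_equiv_fin (G ⧸ R)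
  let c : Fin k → G := fun j => (κ.symm j).out
  have hc1 : ∀ j, ((c j : G) : G ⧸ R) = κ.symm j := fun j => QuotientGroup.out_eq' _
  let σ : G → Perm (Fin k) := fun g => κ.permCongr (toPerm g)
  have hσ : ∀ g j, (c (σ g j))⁻¹ * g * c j ∈ R := fun g j => by
    rw [mul_assoc, ← QuotientGroup.eq, hc1]
    show κ.symm (κ (g • κ.symm j)) = _
    rw [κ.symm_apply_apply, ← hc1]
    rfl
  let f : Ω → Fin k → Γ := fun ω j => ε ((c j)⁻¹ • ω)
  have hf : ∀ g : G, ∃ a : Fin k → Perm Γ, (∀ j, a j ∈ A) ∧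
      ∀ ω j, f (g • ω) (σ g j) = a j (f ω j) := fun g => by
    choose a ha ha' using fun j => h3 _ (hσ g j)
    refine ⟨a, ha, fun ω j => ?_⟩
    show ε _ = a j (ε _)
    rw [← ha', mul_smul, mul_smul, smul_inv_smul]
  have hfs : ∀ j γ, ∃ ω, f ω j = γ := fun j γ => by
    obtain ⟨ω, rfl⟩ := hs γ
    exact ⟨c j • ω, by simp [f]⟩
  have hφ0 : ∀ j (n : N), ∃ l : L, ∀ ω, f (n.1 • ω) j = l.1 (f ω j) := fun j n => by
    obtain ⟨l, hl, e⟩ := h2 _ (hNn.conj_mem n.1 n.2 (c j)⁻¹)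
    refine ⟨⟨l, hl⟩, fun ω => ?_⟩
    show ε _ = l (ε _)
    rw [← e, inv_inv, mul_smul, mul_smul, smul_inv_smul]
  choose φ0 hφ0 using hφ0
  have huniq : ∀ j (n : N) (l : L), (∀ ω, f (n.1 • ω) j = l.1 (f ω j)) → φ0 j n = l := by
    intro j n l hl
    ext γ
    obtain ⟨ω, rfl⟩ := hfs j γ
    rw [← hφ0, hl]
  let φ : Fin k → N →* L := fun j => MonoidHom.mk' (φ0 j) fun a b => huniq j _ _ fun ω => by
    rw [Subgroup.coe_mul, mul_smul, hφ0, hφ0]
    rfl
  have hφ : ∀ j (n : N) ω, f (n.1 • ω) j = (φ j n).1 (f ω j) := hφ0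
  have hφs : ∀ j, Function.Surjective (φ j) := fun j l => by
    obtain ⟨n, hn, e⟩ := h1 l.1 l.2
    refine ⟨⟨_, hNn.conj_mem n hn (c j)⟩, huniq j _ _ fun ω => ?_⟩
    show ε _ = l.1 (ε _)
    rw [← e, mul_smul, mul_smul, inv_smul_smul]
  let d : G → N := fun g => ⟨_, hdN g⟩
  have hcd : ∀ j (g : G) (ω : Ω), (c j)⁻¹ • (d g).1 • ω =
      ((c j)⁻¹ * g * t * ((c j)⁻¹ * g)⁻¹) • (c j)⁻¹ • ω := fun j g ω => by
    simp [d, mul_smul]
  have s3 : ∀ j g γ, (φ j (d g)).1 γ = γ ↔ γ = f (g • α) j := fun j g γ => by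
    constructor
    · intro e
      obtain ⟨ω, rfl⟩ := hfs j γ
      rw [← hφ] at e
      have e1 := (he _ _).1 e
      rw [hcd] at e1
      have := hE.se3 _ _ e1
      rw [mul_smul] at this
      exact (he _ _).2 this
    · rintro rfl
      rw [← hφ]
      simp [d, mul_smul, h.fix]
  have crit : ∀ j (g g' : G), f (g • α) j = f (g' • α) j ↔
      d g * d g' * (d g' * d g)⁻¹ ∈ (φ j).ker := fun j g g' => by
    rw [MonoidHom.mem_ker, map_mul, map_inv, mul_inv_eq_one]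
    constructor
    · intro e
      refine huniq j _ _ fun ω => ?_
      rw [← hφ]
      have e1 := (he _ _).1 e
      rw [← mul_smul, ← mul_smul] at e1
      have := hE.se2 _ _ e1 ((c j)⁻¹ • ω)
      rw [← hcd, ← hcd, ← hcd, ← hcd] at this
      rw [Subgroup.coe_mul, Subgroup.coe_mul, mul_smul (d g).1, mul_smul (d g').1]
      exact (he _ _).2 this
    · intro e
      rw [map_mul, map_mul] at e
      have e1 := congrArg (fun l : L => l.1 (f (g' • α) j)) e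
      simp only [Subgroup.coe_mul, Perm.mul_apply] at e1
      rw [(s3 j g' _).2 rfl] at e1
      have e2 := (s3 j g' _).1 e1.symm
      exact ((s3 j g _).1 e2).symm
  have hk : ∀ i j, (φ i).ker = (φ j).ker → i = j := fun i j e => by
    have e1 : ∀ ω ω', f ω i = f ω' i ↔ f ω j = f ω' j := fun ω ω' => by
      obtain ⟨g, rfl⟩ := h.prim.toIsPretransitive.exists_smul_eq α ω
      obtain ⟨g', rfl⟩ := h.prim.toIsPretransitive.exists_smul_eq α ω'
      rw [crit, crit, e]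
    have e2 : (c j)⁻¹ * c i ∈ R := fun ω ω' => by
      have := e1 (c i • ω) (c i • ω')
      simp only [f, inv_smul_smul, he] at this
      rw [mul_smul, mul_smul, this]
    rw [← QuotientGroup.eq, hc1, hc1] at e2
    exact (κ.symm.injective e2).symm
  have := hc.simple
  have hsc := scott hc.noncomm φ hφs hk
  have hinj : Function.Injective f := fun ω ω' e => hE.sep _ _ fun g => by
    have e1 : g * c (κ (g⁻¹ : G)) ∈ R := by
      rw [← inv_inv g, ← QuotientGroup.eq, hc1, inv_inv, κ.symm_apply_apply]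
    have e2 := (e1 _ _).2 ((he _ _).1 (congrFun e (κ (g⁻¹ : G))))
    simpa [mul_smul] using e2
  have hsurj : Function.Surjective f := fun x => by
    choose l hl hl' using fun j => hc.trans (f α j) (x j)
    obtain ⟨n, hn⟩ := hsc fun j => ⟨l j, hl j⟩
    exact ⟨n.1 • α, funext fun j => by rw [hφ, hn, hl']⟩
  let e := Equiv.ofBijective f ⟨hinj, hsurj⟩
  have hmem : ∀ g : G, e.permCongr (toPerm g) ∈
      (toPermHom G Ω).range.map e.permCongrHom.toMonoidHom := fun g => ⟨_, ⟨g, rfl⟩, rfl⟩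
  have hact : ∀ (g : G) (s : Perm (Fin k)) (a : Fin k → Perm Γ),
      (∀ ω j, f (g • ω) (s j) = a j (f ω j)) → Acts (e.permCongr (toPerm g)) s a := by
    intro g s a ha x j
    obtain ⟨ω, rfl⟩ := e.surjective x
    rw [Equiv.permCongr_apply, e.symm_apply_apply]
    exact ha ω j
  refine ⟨k, e, fun l hl => ?_, ?_, fun i j => ?_⟩
  · obtain ⟨n, hn⟩ := hsc fun j => ⟨l j, hl j⟩
    exact ⟨_, hmem n.1, hact _ _ _ fun ω j => by rw [Perm.one_apply, hφ, hn]⟩
  · rintro _ ⟨_, ⟨g, rfl⟩, rfl⟩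
    obtain ⟨a, ha, ha'⟩ := hf g
    exact ⟨σ g, a, ha, hact _ _ _ ha'⟩
  · obtain ⟨a, -, ha'⟩ := hf (c j * (c i)⁻¹)
    refine ⟨_, hmem _, _, a, hact _ _ _ ha', ?_⟩
    show κ ((c j * (c i)⁻¹) • κ.symm i) = j
    rw [← hc1, MulAction.Quotient.smul_coe, smul_eq_mul, inv_mul_cancel_right, hc1,
      κ.apply_symm_apply]

end Pool.Agent.Lib.MP_a7ce8b_al
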