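import Pool.Agent.Lib.MP_a7ce8b_al.C.FamB
import Pool.Agent.Lib.MP_a7ce8b_al.C.StepA
import Pool.Agent.Lib.MP_a7ce8b_al.C.StepD1
import Pool.Agent.Lib.MP_a7ce8b_al.C.StepC
import Pool.Agent.Lib.MP_a7ce8b_al.C.StepD2
import Pool.Agent.Lib.MP_a7ce8b_al.C.Conv
import Pool.Agent.Lib.MP_a7ce8b_al.C.Conv2
import Pool.Agent.Lib.MP_a7ce8b_al.C.Dat5
import Pool.Agent.Lib.MP_a7ce8b_al.Count

/-! Assembly of the countable classification. -/

namespace Pool.Agent.Lib.MP_a7ce8b_al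

open Equiv MulAction

variable {G Ω : Type} [Group G] [MulAction G Ω] {P : Subgroup G} {t : G} {α : Ω}

theorem Ctx.tri (h : Ctx P t α) :
    (∀ H : Subgroup G, Finite H → P ≤ H → ∃ (X : Type) (S : Sec α H X), S.Affine) ∨
    (∀ H : Subgroup G, Finite H → P ≤ H → ∃ T : PSec α H, AComp T.L T.A) ∨
    ∀ H : Subgroup G, Finite H → P ≤ H → ∃ T : PSec α H, BComp T.L T.A := by
  by_contra hc
  simp only [not_or, not_forall] at hc
  obtain ⟨⟨H₁, f₁, p₁, n₁⟩, ⟨H₂, f₂, p₂, n₂⟩, ⟨H₃, f₃, p₃, n₃⟩⟩ := hc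
  let H := H₁ ⊔ Subgroup.closure ((H₂ : Set G) ∪ H₃)
  have : Finite H := h.lf.finite_sup H₁ ((Set.toFinite _).union (Set.toFinite _))
  have l₂ : H₂ ≤ H := fun x hx => Subgroup.mem_sup_right (Subgroup.subset_closure (Or.inl hx))
  have l₃ : H₃ ≤ H := fun x hx => Subgroup.mem_sup_right (Subgroup.subset_closure (Or.inr hx))
  obtain ⟨X, S, hS⟩ := h.exists_sec H (p₁.trans le_sup_left)
  rcases S.cases hS with h1 | ⟨T, -, h1, -⟩ | ⟨E, _, _, D, k, e, hb, h1⟩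
  · exact n₁ ⟨X, S.mono le_sup_left, h1⟩
  · exact n₂ ⟨T.mono l₂, h1⟩
  · exact n₃ ⟨PSec.mono ⟨k, _, _, _, S.congr e, h1, (Datum.bcomp_finite hb).comp⟩ l₃,
      Datum.bcomp_finite hb⟩

theorem Ctx.const_k (h : Ctx P t α)
    (hb : ∀ H : Subgroup G, Finite H → P ≤ H → ∃ T : PSec α H, BComp T.L T.A) :
    ∃ k, ∀ H : Subgroup G, Finite H → ∃ (Γ : Type) (L A : Subgroup (Perm Γ))
      (S : Sec α H (Fin k → Γ)), IsWr S.Y L A ∧ BComp L A := by
  have := h.fin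
  obtain ⟨U, H, hf, hP, hH⟩ := h.lf.exists_family P
  choose T hT using fun i => hb (H i) (hf i) (hP i)
  obtain ⟨m, h1, hm⟩ := h.fam_supp_b hH hP T hT
  obtain ⟨c, hc⟩ := h.fam_kbound hH T h1 hm
  have h2 : ∀ᶠ i in U, ∃ k ∈ Set.Iic c, (T i).k = k := hc.mono fun i hi => ⟨_, hi, rfl⟩
  obtain ⟨k, -, hk⟩ := (Ultrafilter.eventually_exists_mem_iff (Set.finite_Iic c)).1 h2
  refine ⟨k, fun H' _ => ?_⟩
  obtain ⟨i, rfl, hi⟩ := (hk.and (eventually_le hH H')).exists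
  exact ⟨_, _, _, (T i).S.mono hi, (T i).wr, hT i⟩

theorem Ctx.classify (h : Ctx P t α) :
    (∃ N : Subgroup G, N.Normal ∧ N ≠ ⊥ ∧ ∀ a ∈ N, ∀ b ∈ N, a * b = b * a) ∨
    ∃ (E : Type) (_ : Field E) (_ : Infinite E) (D : Datum E),
      (∀ x : E, ∃ n, 0 < n ∧ x ^ 2 ^ n = x) ∧ IsProd (toPermHom G Ω).range D.L D.A := by
  have := h.fin
  obtain ⟨U, H, hf, hP, hH⟩ := h.lf.exists_family P
  rcases h.tri with h1 | h1 | h1
  · exact Or.inl (h.abelian_of_affine h1)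
  · choose T hT using fun i => h1 (H i) (hf i) (hP i)
    exact absurd hT (h.fam_not_alt hH hP T)
  right
  obtain ⟨k, hk⟩ := h.const_k h1
  choose Γ L A S hw hB using fun i => hk (H i) (hf i)
  obtain ⟨E, hE⟩ := h.exists_eHyp hH hP S hw hB
  obtain ⟨T, hT⟩ := h1 P this le_rfl
  have hn := hE.nonIso h (T.not_odd h T.S.le hT)
  obtain ⟨F, _, _, D, ε, ha, hs, he, g1, g2, g3⟩ := h.coord_one hE hn fun _ _ _ h => h.recog
  refine ⟨F, inferInstance, inferInstance, D, ha, h.isProd hE (Datum.bcomp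
    Datum.big_of_infinite (sqrt_of_alg ha) fun l hl => ?_).comp ε hs he g1 g2 g3⟩
  obtain ⟨n, -, hn⟩ := g1 l hl
  obtain ⟨m, hm, e⟩ := isOfFinOrder_iff_pow_eq_one.1 (h.lf.isOfFinOrder n)
  refine isOfFinOrder_iff_pow_eq_one.2 ⟨m, hm, ?_⟩
  have key : ∀ (j : ℕ) ω, ε (n ^ j • ω) = (l ^ j) (ε ω) := fun j => by
    induction j with
    | zero => simp
    | succ j ih => intro ω; rw [pow_succ', mul_smul, hn, ih, pow_succ', Perm.mul_apply]
  ext x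
  obtain ⟨ω, rfl⟩ := hs x
  rw [← key, e, one_smul, Perm.one_apply]

theorem classify [FaithfulSMul G Ω] [Countable G] [Infinite Ω] (hK : KHyp G)
    (hlf : IsLocallyFinite G) (hp : IsPreprimitive G Ω) (hs : Star G Ω) :
    (∃ N : Subgroup G, N.Normal ∧ N ≠ ⊥ ∧ ∀ a ∈ N, ∀ b ∈ N, a * b = b * a) ∨
    ∃ (E : Type) (_ : Field E) (_ : Infinite E) (D : Datum E),
      (∀ x : E, ∃ n, 0 < n ∧ x ^ 2 ^ n = x) ∧ IsProd (toPermHom G Ω).range D.L D.A := by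
  obtain ⟨P, t, h1, h2, h3, h4, ⟨α, h5, h6⟩, h7⟩ := exists_forcing hlf hs
  have hc : Countable Ω := Function.Surjective.countable (f := fun g : G => g • α)
    fun ω => hp.toIsPretransitive.exists_smul_eq α ω
  exact Ctx.classify ⟨inferInstance, hc, inferInstance, hlf, hp, hs, hK, h1, h2, h3,
    sq_of_orderOf h4, h5, h6, h7⟩

theorem star_of_prod [FaithfulSMul G Ω] [Infinite Ω] (hlf : IsLocallyFinite G) {E : Type} [Field E]
    [Infinite E] (D : Datum E) (ha : ∀ x : E, ∃ n, 0 < n ∧ x ^ 2 ^ n = x)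
    (h : IsProd (toPermHom G Ω).range D.L D.A) : IsPreprimitive G Ω ∧ Star G Ω := by
  obtain ⟨k, e, h⟩ := h
  obtain ⟨t1, t2, t3⟩ := transport (G := G) e _ rfl
  have : Nonempty (Fin k) := by
    by_contra hk
    have := not_nonempty_iff.1 hk
    exact not_finite_iff_infinite.2 (inferInstance : Infinite Ω) (Finite.of_equiv _ e.symm)
  have : Nontrivial D.Pt := ⟨none, D.o, by simp [Datum.o]⟩
  have hL := h.lf_L (t1 hlf)
  have hB := Datum.bcomp (D := D) Datum.big_of_infinite (sqrt_of_alg ha) fun l hl =>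
    D.L.subtype.isOfFinOrder (hL.isOfFinOrder ⟨l, hl⟩)
  exact ⟨t2 (h.preprim hB.core), t3 (h.star hB (t1 hlf) fun B h1 h2 =>
    Datum.finiteIndex_two Datum.big_of_infinite ha h1 h2)⟩

end Pool.Agent.Lib.MP_a7ce8b_al
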