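import Pool.Agent.Lib.MP_a7ce8b_al.C.GenA

/-! Construction and basic properties of finite sections. -/

namespace Pool.Agent.Lib.MP_a7ce8b_al

open Equiv MulAction

variable {G Ω : Type} [Group G] [MulAction G Ω] {P : Subgroup G} {t : G} {α : Ω}

theorem secA_fix_iff {H : Subgroup G} {X : Type} (S : Sec α H X) {z : G} (hz : z ∈ S.K)
    (h2 : TwoEl z) (hu : ∀ ω ω' : Ω, z • ω = ω → z • ω' = ω' → ω = ω') :
    ∃ k ∈ S.K, z • k • α = k • α ∧ ∀ x, S.r z x = x ↔ x = S.π (k • α) := by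
  have hle : Subgroup.zpowers z ≤ S.K := (Subgroup.zpowers_le_of_mem hz)
  obtain ⟨k, hk, hf⟩ := S.fix _ hle h2.isPGroup_zpowers
  have hf1 := hf z (Subgroup.mem_zpowers z)
  refine ⟨k, hk, hf1, fun x => ⟨fun hx => ?_, fun hx => by rw [hx, ← S.eqv z hz k hk, hf1]⟩⟩
  have h3 : Subgroup.zpowers z ≤ ((stabilizer (Perm X) x).comap S.ρ).map S.K.subtype :=
    Subgroup.zpowers_le_of_mem ⟨⟨z, hz⟩, hx, rfl⟩
  obtain ⟨k', -, e, hf'⟩ := S.lift _ hle h2.isPGroup_zpowers x fun q hq => by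
    obtain ⟨q', h4, rfl⟩ := h3 hq
    exact h4
  rw [← e, hu _ _ (hf' z (Subgroup.mem_zpowers z)) hf1]

theorem secA_star {H : Subgroup G} {X : Type} (S : Sec α H X) {T : Subgroup G} (hT : T ≤ S.K)
    (hT2 : IsPGroup 2 T)
    (hTmax : ∀ T' : Subgroup G, IsPGroup 2 T' → T ≤ T' → T' ≤ S.K → T' = T) {z : G} (hz : z ∈ T)
    (hzc : ∀ s ∈ T, s * z = z * s) (hz2 : z * z = 1) (hzα : ∀ ω : Ω, z • ω = ω ↔ ω = α) :
    Star S.Y X := by
  have : Fact (Nat.Prime 2) := ⟨Nat.prime_two⟩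
  have := S.fin
  have := S.nontriv
  let Q : Sylow 2 S.K := ⟨T.subgroupOf S.K, hT2.comap_subtype, fun {Q} hQ hle => by
    rw [← hTmax (Q.map S.K.subtype) (hQ.map _) (fun x hx => ⟨⟨x, hT hx⟩, hle hx, rfl⟩)
      (Subgroup.map_subtype_le Q)]
    exact (Subgroup.comap_map_eq_self_of_injective S.K.subtype_injective Q).symm⟩
  let p := S.ρ.rangeRestrict
  have hp : Function.Surjective p := MonoidHom.rangeRestrict_surjective _
  have : Finite S.ρ.range := Finite.of_surjective p hp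
  obtain ⟨k, -, -, hk⟩ := secA_fix_iff S (hT hz) (twoEl_of_sq hz2) fun ω ω' h h' =>
    ((hzα ω).1 h).trans ((hzα ω').1 h').symm
  refine star_of_one (G := S.ρ.range) (Q.mapSurjective hp) (t := p ⟨z, hT hz⟩) ⟨_, hz, rfl⟩ ?_ ?_
    ⟨S.π (k • α), (hk _).2 rfl, fun y hy => (hk y).1 hy⟩
  · rintro _ ⟨s, hs, rfl⟩
    rw [← map_mul, ← map_mul]
    exact congrArg p (Subtype.ext (hzc _ hs))
  · refine orderOf_eq_prime ?_ fun e => ?_
    · rw [← map_pow, ← p.map_one]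
      exact congrArg p (Subtype.ext ((pow_two z).trans hz2))
    · obtain ⟨y, hy⟩ := exists_ne (S.π (k • α))
      refine hy ((hk y).1 ?_)
      show p ⟨z, hT hz⟩ • y = y
      rw [e, one_smul]

/-- The section on the cosets of a maximal subgroup `L` of `K` above the stabilizer. -/
theorem exists_sec_of_coset {K L H : Subgroup G} [Finite K] (hLK : L < K)
    (hmax : ∀ L', L < L' → L' ≤ K → L' = K) (hKL : K ⊓ stabilizer G α ≤ L) (hH : H ≤ K)
    (hLH : L ⊓ H ≤ stabilizer G α) {T : Subgroup G} (hT : T ≤ K) (hT2 : IsPGroup 2 T)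
    (hTmax : ∀ T' : Subgroup G, IsPGroup 2 T' → T ≤ T' → T' ≤ K → T' = T) {z : G} (hz : z ∈ T)
    (hzc : ∀ s ∈ T, s * z = z * s) (hz2 : z * z = 1) (hzα : ∀ ω : Ω, z • ω = ω ↔ ω = α) :
    ∃ (X : Type) (S : Sec α H X), S.K = K ∧ Star S.Y X := by
  classical
  obtain ⟨hnt, hprim⟩ := section_preprimitive hLK hmax
  have : Finite L := Finite.of_injective _ (Subgroup.inclusion_injective hLK.le)
  let r : G → Perm (K ⧸ L.subgroupOf K) := fun g =>
    if hg : g ∈ K then toPerm (⟨g, hg⟩ : K) else 1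
  have hr : ∀ g (hg : g ∈ K) x, r g x = (⟨g, hg⟩ : K) • x := fun g hg x => by
    simp only [r, dif_pos hg, toPerm_apply]
  let π : Ω → K ⧸ L.subgroupOf K := fun ω =>
    if h : ∃ k : K, k.1 • α = ω then (h.choose : K ⧸ L.subgroupOf K) else ((1 : K) : _)
  have hπ : ∀ k (hk : k ∈ K), π (k • α) = ((⟨k, hk⟩ : K) : K ⧸ L.subgroupOf K) := fun k hk => by
    have h : ∃ k' : K, k'.1 • α = k • α := ⟨⟨k, hk⟩, rfl⟩
    simp only [π, dif_pos h]
    rw [QuotientGroup.eq, Subgroup.mem_subgroupOf]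
    refine hKL ⟨K.mul_mem (K.inv_mem h.choose.2) hk, ?_⟩
    show (h.choose.1⁻¹ * k) • α = α
    rw [mul_smul, inv_smul_eq_iff, h.choose_spec]
  have hTα : ∀ s ∈ T, s • α = α := fun s hs => (hzα _).1 (by
    rw [← mul_smul, ← hzc s hs, mul_smul, (hzα α).2 rfl])
  have hfix : ∀ q k : G, k⁻¹ * q * k ∈ T → q • k • α = k • α := fun q k h => by
    have := hTα _ h
    rwa [mul_smul, mul_smul, inv_smul_eq_iff] at this
  let S : Sec α H (K ⧸ L.subgroupOf K) :=
    { K := K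
      fin := inferInstance
      le := hH
      r := r
      r_mul := fun g hg h hh => Equiv.ext fun x => by
        rw [Perm.mul_apply, hr _ (K.mul_mem hg hh), hr _ hg, hr _ hh, ← mul_smul]
        rfl
      π := π
      eqv := fun g hg k hk => by
        rw [← mul_smul, hπ _ (K.mul_mem hg hk), hπ _ hk, hr _ hg]
        rfl
      surj := fun x => by
        induction x using QuotientGroup.induction_on with
        | H k => exact ⟨k, k.2, hπ _ _⟩
      inj := fun a ha b hb e => by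
        rw [hπ _ (hH ha), hπ _ (hH hb), QuotientGroup.eq, Subgroup.mem_subgroupOf] at e
        have h1 : (a⁻¹ * b) • α = α := hLH ⟨e, H.mul_mem (H.inv_mem ha) hb⟩
        rw [mul_smul, inv_smul_eq_iff] at h1
        exact h1.symm
      nontriv := hnt
      prim := fun e he hinv x y hxy h => rel_total hprim e he (fun g x y h => by
        have := hinv g.1 g.2 x y h
        rwa [hr _ g.2, hr _ g.2] at this) hxy h
      fix := fun Q hQ hQ2 => by
        obtain ⟨k, hk, h⟩ := conj_into_max K T Q hT hT2 hTmax hQ hQ2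
        exact ⟨k, hk, fun q hq => hfix q k (h q hq)⟩
      lift := fun Q hQ hQ2 x hx => by
        induction x using QuotientGroup.induction_on with
        | H k =>
          have h1 : Q.map (MulAut.conj k.1⁻¹).toMonoidHom ≤ L := by
            rintro _ ⟨q, hq, rfl⟩
            have h2 := hx q hq
            rw [hr _ (hQ hq)] at h2
            have h3 : ((⟨q, hQ hq⟩ * k : K) : K ⧸ L.subgroupOf K) = k := h2
            rw [eq_comm, QuotientGroup.eq, Subgroup.mem_subgroupOf] at h3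
            simpa [mul_assoc] using h3
          obtain ⟨l, hl, h⟩ := conj_into_max L T _ (fun s hs => hKL ⟨hT hs, hTα s hs⟩) hT2
            (fun T' a b c => hTmax T' a b (c.trans hLK.le)) h1 (hQ2.map _)
          have hkl : k.1 * l ∈ K := K.mul_mem k.2 (hLK.le hl)
          refine ⟨k.1 * l, hkl, ?_, fun q hq => hfix q _ ?_⟩
          · rw [hπ _ hkl, eq_comm, QuotientGroup.eq, Subgroup.mem_subgroupOf]
            simpa using hl
          · simpa [mul_assoc] using h _ ⟨q, hq, rfl⟩ }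
  exact ⟨_, S, rfl, secA_star S hT hT2 hTmax hz hzc hz2 hzα⟩

theorem Ctx.exists_sec (h : Ctx P t α) (H : Subgroup G) [Finite H] (hP : P ≤ H) :
    ∃ (X : Type) (S : Sec α H X), OnList S.Y := by
  have := h.prim
  have := h.inf
  obtain ⟨β, hβ⟩ := exists_ne α
  obtain ⟨n, rfl⟩ := h.prim.toIsPretransitive.exists_smul_eq α β
  have : Finite (H ⊔ Subgroup.closure {n} : Subgroup G) :=
    h.lf.finite_sup H (Set.finite_singleton n)
  obtain ⟨K, L, hK, hHK, hLK, hmax, hLH, hKL⟩ := exists_section h.lf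
    ((isCoatom_stabilizer_iff_preprimitive G α).2 h.prim) (H ⊔ Subgroup.closure {n})
    fun hle => hβ (hle (Subgroup.mem_sup_right (Subgroup.subset_closure rfl)))
  obtain ⟨T, hPT, hTK, hT2, hTmax⟩ :=
    exists_max_two K P ((hP.trans le_sup_left).trans hHK) h.two
  obtain ⟨X, S, -, hS⟩ := exists_sec_of_coset (α := α) hLK hmax hKL (le_sup_left.trans hHK)
    ((inf_le_inf_left L le_sup_left).trans hLH) hTK hT2 hTmax (hPT h.mem)
    (h.force T (Finite.of_injective _ (Subgroup.inclusion_injective hTK)) hT2 hPT) h.sq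
    fun ω => ⟨h.uniq ω, fun e => e ▸ h.fix⟩
  exact ⟨X, S, h.khyp S.K S.fin X S.ρ S.nontriv S.preprim hS⟩

namespace Sec

variable {H : Subgroup G} {X : Type} (S : Sec α H X)

theorem lift2 {M Q : Subgroup G} (hQK : Q ≤ S.K) (hQM : Q ≤ M) (hQ : IsPGroup 2 Q)
    {B : Subgroup (Perm X)} (hB : IsPGroup 2 B) (hBM : B ≤ S.im M) (hQB : S.im Q ≤ B) :
    ∃ Q' : Subgroup G, Q ≤ Q' ∧ Q' ≤ S.K ∧ Q' ≤ M ∧ IsPGroup 2 Q' ∧ S.im Q' = B := by
  have := S.fin
  obtain ⟨Q', h1, h2, h3, h4⟩ := lift_two S.ρ (M.subgroupOf S.K) (Q.subgroupOf S.K)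
    (fun x hx => hQM hx) hQ.comap_subtype B hB hBM hQB
  refine ⟨Q'.map S.K.subtype, fun x hx => ⟨⟨x, hQK hx⟩, h1 hx, rfl⟩, Subgroup.map_subtype_le Q',
    ?_, h3.map _, ?_⟩
  · rintro _ ⟨x, hx, rfl⟩
    exact h2 hx
  · rw [← h4]
    exact congrArg (Subgroup.map S.ρ)
      (Subgroup.comap_map_eq_self_of_injective S.K.subtype_injective Q')

theorem secA_im_bot (B : Subgroup (Perm X)) : S.im ⊥ ≤ B := fun y hy => by
  obtain ⟨g, -, hg, rfl⟩ := S.mem_im.1 hy
  rw [Subgroup.mem_bot.1 hg, S.r_one]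
  exact B.one_mem

theorem lift_twoEl {M : Subgroup G} {y : Perm X} (hy : y ∈ S.im M) (h2 : TwoEl y) :
    ∃ g ∈ S.K, g ∈ M ∧ TwoEl g ∧ S.r g = y := by
  obtain ⟨Q', -, -, h3, h4, h5⟩ := S.lift2 (M := M) bot_le bot_le IsPGroup.of_bot
    h2.isPGroup_zpowers (Subgroup.zpowers_le_of_mem hy) (S.secA_im_bot _)
  obtain ⟨g, hg, hg', e⟩ := S.mem_im.1 (h5.symm ▸ Subgroup.mem_zpowers y : y ∈ S.im Q')
  exact ⟨g, hg, h3 hg', isPGroup_iff_twoEl.1 h4 g hg', e⟩

theorem im_top : S.im ⊤ = S.Y := by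
  refine le_antisymm (S.im_le_Y ⊤) fun y hy => ?_
  obtain ⟨g, hg, e⟩ := S.mem_Y.1 hy
  exact S.mem_im.2 ⟨g, hg, Subgroup.mem_top g, e⟩

theorem im_normal {M : Subgroup G} (hM : M.Normal) :
    ∀ y ∈ S.Y, ∀ r ∈ S.im M, y * r * y⁻¹ ∈ S.im M := by
  intro y hy r hr
  obtain ⟨g, hg, rfl⟩ := S.mem_Y.1 hy
  obtain ⟨m, hm, hm', rfl⟩ := S.mem_im.1 hr
  exact S.mem_im.2 ⟨g * m * g⁻¹, S.K.mul_mem (S.K.mul_mem hg hm) (S.K.inv_mem hg),
    hM.conj_mem m hm' g, S.r_conj hg hm⟩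

/-- Every 2-subgroup of the induced group has a fixed point. -/
theorem exists_fix {B : Subgroup (Perm X)} (hB : IsPGroup 2 B) (hBY : B ≤ S.Y) :
    ∃ x, ∀ b ∈ B, b x = x := by
  obtain ⟨Q', -, h2, -, h4, h5⟩ := S.lift2 (M := ⊤) bot_le bot_le IsPGroup.of_bot hB
    (S.im_top.symm ▸ hBY) (S.secA_im_bot _)
  obtain ⟨k, hk, hf⟩ := S.fix Q' h2 h4
  refine ⟨S.π (k • α), fun b hb => ?_⟩
  obtain ⟨g, hg, hg', rfl⟩ := S.mem_im.1 (h5.symm ▸ hb : b ∈ S.im Q')
  rw [← S.eqv g hg k hk, hf g hg']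

/-- A 2-element with at most one fixed point has exactly one fixed point in the section. -/
theorem fix_iff {z : G} (hz : z ∈ S.K) (h2 : TwoEl z)
    (hu : ∀ ω ω' : Ω, z • ω = ω → z • ω' = ω' → ω = ω') :
    ∃ k ∈ S.K, z • k • α = k • α ∧ ∀ x, S.r z x = x ↔ x = S.π (k • α) :=
  secA_fix_iff S hz h2 hu

/-- The forcing property of the good pair passes to sections. -/
theorem force (h : Ctx P t α) (hP : P ≤ S.K) {B : Subgroup (Perm X)} (hB : IsPGroup 2 B)
    (hBY : B ≤ S.Y) (hPB : S.im P ≤ B) : ∀ y ∈ B, y * S.r t = S.r t * y := by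
  have := S.fin
  obtain ⟨Q', h1, h2, -, h4, h5⟩ := S.lift2 (M := ⊤) hP le_top h.two hB (S.im_top.symm ▸ hBY) hPB
  intro y hy
  obtain ⟨g, hg, hg', rfl⟩ := S.mem_im.1 (h5.symm ▸ hy : y ∈ S.im Q')
  rw [← S.r_mul g hg t (hP h.mem), ← S.r_mul t (hP h.mem) g hg,
    h.force Q' (Finite.of_injective _ (Subgroup.inclusion_injective h2)) h4 h1 g hg']

theorem conj_fix_iff (h : Ctx P t α) (hP : P ≤ S.K) {g : G} (hg : g ∈ S.K) (x : X) :
    S.r (g * t * g⁻¹) x = x ↔ x = S.π (g • α) := by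
  have hu : ∀ ω : Ω, (g * t * g⁻¹) • ω = ω → ω = g • α := fun ω hω => by
    rw [mul_smul, mul_smul, ← eq_inv_smul_iff] at hω
    exact inv_smul_eq_iff.1 (h.uniq _ hω)
  obtain ⟨k, -, hk, hx⟩ := S.fix_iff (S.K.mul_mem (S.K.mul_mem hg (hP h.mem)) (S.K.inv_mem hg))
    ((twoEl_of_sq h.sq).conj g) fun ω ω' e e' => (hu ω e).trans (hu ω' e').symm
  rw [hx, hu _ hk]

end Sec

end Pool.Agent.Lib.MP_a7ce8b_al
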