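import Pool.Agent.Lib.MP_a7ce8b_al.C.Wr0

/-! Enlarging a 2-subgroup of a wreath product at one orbit of coordinates. -/

namespace Pool.Agent.Lib.MP_a7ce8b_al

open Equiv MulAction

variable {ι Γ : Type} {L A : Subgroup (Perm Γ)}

theorem wrInd_pow [Nontrivial Γ] {y : Perm (ι → Γ)} (hy : IsW y) {j : ι} (h : sg y j = j) (n : ℕ) :
    cp (y ^ n) j = cp y j ^ n := by
  induction n with
  | zero => rw [pow_zero, pow_zero, cp_one]; rfl
  | succ n ih => rw [pow_succ, (hy.pow n).cp_mul hy, h, ih, pow_succ]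

theorem wrInd_base [Finite ι] {l : ι → Perm Γ} (h : ∀ i, TwoEl (l i)) : TwoEl (base l) := by
  choose m hm using h
  obtain ⟨M, hM⟩ := (Set.finite_range m).bddAbove
  refine TwoEl.map baseHom ⟨M, funext fun i => ?_⟩
  obtain ⟨d, hd⟩ := Nat.exists_eq_add_of_le (hM ⟨i, rfl⟩)
  rw [Pi.pow_apply, hd, pow_add, pow_mul, hm, one_pow]
  rfl

/-- The group induced on the coordinate `j` by the stabilizer of `j` in `Q`. -/
theorem exists_comp_subgroup [Nontrivial Γ] (Q : Subgroup (Perm (ι → Γ))) (hQ : ∀ y ∈ Q, IsW y)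
    (j : ι) : ∃ B : Subgroup (Perm Γ), (∀ b, b ∈ B ↔ ∃ y ∈ Q, sg y j = j ∧ cp y j = b) ∧
      (IsPGroup 2 Q → IsPGroup 2 B) ∧ (Finite Q → Finite B ∧ Nat.card B ≤ Nat.card Q) := by
  let B : Subgroup (Perm Γ) :=
    { carrier := {b | ∃ y ∈ Q, sg y j = j ∧ cp y j = b}
      one_mem' := ⟨1, Q.one_mem, by rw [sg_one]; rfl, by rw [cp_one]; rfl⟩
      mul_mem' := by
        rintro _ _ ⟨y, hy, h1, rfl⟩ ⟨y', hy', h2, rfl⟩
        exact ⟨y * y', Q.mul_mem hy hy', by rw [(hQ y hy).sg_mul (hQ y' hy'), Perm.mul_apply, h2, h1],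
          by rw [(hQ y hy).cp_mul (hQ y' hy'), h2]⟩
      inv_mem' := by
        rintro _ ⟨y, hy, h1, rfl⟩
        have h2 : (sg y)⁻¹ j = j := Perm.inv_eq_iff_eq.2 h1.symm
        exact ⟨y⁻¹, Q.inv_mem hy, by rw [(hQ y hy).sg_inv, h2], by rw [(hQ y hy).cp_inv, h2]⟩ }
  refine ⟨B, fun _ => Iff.rfl, fun h => isPGroup_iff_twoEl.2 ?_, fun h => ?_⟩
  · rintro _ ⟨y, hy, h1, rfl⟩
    obtain ⟨m, hm⟩ := isPGroup_iff_twoEl.1 h y hy
    exact ⟨m, by rw [← wrInd_pow (hQ y hy) h1, hm, cp_one]; rfl⟩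
  · have h1 : ∀ b : B, ∃ y : Q, cp y.1 j = b := fun b => by
      obtain ⟨y, hy, -, e⟩ := b.2
      exact ⟨⟨y, hy⟩, e⟩
    choose f hf using h1
    have h2 : Function.Injective f := fun b b' e => Subtype.ext (by rw [← hf, e, hf])
    exact ⟨Finite.of_injective f h2, Nat.card_le_card_of_injective f h2⟩

theorem wr_induce [Finite ι] [DecidableEq ι] [Nontrivial Γ]
    (hn : ∀ a ∈ A, ∀ l ∈ L, a * l * a⁻¹ ∈ L) (Y Q : Subgroup (Perm (ι → Γ)))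
    (hb : ∀ l : ι → Perm Γ, (∀ j, l j ∈ L) → base l ∈ Y) (hQY : Q ≤ Y) (hQ : IsPGroup 2 Q)
    (hA : ∀ y ∈ Q, IsW y ∧ ∀ j, cp y j ∈ A) (j : ι) (W : Subgroup (Perm Γ)) (hWL : W ≤ L)
    (hW : IsPGroup 2 W) (hnW : ∀ y ∈ Q, sg y j = j → ∀ w ∈ W, cp y j * w * (cp y j)⁻¹ ∈ W) :
    ∃ Y' ≤ Y, IsPGroup 2 Y' ∧ Q ≤ Y' ∧ (∀ w ∈ W, sing j w ∈ Y') ∧
      ∀ y ∈ Y', ∃ q ∈ Q, ∃ l : ι → Perm Γ, y = base l * q ∧
        ∀ i, (∀ q' ∈ Q, sg q' j ≠ i) → l i = 1 := by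
  let W' : ι → Subgroup (Perm Γ) := fun i =>
    { carrier := {l | l ∈ L ∧ (∀ q ∈ Q, sg q j = i → (cp q j)⁻¹ * l * cp q j ∈ W) ∧
        ((∀ q ∈ Q, sg q j ≠ i) → l = 1)}
      one_mem' := ⟨L.one_mem, fun q _ _ => by simpa using W.one_mem, fun _ => rfl⟩
      mul_mem' := by
        rintro a b ⟨a1, a2, a3⟩ ⟨b1, b2, b3⟩
        refine ⟨L.mul_mem a1 b1, fun q hq e => ?_, fun h => by rw [a3 h, b3 h, one_mul]⟩
        have := W.mul_mem (a2 q hq e) (b2 q hq e)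
        rwa [show (cp q j)⁻¹ * a * cp q j * ((cp q j)⁻¹ * b * cp q j) =
          (cp q j)⁻¹ * (a * b) * cp q j by group] at this
      inv_mem' := by
        rintro a ⟨a1, a2, a3⟩
        refine ⟨L.inv_mem a1, fun q hq e => ?_, fun h => by rw [a3 h, inv_one]⟩
        have := W.inv_mem (a2 q hq e)
        rwa [show ((cp q j)⁻¹ * a * cp q j)⁻¹ = (cp q j)⁻¹ * a⁻¹ * cp q j by group] at this }
  have c1 : ∀ q ∈ Q, ∀ i, ∀ l ∈ W' i, cp q i * l * (cp q i)⁻¹ ∈ W' (sg q i) := by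
    rintro q hq i l ⟨a1, a2, a3⟩
    have w := (hA q hq).1
    refine ⟨hn _ ((hA q hq).2 i) l a1, fun q1 hq1 e => ?_, fun h => ?_⟩
    · have hq' := Q.mul_mem (Q.inv_mem hq) hq1
      have w' := (hA _ hq').1
      have e1 : sg (q⁻¹ * q1) j = i := by
        rw [w.inv.sg_mul (hA q1 hq1).1, w.sg_inv, Perm.mul_apply, e]
        simp
      have e2 : cp q1 j = cp q i * cp (q⁻¹ * q1) j := by
        rw [← e1, ← w.cp_mul w', mul_inv_cancel_left]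
      have := a2 _ hq' e1
      rw [e2]
      rwa [show (cp q i * cp (q⁻¹ * q1) j)⁻¹ * (cp q i * l * (cp q i)⁻¹) *
        (cp q i * cp (q⁻¹ * q1) j) = (cp (q⁻¹ * q1) j)⁻¹ * l * cp (q⁻¹ * q1) j by group]
    · rw [a3 fun q' hq' e => h (q * q') (Q.mul_mem hq hq') (by
        rw [w.sg_mul (hA q' hq').1, Perm.mul_apply, e]), mul_one, mul_inv_cancel]
  have c2 : ∀ q ∈ Q, ∀ l : ι → Perm Γ, (∀ i, l i ∈ W' i) → ∃ l' : ι → Perm Γ,
      (∀ i, l' i ∈ W' i) ∧ q * base l = base l' * q := fun q hq l hl => by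
    refine ⟨_, fun i => ?_, by rw [← (hA q hq).1.conj_base l, inv_mul_cancel_right]⟩
    have := c1 q hq ((sg q)⁻¹ i) _ (hl _)
    simpa using this
  have c3 : ∀ i, ∀ l ∈ W' i, TwoEl l := by
    rintro i l ⟨-, a2, a3⟩
    by_cases h : ∀ q ∈ Q, sg q j ≠ i
    · rw [a3 h]
      exact twoEl_one
    · push Not at h
      obtain ⟨q, hq, e⟩ := h
      have := (isPGroup_iff_twoEl.1 hW _ (a2 q hq e)).conj (cp q j)
      rwa [show cp q j * ((cp q j)⁻¹ * l * cp q j) * (cp q j)⁻¹ = l by group] at this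
  have c4 : ∀ q ∈ Q, ∀ l l' : ι → Perm Γ, (∀ i, l i ∈ W' i) → (∀ i, l' i ∈ W' i) → ∀ q',
      ∃ l'' : ι → Perm Γ, (∀ i, l'' i ∈ W' i) ∧
        base l * q * (base l' * q') = base l'' * (q * q') := fun q hq l l' hl hl' q' => by
    obtain ⟨l1, h1, e⟩ := c2 q hq l' hl'
    refine ⟨l * l1, fun i => (W' i).mul_mem (hl i) (h1 i), ?_⟩
    rw [base_mul, mul_assoc, ← mul_assoc q, e]
    simp only [mul_assoc]
  let Y' : Subgroup (Perm (ι → Γ)) :=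
    { carrier := {y | ∃ q ∈ Q, ∃ l : ι → Perm Γ, (∀ i, l i ∈ W' i) ∧ y = base l * q}
      one_mem' := ⟨1, Q.one_mem, 1, fun i => (W' i).one_mem, by rw [base_one, one_mul]⟩
      mul_mem' := by
        rintro _ _ ⟨q, hq, l, hl, rfl⟩ ⟨q', hq', l', hl', rfl⟩
        obtain ⟨l1, h1, e⟩ := c4 q hq l l' hl hl' q'
        exact ⟨q * q', Q.mul_mem hq hq', l1, h1, e⟩
      inv_mem' := by
        rintro _ ⟨q, hq, l, hl, rfl⟩
        obtain ⟨l1, h1, e⟩ := c2 q⁻¹ (Q.inv_mem hq) l⁻¹ fun i => (W' i).inv_mem (hl i)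
        exact ⟨q⁻¹, Q.inv_mem hq, l1, h1, by rw [mul_inv_rev, ← base_inv, e]⟩ }
  refine ⟨Y', ?_, isPGroup_iff_twoEl.2 ?_, fun q hq => ⟨q, hq, 1, fun i => (W' i).one_mem,
    by rw [base_one, one_mul]⟩, fun w hw => ⟨1, Q.one_mem, Pi.mulSingle j w, fun i => ?_,
    (mul_one _).symm⟩, ?_⟩
  · rintro _ ⟨q, hq, l, hl, rfl⟩
    exact Y.mul_mem (hb l fun i => (hl i).1) (hQY hq)
  · rintro _ ⟨q, hq, l, hl, rfl⟩
    have key : ∀ n : ℕ, ∃ l' : ι → Perm Γ, (∀ i, l' i ∈ W' i) ∧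
        (base l * q) ^ n = base l' * q ^ n := fun n => by
      induction n with
      | zero => exact ⟨1, fun i => (W' i).one_mem, by rw [base_one, pow_zero, pow_zero, one_mul]⟩
      | succ n ih =>
        obtain ⟨l', h1, e⟩ := ih
        obtain ⟨l1, h2, e'⟩ := c4 q hq l l' hl h1 (q ^ n)
        exact ⟨l1, h2, by rw [pow_succ', e, e', pow_succ']⟩
    obtain ⟨m, hm⟩ := isPGroup_iff_twoEl.1 hQ q hq
    obtain ⟨l', h1, e⟩ := key (2 ^ m)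
    obtain ⟨m', hm'⟩ := wrInd_base fun i => c3 i _ (h1 i)
    rw [hm, mul_one] at e
    exact ⟨m + m', by rw [pow_add, pow_mul, e, hm']⟩
  · by_cases e : i = j
    · subst e
      rw [Pi.mulSingle_eq_same]
      refine ⟨hWL hw, fun q hq e => ?_, fun h => absurd (by rw [sg_one]; rfl) (h 1 Q.one_mem)⟩
      have h2 : (sg q)⁻¹ i = i := Perm.inv_eq_iff_eq.2 e.symm
      have := hnW q⁻¹ (Q.inv_mem hq) (by rw [(hA q hq).1.sg_inv, h2]) w hw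
      rwa [(hA q hq).1.cp_inv, h2, inv_inv] at this
    · rw [Pi.mulSingle_eq_of_ne e]
      exact (W' i).one_mem
  · rintro _ ⟨q, hq, l, hl, rfl⟩
    exact ⟨q, hq, l, rfl, fun i => (hl i).2.2⟩

end Pool.Agent.Lib.MP_a7ce8b_al
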