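import Pool.Agent.Lib.MP_a7ce8b_al.C.SecA
import Pool.Agent.Lib.MP_a7ce8b_al.C.GenB
import Pool.Agent.Lib.MP_a7ce8b_al.C.WrInd
import Pool.Agent.Lib.MP_a7ce8b_al.C.Dcc
import Pool.Agent.Lib.MP_a7ce8b_al.C.Alt
import Pool.Agent.Lib.MP_a7ce8b_al.C.BAbs

/-! Single sections of product type. -/

namespace Pool.Agent.Lib.MP_a7ce8b_al

open Equiv MulAction

variable {G Ω : Type} [Group G] [MulAction G Ω] {P : Subgroup G} {t : G} {α : Ω}

namespace PSec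

variable {H : Subgroup G} (T : PSec α H)

theorem isW {g : G} (hg : g ∈ T.S.K) : IsW (T.S.r g) := T.wr.isW (T.S.mem_Y.2 ⟨g, hg, rfl⟩)

theorem cp_mem {g : G} (hg : g ∈ T.S.K) (j : Fin T.k) : cp (T.S.r g) j ∈ T.A := by
  have := T.comp.nontriv
  exact T.wr.cp_mem (T.S.mem_Y.2 ⟨g, hg, rfl⟩) j

theorem nonempty : Nonempty (Fin T.k) := by
  by_contra h
  have := not_nonempty_iff.1 h
  have := T.S.nontriv
  exact not_subsingleton (Fin T.k → T.Γ) inferInstance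

/-- Conjugates of `t` lie in the base group and their components fix exactly one point. -/
theorem conj_t (h : Ctx P t α) (hP : P ≤ T.S.K) {g : G} (hg : g ∈ T.S.K) :
    sg (T.S.r (g * t * g⁻¹)) = 1 ∧ ∀ j, cp (T.S.r (g * t * g⁻¹)) j * cp (T.S.r (g * t * g⁻¹)) j = 1 ∧
      ∀ γ, cp (T.S.r (g * t * g⁻¹)) j γ = γ ↔ γ = T.S.π (g • α) j := by
  have := T.comp.nontriv
  have hc : g * t * g⁻¹ ∈ T.S.K :=
    T.S.K.mul_mem (T.S.K.mul_mem hg (hP h.mem)) (T.S.K.inv_mem hg)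
  have e : g * t * g⁻¹ * (g * t * g⁻¹) = 1 := by
    rw [show g * t * g⁻¹ * (g * t * g⁻¹) = g * (t * t) * g⁻¹ by group, h.sq, mul_one,
      mul_inv_cancel]
  have h2 : T.S.r (g * t * g⁻¹) * T.S.r (g * t * g⁻¹) = 1 := by
    rw [← T.S.r_mul _ hc _ hc, e, T.S.r_one]
  obtain ⟨h3, h4⟩ := (T.isW hc).oneFix h2 (T.S.conj_fix_iff h hP hg)
  refine ⟨h3, fun j => ⟨?_, h4 j⟩⟩
  have h5 := (T.isW hc).cp_mul (T.isW hc) j
  rw [h2, h3, cp_one] at h5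
  exact h5.symm

/-- A normal subgroup acting non-trivially induces the whole base group. -/
theorem base_mem_im {M : Subgroup G} (hM : M.Normal) {m : G} (hm : m ∈ M) (hK : m ∈ T.S.K)
    (h1 : T.S.r m ≠ 1) {l : Fin T.k → Perm T.Γ} (hl : ∀ j, l j ∈ T.L) : base l ∈ T.S.im M := by
  refine T.wr.minnormal T.comp (T.S.im_le_Y M) (T.S.im_normal hM) (fun e => h1 ?_) hl
  have : T.S.r m ∈ T.S.im M := T.S.mem_im.2 ⟨m, hK, hm, rfl⟩
  rwa [e, Subgroup.mem_bot] at this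

theorem secB_im_fix {Q : Subgroup G} {k : G} (hk : k ∈ T.S.K)
    (hf : ∀ q ∈ Q, q • k • α = k • α) : ∀ y ∈ T.S.im Q, y (T.S.π (k • α)) = T.S.π (k • α) := by
  intro y hy
  obtain ⟨q, hqK, hq, rfl⟩ := T.S.mem_im.1 hy
  rw [← T.S.eqv q hqK k hk, hf q hq]

theorem secB_hA (Q : Subgroup G) : ∀ y ∈ T.S.im Q, IsW y ∧ ∀ j, cp y j ∈ T.A := by
  intro y hy
  obtain ⟨q, hqK, -, rfl⟩ := T.S.mem_im.1 hy
  exact ⟨T.isW hqK, T.cp_mem hqK⟩

theorem secB_finite {Q : Subgroup G} (hQK : Q ≤ T.S.K) : Finite Q := by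
  have := T.S.fin
  exact Finite.of_injective _ (Subgroup.inclusion_injective hQK)

end PSec

open Classical in
/-- Gluing a fixed point of the large group on one orbit of coordinates with a fixed point of the
small group off that orbit. -/
theorem secB_glue {ι Γ : Type} [Nontrivial Γ] {Q Y' : Subgroup (Perm (ι → Γ))}
    (hQ : ∀ y ∈ Q, IsW y) {j : ι}
    (hY : ∀ y ∈ Y', ∃ q ∈ Q, ∃ l : ι → Perm Γ, y = base l * q ∧
      ∀ i, (∀ q' ∈ Q, sg q' j ≠ i) → l i = 1)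
    {z u : ι → Γ} (hz : ∀ y ∈ Y', y z = z) (hu : ∀ q ∈ Q, q u = u) :
    ∀ y ∈ Y', y (fun i => if ∃ q' ∈ Q, sg q' j = i then z i else u i) =
      fun i => if ∃ q' ∈ Q, sg q' j = i then z i else u i := by
  intro y hy
  obtain ⟨q, hq, l, rfl, hl⟩ := hY y hy
  funext i'
  obtain ⟨i, rfl⟩ := (sg q).surjective i'
  have hiff : (∃ q' ∈ Q, sg q' j = sg q i) ↔ ∃ q' ∈ Q, sg q' j = i := by
    constructor
    · rintro ⟨q', hq', e⟩
      refine ⟨q⁻¹ * q', Q.mul_mem (Q.inv_mem hq) hq', ?_⟩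
      rw [(hQ q hq).inv.sg_mul (hQ q' hq'), (hQ q hq).sg_inv, Perm.mul_apply, e]
      simp
    · rintro ⟨q', hq', e⟩
      refine ⟨q * q', Q.mul_mem hq hq', ?_⟩
      rw [(hQ q hq).sg_mul (hQ q' hq'), Perm.mul_apply, e]
  rw [Perm.mul_apply, base_apply, (hQ q hq).apply]
  by_cases hi : ∃ q' ∈ Q, sg q' j = i
  · rw [if_pos hi, if_pos (hiff.2 hi)]
    have := congrFun (hz _ hy) (sg q i)
    rwa [Perm.mul_apply, base_apply, (hQ q hq).apply] at this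
  · have hi' : ¬ ∃ q' ∈ Q, sg q' j = sg q i := fun e => hi (hiff.1 e)
    rw [if_neg hi, if_neg hi', hl _ fun q' hq' e => hi' ⟨q', hq', e⟩, Perm.one_apply,
      ← (hQ q hq).apply, hu q hq]

namespace PSec

variable {H : Subgroup G} (T : PSec α H)

/-- Two fixed points of `Q` differ in at most `|Q|` coordinates. -/
theorem bdiff {Q : Subgroup G} [Finite Q] (hQ : IsPGroup 2 Q) (hQK : Q ≤ T.S.K)
    (hmin : MinFix Ω Q) {k k' : G} (hk : k ∈ T.S.K) (hk' : k' ∈ T.S.K)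
    (hf : ∀ q ∈ Q, q • k • α = k • α ∧ q • k' • α = k' • α) :
    {j | T.S.π (k • α) j ≠ T.S.π (k' • α) j}.ncard ≤ Nat.card Q := by
  classical
  have := T.comp.nontriv
  rcases Set.eq_empty_or_nonempty {j | T.S.π (k • α) j ≠ T.S.π (k' • α) j} with he | ⟨j1, hj1⟩
  · rw [he, Set.ncard_empty]
    exact Nat.zero_le _
  have hx := T.secB_im_fix hk fun q hq => (hf q hq).1
  have hx' := T.secB_im_fix hk' fun q hq => (hf q hq).2
  have hW : ∀ y ∈ T.S.im Q, IsW y := fun y hy => (T.secB_hA Q y hy).1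
  have key : ∀ j2, T.S.π (k • α) j2 ≠ T.S.π (k' • α) j2 → ∃ q' ∈ T.S.im Q, sg q' j1 = j2 := by
    intro j2 hj2
    by_contra hno
    obtain ⟨B, hB, hB2, -⟩ := exists_comp_subgroup (T.S.im Q) hW j1
    have hBA : B ≤ T.A := fun b hb => by
      obtain ⟨y, hy, -, rfl⟩ := (hB b).1 hb
      exact (T.secB_hA Q y hy).2 j1
    have hBf : ∀ b ∈ B, b (T.S.π (k • α) j1) = T.S.π (k • α) j1 ∧
        b (T.S.π (k' • α) j1) = T.S.π (k' • α) j1 := fun b hb => by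
      obtain ⟨y, hy, e, rfl⟩ := (hB b).1 hb
      constructor
      · rw [← (hW y hy).apply, hx y hy, e]
      · rw [← (hW y hy).apply, hx' y hy, e]
    obtain ⟨W, hWL, hW2, hWn, w, hw, hwδ⟩ :=
      T.comp.refine2 B hBA (hB2 (T.S.isPGroup_im hQ)) _ _ hj1 hBf
    obtain ⟨Y', hY'Y, hY'2, hQY', hsing, hY'⟩ := wr_induce T.comp.norm T.S.Y (T.S.im Q)
      (fun l hl => T.wr.base_mem hl) (T.S.im_le_Y Q) (T.S.isPGroup_im hQ) (T.secB_hA Q) j1 W hWL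
      hW2 fun y hy e => hWn _ ((hB _).2 ⟨y, hy, e, rfl⟩)
    obtain ⟨Q', hQQ', hQ'K, -, hQ'2, hQ'⟩ :=
      T.S.lift2 (M := ⊤) hQK le_top hQ hY'2 (T.S.im_top ▸ hY'Y) hQY'
    obtain ⟨z, hz⟩ := T.S.exists_fix hY'2 hY'Y
    have hm : ∀ q ∈ Q', T.S.r q ∈ Y' := fun q hq =>
      hQ' ▸ T.S.mem_im.2 ⟨q, hQ'K hq, hq, rfl⟩
    obtain ⟨k1, -, e1, f1⟩ := T.S.lift Q' hQ'K hQ'2 _ fun q hq =>
      secB_glue hW hY' hz hx _ (hm q hq)
    obtain ⟨k2, -, e2, f2⟩ := T.S.lift Q' hQ'K hQ'2 _ fun q hq =>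
      secB_glue hW hY' hz hx' _ (hm q hq)
    have hne : k1 • α ≠ k2 • α := fun e => by
      have h1 := congrFun e1 j2
      have h2 := congrFun e2 j2
      rw [if_neg hno] at h1 h2
      exact hj2 (by rw [← h1, ← h2, e])
    have hfix := hmin Q' (T.secB_finite hQ'K) hQ'2 hQQ'
      ⟨_, _, hne, fun q hq => ⟨f1 q hq, f2 q hq⟩⟩ (k' • α) fun q hq => (hf q hq).2
    have := congrFun (T.secB_im_fix hk' hfix _ (hQ' ▸ hsing w hw)) j1
    rw [sing_apply_self] at this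
    exact hwδ this
  have hsub : {j | T.S.π (k • α) j ≠ T.S.π (k' • α) j} ⊆
      Set.range fun q : Q => sg (T.S.r q) j1 := fun j2 hj2 => by
    obtain ⟨y, hy, e⟩ := key j2 hj2
    obtain ⟨q, -, hq, rfl⟩ := T.S.mem_im.1 hy
    exact ⟨⟨q, hq⟩, e⟩
  refine (Set.ncard_le_ncard hsub (Set.finite_range _)).trans ?_
  rw [← Set.image_univ, ← Set.ncard_univ]
  exact Set.ncard_image_le Set.finite_univ

/-- Refining a 2-subgroup of `M` which acts trivially on one coordinate. -/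
theorem refineM {M : Subgroup G} (hM : M.Normal) {m : G} (hm : m ∈ M) (hK : m ∈ T.S.K)
    (h1 : T.S.r m ≠ 1) {Q : Subgroup G} (hQ : IsPGroup 2 Q) (hQK : Q ≤ T.S.K) (hQM : Q ≤ M)
    {j : Fin T.k} (hj : ∀ q ∈ Q, sg (T.S.r q) = 1 ∧ cp (T.S.r q) j = 1) :
    ∃ Q' : Subgroup G, Finite Q' ∧ IsPGroup 2 Q' ∧ Q' ≤ M ∧ Q ≤ Q' ∧
      ∃ ω : Ω, (∀ q ∈ Q, q • ω = ω) ∧ ∃ q ∈ Q', q • ω ≠ ω := by
  classical
  have := T.comp.nontriv
  obtain ⟨γ, δ, hγ⟩ := exists_pair_ne T.Γ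
  obtain ⟨W, hWL, hW2, -, w, hw, hwδ⟩ := T.comp.refine2 ⊥ bot_le IsPGroup.of_bot γ δ hγ
    fun b hb => by rw [Subgroup.mem_bot.1 hb]; exact ⟨rfl, rfl⟩
  have hQM' : T.S.im Q ≤ T.S.im M := fun y hy => by
    obtain ⟨q, hqK, hq, rfl⟩ := T.S.mem_im.1 hy
    exact T.S.mem_im.2 ⟨q, hqK, hQM hq, rfl⟩
  obtain ⟨Y', hY'M, hY'2, hQY', hsing, -⟩ := wr_induce T.comp.norm (T.S.im M) (T.S.im Q)
    (fun l hl => T.base_mem_im hM hm hK h1 hl) hQM' (T.S.isPGroup_im hQ) (T.secB_hA Q) j W hWL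
    hW2 fun y hy _ v hv => by
      obtain ⟨q, -, hq, rfl⟩ := T.S.mem_im.1 hy
      rw [(hj q hq).2]
      simpa using hv
  obtain ⟨Q', hQQ', hQ'K, hQ'M, hQ'2, hQ'⟩ := T.S.lift2 hQK hQM hQ hY'2 hY'M hQY'
  obtain ⟨x, hx⟩ := T.S.exists_fix (T.S.isPGroup_im hQ) (T.S.im_le_Y Q)
  obtain ⟨k, hk, e, hf⟩ := T.S.lift Q hQK hQ (Function.update x j δ) fun q hq => by
    have hq1 : ∀ (u : Fin T.k → T.Γ) i, T.S.r q u i = cp (T.S.r q) i (u i) := fun u i => by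
      have := (T.isW (hQK hq)).apply u i
      rwa [(hj q hq).1, Perm.one_apply] at this
    funext i
    rw [hq1]
    by_cases hi : i = j
    · rw [hi, (hj q hq).2, Perm.one_apply]
    · rw [Function.update_of_ne hi, ← hq1, hx _ (T.S.mem_im.2 ⟨q, hQK hq, hq, rfl⟩)]
  refine ⟨Q', T.secB_finite hQ'K, hQ'2, hQ'M, hQQ', k • α, hf, ?_⟩
  by_contra hno
  have hfix : ∀ q ∈ Q', q • k • α = k • α := fun q hq => by
    by_contra hq'
    exact hno ⟨q, hq, hq'⟩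
  have := congrFun (T.secB_im_fix hk hfix _ (hQ' ▸ hsing w hw)) j
  rw [sing_apply_self, e, Function.update_self] at this
  exact hwδ this

end PSec

end Pool.Agent.Lib.MP_a7ce8b_al
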