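import Pool.Agent.Lib.MP_a7ce8b_al.C.SecB

/-! Single sections: the good pair in alternating and rank one sections. -/

namespace Pool.Agent.Lib.MP_a7ce8b_al

open Equiv MulAction

variable {G Ω : Type} [Group G] [MulAction G Ω] {P : Subgroup G} {t : G} {α : Ω}

namespace PSec

variable {H : Subgroup G} (T : PSec α H)

theorem secC_t (h : Ctx P t α) (hP : P ≤ T.S.K) :
    sg (T.S.r t) = 1 ∧ ∀ j, cp (T.S.r t) j * cp (T.S.r t) j = 1 ∧
      ∀ γ, cp (T.S.r t) j γ = γ ↔ γ = T.S.π α j := by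
  simpa only [one_mul, inv_one, mul_one, one_smul] using T.conj_t h hP T.S.K.one_mem

/-- A 2-subgroup of `L` normalized by the components of `P` at `j` centralizes that of `t`. -/
theorem secC_force (h : Ctx P t α) (hP : P ≤ T.S.K) (j : Fin T.k) {W : Subgroup (Perm T.Γ)}
    (hWL : W ≤ T.L) (hW : IsPGroup 2 W)
    (hn : ∀ y ∈ T.S.im P, sg y j = j → ∀ w ∈ W, cp y j * w * (cp y j)⁻¹ ∈ W) {w : Perm T.Γ}
    (hw : w ∈ W) : cp (T.S.r t) j * w = w * cp (T.S.r t) j := by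
  have := T.comp.nontriv
  obtain ⟨Y', h1, h2, h3, h4, -⟩ := wr_induce T.comp.norm T.S.Y (T.S.im P)
    (fun _ hl => T.wr.base_mem hl) (T.S.im_le_Y P) (T.S.isPGroup_im h.two)
    (fun y hy => ⟨T.wr.isW (T.S.im_le_Y P hy), T.wr.cp_mem (T.S.im_le_Y P hy)⟩) j W hWL hW hn
  have h5 := T.S.force h hP h2 h1 h3 _ (h4 w hw)
  rw [(T.isW (hP h.mem)).eq_base (T.secC_t h hP).1, sing, ← base_mul, ← base_mul] at h5
  have h6 := congrFun (base_injective h5) j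
  simp only [Pi.mul_apply, Pi.mulSingle_eq_same] at h6
  exact h6.symm

theorem alt_bound (h : Ctx P t α) (hP : P ≤ T.S.K) (hA : AComp T.L T.A) :
    Nat.card T.Γ ≤ 4 * Nat.card P * 2 ^ Nat.card P := by
  have := T.comp.nontriv
  have := T.S.finX
  have := h.fin
  obtain ⟨j⟩ := T.nonempty
  by_contra hlt
  obtain ⟨B, hB, -, hc⟩ := exists_comp_subgroup (T.S.im P)
    (fun y hy => T.wr.isW (T.S.im_le_Y P hy)) j
  have c1 : Nat.card (T.S.im P) ≤ Nat.card P := by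
    rw [← Nat.card_congr (Subgroup.subgroupOfEquivOfLe hP).toEquiv]
    have : Finite (P.subgroupOf T.S.K) :=
      Finite.of_equiv _ (Subgroup.subgroupOfEquivOfLe hP).toEquiv.symm
    exact Nat.le_of_dvd Nat.card_pos (Subgroup.card_map_dvd _ _)
  obtain ⟨s1, s2⟩ := T.secC_t h hP
  obtain ⟨W, hWL, hW, hn, w, hw, hne⟩ := hA.exists_noncentral B ((hc inferInstance).2.trans c1)
    (s := cp (T.S.r t) j)
    ((hB _).2 ⟨_, T.S.mem_im.2 ⟨t, hP h.mem, h.mem, rfl⟩, by rw [s1]; rfl, rfl⟩)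
    (fun γ δ e1 e2 => (((s2 j).2 γ).1 e1).trans (((s2 j).2 δ).1 e2).symm) (not_le.1 hlt)
  exact hne (T.secC_force h hP j hWL hW (fun y hy e => hn _ ((hB _).2 ⟨y, hy, e, rfl⟩)) hw)

theorem secC_mem (h : Ctx P t α) (hP : P ≤ T.S.K) (hB : BComp T.L T.A) (j : Fin T.k) :
    cp (T.S.r t) j ∈ T.L := by
  have := T.comp.nontriv
  obtain ⟨U, hU⟩ := hB.core.exists_root (T.S.π α j)
  refine hB.cen (T.S.π α j) _ (T.cp_mem (hP h.mem) j) ((((T.secC_t h hP).2 j).2 _).2 rfl)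
    fun w hw w2 wf => T.secC_force h hP j (W := U) (fun g hg => ((hU g).1 hg).1)
      (isPGroup_iff_twoEl.2 fun g hg => ((hU g).1 hg).2.1) ?_ ((hU w).2 ⟨hw, w2, wf⟩)
  intro y hy e u hu
  obtain ⟨q, qK, qP, rfl⟩ := T.S.mem_im.1 hy
  obtain ⟨u1, u2, u3⟩ := (hU u).1 hu
  have f1 : q • α = α := h.uniq _ (by
    rw [← mul_smul, ← h.force P h.fin h.two le_rfl q qP, mul_smul, h.fix])
  have f2 : cp (T.S.r q) j (T.S.π α j) = T.S.π α j := by
    rw [← (T.isW qK).apply, e, ← T.S.eqv₁ qK, f1]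
  refine (hU _).2 ⟨T.comp.norm _ (T.cp_mem qK j) _ u1, u2.conj _, ?_⟩
  rw [Perm.mul_apply, Perm.mul_apply, Perm.inv_eq_iff_eq.2 f2.symm, u3, f2]

theorem secC_conj (h : Ctx P t α) (hP : P ≤ T.S.K) {g : G} (hg : g ∈ T.S.K) (j : Fin T.k) :
    cp (T.S.r (g * t * g⁻¹)) j = cp (T.S.r g) ((sg (T.S.r g))⁻¹ j) *
      cp (T.S.r t) ((sg (T.S.r g))⁻¹ j) * (cp (T.S.r g) ((sg (T.S.r g))⁻¹ j))⁻¹ := by
  have := T.comp.nontriv
  have e := (T.isW hg).conj_base (cp (T.S.r t))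
  rw [← (T.isW (hP h.mem)).eq_base (T.secC_t h hP).1, ← T.S.r_conj hg (hP h.mem)] at e
  rw [e, cp_base]

theorem t_mem (h : Ctx P t α) (hP : P ≤ T.S.K) (hB : BComp T.L T.A) {g : G} (hg : g ∈ T.S.K)
    (j : Fin T.k) : cp (T.S.r (g * t * g⁻¹)) j ∈ T.L := by
  rw [T.secC_conj h hP hg]
  exact T.comp.norm _ (T.cp_mem hg _) _ (T.secC_mem h hP hB _)

theorem not_odd (h : Ctx P t α) (hP : P ≤ T.S.K) (hB : BComp T.L T.A) :
    ¬ ∀ g : G, Odd (orderOf (t * (g * t * g⁻¹))) := by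
  intro hodd
  have := T.comp.nontriv
  obtain ⟨j⟩ := T.nonempty
  obtain ⟨s1, s2⟩ := T.secC_t h hP
  have tK := hP h.mem
  have a1 : cp (T.S.r t) j ≠ 1 := fun e => by
    obtain ⟨γ, hγ⟩ := exists_ne (T.S.π α j)
    exact hγ (((s2 j).2 γ).1 (by rw [e]; rfl))
  obtain ⟨l, hl, lf, hne⟩ := hB.core.noncen (T.secC_mem h hP hB j) a1 (s2 j).1
    (((s2 j).2 _).2 rfl)
  obtain ⟨g, gK, hg⟩ := T.S.mem_Y.1 (T.wr.sing_mem j hl)
  have dK : g * t * g⁻¹ ∈ T.S.K := T.S.K.mul_mem (T.S.K.mul_mem gK tK) (T.S.K.inv_mem gK)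
  obtain ⟨d1, d2⟩ := T.conj_t h hP gK
  have px : T.S.π (g • α) = T.S.π α := by
    rw [T.S.eqv₁ gK, hg]
    funext i
    by_cases e : i = j
    · rw [e, sing_apply_self, lf]
    · exact sing_apply_ne e _ _
  have dj : cp (T.S.r (g * t * g⁻¹)) j = l * cp (T.S.r t) j * l⁻¹ := by
    rw [T.secC_conj h hP gK, hg, sing, sg_base, cp_base]
    simp
  have pr : T.S.r (t * (g * t * g⁻¹)) = base (cp (T.S.r t) * cp (T.S.r (g * t * g⁻¹))) := by
    rw [T.S.r_mul _ tK _ dK, base_mul, ← (T.isW tK).eq_base s1, ← (T.isW dK).eq_base d1]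
  have sq : T.S.r (t * (g * t * g⁻¹)) ^ 2 = 1 := by
    rw [pr, pow_two, ← base_mul, ← base_one]
    refine congrArg base (funext fun i => ?_)
    have c := hB.core.zc (T.S.π α i) _ (T.secC_mem h hP hB i) _ (T.t_mem h hP hB gK i) (s2 i).1
      (twoEl_of_sq (d2 i).1) (((s2 i).2 _).2 rfl) (((d2 i).2 _).2 (by rw [px]))
    simp only [Pi.mul_apply, Pi.one_apply]
    rw [mul_assoc, ← mul_assoc (cp (T.S.r (g * t * g⁻¹)) i), ← c, mul_assoc, (d2 i).1, mul_one,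
      (s2 i).1]
  obtain ⟨k, hk⟩ := hodd g
  have one : T.S.r (t * (g * t * g⁻¹)) = 1 := by
    have e := T.S.r_pow (T.S.K.mul_mem tK dK) (orderOf (t * (g * t * g⁻¹)))
    rw [pow_orderOf_eq_one, T.S.r_one, hk, pow_succ, pow_mul, sq, one_pow, one_mul] at e
    exact e.symm
  rw [pr, ← base_one] at one
  have e := congrFun (base_injective one) j
  simp only [Pi.mul_apply, Pi.one_apply] at e
  rw [dj] at e
  exact hne (mul_left_cancel (e.trans (s2 j).1.symm))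

end PSec

end Pool.Agent.Lib.MP_a7ce8b_al
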