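import Pool.Agent.Lib.MP_a7ce8b_al.C.SecA

/-! Finite subgroups of a group with a strongly embedded point stabilizer. -/

namespace Pool.Agent.Lib.MP_a7ce8b_al

open Equiv MulAction

variable {G Ω : Type} [Group G] [MulAction G Ω] {N : Subgroup G}

/-- A proper subgroup of a finite subgroup lies in a maximal one. -/
theorem stepB_exists_max {K M : Subgroup G} [Finite K] (h : M < K) :
    ∃ L : Subgroup G, M ≤ L ∧ L < K ∧ ∀ L', L < L' → L' ≤ K → L' = K := by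
  have hS : {L : Subgroup G | M ≤ L ∧ L < K}.Finite := by
    refine Set.Finite.subset (s := {L : Subgroup G | L ≤ K}) ?_ fun L hL => hL.2.le
    refine Set.Finite.of_finite_image (f := fun L : Subgroup G => (L : Set G)) ?_
      fun _ _ _ _ h => SetLike.coe_injective h
    refine (Set.toFinite (K : Set G)).finite_subsets.subset ?_
    rintro _ ⟨L, hL, rfl⟩
    exact hL
  obtain ⟨L, hL, hmax⟩ := hS.exists_maximal ⟨M, le_rfl, h⟩
  refine ⟨L, hL.1, hL.2, fun L' h1 h2 => ?_⟩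
  by_contra hne
  exact h1.not_ge (hmax ⟨hL.1.trans h1.le, lt_of_le_of_ne h2 hne⟩ h1.le)

/-- An element commuting with `z` fixes the unique fixed point of `z`. -/
theorem stepB_fix_of_comm {z s : G} {x : Ω} (hx : z • x = x) (hu : ∀ y : Ω, z • y = y → y = x)
    (hc : z * s = s * z) : s • x = x :=
  hu _ (by rw [← mul_smul, hc, mul_smul, hx])

theorem stepB_uniq (h : MHyp Ω N) {n : G} (hn : n ∈ N) (h2 : TwoEl n) (h1 : n ≠ 1) (ω ω' : Ω)
    (e : n • ω = ω) (e' : n • ω' = ω') : ω = ω' :=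
  (h.one n hn h2 h1).unique e e'

/-- A section on the list for a finite subgroup containing a four-group of `N` at `γ`. -/
theorem MHyp.exists_sec (h : MHyp Ω N) (γ : Ω) (H : Subgroup G) [Finite H] :
    ∃ (X : Type) (S : Sec γ ⊥ X), H ≤ S.K ∧ OnList S.Y ∧ ∃ v ∈ S.K, ∃ w ∈ S.K, v ∈ N ∧ w ∈ N ∧
      v ≠ w ∧ v ≠ 1 ∧ w ≠ 1 ∧ v * v = 1 ∧ w * w = 1 ∧ v * w = w * v := by
  have := h.inf
  obtain ⟨v0, hv0, w0, hw0, hne, v1, w1, v2, w2, hc⟩ := h.four
  obtain ⟨x, hx, -⟩ := h.one v0 hv0 (twoEl_of_sq v2) v1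
  obtain ⟨n, -, rfl⟩ := h.trans x γ
  obtain ⟨δ, hδ⟩ := exists_ne (n • x)
  obtain ⟨n0, -, rfl⟩ := h.trans (n • x) δ
  let c : G ≃* G := MulAut.conj n
  have hc1 : ∀ g, c g = n * g * n⁻¹ := fun g => rfl
  have hvN : c v0 ∈ N := h.normal.conj_mem v0 hv0 n
  have hwN : c w0 ∈ N := h.normal.conj_mem w0 hw0 n
  have hv1 : c v0 ≠ 1 := fun e => v1 (c.injective (by rw [e, map_one]))
  have hw1 : c w0 ≠ 1 := fun e => w1 (c.injective (by rw [e, map_one]))
  have hv2 : c v0 * c v0 = 1 := by rw [← map_mul, v2, map_one]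
  have hw2 : c w0 * c w0 = 1 := by rw [← map_mul, w2, map_one]
  have hvx : c v0 • n • x = n • x := by
    have hx' : v0 • x = x := hx
    rw [hc1, mul_smul, mul_smul, inv_smul_smul, hx']
  let K : Subgroup G := H ⊔ Subgroup.closure {c v0, c w0, n0}
  have : Finite K := h.lf.finite_sup H (Set.toFinite _)
  have hvK : c v0 ∈ K := Subgroup.mem_sup_right (Subgroup.subset_closure (Or.inl rfl))
  have hwK : c w0 ∈ K := Subgroup.mem_sup_right (Subgroup.subset_closure (Or.inr (Or.inl rfl)))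
  have hnK : n0 ∈ K := Subgroup.mem_sup_right (Subgroup.subset_closure (Or.inr (Or.inr rfl)))
  have hlt : K ⊓ stabilizer G (n • x) < K :=
    lt_of_le_of_ne inf_le_left fun e => hδ (by rw [← e] at hnK; exact hnK.2)
  obtain ⟨L, hKL, hLK, hmax⟩ := stepB_exists_max hlt
  obtain ⟨T, hvT, hTK, hT, hTmax⟩ := exists_max_two K (Subgroup.zpowers (c v0))
    (Subgroup.zpowers_le.2 hvK) (twoEl_of_sq hv2).isPGroup_zpowers
  have : Finite T := Finite.of_injective _ (Subgroup.inclusion_injective hTK)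
  have hvT' : c v0 ∈ T := hvT (Subgroup.mem_zpowers _)
  obtain ⟨z, hzT, hzN, z1, z2, hzc⟩ := central_invol T N hT h.normal ⟨_, hvT', hvN, hv1⟩
  have hzx : z • n • x = n • x :=
    stepB_fix_of_comm hvx (fun y e => stepB_uniq h hvN (twoEl_of_sq hv2) hv1 _ _ e hvx)
      (hzc _ hvT')
  obtain ⟨X, S, hSK, hstar⟩ := exists_sec_of_coset (H := ⊥) hLK hmax hKL bot_le
    (inf_le_right.trans bot_le) hTK hT hTmax hzT hzc z2 fun ω =>
      ⟨fun e => stepB_uniq h hzN (twoEl_of_sq z2) z1 _ _ e hzx, fun e => by rw [e, hzx]⟩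
  refine ⟨X, S, by rw [hSK]; exact le_sup_left,
    h.khyp S.K S.fin X S.ρ S.nontriv S.preprim hstar, c v0, by rw [hSK]; exact hvK, c w0,
    by rw [hSK]; exact hwK, hvN, hwN, c.injective.ne hne, hv1, hw1, hv2, hw2, ?_⟩
  rw [← map_mul, ← map_mul, hc]

/-- Involutions of the image of `N` lift to involutions and fix exactly one point. -/
theorem MHyp.lift_invol (h : MHyp Ω N) {γ : Ω} {H : Subgroup G} {X : Type} (S : Sec γ H X)
    {y : Perm X} (hy : y ∈ S.im N) (h1 : y ≠ 1) (h2 : y * y = 1) :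
    ∃ n ∈ S.K, n ∈ N ∧ n ≠ 1 ∧ n * n = 1 ∧ S.r n = y ∧
      ∃ k ∈ S.K, n • k • γ = k • γ ∧ ∀ x, y x = x ↔ x = S.π (k • γ) := by
  obtain ⟨n, hK, hN, ht, rfl⟩ := S.lift_twoEl hy (twoEl_of_sq h2)
  have n1 : n ≠ 1 := fun e => h1 (by rw [e, S.r_one])
  have n2 : n * n = 1 := by
    by_contra e
    have ht2 : TwoEl (n * n) := by simpa [pow_two] using ht.pow 2
    obtain ⟨k, -, -, hk⟩ := S.fix_iff (S.K.mul_mem hK hK) ht2
      (stepB_uniq h (N.mul_mem hN hN) ht2 e)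
    have := S.nontriv
    obtain ⟨x, hx⟩ := exists_ne (S.π (k • γ))
    exact hx ((hk x).1 (by rw [S.r_mul n hK n hK, h2, Perm.one_apply]))
  exact ⟨n, hK, hN, n1, n2, rfl, S.fix_iff hK ht (stepB_uniq h hN ht n1)⟩

/-- Involutions of `N` with different commuting images have the same fixed point. -/
theorem stepB_key (h : MHyp Ω N) {γ : Ω} {H : Subgroup G} {X : Type} (S : Sec γ H X) {n n' : G}
    (hK : n ∈ S.K) (hK' : n' ∈ S.K) (hN : n ∈ N) (hN' : n' ∈ N) (n2 : n * n = 1)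
    (n2' : n' * n' = 1) (n1 : n ≠ 1) (n1' : n' ≠ 1) (hne : S.r n ≠ S.r n')
    (hc : S.r n * S.r n' = S.r n' * S.r n) {β β' : Ω} (e : n • β = β) (e' : n' • β' = β') :
    β = β' := by
  rcases Nat.even_or_odd (orderOf (n * n')) with ho | ho
  · obtain ⟨m, z1, z2, c1, c2⟩ := dihedral_even n2 n2' (h.lf.isOfFinOrder _) ho
    have hz : (n * n') ^ m ∈ N := N.pow_mem (N.mul_mem hN hN') m
    obtain ⟨ω, hω, hu⟩ := h.one _ hz (twoEl_of_sq z2) z1
    rw [stepB_uniq h hN (twoEl_of_sq n2) n1 _ _ e (stepB_fix_of_comm hω hu c1),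
      stepB_uniq h hN' (twoEl_of_sq n2') n1' _ _ e' (stepB_fix_of_comm hω hu c2)]
  · obtain ⟨m, hm⟩ := dihedral_odd n2 n2' ho
    have hKK := S.K.mul_mem hK hK'
    have e1 := S.r_conj (S.K.pow_mem hKK m) hK'
    rw [hm, S.r_pow hKK, S.r_mul n hK n' hK'] at e1
    have hcm : Commute ((S.r n * S.r n') ^ m) (S.r n') :=
      (Commute.mul_left hc (Commute.refl _)).pow_left m
    rw [hcm.eq, mul_inv_cancel_right] at e1
    exact absurd e1 hne

/-- If the image of `N` contains a rank one group `L` normal in the section, the section is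
faithful on the orbit and involutions of `N` map into `L`. -/
theorem MHyp.sec_inj (h : MHyp Ω N) {γ : Ω} {H : Subgroup G} {X : Type} (S : Sec γ H X)
    {L : Subgroup (Perm X)} (hL : BCore L) (hLN : L ≤ S.im N)
    (hn : ∀ a ∈ S.Y, ∀ l ∈ L, a * l * a⁻¹ ∈ L) :
    (∀ k ∈ S.K, ∀ k' ∈ S.K, S.π (k • γ) = S.π (k' • γ) → k • γ = k' • γ) ∧
      ∀ n ∈ S.K, n ∈ N → n * n = 1 → S.r n ∈ L := by
  constructor
  · obtain ⟨z, hz, w, hw, hzw, z1, w1, z2, w2, zx, wx⟩ := hL.two (S.π γ)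
    obtain ⟨v, vK, vN, v1, v2, rfl, k1, k1K, hv, hk1⟩ := h.lift_invol S (hLN hz) z1 z2
    obtain ⟨u, uK, uN, u1, u2, rfl, k2, k2K, hu, -⟩ := h.lift_invol S (hLN hw) w1 w2
    have hβ : k1 • γ = k2 • γ := stepB_key h S vK uK vN uN v2 u2 v1 u1 hzw
      (hL.zc _ _ hz _ hw z2 (twoEl_of_sq w2) zx wx) hv hu
    have hm : ∀ m ∈ S.K, S.r m (S.π γ) = S.π γ → m • k1 • γ = k1 • γ := by
      intro m mK mx
      have cK : m * v * m⁻¹ ∈ S.K := S.K.mul_mem (S.K.mul_mem mK vK) (S.K.inv_mem mK)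
      have cN : m * v * m⁻¹ ∈ N := h.normal.conj_mem v vN m
      have c2 : m * v * m⁻¹ * (m * v * m⁻¹) = 1 := by
        rw [conj_mul, v2, mul_one, mul_inv_cancel]
      have c1 : m * v * m⁻¹ ≠ 1 := fun e => v1 (by simpa using e)
      have cL : S.r (m * v * m⁻¹) ∈ L := by
        rw [S.r_conj mK vK]
        exact hn _ (S.mem_Y.2 ⟨m, mK, rfl⟩) _ hz
      have cx : S.r (m * v * m⁻¹) (S.π γ) = S.π γ := by
        rw [S.r_conj mK vK, Perm.mul_apply, Perm.mul_apply, Perm.inv_eq_iff_eq.2 mx.symm, zx, mx]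
      have cs : S.r (m * v * m⁻¹) * S.r (m * v * m⁻¹) = 1 := by
        rw [← S.r_mul _ cK _ cK, c2, S.r_one]
      have cβ : (m * v * m⁻¹) • m • k1 • γ = m • k1 • γ := by
        rw [mul_smul, mul_smul, inv_smul_smul, hv]
      by_cases e : S.r (m * v * m⁻¹) = S.r v
      · rw [hβ] at cβ ⊢
        exact stepB_key h S cK uK cN uN c2 u2 c1 u1 (by rw [e]; exact hzw)
          (hL.zc _ _ cL _ hw cs (twoEl_of_sq w2) cx wx) cβ hu
      · exact stepB_key h S cK vK cN vN c2 v2 c1 v1 e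
          (hL.zc _ _ cL _ hz cs (twoEl_of_sq z2) cx zx) cβ hv
    have hγ : k1 • γ = γ := smul_left_cancel k1 (hm k1 k1K (by
      rw [← S.eqv₁ k1K]
      exact ((hk1 _).1 zx).symm))
    intro k kK k' kK' e
    have := hm (k'⁻¹ * k) (S.K.mul_mem (S.K.inv_mem kK') kK) (by
      rw [S.r_mul _ (S.K.inv_mem kK') _ kK, S.r_inv kK', Perm.mul_apply, ← S.eqv₁ kK, e,
        S.eqv₁ kK']
      simp)
    rw [hγ, mul_smul, inv_smul_eq_iff] at this
    exact this
  · intro n nK nN n2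
    by_cases j1 : S.r n = 1
    · rw [j1]
      exact L.one_mem
    have jN : S.r n ∈ S.im N := S.mem_im.2 ⟨n, nK, nN, rfl⟩
    have j2 : S.r n * S.r n = 1 := by rw [← S.r_mul n nK n nK, n2, S.r_one]
    obtain ⟨-, -, -, -, -, -, k1, -, -, hk1⟩ := h.lift_invol S jN j1 j2
    have := S.nontriv
    have := S.finX
    obtain ⟨x, hx⟩ := exists_ne (S.π (k1 • γ))
    obtain ⟨z, hz, -, -, -, z1, -, z2, -, zx, -⟩ := hL.two x
    have hp : ∀ m : ℕ, (S.r n * z) ^ m ∈ S.im N := fun m =>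
      Subgroup.pow_mem _ (Subgroup.mul_mem _ jN (hLN hz)) m
    rcases Nat.even_or_odd (orderOf (S.r n * z)) with ho | ho
    · obtain ⟨m, y1, y2, c1, c2⟩ := dihedral_even j2 z2 (isOfFinOrder_of_finite _) ho
      obtain ⟨-, -, -, -, -, -, k2, -, -, hk2⟩ := h.lift_invol S (hp m) y1 y2
      have f : ∀ s : Perm X, (S.r n * z) ^ m * s = s * (S.r n * z) ^ m →
          s (S.π (k2 • γ)) = S.π (k2 • γ) := fun s hs => (hk2 _).1 (by
        rw [← Perm.mul_apply, hs, Perm.mul_apply, (hk2 _).2 rfl])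
      exact absurd (((hL.one z hz (twoEl_of_sq z2) z1).unique zx (f z c2)).trans
        ((hk1 _).1 (f _ c1))) hx
    · obtain ⟨m, hm⟩ := dihedral_odd j2 z2 ho
      rw [← hm]
      exact hn _ (S.im_le_Y N (hp m)) _ hz

end Pool.Agent.Lib.MP_a7ce8b_al
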