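import Pool.Agent.Lib.MP_a7ce8b_al.C.StepB
import Pool.Agent.Lib.MP_a7ce8b_al.C.Cases
import Pool.Agent.Lib.MP_a7ce8b_al.C.Aff
import Pool.Agent.Lib.MP_a7ce8b_al.C.SecB

/-! Finite subgroups act as rank one groups on their orbits. -/

namespace Pool.Agent.Lib.MP_a7ce8b_al

open Equiv MulAction

variable {G Ω : Type} [Group G] [MulAction G Ω] {N : Subgroup G}

theorem stepB2_uniq (h : MHyp Ω N) {γ : Ω} {H : Subgroup G} {X : Type} (S : Sec γ H X) {n : G}
    (hK : n ∈ S.K) (hN : n ∈ N) (h1 : n ≠ 1) (h2 : n * n = 1) : ∃! x, S.r n x = x := by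
  obtain ⟨ω, -, hu⟩ := h.one n hN (twoEl_of_sq h2) h1
  obtain ⟨k, -, -, e⟩ := S.fix_iff hK (twoEl_of_sq h2)
    fun a b ha hb => (hu a ha).trans (hu b hb).symm
  exact ⟨_, (e _).2 rfl, fun x hx => (e x).1 hx⟩

theorem stepB2_ne_one (h : MHyp Ω N) {γ : Ω} {H : Subgroup G} {X : Type} (S : Sec γ H X) {n : G}
    (hK : n ∈ S.K) (hN : n ∈ N) (h1 : n ≠ 1) (h2 : n * n = 1) : S.r n ≠ 1 := by
  intro e
  obtain ⟨x, -, hu⟩ := stepB2_uniq h S hK hN h1 h2
  have := S.nontriv
  obtain ⟨y, hy⟩ := exists_ne x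
  exact hy (hu y (by rw [e]; rfl))

/-- Two points whose `j`-th coordinates are fixed by an involution of `L` coincide. -/
theorem stepB2_sing (h : MHyp Ω N) {γ : Ω} {H : Subgroup G} (T : PSec γ H) {v : G}
    (hK : v ∈ T.S.K) (hN : v ∈ N) (h1 : v ≠ 1) (h2 : v * v = 1) (j : Fin T.k) {z : Perm T.Γ}
    (hz : z ∈ T.L) (z1 : z ≠ 1) (z2 : z * z = 1) {x x' : Fin T.k → T.Γ} (hx : z (x j) = x j)
    (hx' : z (x' j) = x' j) : x = x' := by
  have := T.comp.nontriv
  have hm : sing j z ∈ T.S.im N :=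
    T.base_mem_im h.normal hN hK (stepB2_ne_one h T.S hK hN h1 h2) (mulSingle_mem j hz)
  have s1 : sing j z ≠ 1 := fun e => z1 (by
    have := congrFun (base_injective (e.trans base_one.symm)) j
    simpa using this)
  have s2 : sing j z * sing j z = 1 := by
    rw [sing, ← base_mul, ← Pi.mulSingle_mul, z2, Pi.mulSingle_one, base_one]
  obtain ⟨n, -, -, -, -, -, k, -, -, e⟩ := h.lift_invol T.S hm s1 s2
  have key : ∀ y : Fin T.k → T.Γ, z (y j) = y j → sing j z y = y := fun y hy => by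
    funext i
    by_cases e : i = j
    · rw [e, sing_apply_self, hy]
    · exact sing_apply_ne e z y
  exact ((e x).1 (key x hx)).trans ((e x').1 (key x' hx')).symm

theorem stepB2_alt {Γ : Type} {L A : Subgroup (Perm Γ)} (h : AComp L A) :
    ∃ z ∈ L, z ≠ 1 ∧ z * z = 1 ∧ ∃ a b, a ≠ b ∧ z a = a ∧ z b = b := by
  classical
  have := h.fin
  have := Fintype.ofFinite Γ
  obtain ⟨f⟩ : Nonempty (Fin 6 ↪ Γ) := Function.Embedding.nonempty_of_card_le (by
    have := h.seven
    rw [Nat.card_eq_fintype_card] at this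
    rw [Fintype.card_fin]
    omega)
  have ne : ∀ {i j : Fin 6}, i ≠ j → f i ≠ f j := fun hij => f.injective.ne hij
  have hc : Commute (swap (f 0) (f 1)) (swap (f 2) (f 3)) := by
    refine Perm.Disjoint.commute fun x => ?_
    by_cases h0 : x = f 0
    · exact Or.inr (h0 ▸ swap_apply_of_ne_of_ne (ne (by decide)) (ne (by decide)))
    by_cases h1 : x = f 1
    · exact Or.inr (h1 ▸ swap_apply_of_ne_of_ne (ne (by decide)) (ne (by decide)))
    exact Or.inl (swap_apply_of_ne_of_ne h0 h1)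
  refine ⟨swap (f 0) (f 1) * swap (f 2) (f 3), h.dbl _ _ _ _ (ne (by decide)) (ne (by decide)),
    fun e => ?_, ?_, f 4, f 5, ne (by decide), ?_, ?_⟩
  · have := congrArg (fun g : Perm Γ => g (f 0)) e
    simp only [Perm.mul_apply, Perm.one_apply] at this
    rw [swap_apply_of_ne_of_ne (ne (by decide)) (ne (by decide)), swap_apply_left] at this
    exact ne (by decide) this
  · rw [← pow_two, hc.mul_pow, pow_two, pow_two, swap_mul_self, swap_mul_self, mul_one]
  · rw [Perm.mul_apply, swap_apply_of_ne_of_ne (ne (by decide)) (ne (by decide)),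
      swap_apply_of_ne_of_ne (ne (by decide)) (ne (by decide))]
  · rw [Perm.mul_apply, swap_apply_of_ne_of_ne (ne (by decide)) (ne (by decide)),
      swap_apply_of_ne_of_ne (ne (by decide)) (ne (by decide))]

theorem stepB2_permCongr {ι Γ : Type} [Unique ι] (l : ι → Perm Γ) :
    (Equiv.funUnique ι Γ).permCongr (base l) = l default := by
  ext x
  rfl

theorem MHyp.stepB (h : MHyp Ω N) (γ : Ω) (H : Subgroup G) [Finite H] :
    ∃ (E : Type) (_ : Field E) (_ : Finite E) (D : Datum E) (S : Sec γ H D.Pt), D.Big ∧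
      (∀ k ∈ S.K, ∀ k' ∈ S.K, S.π (k • γ) = S.π (k' • γ) → k • γ = k' • γ) ∧
      D.L ≤ S.im N ∧ S.Y ≤ D.A ∧ ∀ n ∈ S.K, n ∈ N → n * n = 1 → S.r n ∈ D.L := by
  classical
  obtain ⟨X, S, hH, hl, v, vK, w, wK, vN, wN, vw, v1, w1, v2, w2, hc⟩ := h.exists_sec γ H
  rcases S.cases hl with ha | ⟨T, hK, hA, -⟩ | ⟨E, _, _, D, k, e, hb, hw⟩
  · have p1 : v * w ≠ 1 := fun e => vw (by
      rw [← mul_one v, ← w2, ← mul_assoc, e, one_mul])
    have p2 : v * w * (v * w) = 1 := by
      rw [← pow_two, Commute.mul_pow hc, pow_two, pow_two, v2, w2, mul_one]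
    refine absurd ha (S.not_affine (S.mem_Y.2 ⟨v, vK, rfl⟩) (S.mem_Y.2 ⟨w, wK, rfl⟩) ?_ ?_
      (stepB2_uniq h S vK vN v1 v2) (stepB2_uniq h S wK wN w1 w2) ?_)
    · rw [← S.r_mul v vK v vK, v2, S.r_one]
    · rw [← S.r_mul w wK w wK, w2, S.r_one]
    · rw [← S.r_mul v vK w wK]
      exact stepB2_uniq h S (S.K.mul_mem vK wK) (N.mul_mem vN wN) p1 p2
  · obtain ⟨z, hz, z1, z2, a, b, ab, za, zb⟩ := stepB2_alt hA
    obtain ⟨j⟩ := T.nonempty
    exact absurd (congrFun (stepB2_sing h T (hK ▸ vK) vN v1 v2 j hz z1 z2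
      (x := fun _ => a) (x' := fun _ => b) za zb) j) ab
  · have hB := Datum.bcomp_finite hb
    have := hB.comp.nontriv
    let T : PSec γ ⊥ := ⟨k, D.Pt, D.L, D.A, S.congr e, hw, hB.comp⟩
    have hs : Subsingleton (Fin k) := ⟨fun i j => by
      by_contra hij
      obtain ⟨z, hz, -, -, -, z1, -, z2, -, zo, -⟩ := hB.core.two D.o
      obtain ⟨δ, hδ⟩ := exists_ne D.o
      have := congrFun (stepB2_sing h T vK vN v1 v2 j hz z1 z2 (x := fun _ => D.o)
        (x' := Function.update (fun _ => D.o) i δ) zo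
        (by rw [Function.update_of_ne (Ne.symm hij)]; exact zo)) i
      rw [Function.update_self] at this
      exact hδ this.symm⟩
    obtain ⟨j⟩ : Nonempty (Fin k) := T.nonempty
    let _ : Unique (Fin k) := uniqueOfSubsingleton j
    let S' : Sec γ ⊥ D.Pt := (S.congr e).congr (Equiv.funUnique (Fin k) D.Pt)
    have hL : D.L ≤ S'.im N := fun l hl => by
      obtain ⟨g, gK, gN, e⟩ := T.S.mem_im.1 (T.base_mem_im h.normal vN vK
        (stepB2_ne_one h T.S vK vN v1 v2) (l := fun _ => l) fun _ => hl)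
      refine S'.mem_im.2 ⟨g, gK, gN, ?_⟩
      exact (congrArg (Equiv.funUnique (Fin k) D.Pt).permCongr e).trans (stepB2_permCongr _)
    have hY : S'.Y ≤ D.A := fun y hy => by
      obtain ⟨g, gK, rfl⟩ := S'.mem_Y.1 hy
      have e1 : T.S.r g = base (cp (T.S.r g)) := (T.isW gK).eq_base (Subsingleton.elim _ _)
      have e2 : S'.r g = cp (T.S.r g) default :=
        (congrArg (Equiv.funUnique (Fin k) D.Pt).permCongr e1).trans (stepB2_permCongr _)
      rw [e2]
      exact T.cp_mem gK _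
    obtain ⟨hi, hn⟩ := h.sec_inj S' hB.core hL fun a ha l hl => hB.comp.norm a (hY ha) l hl
    exact ⟨E, inferInstance, inferInstance, D, S'.upgrade hH hi, hb, hi, hL, hY, hn⟩

end Pool.Agent.Lib.MP_a7ce8b_al
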