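import Pool.Agent.Lib.MP_a7ce8b_al.C.Dat1

/-! Locally finite sub-structures of a datum come from subfields. -/

namespace Pool.Agent.Lib.MP_a7ce8b_al

open Equiv MulAction

theorem sub_hua {E : Type} [Field E] (h2 : (2 : E) = 0) {W : Set E}
    (ha : ∀ x ∈ W, ∀ y ∈ W, x + y ∈ W) (hi : ∀ x ∈ W, x⁻¹ ∈ W) {a b : E} (haW : a ∈ W)
    (hbW : b ∈ W) : a ^ 2 * b ∈ W := by
  have h0 : (0 : E) ∈ W := by
    have := ha a haW a haW
    rwa [← two_mul, h2, zero_mul] at this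
  by_cases e1 : a = 0
  · simpa [e1] using h0
  by_cases e2 : b = 0
  · simpa [e2] using h0
  by_cases e3 : a * b + 1 = 0
  · have : a ^ 2 * b = a := by linear_combination a * e3 - a * h2
    rwa [this]
  have e4 : a + b⁻¹ = (a * b + 1) / b := by field_simp
  have e5 : a⁻¹ + (a + b⁻¹)⁻¹ = (a * (a * b + 1))⁻¹ := by
    rw [e4, inv_div]
    field_simp
    linear_combination (a * b) * h2
  have := ha _ (hi _ (ha _ (hi a haW) _ (hi _ (ha a haW _ (hi b hbW))))) a haW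
  rw [e5, inv_inv] at this
  have e6 : a * (a * b + 1) + a = a ^ 2 * b := by linear_combination a * h2
  rwa [e6] at this

theorem sub_sq_one {E : Type} [Field E] (h2 : (2 : E) = 0) {x : E} (h : x * x = 1) : x = 1 := by
  have : (x - 1) ^ 2 = 0 := by linear_combination h + (1 - x) * h2
  exact sub_eq_zero.1 (pow_eq_zero_iff two_ne_zero |>.1 this)

theorem sub_odd_order {E : Type} [Field E] (h2 : (2 : E) = 0) {W : Set E} (hW : W.Finite) {a : E}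
    (ha : a ≠ 0) (hp : ∀ m : ℕ, a ^ (2 * m + 1) ∈ W) : ∃ d : ℕ, Odd d ∧ a ^ d = 1 := by
  have hfin : IsOfFinOrder a := by
    obtain ⟨m, m', hlt, e⟩ := hW.exists_lt_map_eq_of_forall_mem hp
    refine isOfFinOrder_iff_pow_eq_one.2 ⟨2 * (m' - m), by omega, ?_⟩
    have : a ^ (2 * m' + 1) = a ^ (2 * m + 1) * a ^ (2 * (m' - m)) := by
      rw [← pow_add]
      congr 1
      omega
    rw [this] at e
    exact (mul_left_cancel₀ (pow_ne_zero _ ha) (e.symm.trans (mul_one _).symm))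
  refine ⟨orderOf a, ?_, pow_orderOf_eq_one a⟩
  rw [← Nat.not_even_iff_odd]
  rintro ⟨k, hk⟩
  have hpos := hfin.orderOf_pos
  refine pow_ne_one_of_lt_orderOf (x := a) (n := k) (by omega) (by omega) (sub_sq_one h2 ?_)
  rw [← pow_add, ← hk, pow_orderOf_eq_one]

/-- Hua's identity: a locally finite additive subgroup closed under inversion is a subfield. -/
theorem hua_field {E : Type} [Field E] (h2 : (2 : E) = 0) (Z : Set E) (hne : ∃ b ∈ Z, b ≠ 0)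
    (hloc : ∀ a ∈ Z, ∀ b ∈ Z, ∃ W ⊆ Z, W.Finite ∧ a ∈ W ∧ b ∈ W ∧ (∀ x ∈ W, ∀ y ∈ W, x + y ∈ W) ∧
      ∀ x ∈ W, x⁻¹ ∈ W) :
    ∃ F : Subfield E, (∀ x, x ∈ F ↔ x ∈ Z) ∧ ∀ x ∈ F, ∃ n, 0 < n ∧ x ^ 2 ^ n = x := by
  have hadd : ∀ x ∈ Z, ∀ y ∈ Z, x + y ∈ Z := fun x hx y hy => by
    obtain ⟨W, hWZ, -, h1, h3, h4, -⟩ := hloc x hx y hy
    exact hWZ (h4 x h1 y h3)
  have hinv : ∀ x ∈ Z, x⁻¹ ∈ Z := fun x hx => by
    obtain ⟨W, hWZ, -, h1, -, -, h5⟩ := hloc x hx x hx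
    exact hWZ (h5 x h1)
  have hodd : ∀ W : Set E, (∀ x ∈ W, ∀ y ∈ W, x + y ∈ W) → (∀ x ∈ W, x⁻¹ ∈ W) → ∀ a ∈ W,
      ∀ m : ℕ, a ^ (2 * m + 1) ∈ W := fun W h4 h5 a ha m => by
    induction m with
    | zero => simpa using ha
    | succ m ih =>
      have := sub_hua h2 h4 h5 ha ih
      rwa [← pow_add, show 2 + (2 * m + 1) = 2 * (m + 1) + 1 by ring] at this
  have hord : ∀ a ∈ Z, a ≠ 0 → ∃ d : ℕ, Odd d ∧ a ^ d = 1 := fun a ha h0 => by
    obtain ⟨W, -, hW, h1, -, h4, h5⟩ := hloc a ha a ha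
    exact sub_odd_order h2 hW h0 (hodd W h4 h5 a h1)
  have hpow : ∀ a ∈ Z, a ≠ 0 → ∀ m : ℕ, a ^ m ∈ Z := fun a ha h0 m => by
    obtain ⟨d, ⟨k, rfl⟩, hd⟩ := hord a ha h0
    obtain ⟨j, rfl | rfl⟩ := Nat.even_or_odd' m
    · have := hodd Z hadd hinv a ha (j + k)
      rwa [show 2 * (j + k) + 1 = 2 * j + (2 * k + 1) by ring, pow_add, hd, mul_one] at this
    · exact hodd Z hadd hinv a ha j
  obtain ⟨b₀, hb₀, hb0⟩ := hne
  have hzero : (0 : E) ∈ Z := by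
    have := hadd b₀ hb₀ b₀ hb₀
    rwa [← two_mul, h2, zero_mul] at this
  refine ⟨{ carrier := Z
            mul_mem' := fun {a b} ha hb => ?_
            one_mem' := by simpa using hpow b₀ hb₀ hb0 0
            add_mem' := fun {a b} ha hb => hadd a ha b hb
            zero_mem' := hzero
            neg_mem' := fun {a} ha => ?_
            inv_mem' := hinv }, fun _ => Iff.rfl, fun a ha => ?_⟩
  · by_cases h0 : a = 0
    · simpa [h0] using hzero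
    obtain ⟨d, ⟨k, rfl⟩, hd⟩ := hord a ha h0
    have := sub_hua h2 hadd hinv (hpow a ha h0 (k + 1)) hb
    rwa [← pow_mul, show (k + 1) * 2 = (2 * k + 1) + 1 by ring, pow_succ, hd, one_mul] at this
  · have : -a = a := by linear_combination (-a) * h2
    show -a ∈ Z
    rwa [this]
  · by_cases h0 : a = 0
    · exact ⟨1, one_pos, by simp [h0]⟩
    obtain ⟨d, hd, hd1⟩ := hord a ha h0
    refine ⟨d.totient, Nat.totient_pos.2 hd.pos, ?_⟩
    have := Nat.ModEq.pow_totient (Nat.coprime_two_left.2 hd)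
    simpa using pow_eq_pow_of_modEq this hd1

namespace Datum

variable {E : Type} [Field E] (D : Datum E)

/-- `V` is a union of finite sets closed under translation and inversion. -/
def LocSub (V : Set (E × E)) : Prop :=
  (∀ p ∈ V, D.On p) ∧ (∃ p ∈ V, p ≠ (0, 0)) ∧
  ∀ p ∈ V, ∀ q ∈ V, ∃ W ⊆ V, W.Finite ∧ p ∈ W ∧ q ∈ W ∧ (0, 0) ∈ W ∧
    (∀ u ∈ W, ∀ v ∈ W, D.add u v ∈ W) ∧ ∀ u ∈ W, u ≠ (0, 0) → D.inv u ∈ W

variable {D}

theorem sub_suz (hs : D.suz = true) {V : Set (E × E)} (h : D.LocSub V) :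
    ∃ F : Subfield E, (∀ x ∈ F, D.θ x ∈ F) ∧ (∀ x ∈ F, ∃ n, 0 < n ∧ x ^ 2 ^ n = x) ∧
      ∀ p, p ∈ V ↔ p.1 ∈ F ∧ p.2 ∈ F := by
  obtain ⟨-, ⟨p₀, hp₀, hp0⟩, hloc⟩ := h
  have h2 := D.two
  have hsq : ∀ x, D.θ (D.θ x) = x ^ 2 := fun x => by simpa [hs] using D.sq x
  have hθ : ∀ x : E, x ≠ 0 → D.θ x ≠ 0 := fun x hx => (map_ne_zero D.θ).2 hx
  have e1 : ∀ u : E × E, D.add u u = (0, D.θ u.1 * u.1) := fun u =>
    Prod.ext (D.add_self _) (by simp [add, D.add_self])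
  have e2 : ∀ a b : E, D.add (0, a) (0, b) = (0, a + b) := fun a b => by simp [add]
  have e3 : ∀ b : E, D.inv (0, b) = (b / D.θ b, 0) := fun b => by simp [inv, nrm, hs]
  have e4 : ∀ b : E, b ≠ 0 → D.θ (b / D.θ b) * (b / D.θ b) = b⁻¹ := fun b hb => by
    have := hθ b hb
    rw [map_div₀, hsq]
    field_simp
  have hadd : ∀ u ∈ V, ∀ v ∈ V, D.add u v ∈ V := fun u hu v hv => by
    obtain ⟨W, hWV, -, h1, h3, -, h4, -⟩ := hloc u hu v hv
    exact hWV (h4 u h1 v h3)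
  have hinv : ∀ u ∈ V, u ≠ (0, 0) → D.inv u ∈ V := fun u hu h0 => by
    obtain ⟨W, hWV, -, h1, -, -, -, h5⟩ := hloc u hu u hu
    exact hWV (h5 u h1 h0)
  obtain ⟨F, hF, halg⟩ := hua_field h2 {b | (0, b) ∈ V} (by
    by_cases e : p₀.1 = 0
    · refine ⟨p₀.2, ?_, fun e' => hp0 (Prod.ext e e')⟩
      show (0, p₀.2) ∈ V
      rwa [← e]
    · refine ⟨D.θ p₀.1 * p₀.1, ?_, mul_ne_zero (hθ _ e) e⟩
      show (0, _) ∈ V
      rw [← e1]
      exact hadd _ hp₀ _ hp₀) (by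
    intro a ha b hb
    obtain ⟨W, hWV, hW, h1, h3, h0, h4, h5⟩ := hloc _ ha _ hb
    refine ⟨{b | (0, b) ∈ W}, fun x hx => hWV hx,
      hW.preimage (f := fun b : E => ((0 : E), b)) fun x _ y _ e => (Prod.ext_iff.1 e).2,
      h1, h3, fun x hx y hy => ?_, fun x hx => ?_⟩
    · show (0, x + y) ∈ W
      rw [← e2]
      exact h4 _ hx _ hy
    · show (0, x⁻¹) ∈ W
      by_cases e : x = 0
      · simpa [e] using h0
      have h6 := h5 _ hx fun e' => e (Prod.ext_iff.1 e').2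
      have h7 := h4 _ h6 _ h6
      rwa [e3, e1, e4 x e] at h7)
  have hF' : ∀ x, x ∈ F ↔ (0, x) ∈ V := hF
  have k0 : ∀ b ∈ F, (b / D.θ b, 0) ∈ V := fun b hb => by
    by_cases e : b = 0
    · simpa [e] using (hF' 0).1 F.zero_mem
    rw [← e3]
    exact hinv _ ((hF' b).1 hb) fun e' => e (Prod.ext_iff.1 e').2
  have k1 : ∀ u ∈ V, D.θ u.1 * u.1 ∈ F := fun u hu => by
    rw [hF', ← e1]
    exact hadd _ hu _ hu
  have k2 : ∀ u ∈ V, ∃ b ∈ F, u.1 = b / D.θ b := fun u hu => by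
    refine ⟨_, F.inv_mem (k1 u hu), ?_⟩
    by_cases e : u.1 = 0
    · simp [e]
    have := hθ _ e
    rw [map_inv₀, map_mul, hsq]
    field_simp
  have k3 : ∀ a b b' : E, (a, b) ∈ V → (a, b') ∈ V → b + b' ∈ F := fun a b b' hb hb' => by
    have h1 := hadd _ hb _ hb'
    have h3 : D.add (a, b) (a, b') = (0, b + b' + D.θ a * a) := Prod.ext (D.add_self _) rfl
    rw [h3, ← hF'] at h1
    simpa using F.sub_mem h1 (k1 _ hb)
  let A : Set E := {a | ∃ b ∈ F, a = b / D.θ b}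
  have a0 : ∀ a ∈ A, (a, 0) ∈ V := by
    rintro _ ⟨b, hb, rfl⟩
    exact k0 b hb
  have a1 : (1 : E) ∈ A := ⟨1, F.one_mem, by simp⟩
  have a2 : ∀ a ∈ A, ∀ a' ∈ A, a + a' ∈ A := fun a ha a' ha' =>
    k2 _ (hadd _ (a0 a ha) _ (a0 a' ha'))
  have a3 : ∀ a ∈ A, ∀ a' ∈ A, a * a' ∈ A := by
    rintro _ ⟨b, hb, rfl⟩ _ ⟨b', hb', rfl⟩
    exact ⟨b * b', F.mul_mem hb hb', by rw [map_mul, div_mul_div_comm]⟩
  have a4 : ∀ a ∈ A, a⁻¹ ∈ A := by
    rintro _ ⟨b, hb, rfl⟩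
    exact ⟨b⁻¹, F.inv_mem hb, by rw [map_inv₀, inv_div_inv, inv_div]⟩
  have a5 : ∀ b ∈ F, b ∈ A := fun b hb => by
    by_cases e : b = 0
    · exact ⟨0, F.zero_mem, by simp [e]⟩
    by_cases e' : b + 1 = 0
    · have : b = 1 := by linear_combination e' - h2
      exact this ▸ a1
    have hx : b / D.θ b ∈ A := ⟨b, hb, rfl⟩
    have hy : (b + 1) / D.θ (b + 1) ∈ A := ⟨b + 1, F.add_mem hb F.one_mem, rfl⟩
    have t1 := hθ _ e
    have t2 := hθ _ e'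
    rw [map_add, map_one] at t2 hy
    have t3 : b + D.θ b ≠ 0 := fun t => by
      have t4 : D.θ b = b := by linear_combination t - b * h2
      have t5 := hsq b
      rw [t4, t4] at t5
      apply mul_ne_zero e e'
      linear_combination -t5 + b * h2
    have t6 : b / D.θ b + (b + 1) / (D.θ b + 1) = (b + D.θ b) / (D.θ b * (D.θ b + 1)) := by
      field_simp
      linear_combination (b * D.θ b) * h2
    have t7 : (b + 1) / (D.θ b + 1) + 1 = (b + D.θ b) / (D.θ b + 1) := by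
      field_simp
      linear_combination h2
    have := a3 _ hx _ (a3 _ (a2 _ hy _ a1) _ (a4 _ (a2 _ hx _ hy)))
    rw [t6, t7] at this
    have t8 : b / D.θ b * ((b + D.θ b) / (D.θ b + 1) *
        ((b + D.θ b) / (D.θ b * (D.θ b + 1)))⁻¹) = b := by
      field_simp
    rwa [t8] at this
  have a6 : ∀ a ∈ A, D.θ a ∈ A := fun a ha => by
    have h1 := hadd _ (a0 a ha) _ (a0 1 a1)
    have h3 := hadd _ (a0 1 a1) _ (a0 a ha)
    have h4 : D.add (a, 0) (1, 0) = (a + 1, D.θ a) := by simp [add]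
    have h5 : D.add (1, 0) (a, 0) = (a + 1, a) := by simp [add, add_comm]
    rw [h4] at h1
    rw [h5] at h3
    have := a2 _ (a5 _ (k3 _ _ _ h1 h3)) _ ha
    rwa [add_assoc, D.add_self, add_zero] at this
  have a7 : ∀ a ∈ A, a ∈ F := fun a ha => by
    by_cases e : a = 0
    · exact e ▸ F.zero_mem
    have := k1 _ (a0 _ (a3 _ (a6 a ha) _ (a4 a ha)))
    have t1 := hθ _ e
    have t2 : D.θ (D.θ a * a⁻¹) * (D.θ a * a⁻¹) = a := by
      rw [map_mul, map_inv₀, hsq]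
      field_simp
    rwa [t2] at this
  refine ⟨F, fun x hx => a7 _ (a6 _ (a5 x hx)), halg, fun p => ⟨fun hp => ?_, fun hp => ?_⟩⟩
  · have h1 : p.1 ∈ A := k2 p hp
    exact ⟨a7 _ h1, by simpa using k3 p.1 p.2 0 hp (a0 _ h1)⟩
  · have := hadd _ ((hF' _).1 hp.2) _ (a0 _ (a5 _ hp.1))
    simpa [add] using this

end Datum

end Pool.Agent.Lib.MP_a7ce8b_al
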