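import Pool.Agent.Lib.MP_a7ce8b_al.C.Sub

/-! Sub-structures in the linear and unitary case. -/

namespace Pool.Agent.Lib.MP_a7ce8b_al

open Equiv MulAction

theorem subU_iter {E : Type} [Field E] {x : E} {n : ℕ} (h : x ^ 2 ^ n = x) (k : ℕ) :
    x ^ 2 ^ (n * k) = x := by
  induction k with
  | zero => simp
  | succ k ih => rw [Nat.mul_succ, pow_add, pow_mul, ih, h]

/-- The quadratic extension of `F` generated by a root of `X ^ 2 + s X + n`. -/
def subU_ext {E : Type} [Field E] (h2 : (2 : E) = 0) (θ : E →+* E) (F : Subfield E)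
    (hF : ∀ x ∈ F, θ x = x) (b : E) (hs : b + θ b ∈ F) (hn : b * θ b ∈ F) : Subfield E where
  carrier := {z | ∃ x ∈ F, ∃ y ∈ F, z = x + y * b}
  mul_mem' := by
    rintro _ _ ⟨x, hx, y, hy, rfl⟩ ⟨x', hx', y', hy', rfl⟩
    exact ⟨x * x' - y * y' * (b * θ b), sub_mem (mul_mem hx hx') (mul_mem (mul_mem hy hy') hn),
      x * y' + x' * y + y * y' * (b + θ b),
      add_mem (add_mem (mul_mem hx hy') (mul_mem hx' hy)) (mul_mem (mul_mem hy hy') hs), by ring⟩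
  one_mem' := ⟨1, one_mem _, 0, zero_mem _, by ring⟩
  add_mem' := by
    rintro _ _ ⟨x, hx, y, hy, rfl⟩ ⟨x', hx', y', hy', rfl⟩
    exact ⟨x + x', add_mem hx hx', y + y', add_mem hy hy', by ring⟩
  zero_mem' := ⟨0, zero_mem _, 0, zero_mem _, by ring⟩
  neg_mem' := by
    rintro _ ⟨x, hx, y, hy, rfl⟩
    exact ⟨-x, neg_mem hx, -y, neg_mem hy, by ring⟩
  inv_mem' := by
    rintro _ ⟨x, hx, y, hy, rfl⟩
    have hN : (x + y * b) * θ (x + y * b) ∈ F := by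
      rw [map_add, map_mul, hF x hx, hF y hy, show (x + y * b) * (x + y * θ b) =
        x * x + x * y * (b + θ b) + y * y * (b * θ b) by ring]
      exact add_mem (add_mem (mul_mem hx hx) (mul_mem (mul_mem hx hy) hs))
        (mul_mem (mul_mem hy hy) hn)
    refine ⟨(x + y * (b + θ b)) / ((x + y * b) * θ (x + y * b)),
      div_mem (add_mem hx (mul_mem hy hs)) hN, y / ((x + y * b) * θ (x + y * b)),
      div_mem hy hN, ?_⟩
    by_cases h0 : x + y * b = 0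
    · simp [h0]
    · have h1 := (map_ne_zero θ).2 h0
      rw [div_mul_eq_mul_div, ← add_div, eq_div_iff (mul_ne_zero h0 h1), inv_mul_cancel_left₀ h0,
        map_add, map_mul, hF x hx, hF y hy]
      linear_combination (-(y * b)) * h2

namespace Datum

variable {E : Type} [Field E] {D : Datum E}

theorem subU_sq (hs : D.suz = false) (x : E) : D.θ (D.θ x) = x := by
  rw [D.sq, hs]; rfl

theorem subU_on (hs : D.suz = false) {a b : E} : D.On (a, b) ↔ a * D.θ a = b + D.θ b := by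
  rw [On, hs]; simp

theorem subU_alg (hs : D.suz = false) {z : E} (h1 : ∃ n, 0 < n ∧ (z + D.θ z) ^ 2 ^ n = z + D.θ z)
    (h2 : ∃ n, 0 < n ∧ (z * D.θ z) ^ 2 ^ n = z * D.θ z) : ∃ n, 0 < n ∧ z ^ 2 ^ n = z := by
  obtain ⟨n, n0, hn⟩ := h1
  obtain ⟨m, m0, hm⟩ := h2
  have : CharP E 2 := CharTwo.of_one_ne_zero_of_two_eq_zero one_ne_zero D.two
  have e1 := subU_iter hn m
  have e2 := subU_iter hm n
  rw [mul_comm m n, mul_pow] at e2
  rw [add_pow_char_pow] at e1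
  have e3 : (z ^ 2 ^ (n * m) - z) * (z ^ 2 ^ (n * m) - D.θ z) = 0 := by
    linear_combination z ^ 2 ^ (n * m) * e1 - e2
  refine ⟨n * m + n * m, by positivity, ?_⟩
  rw [pow_add, pow_mul]
  rcases mul_eq_zero.1 e3 with e | e
  · rw [sub_eq_zero.1 e, sub_eq_zero.1 e]
  · rw [sub_eq_zero.1 e, ← map_pow, sub_eq_zero.1 e, subU_sq hs]

theorem LocSub.subU_zero {V : Set (E × E)} (h : D.LocSub V) : (0, 0) ∈ V := by
  obtain ⟨p, hp, -⟩ := h.2.1
  obtain ⟨W, h1, -, -, -, h2, -⟩ := h.2.2 p hp p hp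
  exact h1 h2

theorem LocSub.subU_add {V : Set (E × E)} (h : D.LocSub V) {a b a' b' : E} (hp : (a, b) ∈ V)
    (hq : (a', b') ∈ V) : (a + a', b + b' + D.θ a * a') ∈ V := by
  obtain ⟨W, h1, -, h2, h3, -, h4, -⟩ := h.2.2 _ hp _ hq
  exact h1 (h4 _ h2 _ h3)

theorem LocSub.subU_inv (hs : D.suz = false) {V : Set (E × E)} (h : D.LocSub V) {a b : E}
    (hp : (a, b) ∈ V) (h0 : a ≠ 0) : b ≠ 0 ∧ (a / b, 1 / b) ∈ V := by
  obtain ⟨W, h1, -, h2, -, -, -, h4⟩ := h.2.2 _ hp _ hp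
  have h5 : (a, b) ≠ (0, 0) := fun e => h0 (congrArg Prod.fst e)
  have := h1 (h4 _ h2 h5)
  rw [inv, hs] at this
  exact ⟨D.snd_ne_zero hs (h.1 _ hp) h5, this⟩

theorem LocSub.subU_nrm {V : Set (E × E)} (h : D.LocSub V) {a b : E} (hp : (a, b) ∈ V) :
    (0, a * D.θ a) ∈ V := by
  have := h.subU_add hp hp
  rwa [D.add_self, D.add_self, zero_add, mul_comm] at this

theorem LocSub.subU_tr {V : Set (E × E)} (h : D.LocSub V) {a b f : E} (hp : (a, b) ∈ V)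
    (hf : (0, f) ∈ V) : (a, b + f) ∈ V := by
  have := h.subU_add hp hf
  rwa [add_zero, mul_zero, add_zero] at this

theorem LocSub.subU_field (hs : D.suz = false) {V : Set (E × E)} (h : D.LocSub V) :
    ∃ F : Subfield E, (∀ x, x ∈ F ↔ (0, x) ∈ V) ∧ ∀ x ∈ F, ∃ n, 0 < n ∧ x ^ 2 ^ n = x := by
  refine hua_field D.two {x | (0, x) ∈ V} ?_ fun a ha b hb => ?_
  · obtain ⟨⟨a, b⟩, hp, h0⟩ := h.2.1
    by_cases e : a = 0
    · subst e
      exact ⟨b, hp, fun e => h0 (by rw [e])⟩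
    · exact ⟨_, h.subU_nrm hp, mul_ne_zero e ((map_ne_zero _).2 e)⟩
  · obtain ⟨W, h1, h2, h3, h4, -, h5, h6⟩ := h.2.2 _ ha _ hb
    refine ⟨{x | (0, x) ∈ W}, fun x hx => h1 hx,
      h2.preimage (f := fun x => ((0 : E), x)) fun _ _ _ _ e => congrArg Prod.snd e, h3, h4,
      fun x hx y hy => ?_, fun x hx => ?_⟩
    · simpa [add] using h5 _ hx _ hy
    · by_cases e : x = 0
      · subst e
        rwa [inv_zero]
      · simpa [inv, hs] using h6 _ hx fun e' => e (congrArg Prod.snd e')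

theorem LocSub.subU_scale (hs : D.suz = false) {V : Set (E × E)} (h : D.LocSub V) {a b f : E}
    (hp : (a, b) ∈ V) (hf : (0, f) ∈ V) (hf' : (0, f⁻¹) ∈ V) : ∃ b', (f * a, b') ∈ V := by
  by_cases e : f * a = 0
  · exact ⟨0, e ▸ h.subU_zero⟩
  have f0 := left_ne_zero_of_mul e
  have a0 := right_ne_zero_of_mul e
  have b0 := (h.subU_inv hs hp a0).1
  obtain ⟨c1, p1⟩ := h.subU_inv hs (h.subU_tr hp hf') a0
  obtain ⟨c2, p2⟩ := h.subU_inv hs (h.subU_tr p1 hf) (div_ne_zero a0 c1)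
  obtain ⟨c3, p3⟩ := h.subU_inv hs (h.subU_tr p2 hf') (div_ne_zero (div_ne_zero a0 c1) c2)
  have e1 : 1 / (b + f⁻¹) + f = f * b / (b + f⁻¹) := by
    rw [eq_div_iff c1, add_mul, one_div, inv_mul_cancel₀ c1, mul_add, mul_inv_cancel₀ f0]
    linear_combination D.two
  have e2 : 1 / (f * b / (b + f⁻¹)) + f⁻¹ = 1 / (f * f * b) := by
    rw [one_div_div]
    field_simp
    linear_combination b * f * D.two
  rw [e1, e2, show a / (b + f⁻¹) / (f * b / (b + f⁻¹)) / (1 / (f * f * b)) = f * a by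
    rw [div_div_div_cancel_right₀ c1]; field_simp] at p3
  exact ⟨_, p3⟩

theorem sub_uni (hs : D.suz = false) {V : Set (E × E)} (h : D.LocSub V) :
    ∃ (F : Subfield E) (e : E), e * D.θ e = 1 ∧ (∀ x ∈ F, D.θ x ∈ F) ∧
      (∀ x ∈ F, ∃ n, 0 < n ∧ x ^ 2 ^ n = x) ∧
      ∀ p, p ∈ V ↔ D.On p ∧ e * p.1 ∈ F ∧ p.2 ∈ F := by
  obtain ⟨F0, hF, halg⟩ := h.subU_field hs
  have h2 := D.two
  have hθ : ∀ x ∈ F0, D.θ x = x := fun x hx => by
    have := (subU_on hs).1 (h.1 _ ((hF x).1 hx))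
    linear_combination -this - x * h2
  by_cases h0 : ∀ p ∈ V, p.1 = 0
  · refine ⟨F0, 1, by simp, fun x hx => (hθ x hx).symm ▸ hx, halg, fun ⟨a, b⟩ =>
      ⟨fun hp => ?_, fun ⟨h1, h3, h4⟩ => ?_⟩⟩
    · obtain rfl : a = 0 := h0 _ hp
      exact ⟨h.1 _ hp, by simp, (hF b).2 hp⟩
    · rw [one_mul] at h3
      rw [subU_on hs, hθ a h3, hθ b h4, D.add_self, mul_self_eq_zero] at h1
      subst h1
      exact (hF b).1 h4
  push Not at h0
  obtain ⟨⟨a0, b0⟩, p0, ha0⟩ := h0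
  change a0 ≠ 0 at ha0
  have ta0 := (map_ne_zero D.θ).2 ha0
  obtain ⟨hb0, q0⟩ := h.subU_inv hs p0 ha0
  have tb0 := (map_ne_zero D.θ).2 hb0
  have on0 := (subU_on hs).1 (h.1 _ p0)
  have hN : ∀ {a b}, (a, b) ∈ V → a * D.θ a ∈ F0 := fun hp => (hF _).2 (h.subU_nrm hp)
  have hT : ∀ {a b a' b'}, (a, b) ∈ V → (a', b') ∈ V → a * D.θ a' + a' * D.θ a ∈ F0 :=
    fun {a b a' b'} hp hq => by
      have := sub_mem (sub_mem (hN (h.subU_add hp hq)) (hN hp)) (hN hq)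
      rwa [map_add, show (a + a') * (D.θ a + D.θ a') - a * D.θ a - a' * D.θ a' =
        a * D.θ a' + a' * D.θ a by ring] at this
  have s0 : b0 + D.θ b0 ∈ F0 := on0 ▸ hN p0
  have s1 : b0 + D.θ b0 ≠ 0 := on0 ▸ mul_ne_zero ha0 ta0
  have n0 : b0 * D.θ b0 ∈ F0 := by
    have := div_mem (hN p0) (hN q0)
    rwa [map_div₀, show a0 * D.θ a0 / (a0 / b0 * (D.θ a0 / D.θ b0)) = b0 * D.θ b0 by
      field_simp] at this
  let F := subU_ext h2 D.θ F0 hθ b0 s0 n0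
  have hle : ∀ x ∈ F0, x ∈ F := fun x hx => ⟨x, hx, 0, zero_mem _, by ring⟩
  have hA : ∀ {a b}, (a, b) ∈ V → a / a0 ∈ F := fun {a b} hp => by
    have e1 := div_mem (div_mem (hT hp p0) (hN p0)) s0
    have e2 := div_mem (mul_mem (div_mem (hT hp q0) (hN p0)) n0) s0
    refine ⟨_, sub_mem e2 (mul_mem e1 s0), _, e1, ?_⟩
    rw [map_div₀]
    field_simp
    linear_combination (D.θ b0 * a * D.θ a0) * h2
  have hsc : ∀ {a b f}, (a, b) ∈ V → f ∈ F0 → ∃ b', (f * a, b') ∈ V := fun hp hf =>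
    h.subU_scale hs hp ((hF _).1 hf) ((hF _).1 (inv_mem hf))
  have hA' : ∀ z ∈ F, ∃ b, (z * a0, b) ∈ V := by
    rintro _ ⟨x, hx, y, hy, rfl⟩
    obtain ⟨_, e1⟩ := hsc p0 (add_mem hx (mul_mem hy s0))
    obtain ⟨_, e2⟩ := hsc q0 (neg_mem (mul_mem hy n0))
    have := h.subU_add e1 e2
    rw [show (x + y * (b0 + D.θ b0)) * a0 + -(y * (b0 * D.θ b0)) * (a0 / b0) = (x + y * b0) * a0 by
      field_simp; ring] at this
    exact ⟨_, this⟩
  have hB : ∀ {a b}, (a, b) ∈ V → b ∈ F := fun {a b} hp => by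
    by_cases e : a = 0
    · subst e
      exact hle _ ((hF b).2 hp)
    · obtain ⟨c1, c2⟩ := h.subU_inv hs hp e
      have := div_mem (hA hp) (hA c2)
      rwa [show a / a0 / (a / b / a0) = b by field_simp] at this
  obtain ⟨m, m0, hm⟩ := halg _ (hN p0)
  obtain ⟨m, rfl⟩ := Nat.exists_eq_add_one_of_ne_zero m0.ne'
  rw [pow_succ, pow_mul] at hm
  have g1 := pow_mem (hN p0) (2 ^ m)
  have g0 := pow_ne_zero (2 ^ m) (mul_ne_zero ha0 ta0)
  generalize (a0 * D.θ a0) ^ 2 ^ m = g at hm g1 g0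
  refine ⟨F, g / a0, ?_, ?_, ?_, fun ⟨a, b⟩ => ⟨fun hp => ⟨h.1 _ hp, ?_, hB hp⟩,
    fun ⟨h1, h3, h4⟩ => ?_⟩⟩
  · rw [map_div₀, hθ g g1, div_mul_div_comm, ← pow_two, hm, div_self (mul_ne_zero ha0 ta0)]
  · rintro _ ⟨x, hx, y, hy, rfl⟩
    exact ⟨_, add_mem hx (mul_mem hy s0), _, neg_mem hy, by
      rw [map_add, map_mul, hθ x hx, hθ y hy]; ring⟩
  · rintro _ ⟨x, hx, y, hy, rfl⟩
    refine subU_alg hs (halg _ ?_) (halg _ ?_)
    · rw [map_add, map_mul, hθ x hx, hθ y hy, show x + y * b0 + (x + y * D.θ b0) =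
        x + x + y * (b0 + D.θ b0) by ring]
      exact add_mem (add_mem hx hx) (mul_mem hy s0)
    · rw [map_add, map_mul, hθ x hx, hθ y hy, show (x + y * b0) * (x + y * D.θ b0) =
        x * x + x * y * (b0 + D.θ b0) + y * y * (b0 * D.θ b0) by ring]
      exact add_mem (add_mem (mul_mem hx hx) (mul_mem (mul_mem hx hy) s0))
        (mul_mem (mul_mem hy hy) n0)
  · rw [div_mul_eq_mul_div, mul_div_assoc]
    exact mul_mem (hle g g1) (hA hp)
  · obtain ⟨b', hp⟩ := hA' _ (div_mem h3 (hle g g1))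
    rw [show g / a0 * (a, b).1 / g * a0 = a by field_simp] at hp
    obtain ⟨x, hx, y, hy, e⟩ := sub_mem h4 (hB hp)
    change b - b' = _ at e
    have e1 := congrArg D.θ e
    rw [map_sub, map_add, map_mul, hθ x hx, hθ y hy] at e1
    have e2 := (subU_on hs).1 h1
    have e3 := (subU_on hs).1 (h.1 _ hp)
    have e4 : y * (b0 + D.θ b0) = 0 := by
      linear_combination -e - e1 - e2 + e3 - x * h2
    rw [(mul_eq_zero.1 e4).resolve_right s1, zero_mul, add_zero] at e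
    have := h.subU_tr hp ((hF x).1 hx)
    rwa [← e, add_sub_cancel] at this

end Datum

end Pool.Agent.Lib.MP_a7ce8b_al
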