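import Pool.Agent.Lib.MP_a7ce8b_al.C.Base

/-! Basic calculus of wreath product elements and of 2-elements. -/

namespace Pool.Agent.Lib.MP_a7ce8b_al

open Equiv MulAction

section Two
variable {G : Type*} [Group G]

theorem twoEl_of_sq {g : G} (h : g * g = 1) : TwoEl g := ⟨1, by rw [pow_one, pow_two, h]⟩

theorem twoEl_one : TwoEl (1 : G) := ⟨0, by simp⟩

theorem TwoEl.map {G' : Type*} [Group G'] (f : G →* G') {g : G} (h : TwoEl g) : TwoEl (f g) := by
  obtain ⟨m, hm⟩ := h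
  exact ⟨m, by rw [← map_pow, hm, map_one]⟩

theorem TwoEl.conj {g : G} (h : TwoEl g) (a : G) : TwoEl (a * g * a⁻¹) :=
  h.map (MulAut.conj a).toMonoidHom

theorem TwoEl.inv {g : G} (h : TwoEl g) : TwoEl g⁻¹ := by
  obtain ⟨m, hm⟩ := h
  exact ⟨m, by rw [inv_pow, hm, inv_one]⟩

theorem TwoEl.pow {g : G} (h : TwoEl g) (n : ℕ) : TwoEl (g ^ n) := by
  obtain ⟨m, hm⟩ := h
  exact ⟨m, by rw [← pow_mul, mul_comm, pow_mul, hm, one_pow]⟩

theorem isPGroup_iff_twoEl {Q : Subgroup G} : IsPGroup 2 Q ↔ ∀ g ∈ Q, TwoEl g := by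
  constructor
  · intro h g hg
    obtain ⟨m, hm⟩ := h ⟨g, hg⟩
    exact ⟨m, congrArg Subtype.val hm⟩
  · intro h g
    obtain ⟨m, hm⟩ := h g.1 g.2
    exact ⟨m, Subtype.ext hm⟩

theorem TwoEl.isPGroup_zpowers {g : G} (h : TwoEl g) : IsPGroup 2 (Subgroup.zpowers g) := by
  refine isPGroup_iff_twoEl.2 ?_
  rintro _ ⟨n, rfl⟩
  obtain ⟨m, hm⟩ := h
  exact ⟨m, by
    show (g ^ n) ^ 2 ^ m = 1
    rw [← zpow_natCast, ← zpow_mul, mul_comm, zpow_mul, zpow_natCast, hm, one_zpow]⟩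

theorem TwoEl.exists_invol {g : G} (h : TwoEl g) (h1 : g ≠ 1) :
    ∃ m : ℕ, g ^ m ≠ 1 ∧ g ^ m * g ^ m = 1 := by
  obtain ⟨m, hm⟩ := h
  induction m with
  | zero => exact absurd (by simpa using hm) h1
  | succ m ih =>
    by_cases e : g ^ 2 ^ m = 1
    · exact ih e
    · exact ⟨2 ^ m, e, by rw [← pow_add, ← two_mul, ← pow_succ', hm]⟩

theorem TwoEl.exists_pow_odd {g : G} (h : TwoEl g) {m : ℕ} (hm : Odd m) :
    ∃ n : ℕ, (g ^ m) ^ n = g := by
  obtain ⟨k, hk⟩ := h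
  have hc : Nat.Coprime m (orderOf g) :=
    Nat.Coprime.coprime_dvd_right (orderOf_dvd_of_pow_eq_one hk)
      (Nat.Coprime.pow_right _ (Nat.coprime_two_right.2 hm))
  exact exists_pow_eq_self_of_coprime hc

theorem exists_odd_twoEl {g : G} (h : IsOfFinOrder g) : ∃ m : ℕ, Odd m ∧ TwoEl (g ^ m) := by
  obtain ⟨k, m, hm, e⟩ := Nat.exists_eq_two_pow_mul_odd h.orderOf_pos.ne'
  exact ⟨m, hm, k, by rw [← pow_mul, mul_comm, ← e, pow_orderOf_eq_one]⟩

theorem IsLocallyFinite.isOfFinOrder (h : IsLocallyFinite G) (g : G) : IsOfFinOrder g := by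
  have := h.finite_closure (Set.finite_singleton g)
  have h1 := isOfFinOrder_of_finite
    (⟨g, Subgroup.subset_closure rfl⟩ : Subgroup.closure ({g} : Set G))
  exact (Subgroup.subtype _).isOfFinOrder h1

theorem dihedral_inv {x y : G} (hx : x * x = 1) (hy : y * y = 1) (m : ℕ) :
    x * (x * y) ^ m = ((x * y) ^ m)⁻¹ * x ∧ y * (x * y) ^ m = ((x * y) ^ m)⁻¹ * y := by
  have hx' : x⁻¹ = x := inv_eq_of_mul_eq_one_right hx
  have hy' : y⁻¹ = y := inv_eq_of_mul_eq_one_right hy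
  have h1 : x * (x * y) * x⁻¹ = (x * y)⁻¹ := by
    rw [← mul_assoc, hx, one_mul, mul_inv_rev, hy']
  have h2 : y * (x * y) * y⁻¹ = (x * y)⁻¹ := by
    rw [mul_assoc, mul_inv_cancel_right, mul_inv_rev, hx', hy']
  constructor
  · rw [← inv_pow, ← h1, conj_pow, inv_mul_cancel_right]
  · rw [← inv_pow, ← h2, conj_pow, inv_mul_cancel_right]

theorem dihedral_odd {x y : G} (hx : x * x = 1) (hy : y * y = 1) (h : Odd (orderOf (x * y))) :
    ∃ m : ℕ, (x * y) ^ m * y * ((x * y) ^ m)⁻¹ = x := by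
  obtain ⟨k, hk⟩ := h
  refine ⟨k + 1, ?_⟩
  have h1 := (dihedral_inv hx hy (k + 1)).2
  have h2 : y * ((x * y) ^ (k + 1))⁻¹ = (x * y) ^ (k + 1) * y := by
    rw [mul_inv_eq_iff_eq_mul, mul_assoc, h1, mul_inv_cancel_left]
  rw [mul_assoc, h2, ← mul_assoc, ← pow_add, show k + 1 + (k + 1) = 2 * k + 1 + 1 by ring,
    pow_succ, ← hk, pow_orderOf_eq_one, one_mul, mul_assoc, hy, mul_one]

theorem dihedral_even {x y : G} (hx : x * x = 1) (hy : y * y = 1) (hf : IsOfFinOrder (x * y))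
    (h : Even (orderOf (x * y))) :
    ∃ m : ℕ, (x * y) ^ m ≠ 1 ∧ (x * y) ^ m * (x * y) ^ m = 1 ∧
      (x * y) ^ m * x = x * (x * y) ^ m ∧ (x * y) ^ m * y = y * (x * y) ^ m := by
  obtain ⟨k, hk⟩ := h
  have hp := hf.orderOf_pos
  have h1 : (x * y) ^ k * (x * y) ^ k = 1 := by rw [← pow_add, ← hk, pow_orderOf_eq_one]
  have h2 : ((x * y) ^ k)⁻¹ = (x * y) ^ k := inv_eq_of_mul_eq_one_right h1
  obtain ⟨h3, h4⟩ := dihedral_inv hx hy k
  rw [h2] at h3 h4
  exact ⟨k, pow_ne_one_of_lt_orderOf (by omega) (by omega), h1, h3.symm, h4.symm⟩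

/-- An ultrafilter indexed family of finite subgroups which exhausts `G`. -/
theorem IsLocallyFinite.exists_family (h : IsLocallyFinite G) (P : Subgroup G) [Finite P] :
    ∃ (U : Ultrafilter (Finset G)) (H : Finset G → Subgroup G), (∀ i, Finite (H i)) ∧
      (∀ i, P ≤ H i) ∧ ∀ g, ∀ᶠ i in U, g ∈ H i := by
  classical
  refine ⟨Ultrafilter.of Filter.atTop, fun s => P ⊔ Subgroup.closure (s : Set G),
    fun s => h.finite_sup P s.finite_toSet, fun _ => le_sup_left, fun g => ?_⟩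
  refine Filter.Eventually.filter_mono (Ultrafilter.of_le _) ?_
  filter_upwards [Filter.eventually_ge_atTop {g}] with s hs
  exact Subgroup.mem_sup_right (Subgroup.subset_closure (hs (Finset.mem_singleton_self g)))

/-- A finite subgroup is eventually contained in the members of an exhausting family. -/
theorem eventually_le {I : Type*} {U : Filter I} {H : I → Subgroup G}
    (hH : ∀ g, ∀ᶠ i in U, g ∈ H i) (Q : Subgroup G) [Finite Q] : ∀ᶠ i in U, Q ≤ H i :=
  (Filter.eventually_all_finite (Set.toFinite (Q : Set G))).2 fun g _ => hH g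

end Two

variable {ι Γ : Type} {y y' : Perm (ι → Γ)} {σ σ' : Perm ι} {a a' : ι → Perm Γ}

theorem Acts.mul (h : Acts y σ a) (h' : Acts y' σ' a') :
    Acts (y * y') (σ * σ') fun j => a (σ' j) * a' j := fun x j => by
  simp only [Perm.mul_apply, h (y' x) (σ' j), h' x j]

theorem Acts.inv (h : Acts y σ a) : Acts y⁻¹ σ⁻¹ fun j => (a (σ⁻¹ j))⁻¹ := fun x j => by
  have := h (y⁻¹ x) (σ⁻¹ j)
  simp only [Perm.coe_inv, apply_symm_apply] at this
  rw [Perm.eq_inv_iff_eq]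
  exact this.symm

theorem acts_base (l : ι → Perm Γ) : Acts (base l) 1 l := fun _ _ => rfl

theorem Acts.eq_base (h : Acts y 1 a) : y = base a := by
  ext x j
  exact h x j

theorem base_mul (l l' : ι → Perm Γ) : base (l * l') = base l * base l' := rfl

theorem base_one : base (1 : ι → Perm Γ) = 1 := rfl

theorem base_inv (l : ι → Perm Γ) : base l⁻¹ = (base l)⁻¹ := rfl

/-- The base group as a homomorphism. -/
def baseHom : (ι → Perm Γ) →* Perm (ι → Γ) := MonoidHom.mk' base base_mul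

theorem Acts.unique [Nontrivial Γ] (h : Acts y σ a) (h' : Acts y σ' a') : σ = σ' ∧ a = a' := by
  classical
  obtain ⟨γ, δ, hγ⟩ := exists_pair_ne Γ
  have h1 : σ = σ' := by
    ext j
    by_contra hne
    have hj : σ'.symm (σ j) ≠ j := fun e => hne (by
      rw [Equiv.symm_apply_eq] at e
      exact e)
    have e1 := h' (Function.update (fun _ => γ) j δ) (σ'⁻¹ (σ j))
    have e2 := h' (fun _ => γ) (σ'⁻¹ (σ j))
    simp only [Perm.coe_inv, apply_symm_apply] at e1 e2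
    rw [h, Function.update_self, Function.update_of_ne hj, ← e2, h] at e1
    exact hγ ((a j).injective e1).symm
  refine ⟨h1, ?_⟩
  ext j x
  have e1 := h (fun _ => x) j
  rw [h1, h'] at e1
  exact e1.symm

theorem Acts.isW (h : Acts y σ a) : IsW y := ⟨σ, a, h⟩

theorem Acts.sg_eq [Nontrivial Γ] (h : Acts y σ a) : sg y = σ := (h.isW.acts.unique h).1

theorem Acts.cp_eq [Nontrivial Γ] (h : Acts y σ a) : cp y = a := (h.isW.acts.unique h).2

theorem IsW.apply (h : IsW y) (x : ι → Γ) (j : ι) : y x (sg y j) = cp y j (x j) := h.acts x j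

theorem isW_base (l : ι → Perm Γ) : IsW (base l) := (acts_base l).isW

theorem isW_one : IsW (1 : Perm (ι → Γ)) := isW_base 1

theorem IsW.mul (h : IsW y) (h' : IsW y') : IsW (y * y') := (h.acts.mul h'.acts).isW

theorem IsW.inv (h : IsW y) : IsW y⁻¹ := h.acts.inv.isW

theorem IsW.pow (h : IsW y) (n : ℕ) : IsW (y ^ n) := by
  induction n with
  | zero => simpa using isW_one
  | succ n ih => rw [pow_succ]; exact ih.mul h

section
variable [Nontrivial Γ]

theorem sg_base (l : ι → Perm Γ) : sg (base l) = 1 := (acts_base l).sg_eq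

theorem cp_base (l : ι → Perm Γ) : cp (base l) = l := (acts_base l).cp_eq

theorem sg_one : sg (1 : Perm (ι → Γ)) = 1 := sg_base 1

theorem cp_one : cp (1 : Perm (ι → Γ)) = 1 := cp_base 1

theorem base_injective : Function.Injective (base : (ι → Perm Γ) → Perm (ι → Γ)) :=
  fun l l' h => by rw [← cp_base l, h, cp_base]

theorem IsW.sg_mul (h : IsW y) (h' : IsW y') : sg (y * y') = sg y * sg y' :=
  (h.acts.mul h'.acts).sg_eq

theorem IsW.cp_mul (h : IsW y) (h' : IsW y') (j : ι) :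
    cp (y * y') j = cp y (sg y' j) * cp y' j := congrFun (h.acts.mul h'.acts).cp_eq j

theorem IsW.sg_inv (h : IsW y) : sg y⁻¹ = (sg y)⁻¹ := h.acts.inv.sg_eq

theorem IsW.cp_inv (h : IsW y) (j : ι) : cp y⁻¹ j = (cp y ((sg y)⁻¹ j))⁻¹ :=
  congrFun h.acts.inv.cp_eq j

end

theorem IsW.eq_base (h : IsW y) (h1 : sg y = 1) : y = base (cp y) :=
  Acts.eq_base (h1 ▸ h.acts)

/-- Conjugating a base group element. -/
theorem IsW.conj_base (h : IsW y) (l : ι → Perm Γ) :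
    y * base l * y⁻¹ =
      base fun j => cp y ((sg y)⁻¹ j) * l ((sg y)⁻¹ j) * (cp y ((sg y)⁻¹ j))⁻¹ := by
  have := (h.acts.mul (acts_base l)).mul h.acts.inv
  rw [mul_one, mul_inv_cancel] at this
  exact this.eq_base

/-- The base group element with a single non-trivial coordinate. -/
def sing [DecidableEq ι] (j : ι) (w : Perm Γ) : Perm (ι → Γ) := base (Pi.mulSingle j w)

theorem sing_apply_self [DecidableEq ι] (j : ι) (w : Perm Γ) (x : ι → Γ) :
    sing j w x j = w (x j) := by simp [sing]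

theorem sing_apply_ne [DecidableEq ι] {i j : ι} (h : i ≠ j) (w : Perm Γ) (x : ι → Γ) :
    sing j w x i = x i := by simp [sing, Pi.mulSingle_eq_of_ne h]

variable {Y : Subgroup (Perm (ι → Γ))} {L A : Subgroup (Perm Γ)}

theorem IsWr.base_mem (h : IsWr Y L A) {l : ι → Perm Γ} (hl : ∀ j, l j ∈ L) : base l ∈ Y := by
  obtain ⟨y, hy, e⟩ := h.1 l hl
  exact e.eq_base ▸ hy

theorem mulSingle_mem [DecidableEq ι] (j : ι) {w : Perm Γ} (hw : w ∈ L) (i : ι) :
    (Pi.mulSingle j w : ι → Perm Γ) i ∈ L := by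
  by_cases e : i = j
  · subst e; simpa using hw
  · simp [Pi.mulSingle_eq_of_ne e]

theorem IsWr.sing_mem [DecidableEq ι] (h : IsWr Y L A) (j : ι) {w : Perm Γ} (hw : w ∈ L) :
    sing j w ∈ Y := h.base_mem (mulSingle_mem j hw)

theorem IsWr.isW (h : IsWr Y L A) (hy : y ∈ Y) : IsW y := by
  obtain ⟨σ, a, -, e⟩ := h.2.1 y hy
  exact e.isW

theorem IsWr.cp_mem [Nontrivial Γ] (h : IsWr Y L A) (hy : y ∈ Y) (j : ι) : cp y j ∈ A := by
  obtain ⟨σ, a, ha, e⟩ := h.2.1 y hy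
  rw [e.cp_eq]
  exact ha j

theorem IsWr.sg_trans [Nontrivial Γ] (h : IsWr Y L A) (i j : ι) : ∃ y ∈ Y, sg y i = j := by
  obtain ⟨y, hy, σ, a, e, e'⟩ := h.2.2 i j
  exact ⟨y, hy, e.sg_eq ▸ e'⟩

theorem Comp.noncomm (h : Comp L A) : ∃ a b : L, a * b ≠ b * a := by
  have := h.nontriv
  obtain ⟨γ, δ, hγ⟩ := exists_pair_ne Γ
  obtain ⟨l, hl, e1, e2⟩ := h.move γ δ hγ
  obtain ⟨m, hm, e3⟩ := h.trans γ δ
  refine ⟨⟨l, hl⟩, ⟨m, hm⟩, fun e => e2 ?_⟩
  have := congrArg (fun g : L => g.1 γ) e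
  simpa [e1, e3] using this

end Pool.Agent.Lib.MP_a7ce8b_al
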